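import Pool.Agent.R744.LieSim

set_option autoImplicit false
set_option linter.unusedSectionVars false
set_option linter.style.haveILetI false

namespace Pool.Agent.R744.Lie

open scoped ContDiff InnerProductSpace Topology

section

variable {E F : Type} [NormedAddCommGroup E] [NormedSpace ℝ E] [FiniteDimensional ℝ E]
  [NormedAddCommGroup F] [NormedSpace ℝ F] [FiniteDimensional ℝ F]

theorem ContDiffOn.differentiableAt' {U : Set E} {f : E → F} (h : ContDiffOn ℝ ∞ f U)
    (hU : IsOpen U) {x : E} (hx : x ∈ U) : DifferentiableAt ℝ f x :=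
  (h.contDiffAt (hU.mem_nhds hx)).differentiableAt (by simp)

/-- A smooth map with bijective derivative at a point is a diffeomorphism near this point. -/
theorem exists_isDiffeo {U : Set E} (hU : IsOpen U) {x : E} (hx : x ∈ U) {ψ : E → F}
    (hψ : ContDiffOn ℝ ∞ ψ U) (hb : Function.Bijective (fderiv ℝ ψ x)) :
    ∃ U' ⊆ U, IsOpen U' ∧ x ∈ U' ∧ IsDiffeo U' ψ := by
  haveI := FiniteDimensional.complete ℝ E
  haveI := FiniteDimensional.complete ℝ F
  let L : E ≃L[ℝ] F := (LinearEquiv.ofBijective (fderiv ℝ ψ x).toLinearMap hb).toContinuousLinearEquiv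
  have hL : (L : E →L[ℝ] F) = fderiv ℝ ψ x := by
    ext v
    rfl
  have hc : ContDiffAt ℝ ∞ ψ x := hψ.contDiffAt (hU.mem_nhds hx)
  have hd : HasFDerivAt ψ (L : E →L[ℝ] F) x := by
    rw [hL]
    exact (hc.differentiableAt (by simp)).hasFDerivAt
  let R := hc.toOpenPartialHomeomorph ψ hd (by simp)
  have hR : x ∈ R.source := hc.mem_toOpenPartialHomeomorph_source hd (by simp)
  have hcont : ContinuousOn (fderiv ℝ ψ) U := hψ.continuousOn_fderiv_of_isOpen hU (by simp)
  have hopen : IsOpen (U ∩ fderiv ℝ ψ ⁻¹' (Set.range ((↑) : (E ≃L[ℝ] F) → E →L[ℝ] F))) :=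
    hcont.isOpen_inter_preimage hU ContinuousLinearEquiv.isOpen
  refine ⟨R.source ∩ (U ∩ fderiv ℝ ψ ⁻¹' (Set.range ((↑) : (E ≃L[ℝ] F) → E →L[ℝ] F))),
    fun y hy => hy.2.1, R.open_source.inter hopen, ⟨hR, hx, L, hL⟩, ?_, ?_, ?_⟩
  · exact hψ.mono fun y hy => hy.2.1
  · intro y hy z hz h
    exact R.injOn hy.1 hz.1 h
  · rintro u ⟨_, _, L', hL'⟩
    rw [← hL']
    exact L'.bijective

theorem fderiv_B {V : Type} [NormedAddCommGroup V] [NormedSpace ℝ V] [FiniteDimensional ℝ V]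
    (B : V →ₗ[ℝ] V →ₗ[ℝ] ℝ) {f g : E → V} {x : E} (hf : DifferentiableAt ℝ f x)
    (hg : DifferentiableAt ℝ g x) (X : E) : fderiv ℝ (fun y => B (f y) (g y)) x X =
      B (f x) (fderiv ℝ g x X) + B (fderiv ℝ f x X) (g x) := by
  have h := (LinearMap.toContinuousBilinearMap B).hasFDerivAt_of_bilinear hf.hasFDerivAt
    hg.hasFDerivAt
  have e : (fun y => B (f y) (g y)) = fun y => (LinearMap.toContinuousBilinearMap B) (f y) (g y) :=
    rfl
  rw [e, h.fderiv]
  rfl

theorem differentiableAt_B {V : Type} [NormedAddCommGroup V] [NormedSpace ℝ V]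
    [FiniteDimensional ℝ V] (B : V →ₗ[ℝ] V →ₗ[ℝ] ℝ) {f g : E → V} {x : E}
    (hf : DifferentiableAt ℝ f x) (hg : DifferentiableAt ℝ g x) :
    DifferentiableAt ℝ (fun y => B (f y) (g y)) x :=
  ((LinearMap.toContinuousBilinearMap B).hasFDerivAt_of_bilinear hf.hasFDerivAt
    hg.hasFDerivAt).differentiableAt

theorem contDiffOn_B {V : Type} [NormedAddCommGroup V] [NormedSpace ℝ V]
    [FiniteDimensional ℝ V] (B : V →ₗ[ℝ] V →ₗ[ℝ] ℝ) {f g : E → V} {U : Set E}
    (hf : ContDiffOn ℝ ∞ f U) (hg : ContDiffOn ℝ ∞ g U) :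
    ContDiffOn ℝ ∞ (fun y => B (f y) (g y)) U :=
  ((LinearMap.toContinuousBilinearMap B).isBoundedBilinearMap.contDiff.comp_contDiffOn
    (hf.prodMk hg))

theorem contDiffOn_linear {V W : Type} [NormedAddCommGroup V] [NormedSpace ℝ V]
    [FiniteDimensional ℝ V] [NormedAddCommGroup W] [NormedSpace ℝ W] (L : V →ₗ[ℝ] W)
    {f : E → V} {U : Set E} (hf : ContDiffOn ℝ ∞ f U) :
    ContDiffOn ℝ ∞ (fun y => L (f y)) U :=
  L.toContinuousLinearMap.contDiff.comp_contDiffOn hf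

theorem fderiv_linear {V W : Type} [NormedAddCommGroup V] [NormedSpace ℝ V]
    [FiniteDimensional ℝ V] [NormedAddCommGroup W] [NormedSpace ℝ W] (L : V →ₗ[ℝ] W)
    {f : E → V} {x : E} (hf : DifferentiableAt ℝ f x) (X : E) :
    fderiv ℝ (fun y => L (f y)) x X = L (fderiv ℝ f x X) := by
  have h := (L.toContinuousLinearMap.hasFDerivAt (x := f x)).comp x hf.hasFDerivAt
  have e : (fun y => L (f y)) = L.toContinuousLinearMap ∘ f := rfl
  rw [e, h.fderiv]
  rfl

end

end Pool.Agent.R744.Lie
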