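import Mathlib

/-!
Hypersurfaces with unit normals, proper Dupin hypersurfaces, Legendre lifts to the Lie quadric,
tubes, reducibility, and the models `M_0(σ_0) × M_1(σ_1) × M_2(σ_2)`.
-/

set_option autoImplicit false

namespace Pool.Agent.R744.Lie

open scoped ContDiff InnerProductSpace

/-- Euclidean space `ℝ^k`. -/
abbrev Vec (k : ℕ) : Type := EuclideanSpace ℝ (Fin k)

section General

variable {E H : Type} [NormedAddCommGroup E] [NormedSpace ℝ E]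
  [NormedAddCommGroup H] [InnerProductSpace ℝ H]

/-- `f : U → H` is a smooth immersion of the open set `U`, and `ξ` is a smooth unit normal field
along it. When `dim H = dim E + 1` this is a hypersurface of the Euclidean space `H` with a chosen
unit normal. -/
structure IsImmersedWithNormal (U : Set E) (f ξ : E → H) : Prop where
  isOpen : IsOpen U
  smooth_f : ContDiffOn ℝ ∞ f U
  smooth_ξ : ContDiffOn ℝ ∞ ξ U
  injective : ∀ u ∈ U, Function.Injective (fderiv ℝ f u)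
  unit : ∀ u ∈ U, ‖ξ u‖ = 1
  normal : ∀ u ∈ U, ∀ X, ⟪fderiv ℝ f u X, ξ u⟫_ℝ = 0

/-- `X` is a principal vector at `u` with principal curvature `κ`: `dξ(X) = -κ df(X)`. -/
def IsPrincipal (f ξ : E → H) (u : E) (κ : ℝ) (X : E) : Prop :=
  fderiv ℝ ξ u X = -(κ • fderiv ℝ f u X)

/-- The hypersurface is proper Dupin with `g` distinct principal curvatures: there are smooth
functions `κ_1, …, κ_g` on `U` which are, at every point of `U`, pairwise distinct and exactly the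
principal curvatures (every `κ_i` has a non-zero principal vector, and every tangent vector is a sum
of principal vectors for `κ_1, …, κ_g`), and each `κ_i` is constant along its principal
directions, that is along the leaves of its principal foliation. -/
def IsProperDupin (g : ℕ) (U : Set E) (f ξ : E → H) : Prop :=
  ∃ κ : Fin g → E → ℝ, (∀ i, ContDiffOn ℝ ∞ (κ i) U) ∧ ∀ u ∈ U,
    (Function.Injective fun i => κ i u) ∧
    (∀ i, ∃ X, X ≠ 0 ∧ IsPrincipal f ξ u (κ i u) X) ∧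
    (∀ X, ∃ Y : Fin g → E, ∑ i, Y i = X ∧ ∀ i, IsPrincipal f ξ u (κ i u) (Y i)) ∧
    ∀ i X, IsPrincipal f ξ u (κ i u) X → fderiv ℝ (κ i) u X = 0

/-- The quadratic form of signature `(dim H, 2)` on `H × ℝ × ℝ`. Its null lines are the points of
the Lie quadric of the unit sphere of `H`. -/
noncomputable def qS (v : H × ℝ × ℝ) : ℝ := ‖v.1‖ ^ 2 - v.2.1 ^ 2 - v.2.2 ^ 2

/-- The quadratic form of signature `(dim H + 1, 2)` on `H × ℝ × ℝ × ℝ`. Its null lines are the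
points of the Lie quadric of the Euclidean space `H`. -/
noncomputable def qE (v : H × ℝ × ℝ × ℝ) : ℝ :=
  ‖v.1‖ ^ 2 + v.2.1 ^ 2 - v.2.2.1 ^ 2 - v.2.2.2 ^ 2

/-- The Legendre lift of a hypersurface `f` of the unit sphere of `H` with unit normal `ξ`: the line
on the Lie quadric through the point sphere `(f, 1, 0)` and the great sphere `(ξ, 0, 1)`. -/
noncomputable def liftS (f ξ : E → H) (u : E) : Submodule ℝ (H × ℝ × ℝ) :=
  Submodule.span ℝ {(f u, 1, 0), (ξ u, 0, 1)}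

/-- The Legendre lift of a hypersurface `f` of the Euclidean space `H` with unit normal `ξ`: the line
on the Lie quadric through the point sphere `f(u)` and the tangent hyperplane at `f(u)`. -/
noncomputable def liftE (f ξ : E → H) (u : E) : Submodule ℝ (H × ℝ × ℝ × ℝ) :=
  Submodule.span ℝ {(f u, (1 - ‖f u‖ ^ 2) / 2, (1 + ‖f u‖ ^ 2) / 2, 0),
    (ξ u, -⟪f u, ξ u⟫_ℝ, ⟪f u, ξ u⟫_ℝ, 1)}

/-- A linear isomorphism inducing a projective map which maps the quadric `q = 0` onto the quadric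
`q' = 0`. For two copies of the Lie quadric this is a Lie sphere transformation. -/
def IsLieMap {V V' : Type} [AddCommGroup V] [Module ℝ V] [AddCommGroup V'] [Module ℝ V']
    (q : V → ℝ) (q' : V' → ℝ) (A : V ≃ₗ[ℝ] V') : Prop := ∀ v, q v = 0 ↔ q' (A v) = 0

/-- `ψ` is a diffeomorphism of the open set `U` onto an open set. -/
structure IsDiffeo {F : Type} [NormedAddCommGroup F] [NormedSpace ℝ F] (U : Set E) (ψ : E → F) :
    Prop where
  smooth : ContDiffOn ℝ ∞ ψ U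
  injOn : Set.InjOn ψ U
  bijective : ∀ u ∈ U, Function.Bijective (fderiv ℝ ψ u)

end General

/-- A hypersurface of the unit sphere `S^(d+1) ⊂ ℝ^(d+2)` with unit normal `ξ`. -/
structure IsSphereHypersurface {d : ℕ} (U : Set (Vec d)) (f ξ : Vec d → Vec (d + 2)) : Prop extends
    IsImmersedWithNormal U f ξ where
  norm_eq : ∀ u ∈ U, ‖f u‖ = 1
  orth : ∀ u ∈ U, ⟪f u, ξ u⟫_ℝ = 0

/-- The point `(x, y)` of `ℝ^(k+m) = ℝ^k × ℝ^m`. -/
noncomputable def pair {k m : ℕ} (x : Vec k) (y : Vec m) : EuclideanSpace ℝ (Fin k ⊕ Fin m) :=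
  WithLp.toLp 2 (Sum.elim x y)

/-- The hypersurface `F : U → ℝ^(e+1+m)` with unit normal `Ξ` is an open piece of a tube of constant
radius `r > 0` around the hypersurface `w : W → ℝ^(e+1) ⊂ ℝ^(e+1) × ℝ^m` with unit normal `N`: with
`c(u)^2 + |η(u)|^2 = 1`, the vector `Ξ = (c N(a), η)` is a unit normal vector of the submanifold `w`
of codimension `m + 1` at `w(a)`, and `F = w(a) + r Ξ`. -/
def IsTube {d e m : ℕ} (U : Set (Vec d)) (F Ξ : Vec d → EuclideanSpace ℝ (Fin (e + 1) ⊕ Fin m))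
    (W : Set (Vec e)) (w N : Vec e → Vec (e + 1)) : Prop :=
  ∃ (r : ℝ) (a : Vec d → Vec e) (c : Vec d → ℝ) (η : Vec d → Vec m), 0 < r ∧
    ContDiffOn ℝ ∞ a U ∧ ContDiffOn ℝ ∞ c U ∧ ContDiffOn ℝ ∞ η U ∧
    ∀ u ∈ U, a u ∈ W ∧ c u ^ 2 + ‖η u‖ ^ 2 = 1 ∧ Ξ u = pair (c u • N (a u)) (η u) ∧
      F u = pair (w (a u)) 0 + r • Ξ u

/-- The hypersurface `f` of `S^(d+1)` with three principal curvatures is reducible near `u₀`: near
`u₀` it is Lie equivalent to an open piece of a tube around a proper Dupin hypersurface `w` of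
`ℝ^(e+1) ⊂ ℝ^(e+1+m)` with two principal curvatures, where `m ≥ 1` and `e + m = d`. -/
def IsReducibleAt {d : ℕ} (f ξ : Vec d → Vec (d + 2)) (u₀ : Vec d) : Prop :=
  ∃ (e m : ℕ) (W : Set (Vec e)) (w N : Vec e → Vec (e + 1)) (U : Set (Vec d))
    (F Ξ : Vec d → EuclideanSpace ℝ (Fin (e + 1) ⊕ Fin m))
    (A : (EuclideanSpace ℝ (Fin (e + 1) ⊕ Fin m) × ℝ × ℝ × ℝ) ≃ₗ[ℝ] (Vec (d + 2) × ℝ × ℝ)),
    1 ≤ m ∧ e + m = d ∧ IsImmersedWithNormal W w N ∧ IsProperDupin 2 W w N ∧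
    u₀ ∈ U ∧ IsImmersedWithNormal U F Ξ ∧ IsTube U F Ξ W w N ∧ IsLieMap qE qS A ∧
    ∀ u ∈ U, (liftE F Ξ u).map A.toLinearMap = liftS f ξ u

/-- The hypersurfaces `f` near `u₀` and `f'` near `u₀'` are locally Lie equivalent. -/
def IsLieEquivalentAt {d : ℕ} (f ξ : Vec d → Vec (d + 2)) (u₀ : Vec d)
    (f' ξ' : Vec d → Vec (d + 2)) (u₀' : Vec d) : Prop :=
  ∃ (U : Set (Vec d)) (χ : Vec d → Vec d) (A : (Vec (d + 2) × ℝ × ℝ) ≃ₗ[ℝ] (Vec (d + 2) × ℝ × ℝ)),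
    IsOpen U ∧ u₀ ∈ U ∧ χ u₀ = u₀' ∧ IsDiffeo U χ ∧ IsLieMap qS qS A ∧
    ∀ u ∈ U, (liftS f ξ u).map A.toLinearMap = liftS f' ξ' (χ u)

/-! ### The models -/

/-- The vector space `ℝ^(m_0) × ℝ^(m_1) × ℝ^(m_2) × ℝ^4`. -/
abbrev NF (m : Fin 3 → ℕ) : Type := (∀ i, Vec (m i)) × (Fin 4 → ℝ)

/-- The quadratic form `∑ |y_i|^2 + 2 z_0 z_2 + 2 z_1 z_3 + σ_1 z_2^2 + σ_2 z_3^2` of signature
`(m_0 + m_1 + m_2 + 2, 2)`. -/
noncomputable def qN {m : Fin 3 → ℕ} (σ : Fin 3 → ℝ) (v : NF m) : ℝ :=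
  ∑ i, ‖v.1 i‖ ^ 2 + 2 * (v.2 0 * v.2 2) + 2 * (v.2 1 * v.2 3) +
    σ 1 * v.2 2 ^ 2 + σ 2 * v.2 3 ^ 2

/-- The vectors `n_0 = (0; σ_1, σ_2, -1, -1)`, `n_1 = (0; 0, 0, 1, 0)`, `n_2 = (0; 0, 0, 0, 1)`. -/
def nvec (m : Fin 3 → ℕ) (σ : Fin 3 → ℝ) : Fin 3 → NF m :=
  ![(0, ![σ 1, σ 2, -1, -1]), (0, ![0, 0, 1, 0]), (0, ![0, 0, 0, 1])]

/-- The base points `p_0 = 0`, `p_1 = (0; -1, 0, 0, 0)`, `p_2 = (0; 0, -1, 0, 0)`. -/
def pvec (m : Fin 3 → ℕ) : Fin 3 → NF m :=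
  ![(0, 0), (0, ![-1, 0, 0, 0]), (0, ![0, -1, 0, 0])]

/-- The point with stereographic coordinate `y ∈ ℝ^(m_i)` of the space form
`M_i(σ_i) = {p_i + y + s n_i : |y|^2 + σ_i s^2 = 2 s}` of constant curvature `σ_i` and dimension
`m_i`: `p_i + (y + |y|^2 n_i / 2) / (1 + σ_i |y|^2 / 4)`. -/
noncomputable def apt (m : Fin 3 → ℕ) (σ : Fin 3 → ℝ) (i : Fin 3) (y : Vec (m i)) : NF m :=
  pvec m i + (1 + σ i * ‖y‖ ^ 2 / 4)⁻¹ • ((Pi.single i y, 0) + (‖y‖ ^ 2 / 2) • nvec m σ i)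

/-- The model Legendre map `M_0(σ_0) × M_1(σ_1) × M_2(σ_2) → {lines on the quadric}`: the line
through the differences `a_0 - a_1` and `a_0 - a_2` of the points `a_i ∈ M_i(σ_i)`. -/
noncomputable def modelLine (m : Fin 3 → ℕ) (σ : Fin 3 → ℝ) (y : ∀ i, Vec (m i)) :
    Submodule ℝ (NF m) :=
  Submodule.span ℝ {apt m σ 0 (y 0) - apt m σ 1 (y 1), apt m σ 0 (y 0) - apt m σ 2 (y 2)}

/-- The hypersurface `f` near `u₀` is locally Lie equivalent to the model with data `(m, σ)`: near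
`u₀` its Legendre lift is the image of the model Legendre map under a projective isomorphism of the
quadrics and a diffeomorphism `ψ` of a neighbourhood of `u₀` onto an open subset of
`M_0(σ_0) × M_1(σ_1) × M_2(σ_2)` (in stereographic coordinates). -/
def IsModelledAt {d : ℕ} (m : Fin 3 → ℕ) (σ : Fin 3 → ℝ) (f ξ : Vec d → Vec (d + 2))
    (u₀ : Vec d) : Prop :=
  ∃ (U : Set (Vec d)) (ψ : Vec d → ∀ i, Vec (m i)) (A : NF m ≃ₗ[ℝ] (Vec (d + 2) × ℝ × ℝ)),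
    IsOpen U ∧ u₀ ∈ U ∧ IsDiffeo U ψ ∧ (∀ u ∈ U, ∀ i, 0 < 1 + σ i * ‖ψ u i‖ ^ 2 / 4) ∧
    IsLieMap (qN σ) qS A ∧ ∀ u ∈ U, (modelLine m σ (ψ u)).map A.toLinearMap = liftS f ξ u

/-- Admissible data: multiplicities `m_i ≥ 1` with `m_0 + m_1 + m_2 = d`, and curvatures
`(σ_0, σ_1, σ_2) ≠ 0` with `σ_0 + σ_1 + σ_2 = 0`. -/
structure IsData (d : ℕ) (m : Fin 3 → ℕ) (σ : Fin 3 → ℝ) : Prop where
  pos : ∀ i, 1 ≤ m i
  sum_m : ∑ i, m i = d
  sum_σ : ∑ i, σ i = 0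
  ne_zero : σ ≠ 0

end Pool.Agent.R744.Lie
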