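import Pool.Agent.R744.LieUniq2

set_option autoImplicit false
set_option linter.unusedSectionVars false
set_option linter.style.haveILetI false

namespace Pool.Agent.R744.Lie

open scoped ContDiff InnerProductSpace Topology

section

variable {E F G : Type} [NormedAddCommGroup E] [NormedSpace ℝ E] [FiniteDimensional ℝ E]
  [NormedAddCommGroup F] [NormedSpace ℝ F] [FiniteDimensional ℝ F]
  [NormedAddCommGroup G] [NormedSpace ℝ G] [FiniteDimensional ℝ G]

theorem IsDiffeo.comp {U : Set E} {U' : Set F} {χ : E → F} {ψ : F → G} (hU : IsOpen U)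
    (hU' : IsOpen U') (h : IsDiffeo U χ) (h' : IsDiffeo U' ψ) :
    IsOpen (U ∩ χ ⁻¹' U') ∧ IsDiffeo (U ∩ χ ⁻¹' U') (fun u => ψ (χ u)) := by
  refine ⟨h.smooth.continuousOn.isOpen_inter_preimage hU hU', ?_, ?_, ?_⟩
  · exact h'.smooth.comp (h.smooth.mono Set.inter_subset_left) fun u hu => hu.2
  · intro u hu v hv huv
    exact h.injOn hu.1 hv.1 (h'.injOn hu.2 hv.2 huv)
  · intro u hu
    have h1 := ContDiffOn.differentiableAt' h.smooth hU hu.1
    have h2 := ContDiffOn.differentiableAt' h'.smooth hU' hu.2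
    have h3 : fderiv ℝ (fun u => ψ (χ u)) u = (fderiv ℝ ψ (χ u)).comp (fderiv ℝ χ u) :=
      fderiv_comp u h2 h1
    rw [h3, ContinuousLinearMap.coe_comp]
    exact (h'.bijective _ hu.2).comp (h.bijective u hu.1)

theorem IsDiffeo.exists_inverse {U : Set E} {ψ : E → F} (hU : IsOpen U) (h : IsDiffeo U ψ) {x : E}
    (hx : x ∈ U) : ∃ (O : Set F) (θ : F → E), IsOpen O ∧ ψ x ∈ O ∧ IsDiffeo O θ ∧ θ (ψ x) = x ∧
      ∀ y ∈ O, θ y ∈ U ∧ ψ (θ y) = y := by
  haveI := FiniteDimensional.complete ℝ E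
  haveI := FiniteDimensional.complete ℝ F
  have hL : ∀ u ∈ U, ∃ L : E ≃L[ℝ] F, (L : E →L[ℝ] F) = fderiv ℝ ψ u := by
    intro u hu
    refine ⟨(LinearEquiv.ofBijective (fderiv ℝ ψ u).toLinearMap
      (h.bijective u hu)).toContinuousLinearEquiv, ?_⟩
    ext v
    rfl
  obtain ⟨L, hLx⟩ := hL x hx
  have hc : ContDiffAt ℝ ∞ ψ x := h.smooth.contDiffAt (hU.mem_nhds hx)
  have hd : HasFDerivAt ψ (L : E →L[ℝ] F) x := by
    rw [hLx]
    exact (hc.differentiableAt (by simp)).hasFDerivAt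
  let R := hc.toOpenPartialHomeomorph ψ hd (by simp)
  have hR : x ∈ R.source := hc.mem_toOpenPartialHomeomorph_source hd (by simp)
  have hRψ : ∀ u, R u = ψ u := fun u => rfl
  have hO : IsOpen (R.target ∩ R.symm ⁻¹' U) :=
    R.continuousOn_symm.isOpen_inter_preimage R.open_target hU
  have hright : ∀ y ∈ R.target, ψ (R.symm y) = y := fun y hy => R.right_inv hy
  have hleft : R.symm (ψ x) = x := R.left_inv hR
  refine ⟨R.target ∩ R.symm ⁻¹' U, R.symm, hO, ⟨R.map_source hR, ?_⟩, ⟨?_, ?_, ?_⟩, hleft,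
    fun y hy => ⟨hy.2, hright y hy.1⟩⟩
  · change R.symm (ψ x) ∈ U
    rw [hleft]
    exact hx
  · intro y hy
    obtain ⟨L', hL'⟩ := hL _ hy.2
    have h1 : ContDiffAt ℝ ∞ ψ (R.symm y) := h.smooth.contDiffAt (hU.mem_nhds hy.2)
    have h2 : HasFDerivAt ψ (L' : E →L[ℝ] F) (R.symm y) := by
      rw [hL']
      exact (h1.differentiableAt (by simp)).hasFDerivAt
    exact (R.contDiffAt_symm hy.1 h2 h1).contDiffWithinAt
  · intro y hy z hz hyz
    rw [← hright y hy.1, ← hright z hz.1, hyz]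
  · intro y hy
    obtain ⟨L', hL'⟩ := hL _ hy.2
    have h1 : ContDiffAt ℝ ∞ ψ (R.symm y) := h.smooth.contDiffAt (hU.mem_nhds hy.2)
    have h2 : HasFDerivAt ψ (L' : E →L[ℝ] F) (R.symm y) := by
      rw [hL']
      exact (h1.differentiableAt (by simp)).hasFDerivAt
    have h3 := R.hasFDerivAt_symm hy.1 h2
    rw [h3.fderiv]
    exact L'.symm.bijective

end

section Sphere

variable {d : ℕ} {m : Fin 3 → ℕ} {σ : Fin 3 → ℝ} {f ξ f' ξ' : Vec d → Vec (d + 2)}
  {u₀ u₀' : Vec d}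

theorem similarity_S (A : (Vec (d + 2) × ℝ × ℝ) ≃ₗ[ℝ] (Vec (d + 2) × ℝ × ℝ)) (hd : 1 ≤ d)
    (hA : IsLieMap qS qS A) :
    ∃ c : ℝ, 0 < c ∧ ∀ v w, BS (Vec (d + 2)) (A v) (A w) = c * BS (Vec (d + 2)) v w := by
  have hfr : Module.finrank ℝ (Vec (d + 2)) = d + 2 := by simp
  obtain ⟨x₀, hx₀⟩ : ∃ x : Vec (d + 2), ‖x‖ = 1 := by
    refine ⟨EuclideanSpace.single 0 1, ?_⟩
    simp
  obtain ⟨c, hc⟩ := exists_similarity (B := BS (Vec (d + 2))) BS_symm x₀ hx₀ A.toLinearMap (by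
    intro v hv
    rw [BS_self]
    exact (hA v).1 hv)
  have hnn : 0 ≤ c := by
    refine similarity_nonneg (by rw [hfr]; omega) A.toLinearMap c hc
      (LinearMap.snd ℝ (Vec (d + 2)) (ℝ × ℝ)) ?_
    intro v hv
    have h1 : v.2 = 0 := hv
    rw [BS_self, qS, h1]
    simp only [Prod.fst_zero, Prod.snd_zero]
    have h2 : 0 ≤ ‖v.1‖ ^ 2 := by positivity
    linarith
  have hne : c ≠ 0 := by
    intro h0
    have h1 := hc (A.symm (x₀, 0, 0)) (A.symm (x₀, 0, 0))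
    rw [h0, zero_mul] at h1
    change BS (Vec (d + 2)) (A (A.symm _)) (A (A.symm _)) = 0 at h1
    rw [A.apply_symm_apply, BS_self, qS, hx₀] at h1
    norm_num at h1
  exact ⟨c, lt_of_le_of_ne hnn (Ne.symm hne), hc⟩

theorem IsLieEquivalentAt.frameModel {y₀ : ∀ i, Vec (m i)} (hd : 1 ≤ d)
    (h : IsLieEquivalentAt f ξ u₀ f' ξ' u₀') (h' : FrameModel m σ f' ξ' u₀' y₀) :
    FrameModel m σ f ξ u₀ y₀ := by
  obtain ⟨U, χ, A, hU, hu, hχ, hdiff, hA, hline⟩ := h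
  obtain ⟨F, U', ψ, hU', hu', hy, hψ, hden, hline'⟩ := h'
  obtain ⟨c, hc, hsim⟩ := similarity_S A hd hA
  have hs : 0 < Real.sqrt c := Real.sqrt_pos.2 hc
  have hs2 : Real.sqrt c * Real.sqrt c = c := Real.mul_self_sqrt hc.le
  have hC : ∀ v w, BS (Vec (d + 2)) ((Real.sqrt c • A.symm.toLinearMap) v)
      ((Real.sqrt c • A.symm.toLinearMap) w) = BS (Vec (d + 2)) v w := by
    intro v w
    rw [LinearMap.smul_apply, LinearMap.smul_apply, map_smul, LinearMap.map_smul₂, smul_smul]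
    change _ • (BS (Vec (d + 2)) (A.symm v) (A.symm w)) = _
    have h1 := hsim (A.symm v) (A.symm w)
    rw [A.apply_symm_apply, A.apply_symm_apply] at h1
    rw [h1, smul_eq_mul, hs2]
  obtain ⟨ho, hd'⟩ := hdiff.comp hU hU' hψ
  refine ⟨F.trans BS_symm _ hC, U ∩ χ ⁻¹' U', fun u => ψ (χ u), ho, ⟨hu, ?_⟩, ?_, hd',
    fun u hu => hden _ hu.2, ?_⟩
  · change χ u₀ ∈ U'
    rw [hχ]
    exact hu'
  · simp only [hχ, hy]
  · intro u hu
    have h1 : liftS f ξ u = (liftS f' ξ' (χ u)).map A.symm.toLinearMap := by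
      rw [← hline u hu.1, ← Submodule.map_comp]
      have : A.symm.toLinearMap ∘ₗ A.toLinearMap = LinearMap.id := by
        ext1 <;> ext1 <;> simp
      rw [this, Submodule.map_id]
    have h2 := map_tripleLine (fun i u => F.pt i (ψ u i)) (Real.sqrt c • A.symm.toLinearMap) (χ u)
    rw [h1, hline' _ hu.2, ← map_smul_span _ A.symm.toLinearMap (Real.sqrt c) hs.ne', h2]
    unfold tripleLine
    simp only [Frame.trans_pt]

theorem FrameModel.isLieEquivalentAt (hm : ∑ i, m i = d) {y₀ : ∀ i, Vec (m i)}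
    (h : FrameModel m σ f ξ u₀ y₀) (h' : FrameModel m σ f' ξ' u₀' y₀) :
    IsLieEquivalentAt f ξ u₀ f' ξ' u₀' := by
  obtain ⟨F, U, ψ, hU, hu, hy, hψ, hden, hline⟩ := h
  obtain ⟨F', U', ψ', hU', hu', hy', hψ', hden', hline'⟩ := h'
  have hfr : Module.finrank ℝ (Vec (d + 2) × ℝ × ℝ) = ∑ i, m i + 4 := by rw [finrank_LS, hm]
  obtain ⟨O, θ, hO, hxO, hθ, hθx, hθy⟩ := hψ'.exists_inverse hU' hu'
  obtain ⟨ho, hd'⟩ := hψ.comp hU hO hθ
  refine ⟨U ∩ ψ ⁻¹' O, fun u => θ (ψ u), (F.equiv hfr).symm.trans (F'.equiv hfr), ho, ⟨hu, ?_⟩, ?_,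
    hd', ?_, ?_⟩
  · change ψ u₀ ∈ O
    rw [hy, ← hy']
    exact hxO
  · change θ (ψ u₀) = u₀'
    rw [hy, ← hy', hθx]
  · intro v
    obtain ⟨w, rfl⟩ := (F.equiv hfr).surjective v
    rw [LinearEquiv.trans_apply, LinearEquiv.symm_apply_apply, ← BS_self, ← BS_self,
      F.equiv_apply, F'.equiv_apply, F.B_map, F'.B_map]
  · intro u hu
    rw [hline u hu.1, hline' _ (hθy _ hu.2).1]
    unfold tripleLine
    rw [Submodule.map_span, Set.image_pair]
    have key : ∀ i j y z, ((F.equiv hfr).symm.trans (F'.equiv hfr)).toLinearMap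
        (F.pt i y - F.pt j z) = F'.pt i y - F'.pt j z := by
      intro i j y z
      change (F'.equiv hfr) ((F.equiv hfr).symm (F.pt i y - F.pt j z)) = _
      rw [← F.map_apt hfr, ← F.equiv_apply hfr, LinearEquiv.symm_apply_apply, F'.equiv_apply,
        F'.map_apt hfr]
    rw [key, key]
    simp only [(hθy _ hu.2).2]

/-- Two modelled hypersurfaces are locally Lie equivalent if and only if their data agree up to
permutation and scaling of the curvatures. -/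
theorem lieEquivalentAt_iff {m' : Fin 3 → ℕ} {σ' : Fin 3 → ℝ} (h : IsData d m σ)
    (h' : IsData d m' σ') (hM : IsModelledAt m σ f ξ u₀) (hM' : IsModelledAt m' σ' f' ξ' u₀') :
    IsLieEquivalentAt f ξ u₀ f' ξ' u₀' ↔ ∃ (π : Equiv.Perm (Fin 3)) (c : ℝ), 0 < c ∧
      (∀ i, m' i = m (π i)) ∧ ∀ i, σ' i = c * σ (π i) := by
  have hd : 1 ≤ d := by
    have h1 := h.pos 0
    have h2 := h.sum_m
    rw [Fin.sum_univ_three] at h2
    omega
  obtain ⟨y, hF⟩ := hM.frameModel hd h.sum_σ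
  obtain ⟨y', hF'⟩ := hM'.frameModel hd h'.sum_σ
  constructor
  · intro heq
    obtain ⟨π, c, hc, h1, h2⟩ := hF.unique h.sum_m h'.sum_m h.pos h'.pos (heq.frameModel hd hF')
    exact ⟨π, c, hc, congrFun h1, congrFun h2⟩
  · rintro ⟨π, c, hc, h1, h2⟩
    have e1 : m' = fun i => m (π i) := funext h1
    subst e1
    have h3 := (hF.perm h.sum_m π).scale (by rw [Equiv.sum_comp π m, h.sum_m])
      (Real.sqrt c)⁻¹ (inv_ne_zero (Real.sqrt_pos.2 hc).ne')
    rw [inv_inv] at h3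
    have e2 : (fun i => Real.sqrt c ^ 2 * σ (π i)) = σ' := by
      funext i
      rw [Real.sq_sqrt hc.le, h2]
    rw [e2] at h3
    exact h3.isLieEquivalentAt h'.sum_m (hF'.base h'.sum_m)

end Sphere

end Pool.Agent.R744.Lie
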