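import Pool.Agent.R744.LieDefs

set_option autoImplicit false

namespace Pool.Agent.R744.Lie

open scoped ContDiff InnerProductSpace

/-- The bilinear form of `qN`. -/
noncomputable def BN (m : Fin 3 → ℕ) (σ : Fin 3 → ℝ) : NF m →ₗ[ℝ] NF m →ₗ[ℝ] ℝ :=
  LinearMap.mk₂ ℝ (fun v w => ∑ i, ⟪v.1 i, w.1 i⟫_ℝ + (v.2 0 * w.2 2 + v.2 2 * w.2 0) +
    (v.2 1 * w.2 3 + v.2 3 * w.2 1) + σ 1 * (v.2 2 * w.2 2) + σ 2 * (v.2 3 * w.2 3))
    (fun v v' w => by
      simp only [Prod.fst_add, Prod.snd_add, Pi.add_apply, inner_add_left, Finset.sum_add_distrib]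
      ring)
    (fun c v w => by
      simp only [Prod.smul_fst, Prod.smul_snd, Pi.smul_apply, inner_smul_left, smul_eq_mul,
        RCLike.conj_to_real, ← Finset.mul_sum]
      ring)
    (fun v w w' => by
      simp only [Prod.fst_add, Prod.snd_add, Pi.add_apply, inner_add_right, Finset.sum_add_distrib]
      ring)
    (fun c v w => by
      simp only [Prod.smul_fst, Prod.smul_snd, Pi.smul_apply, inner_smul_right, smul_eq_mul,
        ← Finset.mul_sum]
      ring)

theorem BN_apply (m : Fin 3 → ℕ) (σ : Fin 3 → ℝ) (v w : NF m) : BN m σ v w =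
    ∑ i, ⟪v.1 i, w.1 i⟫_ℝ + (v.2 0 * w.2 2 + v.2 2 * w.2 0) +
    (v.2 1 * w.2 3 + v.2 3 * w.2 1) + σ 1 * (v.2 2 * w.2 2) + σ 2 * (v.2 3 * w.2 3) := rfl

theorem BN_symm (m : Fin 3 → ℕ) (σ : Fin 3 → ℝ) (v w : NF m) : BN m σ v w = BN m σ w v := by
  rw [BN_apply, BN_apply]
  have h : ∑ i, ⟪v.1 i, w.1 i⟫_ℝ = ∑ i, ⟪w.1 i, v.1 i⟫_ℝ :=
    Finset.sum_congr rfl fun i _ => real_inner_comm _ _
  rw [h]
  ring

theorem BN_self (m : Fin 3 → ℕ) (σ : Fin 3 → ℝ) (v : NF m) : BN m σ v v = qN σ v := by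
  rw [BN_apply, qN]
  simp only [real_inner_self_eq_norm_sq]
  ring

theorem BN_nondeg (m : Fin 3 → ℕ) (σ : Fin 3 → ℝ) (v : NF m) (h : ∀ w, BN m σ v w = 0) : v = 0 := by
  have h1 : ∀ i, v.1 i = 0 := by
    intro i
    have := h (Pi.single i (v.1 i), 0)
    rw [BN_apply] at this
    simp only [Pi.zero_apply, mul_zero, add_zero] at this
    rw [Finset.sum_eq_single i] at this
    · simpa using this
    · intro j _ hj
      rw [Pi.single_eq_of_ne hj, inner_zero_right]
    · simp
  have h2 : v.1 = 0 := funext h1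
  have h3 : v.2 2 = 0 := by
    have := h (0, ![1, 0, 0, 0])
    simpa [BN_apply] using this
  have h4 : v.2 3 = 0 := by
    have := h (0, ![0, 1, 0, 0])
    simpa [BN_apply] using this
  have h5 : v.2 0 = 0 := by
    have := h (0, ![0, 0, 1, 0])
    simpa [BN_apply, h3, h4] using this
  have h6 : v.2 1 = 0 := by
    have := h (0, ![0, 0, 0, 1])
    simpa [BN_apply, h3, h4] using this
  refine Prod.ext h2 ?_
  funext k
  fin_cases k
  · exact h5
  · exact h6
  · exact h3
  · exact h4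

variable {V : Type} [AddCommGroup V] [Module ℝ V]

/-- Vectors with the mutual inner products of the standard vectors of the model. -/
structure Frame (B : V →ₗ[ℝ] V →ₗ[ℝ] ℝ) (m : Fin 3 → ℕ) (σ : Fin 3 → ℝ) where
  e : ∀ i, Vec (m i) →ₗ[ℝ] V
  p : Fin 3 → V
  n : Fin 3 → V
  symm : ∀ v w, B v w = B w v
  ee : ∀ i x y, B (e i x) (e i y) = ⟪x, y⟫_ℝ
  ee' : ∀ i j, i ≠ j → ∀ x y, B (e i x) (e j y) = 0
  en : ∀ i j x, B (e i x) (n j) = 0
  ep : ∀ i j k x, B (e i x) (p j - p k) = 0
  nn : ∀ i, B (n i) (n i) = σ i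
  nn' : ∀ i j, i ≠ j → B (n i) (n j) = 0
  pn : ∀ i j, i ≠ j → B (p i - p j) (n i) = -1
  pp : ∀ i j k l, B (p i - p j) (p k - p l) = 0

namespace Frame

variable {B : V →ₗ[ℝ] V →ₗ[ℝ] ℝ} {m : Fin 3 → ℕ} {σ : Fin 3 → ℝ} (F : Frame B m σ)

theorem pn' (i j : Fin 3) (h : i ≠ j) : B (F.p i - F.p j) (F.n j) = 1 := by
  have h1 := F.pn j i h.symm
  have h2 : F.p i - F.p j = -(F.p j - F.p i) := by abel
  rw [h2, map_neg, LinearMap.neg_apply, h1, neg_neg]

theorem pn'' (i j k : Fin 3) (h1 : j ≠ i) (h2 : k ≠ i) : B (F.p j - F.p k) (F.n i) = 0 := by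
  have h3 : F.p j - F.p k = (F.p i - F.p k) - (F.p i - F.p j) := by abel
  rw [h3, map_sub, LinearMap.sub_apply, F.pn i k h2.symm, F.pn i j h1.symm, sub_self]

/-- The linear map of the model space determined by the frame. -/
noncomputable def map : NF m →ₗ[ℝ] V where
  toFun v := ∑ i, F.e i (v.1 i) + v.2 0 • (F.p 0 - F.p 1) + v.2 1 • (F.p 0 - F.p 2) +
    v.2 2 • F.n 1 + v.2 3 • F.n 2
  map_add' v w := by
    simp only [Prod.fst_add, Prod.snd_add, Pi.add_apply, map_add, Finset.sum_add_distrib, add_smul]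
    abel
  map_smul' c v := by
    simp only [Prod.smul_fst, Prod.smul_snd, Pi.smul_apply, map_smul, smul_eq_mul, mul_smul,
      RingHom.id_apply, smul_add, Finset.smul_sum]

theorem map_apply (v : NF m) : F.map v =
    ∑ i, F.e i (v.1 i) + v.2 0 • (F.p 0 - F.p 1) + v.2 1 • (F.p 0 - F.p 2) +
    v.2 2 • F.n 1 + v.2 3 • F.n 2 := rfl

theorem B_map_e (v : NF m) (i : Fin 3) (x : Vec (m i)) : B (F.map v) (F.e i x) = ⟪v.1 i, x⟫_ℝ := by
  rw [F.symm, F.map_apply]
  simp only [map_add, map_sum, map_smul, F.en, F.ep, smul_zero, add_zero]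
  rw [Finset.sum_eq_single i]
  · rw [F.ee, real_inner_comm]
  · intro j _ hj
    exact F.ee' i j hj.symm _ _
  · simp

theorem B_map_p01 (v : NF m) : B (F.map v) (F.p 0 - F.p 1) = v.2 2 := by
  rw [F.symm, F.map_apply]
  simp only [map_add, map_sum, map_smul]
  have h1 : ∀ i x, B (F.p 0 - F.p 1) (F.e i x) = 0 := fun i x => by rw [F.symm, F.ep]
  simp only [h1, F.pp, F.pn' 0 1 (by decide), F.pn'' 2 0 1 (by decide) (by decide)]
  simp

theorem B_map_p02 (v : NF m) : B (F.map v) (F.p 0 - F.p 2) = v.2 3 := by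
  rw [F.symm, F.map_apply]
  simp only [map_add, map_sum, map_smul]
  have h1 : ∀ i x, B (F.p 0 - F.p 2) (F.e i x) = 0 := fun i x => by rw [F.symm, F.ep]
  simp only [h1, F.pp, F.pn' 0 2 (by decide), F.pn'' 1 0 2 (by decide) (by decide)]
  simp

theorem B_map_n1 (v : NF m) : B (F.map v) (F.n 1) = v.2 0 + σ 1 * v.2 2 := by
  rw [F.map_apply]
  simp only [map_add, map_sum, map_smul, LinearMap.add_apply, LinearMap.smul_apply,
    LinearMap.sum_apply, F.en, F.nn, F.nn' 2 1 (by decide), F.pn' 0 1 (by decide),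
    F.pn'' 1 0 2 (by decide) (by decide)]
  simp
  ring

theorem B_map_n2 (v : NF m) : B (F.map v) (F.n 2) = v.2 1 + σ 2 * v.2 3 := by
  rw [F.map_apply]
  simp only [map_add, map_sum, map_smul, LinearMap.add_apply, LinearMap.smul_apply,
    LinearMap.sum_apply, F.en, F.nn, F.nn' 1 2 (by decide), F.pn' 0 2 (by decide),
    F.pn'' 2 0 1 (by decide) (by decide)]
  simp
  ring

theorem B_map (v w : NF m) : B (F.map v) (F.map w) = BN m σ v w := by
  rw [F.map_apply w]
  simp only [map_add, map_sum, map_smul, F.B_map_e, F.B_map_p01, F.B_map_p02, F.B_map_n1,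
    F.B_map_n2, BN_apply]
  simp only [smul_eq_mul]
  ring

theorem map_injective : Function.Injective F.map := by
  rw [injective_iff_map_eq_zero]
  intro v hv
  refine BN_nondeg m σ v fun w => ?_
  rw [← F.B_map, hv, map_zero, LinearMap.zero_apply]

theorem finrank_NF (m : Fin 3 → ℕ) : Module.finrank ℝ (NF m) = ∑ i, m i + 4 := by
  rw [Module.finrank_prod, Module.finrank_pi_fintype]
  simp

include F in
theorem finrank_le [FiniteDimensional ℝ V] : ∑ i, m i + 4 ≤ Module.finrank ℝ V := by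
  rw [← finrank_NF m]
  exact LinearMap.finrank_le_finrank_of_injective F.map_injective

/-- The isomorphism of the model space determined by the frame. -/
noncomputable def equiv [FiniteDimensional ℝ V] (h : Module.finrank ℝ V = ∑ i, m i + 4) :
    NF m ≃ₗ[ℝ] V :=
  LinearEquiv.ofInjectiveOfFinrankEq F.map F.map_injective (by rw [finrank_NF, h])

theorem equiv_apply [FiniteDimensional ℝ V] (h : Module.finrank ℝ V = ∑ i, m i + 4) (v : NF m) :
    F.equiv h v = F.map v := rfl

/-- A vector orthogonal to all `e i x`, to the `p i - p j` and to `n 1`, `n 2` vanishes. -/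
theorem eq_zero [FiniteDimensional ℝ V] (h : Module.finrank ℝ V = ∑ i, m i + 4) (v : V)
    (h1 : ∀ i x, B v (F.e i x) = 0) (h2 : B v (F.p 0 - F.p 1) = 0) (h3 : B v (F.p 0 - F.p 2) = 0)
    (h4 : B v (F.n 1) = 0) (h5 : B v (F.n 2) = 0) : v = 0 := by
  obtain ⟨v', rfl⟩ := (F.equiv h).surjective v
  rw [F.equiv_apply] at *
  have h6 : v' = 0 := by
    refine BN_nondeg m σ v' fun w => ?_
    rw [← F.B_map, F.map_apply w]
    simp only [map_add, map_sum, map_smul, h1, h2, h3, h4, h5, smul_zero, Finset.sum_const_zero,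
      add_zero]
  rw [h6, map_zero]

theorem n0_eq [FiniteDimensional ℝ V] (h : Module.finrank ℝ V = ∑ i, m i + 4) :
    F.n 0 = σ 1 • (F.p 0 - F.p 1) + σ 2 • (F.p 0 - F.p 2) - F.n 1 - F.n 2 := by
  rw [← sub_eq_zero]
  have e1 : ∀ i x, B (F.n 0) (F.e i x) = 0 := fun i x => by rw [F.symm, F.en]
  have e2 : ∀ j k i x, B (F.p j - F.p k) (F.e i x) = 0 := fun j k i x => by rw [F.symm, F.ep]
  have e3 : ∀ j i x, B (F.n j) (F.e i x) = 0 := fun j i x => by rw [F.symm, F.en]
  have e4 : ∀ j k i, B (F.n i) (F.p j - F.p k) = B (F.p j - F.p k) (F.n i) := fun j k i => F.symm _ _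
  refine F.eq_zero h _ ?_ ?_ ?_ ?_ ?_
  · intro i x
    simp only [map_sub, map_add, map_smul, LinearMap.sub_apply, LinearMap.add_apply,
      LinearMap.smul_apply, e1, e3]
    have := e2 0 1 i x
    have h' := e2 0 2 i x
    simp only [map_sub, LinearMap.sub_apply] at this h'
    rw [this, h']
    simp
  all_goals
    simp only [LinearMap.map_sub₂, LinearMap.map_add₂, LinearMap.map_smul₂]
  · rw [e4, F.pn 0 1 (by decide), e4, F.pn' 0 1 (by decide), e4,
      F.pn'' 2 0 1 (by decide) (by decide)]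
    have := F.pp 0 1 0 1
    have h' := F.pp 0 2 0 1
    simp only [LinearMap.map_sub₂] at this h'
    rw [this, h']
    simp
  · rw [e4, F.pn 0 2 (by decide), e4, F.pn'' 1 0 2 (by decide) (by decide), e4,
      F.pn' 0 2 (by decide)]
    have := F.pp 0 1 0 2
    have h' := F.pp 0 2 0 2
    simp only [LinearMap.map_sub₂] at this h'
    rw [this, h']
    simp
  · rw [F.nn' 0 1 (by decide), F.nn, F.nn' 2 1 (by decide)]
    have := F.pn' 0 1 (by decide)
    have h' := F.pn'' 1 0 2 (by decide) (by decide)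
    simp only [LinearMap.map_sub₂] at this h'
    rw [this, h']
    simp
  · rw [F.nn' 0 2 (by decide), F.nn, F.nn' 1 2 (by decide)]
    have := F.pn'' 2 0 1 (by decide) (by decide)
    have h' := F.pn' 0 2 (by decide)
    simp only [LinearMap.map_sub₂] at this h'
    rw [this, h']
    simp

theorem map_single (i : Fin 3) (y : Vec (m i)) : F.map (Pi.single i y, 0) = F.e i y := by
  rw [F.map_apply]
  simp only [Pi.zero_apply, zero_smul, add_zero]
  rw [Finset.sum_eq_single i]
  · rw [Pi.single_eq_same]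
  · intro j _ hj
    rw [Pi.single_eq_of_ne hj, map_zero]
  · simp

theorem map_nvec [FiniteDimensional ℝ V] (h : Module.finrank ℝ V = ∑ i, m i + 4) (i : Fin 3) :
    F.map (nvec m σ i) = F.n i := by
  rw [F.map_apply]
  fin_cases i
  · change _ = F.n 0
    rw [F.n0_eq h]
    simp [nvec]
    abel
  · simp [nvec]
  · simp [nvec]

theorem map_pvec (i j : Fin 3) : F.map (pvec m i - pvec m j) = F.p i - F.p j := by
  rw [F.map_apply]
  fin_cases i <;> fin_cases j <;> simp [pvec]

/-- The point of the space form with centre data of the frame. -/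
noncomputable def pt (i : Fin 3) (y : Vec (m i)) : V :=
  F.p i + (1 + σ i * ‖y‖ ^ 2 / 4)⁻¹ • (F.e i y + (‖y‖ ^ 2 / 2) • F.n i)

theorem map_apt [FiniteDimensional ℝ V] (h : Module.finrank ℝ V = ∑ i, m i + 4) (i j : Fin 3)
    (y : Vec (m i)) (y' : Vec (m j)) :
    F.map (apt m σ i y - apt m σ j y') = F.pt i y - F.pt j y' := by
  unfold apt pt
  rw [add_sub_add_comm, map_add, F.map_pvec, map_sub, map_smul, map_smul, map_add, map_add,
    map_smul, map_smul, F.map_single, F.map_single, F.map_nvec h, F.map_nvec h]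
  abel

include F in
theorem sum_σ [FiniteDimensional ℝ V] (h : Module.finrank ℝ V = ∑ i, m i + 4) : ∑ i, σ i = 0 := by
  have h1 : B (F.n 0) (F.n 0) = -σ 1 - σ 2 := by
    rw [← F.map_nvec h 0, F.B_map, BN_apply]
    simp [nvec]
    ring
  rw [F.nn] at h1
  rw [Fin.sum_univ_three, h1]
  ring

/-! ### Vectors of the subspaces `V_i` -/

/-- the vector `e_i x + s n_i` -/
noncomputable def w (i : Fin 3) (x : Vec (m i)) (s : ℝ) : V := F.e i x + s • F.n i

theorem B_w_w (i : Fin 3) (x y : Vec (m i)) (s t : ℝ) :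
    B (F.w i x s) (F.w i y t) = ⟪x, y⟫_ℝ + s * t * σ i := by
  unfold w
  simp only [map_add, map_smul, LinearMap.add_apply, LinearMap.smul_apply, F.ee, F.en, F.nn]
  rw [F.symm (F.n i) (F.e i y), F.en]
  simp only [smul_eq_mul]
  ring

theorem B_w_w' (i j : Fin 3) (h : i ≠ j) (x : Vec (m i)) (y : Vec (m j)) (s t : ℝ) :
    B (F.w i x s) (F.w j y t) = 0 := by
  unfold w
  simp only [map_add, map_smul, LinearMap.add_apply, LinearMap.smul_apply, F.ee' i j h, F.en,
    F.nn' i j h]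
  rw [F.symm (F.n i) (F.e j y), F.en]
  simp

theorem B_p_w (i j : Fin 3) (h : i ≠ j) (x : Vec (m i)) (s : ℝ) :
    B (F.p i - F.p j) (F.w i x s) = -s := by
  unfold w
  simp only [map_add, map_smul]
  rw [F.symm _ (F.e i x), F.ep, F.pn i j h]
  simp

theorem B_p_w' (i j : Fin 3) (h : i ≠ j) (x : Vec (m j)) (s : ℝ) :
    B (F.p i - F.p j) (F.w j x s) = s := by
  unfold w
  simp only [map_add, map_smul]
  rw [F.symm _ (F.e j x), F.ep, F.pn' i j h]
  simp

theorem B_p_w'' (i j k : Fin 3) (h1 : j ≠ i) (h2 : k ≠ i) (x : Vec (m i)) (s : ℝ) :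
    B (F.p j - F.p k) (F.w i x s) = 0 := by
  unfold w
  simp only [map_add, map_smul]
  rw [F.symm _ (F.e i x), F.ep, F.pn'' i j k h1 h2]
  simp

/-- the inverse of the conformal factor -/
noncomputable def den (σ : Fin 3 → ℝ) (i : Fin 3) {k : ℕ} (y : Vec k) : ℝ :=
  1 + σ i * ‖y‖ ^ 2 / 4

theorem pt_eq (i : Fin 3) (y : Vec (m i)) : F.pt i y =
    F.p i + F.w i ((den σ i y)⁻¹ • y) ((den σ i y)⁻¹ * (‖y‖ ^ 2 / 2)) := by
  unfold pt w den
  rw [smul_add, map_smul, smul_smul]

/-- a polarisation identity -/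
theorem polar (hB : ∀ v w, B v w = B w v) (a b c d : V) (h1 : B (a - d) (a - d) = 0)
    (h2 : B (b - c) (b - c) = 0) (h3 : B (a - c) (a - c) = 0) (h4 : B (b - d) (b - d) = 0) :
    B (a - b) (c - d) = 0 := by
  simp only [map_sub, LinearMap.sub_apply] at *
  have e1 := hB d a
  have e2 := hB c b
  have e3 := hB c a
  have e4 := hB d b
  linarith

theorem null_aux (i j : Fin 3) (h : i ≠ j) (x : Vec (m i)) (y : Vec (m j)) (s t : ℝ)
    (hx : ‖x‖ ^ 2 + σ i * s ^ 2 = 2 * s) (hy : ‖y‖ ^ 2 + σ j * t ^ 2 = 2 * t) :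
    B ((F.p i + F.w i x s) - (F.p j + F.w j y t)) ((F.p i + F.w i x s) - (F.p j + F.w j y t)) =
      0 := by
  have e : (F.p i + F.w i x s) - (F.p j + F.w j y t) =
      (F.p i - F.p j) + F.w i x s - F.w j y t := by abel
  have h1 := F.pp i j i j
  have h2 := F.B_p_w i j h x s
  have h3 := F.B_p_w' i j h y t
  have h4 := F.B_w_w i x x s s
  have h5 := F.B_w_w j y y t t
  have h6 := F.B_w_w' i j h x y s t
  have h7 := F.B_w_w' j i h.symm y x t s
  have hs1 := F.symm (F.w i x s) (F.p i - F.p j)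
  have hs2 := F.symm (F.w j y t) (F.p i - F.p j)
  rw [real_inner_self_eq_norm_sq] at h4 h5
  rw [e]
  generalize F.p i - F.p j = P at *
  simp only [map_sub, map_add, LinearMap.sub_apply, LinearMap.add_apply]
  rw [hs1, hs2, h1, h2, h3, h4, h5, h6, h7]
  linarith

theorem den_aux (i : Fin 3) {k : ℕ} (y : Vec k) (h : den σ i y ≠ 0) :
    ‖(den σ i y)⁻¹ • y‖ ^ 2 + σ i * ((den σ i y)⁻¹ * (‖y‖ ^ 2 / 2)) ^ 2 =
      2 * ((den σ i y)⁻¹ * (‖y‖ ^ 2 / 2)) := by
  have h1 : (den σ i y)⁻¹ * den σ i y = 1 := inv_mul_cancel₀ h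
  rw [norm_smul, mul_pow, Real.norm_eq_abs, sq_abs]
  have h2 : den σ i y = 1 + σ i * ‖y‖ ^ 2 / 4 := rfl
  generalize (den σ i y)⁻¹ = d at *
  rw [h2] at h1
  linear_combination (d * ‖y‖ ^ 2) * h1

theorem pt_null (i j : Fin 3) (h : i ≠ j) (y : Vec (m i)) (y' : Vec (m j)) (hy : den σ i y ≠ 0)
    (hy' : den σ j y' ≠ 0) : B (F.pt i y - F.pt j y') (F.pt i y - F.pt j y') = 0 := by
  rw [F.pt_eq, F.pt_eq]
  exact F.null_aux i j h _ _ _ _ (den_aux i y hy) (den_aux j y' hy')

theorem B_pt_w (i j : Fin 3) (h : i ≠ j) (y x : Vec (m i)) (y' : Vec (m j)) (s : ℝ) :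
    B (F.pt i y - F.pt j y') (F.w i x s) = -s + (den σ i y)⁻¹ * ⟪y, x⟫_ℝ +
      (den σ i y)⁻¹ * (‖y‖ ^ 2 / 2) * s * σ i := by
  rw [F.pt_eq, F.pt_eq]
  have e : ∀ a b c d : V, (a + b) - (c + d) = (a - c) + b - d := fun a b c d => by abel
  rw [e, LinearMap.map_sub₂, LinearMap.map_add₂, F.B_p_w i j h, F.B_w_w, F.B_w_w' j i h.symm,
    inner_smul_left]
  simp only [RCLike.conj_to_real]
  ring

theorem B_pt_w' (i j k : Fin 3) (h1 : j ≠ i) (h2 : k ≠ i) (x : Vec (m i)) (y : Vec (m j))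
    (y' : Vec (m k)) (s : ℝ) : B (F.pt j y - F.pt k y') (F.w i x s) = 0 := by
  rw [F.pt_eq, F.pt_eq]
  have e : ∀ a b c d : V, (a + b) - (c + d) = (a - c) + b - d := fun a b c d => by abel
  rw [e, LinearMap.map_sub₂, LinearMap.map_add₂, F.B_p_w'' i j k h1 h2, F.B_w_w' j i h1,
    F.B_w_w' k i h2]
  ring

/-- permuted frame -/
def perm (π : Equiv.Perm (Fin 3)) : Frame B (fun i => m (π i)) (fun i => σ (π i)) where
  e := fun i => F.e (π i)
  p := fun i => F.p (π i)
  n := fun i => F.n (π i)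
  symm := F.symm
  ee := fun i x y => F.ee (π i) x y
  ee' := fun i j h x y => F.ee' (π i) (π j) (fun h' => h (π.injective h')) x y
  en := fun i j x => F.en (π i) (π j) x
  ep := fun i j k x => F.ep (π i) (π j) (π k) x
  nn := fun i => F.nn (π i)
  nn' := fun i j h => F.nn' (π i) (π j) (fun h' => h (π.injective h'))
  pn := fun i j h => F.pn (π i) (π j) (fun h' => h (π.injective h'))
  pp := fun i j k l => F.pp (π i) (π j) (π k) (π l)

/-- scaled frame -/
noncomputable def scale (c : ℝ) (hc : c ≠ 0) : Frame B m (fun i => c⁻¹ ^ 2 * σ i) where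
  e := F.e
  p := fun i => c • F.p i
  n := fun i => c⁻¹ • F.n i
  symm := F.symm
  ee := F.ee
  ee' := F.ee'
  en := fun i j x => by rw [map_smul, F.en, smul_zero]
  ep := fun i j k x => by rw [← smul_sub, map_smul, F.ep, smul_zero]
  nn := fun i => by
    rw [map_smul, LinearMap.map_smul₂, F.nn, smul_smul, smul_eq_mul]
    ring
  nn' := fun i j h => by rw [map_smul, LinearMap.map_smul₂, F.nn' i j h, smul_zero, smul_zero]
  pn := fun i j h => by
    rw [← smul_sub, map_smul, LinearMap.map_smul₂, F.pn i j h, smul_smul, smul_eq_mul]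
    field_simp
  pp := fun i j k l => by
    rw [← smul_sub, ← smul_sub, map_smul, LinearMap.map_smul₂, F.pp, smul_zero, smul_zero]

/-- The frame at another base point. -/
noncomputable def move (y : ∀ i, Vec (m i)) (h : ∀ i, den σ i (y i) ≠ 0) : Frame B m σ where
  e := fun i =>
    { toFun := fun x => F.w i (x - (σ i * ⟪y i, x⟫_ℝ / (2 * den σ i (y i))) • y i)
        (⟪y i, x⟫_ℝ / den σ i (y i))
      map_add' := fun x x' => by
        unfold w
        rw [inner_add_right]
        simp only [map_sub, map_add, map_smul]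
        module
      map_smul' := fun c x => by
        unfold w
        rw [inner_smul_right]
        simp only [map_sub, map_smul, RingHom.id_apply]
        module }
  p := fun i => F.pt i (y i)
  n := fun i => F.w i (-(σ i * (den σ i (y i))⁻¹) • y i)
    (1 - σ i * ((den σ i (y i))⁻¹ * (‖y i‖ ^ 2 / 2)))
  symm := F.symm
  ee := fun i x x' => by
    change B (F.w i _ _) (F.w i _ _) = _
    have h1 : (den σ i (y i))⁻¹ * den σ i (y i) = 1 := inv_mul_cancel₀ (h i)
    have h2 : den σ i (y i) = 1 + σ i * ‖y i‖ ^ 2 / 4 := rfl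
    rw [F.B_w_w]
    simp only [inner_sub_left, inner_sub_right, inner_smul_left, inner_smul_right,
      RCLike.conj_to_real, real_inner_self_eq_norm_sq, div_eq_mul_inv, mul_inv]
    rw [real_inner_comm (y i) x]
    generalize (den σ i (y i))⁻¹ = d at *
    rw [h2] at h1
    linear_combination (σ i * ⟪y i, x⟫_ℝ * ⟪y i, x'⟫_ℝ * d) * h1
  ee' := fun i j hij x x' => F.B_w_w' i j hij _ _ _ _
  en := fun i j x => by
    change B (F.w i _ _) (F.w j _ _) = _
    by_cases hij : i = j
    · subst hij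
      have h1 : (den σ i (y i))⁻¹ * den σ i (y i) = 1 := inv_mul_cancel₀ (h i)
      have h2 : den σ i (y i) = 1 + σ i * ‖y i‖ ^ 2 / 4 := rfl
      rw [F.B_w_w]
      simp only [inner_sub_left, inner_smul_left, inner_smul_right,
        RCLike.conj_to_real, real_inner_self_eq_norm_sq, div_eq_mul_inv, mul_inv]
      rw [real_inner_comm (y i) x]
      generalize (den σ i (y i))⁻¹ = d at *
      rw [h2] at h1
      ring
    · exact F.B_w_w' i j hij _ _ _ _
  ep := fun i j k x => by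
    change B (F.w i _ _) (F.pt j (y j) - F.pt k (y k)) = 0
    have key : ∀ k', k' ≠ i → B (F.pt i (y i) - F.pt k' (y k'))
        (F.w i (x - (σ i * ⟪y i, x⟫_ℝ / (2 * den σ i (y i))) • y i)
        (⟪y i, x⟫_ℝ / den σ i (y i))) = 0 := by
      intro k' hk
      rw [F.B_pt_w i k' (Ne.symm hk)]
      have h1 : (den σ i (y i))⁻¹ * den σ i (y i) = 1 := inv_mul_cancel₀ (h i)
      have h2 : den σ i (y i) = 1 + σ i * ‖y i‖ ^ 2 / 4 := rfl
      simp only [inner_sub_right, inner_smul_right, real_inner_self_eq_norm_sq, div_eq_mul_inv,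
        mul_inv]
      generalize (den σ i (y i))⁻¹ = d at *
      ring
    by_cases hj : j = i
    · by_cases hk : k = i
      · subst hj
        subst hk
        rw [sub_self, map_zero]
      · subst hj
        rw [F.symm]
        exact key k hk
    · by_cases hk : k = i
      · subst hk
        rw [F.symm, ← neg_sub, map_neg, LinearMap.neg_apply, key j hj, neg_zero]
      · rw [F.symm]
        exact F.B_pt_w' i j k hj hk _ _ _ _
  nn := fun i => by
    have h1 : (den σ i (y i))⁻¹ * den σ i (y i) = 1 := inv_mul_cancel₀ (h i)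
    have h2 : den σ i (y i) = 1 + σ i * ‖y i‖ ^ 2 / 4 := rfl
    rw [F.B_w_w]
    simp only [inner_smul_left, inner_smul_right,
        RCLike.conj_to_real, real_inner_self_eq_norm_sq]
    generalize (den σ i (y i))⁻¹ = d at *
    rw [h2] at h1
    linear_combination (σ i ^ 2 * ‖y i‖ ^ 2 * d) * h1
  nn' := fun i j hij => F.B_w_w' i j hij _ _ _ _
  pn := fun i j hij => by
    rw [F.B_pt_w i j hij]
    have h1 : (den σ i (y i))⁻¹ * den σ i (y i) = 1 := inv_mul_cancel₀ (h i)
    have h2 : den σ i (y i) = 1 + σ i * ‖y i‖ ^ 2 / 4 := rfl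
    simp only [inner_smul_right, real_inner_self_eq_norm_sq]
    generalize (den σ i (y i))⁻¹ = d at *
    rw [h2] at h1
    linear_combination (-σ i * ‖y i‖ ^ 2 * d) * h1
  pp := fun i j k l => by
    have key : ∀ a b, B (F.pt a (y a) - F.pt b (y b)) (F.pt a (y a) - F.pt b (y b)) = 0 := by
      intro a b
      by_cases hab : a = b
      · subst hab
        simp
      · exact F.pt_null a b hab _ _ (h a) (h b)
    exact polar F.symm _ _ _ _ (key i l) (key j k) (key i k) (key j l)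

end Frame

end Pool.Agent.R744.Lie
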