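import Pool.Agent.R744.LieEquiv

set_option autoImplicit false
set_option linter.unusedSectionVars false

namespace Pool.Agent.R744.Lie

open scoped ContDiff InnerProductSpace Topology

section

variable {E V : Type} [NormedAddCommGroup E] [NormedSpace ℝ E] [FiniteDimensional ℝ E]
  [NormedAddCommGroup V] [NormedSpace ℝ V] [FiniteDimensional ℝ V]
  {B : V →ₗ[ℝ] V →ₗ[ℝ] ℝ} {m : Fin 3 → ℕ} {σ : Fin 3 → ℝ} {U : Set E} {u₀ : E}
  {a : Fin 3 → E → V}

theorem fderiv_comb {c : Fin 3 → E → ℝ} {a : Fin 3 → E → V} {u : E}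
    (hc : ∀ l, DifferentiableAt ℝ (c l) u) (ha : ∀ l, DifferentiableAt ℝ (a l) u) (X : E) :
    fderiv ℝ (fun u => ∑ l, c l u • a l u) u X =
      ∑ l, fderiv ℝ (c l) u X • a l u + ∑ l, c l u • fderiv ℝ (a l) u X := by
  have hd : ∀ l ∈ Finset.univ, DifferentiableAt ℝ (fun u => c l u • a l u) u := fun l _ =>
    (hc l).smul (ha l)
  rw [fderiv_fun_sum hd, sum_apply, ← Finset.sum_add_distrib]
  refine Finset.sum_congr rfl fun l _ => ?_
  rw [fderiv_fun_smul (hc l) (ha l)]
  rw [add_apply, ContinuousLinearMap.smulRight_apply, smul_apply, add_comm]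

theorem fderiv_div_eq_zero {s t : E → ℝ} {u : E} (hs : DifferentiableAt ℝ s u)
    (ht : DifferentiableAt ℝ t u) (h0 : t u ≠ 0) {X : E} (h1 : fderiv ℝ s u X = 0)
    (h2 : fderiv ℝ t u X = 0) : fderiv ℝ (fun u => s u / t u) u X = 0 := by
  have h3 : HasFDerivAt (fun u => (t u)⁻¹) (-(t u ^ 2)⁻¹ • fderiv ℝ t u) u :=
    (hasDerivAt_inv h0).comp_hasFDerivAt u ht.hasFDerivAt
  have h4 := hs.hasFDerivAt.mul h3
  have e : (fun u => s u / t u) = s * fun u => (t u)⁻¹ := by
    funext v
    exact div_eq_mul_inv _ _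
  rw [e, h4.fderiv]
  simp [h1, h2]

/-- the data of a family of lines with a splitting into a part `k` and a part `ν` -/
structure LineData (B : V →ₗ[ℝ] V →ₗ[ℝ] ℝ) (U : Set E) (a : Fin 3 → E → V) (φs φt : V →ₗ[ℝ] ℝ)
    (k ν : E → V) : Prop where
  smooth_k : ContDiffOn ℝ ∞ k U
  smooth_ν : ContDiffOn ℝ ∞ ν U
  line : ∀ u ∈ U, Submodule.span ℝ {k u, ν u} = tripleLine a u
  sk : ∀ u ∈ U, φs (k u) = 1
  tk : ∀ u ∈ U, φt (k u) = 0
  sν : ∀ u ∈ U, φs (ν u) = 0
  tν : ∀ u ∈ U, φt (ν u) = 1

variable {φs φt : V →ₗ[ℝ] ℝ} {k ν : E → V}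

theorem LineData.eq_of_mem (h : LineData B U a φs φt k ν) {u : E} (hu : u ∈ U) {v : V}
    (hv : v ∈ tripleLine a u) : v = φs v • k u + φt v • ν u := by
  rw [← h.line u hu, Submodule.mem_span_pair] at hv
  obtain ⟨p, q, rfl⟩ := hv
  simp only [map_add, map_smul, h.sk u hu, h.tk u hu, h.sν u hu, h.tν u hu, smul_eq_mul]
  simp

theorem K_mem (a : Fin 3 → E → V) (u : E) (i : Fin 3) :
    a (i + 1) u - a (i + 2) u ∈ tripleLine a u := by
  have e : ∀ l, a l u = ∑ k, (Pi.single l 1 : Fin 3 → ℝ) k • a k u := by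
    intro l
    rw [Finset.sum_eq_single l]
    · simp
    · intro k _ hk
      rw [Pi.single_eq_of_ne hk, zero_smul]
    · simp
  refine mem_tripleLine.2 ⟨Pi.single (i + 1) 1 - Pi.single (i + 2) 1, ?_, ?_⟩
  · simp
  · rw [e (i + 1), e (i + 2), ← Finset.sum_sub_distrib]
    refine Finset.sum_congr rfl fun k _ => ?_
    rw [Pi.sub_apply, sub_smul]

theorem LineData.principal (h : LineData B U a φs φt k ν) {u : E} (T : Triple B U u a)
    {i : Fin 3} (ht : φt (a (i + 1) u - a (i + 2) u) ≠ 0) {X : E}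
    (hX : ∀ j, j ≠ i → fderiv ℝ (a j) u X = 0) :
    fderiv ℝ ν u X = -((φs (a (i + 1) u - a (i + 2) u) / φt (a (i + 1) u - a (i + 2) u)) •
      fderiv ℝ k u X) ∧
    fderiv ℝ (fun u => φs (a (i + 1) u - a (i + 2) u)) u X = 0 ∧
    fderiv ℝ (fun u => φt (a (i + 1) u - a (i + 2) u)) u X = 0 := by
  have e1 : i + 1 ≠ i := by
    fin_cases i <;> decide
  have e2 : i + 2 ≠ i := by
    fin_cases i <;> decide
  have hd : ∀ l, DifferentiableAt ℝ (a l) u := fun l => T.differentiableAt l T.mem
  have hK : DifferentiableAt ℝ (fun u => a (i + 1) u - a (i + 2) u) u := (hd _).sub (hd _)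
  have hdK : fderiv ℝ (fun u => a (i + 1) u - a (i + 2) u) u X = 0 := by
    rw [fderiv_fun_sub (hd _) (hd _), sub_apply, hX _ e1, hX _ e2, sub_self]
  have h1 : fderiv ℝ (fun u => φs (a (i + 1) u - a (i + 2) u)) u X = 0 := by
    rw [fderiv_linear φs hK, hdK, map_zero]
  have h2 : fderiv ℝ (fun u => φt (a (i + 1) u - a (i + 2) u)) u X = 0 := by
    rw [fderiv_linear φt hK, hdK, map_zero]
  refine ⟨?_, h1, h2⟩
  have hk := ContDiffOn.differentiableAt' h.smooth_k T.isOpen T.mem
  have hν := ContDiffOn.differentiableAt' h.smooth_ν T.isOpen T.mem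
  have hs : DifferentiableAt ℝ (fun u => φs (a (i + 1) u - a (i + 2) u)) u :=
    (LinearMap.toContinuousLinearMap φs).differentiableAt.comp u hK
  have ht' : DifferentiableAt ℝ (fun u => φt (a (i + 1) u - a (i + 2) u)) u :=
    (LinearMap.toContinuousLinearMap φt).differentiableAt.comp u hK
  have h3 : (fun u => a (i + 1) u - a (i + 2) u) =ᶠ[𝓝 u]
      fun u => φs (a (i + 1) u - a (i + 2) u) • k u + φt (a (i + 1) u - a (i + 2) u) • ν u := by
    filter_upwards [T.isOpen.mem_nhds T.mem] with v hv using h.eq_of_mem hv (K_mem a v i)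
  have h4 := congrArg (fun L => L X) (h3.fderiv_eq (𝕜 := ℝ))
  have h5 : DifferentiableAt ℝ (fun u => φs (a (i + 1) u - a (i + 2) u) • k u) u := hs.smul hk
  have h6 : DifferentiableAt ℝ (fun u => φt (a (i + 1) u - a (i + 2) u) • ν u) u := ht'.smul hν
  rw [hdK, fderiv_fun_add h5 h6, fderiv_fun_smul hs hk, fderiv_fun_smul ht' hν] at h4
  rw [add_apply, add_apply, add_apply, ContinuousLinearMap.smulRight_apply,
    ContinuousLinearMap.smulRight_apply, smul_apply, smul_apply, h1, h2, zero_smul, zero_smul,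
    add_zero, add_zero] at h4
  have h7 : φt (a (i + 1) u - a (i + 2) u) • fderiv ℝ ν u X =
      -(φs (a (i + 1) u - a (i + 2) u) • fderiv ℝ k u X) := by
    rw [eq_neg_iff_add_eq_zero, add_comm]
    exact h4.symm
  rw [div_eq_inv_mul, mul_smul, ← smul_neg, ← h7, smul_smul, inv_mul_cancel₀ ht, one_smul]

theorem LineData.immersion (h : LineData B U a φs φt k ν) {u : E} (T : Triple B U u a)
    {F : Frame B m σ} (hF : Adapted U u a F)
    (ht : ∀ i, φt (a (i + 1) u - a (i + 2) u) ≠ 0 ∨ ∀ X, fderiv ℝ (a i) u X = 0) {X : E}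
    (hX : fderiv ℝ k u X = 0) : X = 0 := by
  obtain ⟨U₁, hU₁, o1, m1, hc⟩ := exists_coeff T hF
  obtain ⟨c, hcs, hc2⟩ := hc k h.smooth_k fun v hv => by
    rw [← h.line v hv]
    exact Submodule.subset_span (by simp)
  have hd : ∀ l, DifferentiableAt ℝ (a l) u := fun l => T.differentiableAt l T.mem
  have hdc : ∀ l, DifferentiableAt ℝ (c l) u := fun l => ContDiffOn.differentiableAt' (hcs l) o1 m1
  have h1 : k =ᶠ[𝓝 u] fun u => ∑ l, c l u • a l u := by
    filter_upwards [o1.mem_nhds m1] with v hv using (hc2 v hv).2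
  rw [h1.fderiv_eq, fderiv_comb hdc hd] at hX
  have hsum : ∑ l, fderiv ℝ (c l) u X = 0 := by
    have h1 : (fun u => ∑ l, c l u) =ᶠ[𝓝 u] fun _ => 0 := by
      filter_upwards [o1.mem_nhds m1] with v hv using (hc2 v hv).1
    have h2 := congrArg (fun L => L X) (h1.fderiv_eq (𝕜 := ℝ))
    rw [fderiv_fun_sum (fun l _ => hdc l)] at h2
    rw [sum_apply] at h2
    rw [h2]
    simp
  refine T.inj X fun l => ?_
  have h2 : c l u = 0 ∨ fderiv ℝ (a l) u X = 0 := by
    refine T.comb_null (fun l => c l u) X ?_ l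
    have h3 : ∑ l, c l u • fderiv ℝ (a l) u X = ∑ l, (-fderiv ℝ (c l) u X) • a l u := by
      simp only [neg_smul, Finset.sum_neg_distrib]
      exact (neg_eq_of_add_eq_zero_right hX).symm
    rw [h3]
    refine null_of_mem_tripleLine T (mem_tripleLine.2 ⟨_, ?_, rfl⟩)
    rw [Finset.sum_neg_distrib, hsum, neg_zero]
  rcases h2 with h2 | h2
  · rcases ht l with h3 | h3
    · exfalso
      obtain ⟨h4, h5⟩ := hc2 u m1
      have h6 : k u = c (l + 1) u • (a (l + 1) u - a (l + 2) u) := by
        rw [h5]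
        rw [Fin.sum_univ_three] at h4 ⊢
        fin_cases l
        · simp at h2 ⊢
          have : c 2 u = -c 1 u := by linarith
          rw [h2, this]
          module
        · simp at h2 ⊢
          have : c 0 u = -c 2 u := by linarith
          rw [h2, this]
          change _ = c 2 u • (a 2 u - a 0 u)
          module
        · simp at h2 ⊢
          have : c 1 u = -c 0 u := by linarith
          rw [h2, this]
          change _ = c 0 u • (a 0 u - a 1 u)
          module
      have h7 := h.tk u T.mem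
      have h8 := h.sk u T.mem
      rw [h6, map_smul, smul_eq_mul] at h7 h8
      rcases mul_eq_zero.1 h7 with h9 | h9
      · rw [h9, zero_mul] at h8
        exact zero_ne_one h8
      · exact h3 h9
    · exact h3 X
  · exact h2

/-- The hypersurface defined by a line family is immersed and proper Dupin. -/
theorem dupin_of_model {g : ℕ} (ι : Fin g → Fin 3) (hι : Function.Injective ι) (F : Frame B m σ)
    {ψ : E → ∀ i, Vec (m i)} (hU : IsOpen U) (hψ : IsDiffeo U ψ)
    (hden : ∀ u ∈ U, ∀ i, 0 < 1 + σ i * ‖ψ u i‖ ^ 2 / 4)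
    (ha : a = fun i u => F.pt i (ψ u i))
    (h : LineData B U a φs φt k ν)
    (hpos : ∀ i, 1 ≤ m (ι i)) (hz : ∀ l, (∀ i, ι i ≠ l) → m l = 0)
    (ht : ∀ u ∈ U, ∀ i, φt (a (ι i + 1) u - a (ι i + 2) u) ≠ 0) :
    (∀ u ∈ U, ∀ X, fderiv ℝ k u X = 0 → X = 0) ∧
    ∃ κ : Fin g → E → ℝ, (∀ i, ContDiffOn ℝ ∞ (κ i) U) ∧ ∀ u ∈ U,
      (Function.Injective fun i => κ i u) ∧
      (∀ i, ∃ X, X ≠ 0 ∧ fderiv ℝ ν u X = -(κ i u • fderiv ℝ k u X)) ∧
      (∀ X, ∃ Y : Fin g → E, ∑ i, Y i = X ∧
        ∀ i, fderiv ℝ ν u (Y i) = -(κ i u • fderiv ℝ k u (Y i))) ∧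
      ∀ i X, fderiv ℝ ν u X = -(κ i u • fderiv ℝ k u X) → fderiv ℝ (κ i) u X = 0 := by
  have T : ∀ u ∈ U, Triple B U u a := fun u hu => by
    rw [ha]
    exact model_triple F hU hu hψ hden
  have hF : ∀ u (hu : u ∈ U), Adapted U u a (F.move (ψ u) (Frame.pos_ne (hden u hu))) :=
    fun u hu => by
      rw [ha]
      exact model_adapted F hU hu hψ hden
  have hI : ∀ u ∈ U, Indep a u := fun u hu => by
    rw [ha]
    exact model_indep F hden hu
  have hS : ∀ u ∈ U, Splits a u := fun u hu => by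
    rw [ha]
    exact model_splits F hU hψ hden hu
  have hN : ∀ u ∈ U, ∀ i, ∃ X, (∀ j, j ≠ ι i → fderiv ℝ (a j) u X = 0) ∧
      fderiv ℝ (a (ι i)) u X ≠ 0 := fun u hu i => by
    rw [ha]
    exact model_ne F hU hψ hden hu (ι i) (hpos i)
  have hZ : ∀ l, (∀ i, ι i ≠ l) → ∀ u ∈ U, ∀ X, fderiv ℝ (a l) u X = 0 := by
    intro l hl u hu X
    obtain ⟨y, hy⟩ := (hF u hu).fderiv_eq l X
    have : y = 0 := by
      have hml := hz l hl
      ext i
      exact (Fin.elim0 (hml ▸ i))
    rw [hy, this, map_zero]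
  have himm : ∀ u ∈ U, ∀ X, fderiv ℝ k u X = 0 → X = 0 := by
    intro u hu X hX
    refine h.immersion (T u hu) (hF u hu) (fun i => ?_) hX
    by_cases hi : ∃ j, ι j = i
    · obtain ⟨j, rfl⟩ := hi
      exact Or.inl (ht u hu j)
    · push Not at hi
      exact Or.inr (hZ i hi u hu)
  refine ⟨himm, fun i u => φs (a (ι i + 1) u - a (ι i + 2) u) / φt (a (ι i + 1) u - a (ι i + 2) u),
    ?_, ?_⟩
  · intro i
    have h1 : ContDiffOn ℝ ∞ (fun u => a (ι i + 1) u - a (ι i + 2) u) U := by
      rcases U.eq_empty_or_nonempty with h0 | ⟨u, hu⟩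
      · rw [h0]
        exact contDiffOn_empty
      · exact ((T u hu).smooth _).sub ((T u hu).smooth _)
    exact (contDiffOn_linear φs h1).div (contDiffOn_linear φt h1) fun u hu => ht u hu i
  · intro u hu
    have hinj : Function.Injective fun i =>
        φs (a (ι i + 1) u - a (ι i + 2) u) / φt (a (ι i + 1) u - a (ι i + 2) u) := by
      intro i j hij
      by_contra hne
      simp only at hij
      rw [div_eq_div_iff (ht u hu i) (ht u hu j)] at hij
      have h1 := h.eq_of_mem hu (K_mem a u (ι i))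
      have h2 := h.eq_of_mem hu (K_mem a u (ι j))
      have h3 : φt (a (ι j + 1) u - a (ι j + 2) u) • (a (ι i + 1) u - a (ι i + 2) u) =
          φt (a (ι i + 1) u - a (ι i + 2) u) • (a (ι j + 1) u - a (ι j + 2) u) := by
        generalize φs (a (ι i + 1) u - a (ι i + 2) u) = p at *
        generalize φt (a (ι i + 1) u - a (ι i + 2) u) = q at *
        generalize φs (a (ι j + 1) u - a (ι j + 2) u) = r at *
        generalize φt (a (ι j + 1) u - a (ι j + 2) u) = s at *
        rw [h1, h2, smul_add, smul_add, smul_smul, smul_smul, smul_smul, smul_smul]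
        congr 1
        · congr 1
          linarith
        · congr 1
          ring
      have h4 := hI u hu (fun l => φt (a (ι j + 1) u - a (ι j + 2) u) * sgn (ι i) l -
        φt (a (ι i + 1) u - a (ι i + 2) u) * sgn (ι j) l)
      have hne' : ι i ≠ ι j := fun h => hne (hι h)
      have hti := ht u hu i
      generalize φt (a (ι i + 1) u - a (ι i + 2) u) = q at *
      generalize φt (a (ι j + 1) u - a (ι j + 2) u) = s at *
      generalize ι i = x at *
      generalize ι j = y at *
      have h5 := h4 (by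
        rw [Fin.sum_univ_three]
        fin_cases x <;> fin_cases y <;> simp [sgn] <;> ring) (by
        rw [Fin.sum_univ_three]
        rw [← sub_eq_zero] at h3
        fin_cases x <;> fin_cases y
        all_goals
          rw [← h3]
          simp [sgn]
          try module)
      have h50 := congrFun h5 0
      have h51 := congrFun h5 1
      have h52 := congrFun h5 2
      apply hti
      fin_cases x <;> fin_cases y <;> simp [sgn] at hne' h50 h51 h52 ⊢
      all_goals linarith
    have hdec : ∀ X, ∃ Y : Fin g → E, ∑ i, Y i = X ∧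
        ∀ i, ∀ j, j ≠ ι i → fderiv ℝ (a j) u (Y i) = 0 := by
      intro X
      obtain ⟨Y, hY, hY'⟩ := hS u hu X
      refine ⟨fun i => Y (ι i), ?_, fun i j hj => hY' (ι i) j hj⟩
      rw [← hY]
      refine Finset.sum_of_injOn ι hι.injOn (fun _ _ => Finset.mem_coe.2 (Finset.mem_univ _)) ?_
        (fun _ _ => rfl)
      intro l _ hl
      refine (T u hu).inj _ fun j => ?_
      by_cases hj : j = l
      · subst hj
        refine hZ j (fun i hi => hl ?_) u hu _
        exact ⟨i, by simp, hi⟩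
      · exact hY' l j hj
    refine ⟨hinj, ?_, ?_, ?_⟩
    · intro i
      obtain ⟨X, hX, hX'⟩ := hN u hu i
      exact ⟨X, fun h0 => hX' (by rw [h0, map_zero]), (h.principal (T u hu) (ht u hu i) hX).1⟩
    · intro X
      obtain ⟨Y, hY, hY'⟩ := hdec X
      exact ⟨Y, hY, fun i => (h.principal (T u hu) (ht u hu i) (hY' i)).1⟩
    · intro i X hX
      have hXi : ∀ j, j ≠ ι i → fderiv ℝ (a j) u X = 0 := by
        obtain ⟨Y, hY, hY'⟩ := hdec X
        have h1 : ∀ j, fderiv ℝ ν u (Y j) = _ := fun j =>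
          (h.principal (T u hu) (ht u hu j) (hY' j)).1
        have aux : ∀ r : Fin g → ℝ, fderiv ℝ ν u X = -(r i • fderiv ℝ k u X) →
            (∀ j, fderiv ℝ ν u (Y j) = -(r j • fderiv ℝ k u (Y j))) →
            ∑ l, (r i - r l) • Y l = 0 := by
          intro r hr1 hr2
          apply himm u hu
          rw [map_sum]
          simp only [sub_smul, map_sub, map_smul]
          rw [Finset.sum_sub_distrib, ← Finset.smul_sum, ← map_sum, hY, sub_eq_zero]
          rw [← neg_inj, ← hr1, ← Finset.sum_neg_distrib, ← hY, map_sum]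
          exact Finset.sum_congr rfl fun l _ => hr2 l
        have h2 := aux (fun l =>
          φs (a (ι l + 1) u - a (ι l + 2) u) / φt (a (ι l + 1) u - a (ι l + 2) u)) hX h1
        intro j hj
        by_cases hj' : ∃ l, ι l = j
        · obtain ⟨l, rfl⟩ := hj'
          have h3 := congrArg (fderiv ℝ (a (ι l)) u) h2
          rw [map_sum, map_zero, Finset.sum_eq_single l] at h3
          · rw [map_smul] at h3
            have h4 : fderiv ℝ (a (ι l)) u (Y l) = 0 := by
              refine (smul_eq_zero.1 h3).resolve_left ?_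
              intro h5
              have := hinj (sub_eq_zero.1 h5)
              exact hj (by rw [this])
            rw [← hY, map_sum]
            refine Finset.sum_eq_zero fun l' _ => ?_
            by_cases hl' : l' = l
            · rw [hl', h4]
            · exact hY' l' (ι l) fun h => hl' (hι h).symm
          · intro l' _ hl'
            rw [map_smul, hY' l' (ι l) (fun h => hl' (hι h).symm), smul_zero]
          · simp
        · push Not at hj'
          exact hZ j hj' u hu X
      obtain ⟨-, h1, h2⟩ := h.principal (T u hu) (ht u hu i) hXi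
      have hd : ∀ l, DifferentiableAt ℝ (a l) u := fun l => (T u hu).differentiableAt l hu
      have hK : DifferentiableAt ℝ (fun u => a (ι i + 1) u - a (ι i + 2) u) u := (hd _).sub (hd _)
      have hs : DifferentiableAt ℝ (fun u => φs (a (ι i + 1) u - a (ι i + 2) u)) u :=
        (LinearMap.toContinuousLinearMap φs).differentiableAt.comp u hK
      have ht' : DifferentiableAt ℝ (fun u => φt (a (ι i + 1) u - a (ι i + 2) u)) u :=
        (LinearMap.toContinuousLinearMap φt).differentiableAt.comp u hK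
      exact fderiv_div_eq_zero hs ht' (ht u hu i) h1 h2

end

end Pool.Agent.R744.Lie
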