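import Pool.Agent.R744.LieHyp

set_option autoImplicit false
set_option linter.unusedSectionVars false

namespace Pool.Agent.R744.Lie

open scoped ContDiff InnerProductSpace Topology

section

variable {E V : Type} [NormedAddCommGroup E] [NormedSpace ℝ E] [FiniteDimensional ℝ E]
  [NormedAddCommGroup V] [NormedSpace ℝ V] [FiniteDimensional ℝ V]
  {B : V →ₗ[ℝ] V →ₗ[ℝ] ℝ} {m : Fin 3 → ℕ} {σ : Fin 3 → ℝ} {U : Set E} {u₀ : E}
  {a : Fin 3 → E → V} {φs φt : V →ₗ[ℝ] ℝ} {k ν : E → V}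

theorem exists_lineData (T : Triple B U u₀ a)
    (hD : ∀ u ∈ U, φs (a 0 u - a 1 u) * φt (a 0 u - a 2 u) -
      φs (a 0 u - a 2 u) * φt (a 0 u - a 1 u) ≠ 0) : ∃ k ν, LineData B U a φs φt k ν := by
  have h1 : ContDiffOn ℝ ∞ (fun u => a 0 u - a 1 u) U := (T.smooth 0).sub (T.smooth 1)
  have h2 : ContDiffOn ℝ ∞ (fun u => a 0 u - a 2 u) U := (T.smooth 0).sub (T.smooth 2)
  have s1 := contDiffOn_linear φs h1
  have s2 := contDiffOn_linear φs h2
  have t1 := contDiffOn_linear φt h1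
  have t2 := contDiffOn_linear φt h2
  have hDs := ((s1.mul t2).sub (s2.mul t1)).inv hD
  refine ⟨fun u => (φs (a 0 u - a 1 u) * φt (a 0 u - a 2 u) -
      φs (a 0 u - a 2 u) * φt (a 0 u - a 1 u))⁻¹ • (φt (a 0 u - a 2 u) • (a 0 u - a 1 u) -
      φt (a 0 u - a 1 u) • (a 0 u - a 2 u)),
    fun u => (φs (a 0 u - a 1 u) * φt (a 0 u - a 2 u) -
      φs (a 0 u - a 2 u) * φt (a 0 u - a 1 u))⁻¹ • (φs (a 0 u - a 1 u) • (a 0 u - a 2 u) -
      φs (a 0 u - a 2 u) • (a 0 u - a 1 u)), ?_, ?_, ?_, ?_, ?_, ?_, ?_⟩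
  · exact hDs.smul ((t2.smul h1).sub (t1.smul h2))
  · exact hDs.smul ((s1.smul h2).sub (s2.smul h1))
  · intro u hu
    have hd := hD u hu
    unfold tripleLine
    generalize a 0 u - a 1 u = P at *
    generalize a 0 u - a 2 u = Q at *
    refine span_pair_eq ((φs P * φt Q - φs Q * φt P)⁻¹ * φt Q)
      (-((φs P * φt Q - φs Q * φt P)⁻¹ * φt P)) (-((φs P * φt Q - φs Q * φt P)⁻¹ * φs Q))
      ((φs P * φt Q - φs Q * φt P)⁻¹ * φs P) ?_ ?_ ?_
    · have e : (φs P * φt Q - φs Q * φt P)⁻¹ * φt Q * ((φs P * φt Q - φs Q * φt P)⁻¹ * φs P) -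
        -((φs P * φt Q - φs Q * φt P)⁻¹ * φt P) * -((φs P * φt Q - φs Q * φt P)⁻¹ * φs Q) =
        (φs P * φt Q - φs Q * φt P)⁻¹ * ((φs P * φt Q - φs Q * φt P)⁻¹ *
          (φs P * φt Q - φs Q * φt P)) := by ring
      rw [e, inv_mul_cancel₀ hd, mul_one]
      exact inv_ne_zero hd
    · module
    · module
  all_goals
    intro u hu
    have hd := inv_mul_cancel₀ (hD u hu)
    generalize a 0 u - a 1 u = P at *
    generalize a 0 u - a 2 u = Q at *
    generalize (φs P * φt Q - φs Q * φt P)⁻¹ = D at *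
    simp only [map_smul, map_sub, smul_eq_mul]
    linarith

/-- Isotropy of the line. -/
theorem LineData.iso (h : LineData B U a φs φt k ν) {u : E} (T : Triple B U u a) :
    B (k u) (k u) = 0 ∧ B (ν u) (ν u) = 0 ∧ B (k u) (ν u) = 0 := by
  have hk : k u ∈ tripleLine a u := by
    rw [← h.line u T.mem]
    exact Submodule.subset_span (by simp)
  have hν : ν u ∈ tripleLine a u := by
    rw [← h.line u T.mem]
    exact Submodule.subset_span (by simp)
  have h1 := null_of_mem_tripleLine T hk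
  have h2 := null_of_mem_tripleLine T hν
  have h3 := null_of_mem_tripleLine T (Submodule.add_mem _ hk hν)
  refine ⟨h1, h2, ?_⟩
  rw [map_add, LinearMap.map_add₂, LinearMap.map_add₂, h1, h2, T.symm (ν u) (k u)] at h3
  linarith

/-- The hypersurface in a vector space `H` obtained by a linear projection. -/
theorem hyp_of_model {H : Type} [NormedAddCommGroup H] [InnerProductSpace ℝ H]
    [FiniteDimensional ℝ H] {g : ℕ} (ι : Fin g → Fin 3)
    (hι : Function.Injective ι) (F : Frame B m σ)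
    {ψ : E → ∀ i, Vec (m i)} (hU : IsOpen U) (hψ : IsDiffeo U ψ)
    (hden : ∀ u ∈ U, ∀ i, 0 < 1 + σ i * ‖ψ u i‖ ^ 2 / 4)
    (ha : a = fun i u => F.pt i (ψ u i))
    (h : LineData B U a φs φt k ν)
    (hpos : ∀ i, 1 ≤ m (ι i)) (hz : ∀ l, (∀ i, ι i ≠ l) → m l = 0)
    (ht : ∀ u ∈ U, ∀ i, φt (a (ι i + 1) u - a (ι i + 2) u) ≠ 0) (p : V →ₗ[ℝ] H)
    (star : ∀ u ∈ U, ∀ v, φs v = 0 → φt v = 0 → B v (k u) = 0 → p v = 0 → v = 0)
    (star2 : ∀ u ∈ U, ∀ v, φs v = 0 → φt v = 0 → B v (ν u) = ⟪p v, p (ν u)⟫_ℝ)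
    (unit : ∀ u ∈ U, ‖p (ν u)‖ = 1) :
    IsImmersedWithNormal U (fun u => p (k u)) (fun u => p (ν u)) ∧
      IsProperDupin g U (fun u => p (k u)) (fun u => p (ν u)) := by
  have T : ∀ u ∈ U, Triple B U u a := fun u hu => by
    rw [ha]
    exact model_triple F hU hu hψ hden
  obtain ⟨himm, κ, hκ, hprop⟩ := dupin_of_model ι hι F hU hψ hden ha h hpos hz ht
  have hk : ∀ u ∈ U, DifferentiableAt ℝ k u := fun u hu =>
    ContDiffOn.differentiableAt' h.smooth_k hU hu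
  have hν : ∀ u ∈ U, DifferentiableAt ℝ ν u := fun u hu =>
    ContDiffOn.differentiableAt' h.smooth_ν hU hu
  have dp : ∀ u ∈ U, ∀ X, fderiv ℝ (fun u => p (k u)) u X = p (fderiv ℝ k u X) := fun u hu X =>
    fderiv_linear p (hk u hu) X
  have dp' : ∀ u ∈ U, ∀ X, fderiv ℝ (fun u => p (ν u)) u X = p (fderiv ℝ ν u X) := fun u hu X =>
    fderiv_linear p (hν u hu) X
  have dsk : ∀ u ∈ U, ∀ X, φs (fderiv ℝ k u X) = 0 := fun u hu X => by
    rw [← fderiv_linear φs (hk u hu) X]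
    exact Triple.fderiv_eq_zero_of_eqOn hU hu h.sk X
  have dtk : ∀ u ∈ U, ∀ X, φt (fderiv ℝ k u X) = 0 := fun u hu X => by
    rw [← fderiv_linear φt (hk u hu) X]
    exact Triple.fderiv_eq_zero_of_eqOn hU hu h.tk X
  have dsν : ∀ u ∈ U, ∀ X, φs (fderiv ℝ ν u X) = 0 := fun u hu X => by
    rw [← fderiv_linear φs (hν u hu) X]
    exact Triple.fderiv_eq_zero_of_eqOn hU hu h.sν X
  have dtν : ∀ u ∈ U, ∀ X, φt (fderiv ℝ ν u X) = 0 := fun u hu X => by
    rw [← fderiv_linear φt (hν u hu) X]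
    exact Triple.fderiv_eq_zero_of_eqOn hU hu h.tν X
  have Bkk : ∀ u ∈ U, ∀ X, B (fderiv ℝ k u X) (k u) = 0 := by
    intro u hu X
    have h1 := Triple.fderiv_eq_zero_of_eqOn hU hu (fun v hv => (h.iso (T v hv)).1) X
    rw [fderiv_B B (hk u hu) (hk u hu), (T u hu).symm (k u)] at h1
    linarith
  have Bkν' : ∀ u ∈ U, ∀ X, B (k u) (fderiv ℝ ν u X) + B (fderiv ℝ k u X) (ν u) = 0 := by
    intro u hu X
    have h1 := Triple.fderiv_eq_zero_of_eqOn hU hu (fun v hv => (h.iso (T v hv)).2.2) X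
    rwa [fderiv_B B (hk u hu) (hν u hu)] at h1
  have Bkν : ∀ u ∈ U, ∀ X, B (fderiv ℝ k u X) (ν u) = 0 := by
    intro u hu X
    obtain ⟨Y, hY, hY'⟩ := (hprop u hu).2.2.1 X
    rw [← hY, map_sum, map_sum, LinearMap.sum_apply]
    refine Finset.sum_eq_zero fun i _ => ?_
    have h1 := Bkν' u hu (Y i)
    rw [hY' i, map_neg, map_smul, (T u hu).symm (k u), Bkk u hu] at h1
    simpa using h1
  have Bνk : ∀ u ∈ U, ∀ X, B (fderiv ℝ ν u X) (k u) = 0 := by
    intro u hu X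
    have h1 := Bkν' u hu X
    rw [Bkν u hu, add_zero] at h1
    rw [(T u hu).symm, h1]
  have prin : ∀ u ∈ U, ∀ c X, IsPrincipal (fun u => p (k u)) (fun u => p (ν u)) u c X ↔
      fderiv ℝ ν u X = -(c • fderiv ℝ k u X) := by
    intro u hu c X
    unfold IsPrincipal
    rw [dp u hu, dp' u hu]
    constructor
    · intro h1
      rw [← add_eq_zero_iff_eq_neg] at h1 ⊢
      refine star u hu _ ?_ ?_ ?_ ?_
      · rw [map_add, map_smul, dsν u hu, dsk u hu, smul_zero, add_zero]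
      · rw [map_add, map_smul, dtν u hu, dtk u hu, smul_zero, add_zero]
      · rw [LinearMap.map_add₂, LinearMap.map_smul₂, Bνk u hu, Bkk u hu, smul_zero, add_zero]
      · rw [map_add, map_smul, h1]
    · intro h1
      rw [h1, map_neg, map_smul]
  constructor
  · refine ⟨hU, contDiffOn_linear p h.smooth_k, contDiffOn_linear p h.smooth_ν, ?_, unit, ?_⟩
    · intro u hu
      rw [injective_iff_map_eq_zero]
      intro X hX
      rw [dp u hu] at hX
      exact himm u hu X (star u hu _ (dsk u hu X) (dtk u hu X) (Bkk u hu X) hX)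
    · intro u hu X
      rw [dp u hu, ← star2 u hu _ (dsk u hu X) (dtk u hu X), Bkν u hu]
  · refine ⟨κ, hκ, fun u hu => ?_⟩
    obtain ⟨h1, h2, h3, h4⟩ := hprop u hu
    refine ⟨h1, ?_, ?_, ?_⟩
    · intro i
      obtain ⟨X, hX, hX'⟩ := h2 i
      exact ⟨X, hX, (prin u hu _ X).2 hX'⟩
    · intro X
      obtain ⟨Y, hY, hY'⟩ := h3 X
      exact ⟨Y, hY, fun i => (prin u hu _ _).2 (hY' i)⟩
    · intro i X hX
      exact h4 i X ((prin u hu _ X).1 hX)

end

end Pool.Agent.R744.Lie
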