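import Pool.Agent.R744.LieOrtho

set_option autoImplicit false
set_option linter.unusedSectionVars false

namespace Pool.Agent.R744.Lie

open scoped ContDiff InnerProductSpace Topology

section General

variable {V : Type} [NormedAddCommGroup V] [NormedSpace ℝ V] [FiniteDimensional ℝ V]
  {B : V →ₗ[ℝ] V →ₗ[ℝ] ℝ} {m : Fin 3 → ℕ} {σ : Fin 3 → ℝ}

/-- derivative of the parametrisation of the space form -/
theorem Frame.hasFDerivAt_pt (F : Frame B m σ) (i : Fin 3) (y : ∀ i, Vec (m i))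
    (h : ∀ i, Frame.den σ i (y i) ≠ 0) :
    HasFDerivAt (F.pt i) ((Frame.den σ i (y i))⁻¹ •
      LinearMap.toContinuousLinearMap ((F.move y h).e i)) (y i) := by
  have h1 : HasFDerivAt (fun x : Vec (m i) => ‖x‖ ^ 2) (2 • (innerSL ℝ (y i))) (y i) :=
    (hasStrictFDerivAt_norm_sq (y i)).hasFDerivAt
  have h2 : HasFDerivAt (fun x : Vec (m i) => Frame.den σ i x) ((σ i / 2) • innerSL ℝ (y i))
      (y i) := by
    have h2 := (h1.const_mul (σ i / 4)).const_add 1
    have e : (fun x : Vec (m i) => Frame.den σ i x) = fun x => 1 + σ i / 4 * ‖x‖ ^ 2 := by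
      funext x
      unfold Frame.den
      ring
    rw [e]
    refine h2.congr_fderiv ?_
    ext x
    simp
    ring
  have h3 := (hasDerivAt_inv (h i)).comp_hasFDerivAt (y i) h2
  have h4 : HasFDerivAt (fun x : Vec (m i) => F.e i x)
      (LinearMap.toContinuousLinearMap (F.e i)) (y i) :=
    (LinearMap.toContinuousLinearMap (F.e i)).hasFDerivAt
  have h5 : HasFDerivAt (fun x : Vec (m i) => F.e i x + (‖x‖ ^ 2 / 2) • F.n i)
      (LinearMap.toContinuousLinearMap (F.e i) + (innerSL ℝ (y i)).smulRight (F.n i)) (y i) := by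
    have h5 := h4.add ((h1.const_mul (1 / 2)).smul_const (F.n i))
    have e : (fun x : Vec (m i) => F.e i x + (‖x‖ ^ 2 / 2) • F.n i) =
        (fun x => F.e i x) + fun x => (1 / 2 * ‖x‖ ^ 2) • F.n i := by
      funext x
      simp only [Pi.add_apply]
      congr 2
      ring
    rw [e]
    refine h5.congr_fderiv ?_
    ext x
    simp
  have h6 := (h3.smul h5).const_add (F.p i)
  refine (h6.congr_fderiv ?_)
  ext x
  have h7 : (Frame.den σ i (y i))⁻¹ * Frame.den σ i (y i) = 1 := inv_mul_cancel₀ (h i)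
  have h8 : Frame.den σ i (y i) = 1 + σ i * ‖y i‖ ^ 2 / 4 := rfl
  change _ = (Frame.den σ i (y i))⁻¹ • F.w i (x - (σ i * ⟪y i, x⟫_ℝ / (2 * Frame.den σ i (y i))) •
    y i) (⟪y i, x⟫_ℝ / Frame.den σ i (y i))
  unfold Frame.w
  simp only [Function.comp_apply, add_apply, smul_apply, ContinuousLinearMap.smulRight_apply,
    LinearMap.coe_toContinuousLinearMap', innerSL_apply_apply, smul_eq_mul, map_sub, map_smul,
    div_eq_mul_inv, mul_inv, smul_add, smul_sub, smul_smul, ← inv_pow]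
  generalize (Frame.den σ i (y i))⁻¹ = d at *
  rw [h8] at h7
  have e1 : d * ⟪y i, x⟫_ℝ + -(d ^ 2) * (σ i * 2⁻¹ * ⟪y i, x⟫_ℝ) * (‖y i‖ ^ 2 * 2⁻¹) =
      d * (⟪y i, x⟫_ℝ * d) := by
    linear_combination (-(d * ⟪y i, x⟫_ℝ)) * h7
  rw [← e1]
  module

variable {E : Type} [NormedAddCommGroup E] [NormedSpace ℝ E] [FiniteDimensional ℝ E]

theorem Frame.pos_ne {y : ∀ i, Vec (m i)} (h : ∀ i, 0 < 1 + σ i * ‖y i‖ ^ 2 / 4) (i : Fin 3) :
    Frame.den σ i (y i) ≠ 0 := (h i).ne'

theorem Frame.contDiffOn_pt (F : Frame B m σ) (i : Fin 3) :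
    ContDiffOn ℝ ∞ (F.pt i) {y | Frame.den σ i y ≠ 0} := by
  unfold Frame.pt
  refine contDiffOn_const.add (ContDiffOn.smul (ContDiffOn.inv ?_ fun y hy => hy) ?_)
  · refine ContDiff.contDiffOn ?_
    exact contDiff_const.add ((contDiff_const.mul (contDiff_norm_sq ℝ)).div_const 4)
  · refine ContDiff.contDiffOn ?_
    exact (LinearMap.toContinuousLinearMap (F.e i)).contDiff.add
      (((contDiff_norm_sq ℝ).div_const 2).smul contDiff_const)

variable {U : Set E} {u₀ : E} {ψ : E → ∀ i, Vec (m i)}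

theorem fderiv_pt_comp (F : Frame B m σ) (hU : IsOpen U) (hψ : IsDiffeo U ψ)
    (hden : ∀ u ∈ U, ∀ i, 0 < 1 + σ i * ‖ψ u i‖ ^ 2 / 4) {u : E} (hu : u ∈ U) (i : Fin 3) (X : E) :
    fderiv ℝ (fun u => F.pt i (ψ u i)) u X = (Frame.den σ i (ψ u i))⁻¹ •
      (F.move (ψ u) (Frame.pos_ne (hden u hu))).e i (fderiv ℝ ψ u X i) := by
  have h1 : DifferentiableAt ℝ ψ u := ContDiffOn.differentiableAt' hψ.smooth hU hu
  have h2 : HasFDerivAt (fun u => ψ u i) ((ContinuousLinearMap.proj i).comp (fderiv ℝ ψ u)) u :=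
    hasFDerivAt_pi'.1 h1.hasFDerivAt i
  have h3 := (F.hasFDerivAt_pt i (ψ u) (Frame.pos_ne (hden u hu))).comp u h2
  change fderiv ℝ (F.pt i ∘ fun u => ψ u i) u X = _
  rw [h3.fderiv]
  rfl

/-- The points of a model form a triple. -/
theorem model_triple (F : Frame B m σ) (hU : IsOpen U) (hu : u₀ ∈ U) (hψ : IsDiffeo U ψ)
    (hden : ∀ u ∈ U, ∀ i, 0 < 1 + σ i * ‖ψ u i‖ ^ 2 / 4) :
    Triple B U u₀ (fun i u => F.pt i (ψ u i)) where
  symm := F.symm
  isOpen := hU
  mem := hu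
  smooth := fun i => by
    refine (F.contDiffOn_pt i).comp (t := {y | Frame.den σ i y ≠ 0})
      ((contDiffOn_pi.1 hψ.smooth) i) fun u hu => ?_
    exact Frame.pos_ne (hden u hu) i
  null := fun i j hij u hu v hv =>
    F.pt_null i j hij _ _ (Frame.pos_ne (hden u hu) i) (Frame.pos_ne (hden v hv) j)
  pos := fun i X hX => by
    rw [fderiv_pt_comp F hU hψ hden hu] at hX ⊢
    rw [map_smul, LinearMap.map_smul₂, Frame.ee, real_inner_self_eq_norm_sq, smul_eq_mul,
      smul_eq_mul]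
    have h1 : fderiv ℝ ψ u₀ X i ≠ 0 := by
      intro h
      rw [h, map_zero, smul_zero] at hX
      exact hX rfl
    have h2 : 0 < (Frame.den σ i (ψ u₀ i))⁻¹ := inv_pos.2 (hden u₀ hu i)
    have h3 := norm_pos_iff.2 h1
    positivity
  inj := fun X hX => by
    have h1 : fderiv ℝ ψ u₀ X = 0 := by
      funext i
      have h2 := hX i
      rw [fderiv_pt_comp F hU hψ hden hu] at h2
      have h3 : (Frame.den σ i (ψ u₀ i))⁻¹ ≠ 0 := inv_ne_zero (Frame.pos_ne (hden u₀ hu) i)
      have h4 := (smul_eq_zero.1 h2).resolve_left h3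
      have h5 := (F.move (ψ u₀) (Frame.pos_ne (hden u₀ hu))).ee i (fderiv ℝ ψ u₀ X i)
        (fderiv ℝ ψ u₀ X i)
      rw [h4, map_zero] at h5
      exact inner_self_eq_zero.1 h5.symm
    exact (hψ.bijective u₀ hu).1 (by rw [h1, map_zero])

theorem model_adapted (F : Frame B m σ) (hU : IsOpen U) (hu : u₀ ∈ U) (hψ : IsDiffeo U ψ)
    (hden : ∀ u ∈ U, ∀ i, 0 < 1 + σ i * ‖ψ u i‖ ^ 2 / 4) :
    Adapted U u₀ (fun i u => F.pt i (ψ u i)) (F.move (ψ u₀) (Frame.pos_ne (hden u₀ hu))) where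
  p := fun i => rfl
  fderiv_eq := fun i X => by
    rw [fderiv_pt_comp F hU hψ hden hu]
    exact ⟨(Frame.den σ i (ψ u₀ i))⁻¹ • fderiv ℝ ψ u₀ X i, by rw [map_smul]⟩
  eq_fderiv := fun i y => by
    obtain ⟨X, hX⟩ := (hψ.bijective u₀ hu).2 (Pi.single i (Frame.den σ i (ψ u₀ i) • y))
    refine ⟨X, ?_⟩
    rw [fderiv_pt_comp F hU hψ hden hu, hX, Pi.single_eq_same, map_smul, smul_smul,
      inv_mul_cancel₀ (Frame.pos_ne (hden u₀ hu) i), one_smul]
  n := fun i j hij u hu' => by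
    change B _ (F.w j _ _) = 0
    rw [F.pt_eq, F.pt_eq]
    have e : ∀ a b c : V, (a + b) - (a + c) = b - c := fun a b c => by abel
    rw [e, LinearMap.map_sub₂, F.B_w_w' i j hij, F.B_w_w' i j hij, sub_zero]

end General

/-! ### Models of hypersurfaces of the sphere -/

section Sphere

variable {d : ℕ} {m : Fin 3 → ℕ} {σ : Fin 3 → ℝ} {f ξ : Vec d → Vec (d + 2)} {u₀ : Vec d}

theorem finrank_LS (d : ℕ) : Module.finrank ℝ (Vec (d + 2) × ℝ × ℝ) = d + 4 := by
  rw [Module.finrank_prod, Module.finrank_prod]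
  simp

/-- the line of a triple -/
noncomputable def tripleLine {E V : Type} [AddCommGroup V] [Module ℝ V] (a : Fin 3 → E → V)
    (u : E) : Submodule ℝ V := Submodule.span ℝ {a 0 u - a 1 u, a 0 u - a 2 u}

/-- The standard frame of the model space. -/
noncomputable def stdFrame (m : Fin 3 → ℕ) (σ : Fin 3 → ℝ) (h : ∑ i, σ i = 0) :
    Frame (BN m σ) m σ where
  e := fun i => LinearMap.inl ℝ _ _ ∘ₗ LinearMap.single ℝ (fun i => Vec (m i)) i
  p := pvec m
  n := nvec m σ
  symm := BN_symm m σ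
  ee := fun i x y => by
    rw [BN_apply]
    simp only [LinearMap.comp_apply, LinearMap.inl_apply, LinearMap.single_apply, Pi.zero_apply,
      mul_zero, add_zero]
    rw [Finset.sum_eq_single i]
    · simp
    · intro j _ hj
      rw [Pi.single_eq_of_ne hj, inner_zero_left]
    · simp
  ee' := fun i j hij x y => by
    rw [BN_apply]
    simp only [LinearMap.comp_apply, LinearMap.inl_apply, LinearMap.single_apply, Pi.zero_apply,
      mul_zero, add_zero]
    refine Finset.sum_eq_zero fun k _ => ?_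
    by_cases hk : k = i
    · subst hk
      rw [Pi.single_eq_of_ne hij, inner_zero_right]
    · rw [Pi.single_eq_of_ne hk, inner_zero_left]
  en := fun i j x => by
    rw [BN_apply]
    fin_cases j <;> simp [nvec]
  ep := fun i j k x => by
    rw [BN_apply]
    fin_cases j <;> fin_cases k <;> simp [pvec]
  nn := fun i => by
    rw [Fin.sum_univ_three] at h
    rw [BN_apply]
    fin_cases i
    · simp [nvec]
      linarith
    · simp [nvec]
    · simp [nvec]
  nn' := fun i j hij => by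
    rw [BN_apply]
    fin_cases i <;> fin_cases j <;> simp [nvec] at hij ⊢
  pn := fun i j hij => by
    rw [BN_apply]
    fin_cases i <;> fin_cases j <;> simp [nvec, pvec] at hij ⊢
  pp := fun i j k l => by
    rw [BN_apply]
    fin_cases i <;> fin_cases j <;> fin_cases k <;> fin_cases l <;> simp [pvec]

end Sphere

end Pool.Agent.R744.Lie
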