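import Pool.Agent.R744.LieTriple

set_option autoImplicit false
set_option linter.unusedSectionVars false
set_option linter.style.haveILetI false

namespace Pool.Agent.R744.Lie

open scoped ContDiff InnerProductSpace Topology

theorem exists_orthonormal_param {W : Type} [AddCommGroup W] [Module ℝ W] [FiniteDimensional ℝ W]
    (b : W →ₗ[ℝ] W →ₗ[ℝ] ℝ) (symm : ∀ v w, b v w = b w v) (pos : ∀ v, v ≠ 0 → 0 < b v v) :
    ∃ e : Vec (Module.finrank ℝ W) ≃ₗ[ℝ] W, ∀ x y, b (e x) (e y) = ⟪x, y⟫_ℝ := by
  let cd : InnerProductSpace.Core ℝ W :=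
    { inner := fun x y => b x y
      conj_inner_symm := fun x y => by
        simp only [RCLike.conj_to_real]
        exact symm y x
      re_inner_nonneg := fun x => by
        change 0 ≤ b x x
        by_cases h : x = 0
        · rw [h, map_zero]
        · exact (pos x h).le
      add_left := fun x y z => by
        change b (x + y) z = b x z + b y z
        rw [map_add, LinearMap.add_apply]
      smul_left := fun x y r => by
        change b (r • x) y = _ * b x y
        rw [map_smul, LinearMap.smul_apply]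
        simp
      definite := fun x h => by
        by_contra hx
        exact (pos x hx).ne' h }
  letI : NormedAddCommGroup W := cd.toNormedAddCommGroup
  letI : InnerProductSpace ℝ W := InnerProductSpace.ofCore cd.toCore
  let L := (stdOrthonormalBasis ℝ W).repr
  exact ⟨L.symm.toLinearEquiv, fun x y => L.symm.inner_map_map x y⟩

variable {E V : Type} [NormedAddCommGroup E] [NormedSpace ℝ E] [FiniteDimensional ℝ E]
  [NormedAddCommGroup V] [NormedSpace ℝ V] [FiniteDimensional ℝ V]

theorem exists_param_submodule (B : V →ₗ[ℝ] V →ₗ[ℝ] ℝ) (symm : ∀ v w, B v w = B w v)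
    (S : Submodule ℝ V) (pos : ∀ v ∈ S, v ≠ 0 → 0 < B v v) :
    ∃ e : Vec (Module.finrank ℝ S) →ₗ[ℝ] V, (∀ x, e x ∈ S) ∧ (∀ v ∈ S, ∃ x, e x = v) ∧
      ∀ x y, B (e x) (e y) = ⟪x, y⟫_ℝ := by
  obtain ⟨e, he⟩ := exists_orthonormal_param (W := S) (B.domRestrict₁₂ S S)
    (fun v w => symm v w) (fun v hv => pos v v.2 fun h => hv (Subtype.ext h))
  refine ⟨S.subtype ∘ₗ e.toLinearMap, fun x => (e x).2, fun v hv => ⟨e.symm ⟨v, hv⟩, ?_⟩,
    fun x y => he x y⟩
  simp

/-- Given a triple with non-zero tangent spaces, there is an adapted frame. -/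
theorem Triple.exists_frame {B : V →ₗ[ℝ] V →ₗ[ℝ] ℝ} {U : Set E} {u₀ : E} {a : Fin 3 → E → V}
    (T : Triple B U u₀ a) (hne : ∀ i, ∃ X, fderiv ℝ (a i) u₀ X ≠ 0)
    (hd : Module.finrank ℝ V = Module.finrank ℝ E + 4) :
    ∃ (m : Fin 3 → ℕ) (σ : Fin 3 → ℝ) (F : Frame B m σ), Adapted U u₀ a F ∧ (∀ i, 1 ≤ m i) ∧
      ∑ i, m i = Module.finrank ℝ E := by
  let S : Fin 3 → Submodule ℝ V := fun i => LinearMap.range (fderiv ℝ (a i) u₀).toLinearMap
  have hpos : ∀ i, ∀ v ∈ S i, v ≠ 0 → 0 < B v v := by
    rintro i v ⟨X, rfl⟩ hv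
    exact T.pos i X hv
  choose e he1 he2 he3 using fun i => exists_param_submodule B T.symm (S i) (hpos i)
  set m : Fin 3 → ℕ := fun i => Module.finrank ℝ (S i) with hm
  have hmem : ∀ i x, ∃ X, e i x = fderiv ℝ (a i) u₀ X := by
    intro i x
    obtain ⟨X, hX⟩ := he1 i x
    exact ⟨X, hX.symm⟩
  have hmem' : ∀ i X, ∃ x, fderiv ℝ (a i) u₀ X = e i x := by
    intro i X
    obtain ⟨x, hx⟩ := he2 i (fderiv ℝ (a i) u₀ X) ⟨X, rfl⟩
    exact ⟨x, hx.symm⟩
  -- points with non-null difference
  have hpt : ∀ i, ∃ u ∈ U, B (a i u - a i u₀) (a i u - a i u₀) ≠ 0 := by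
    intro i
    obtain ⟨X, hX⟩ := hne i
    have hr := T.pos i X hX
    by_contra hcon
    push Not at hcon
    have hl : HasDerivAt (fun s : ℝ => u₀ + s • X) X 0 := by
      have h1 := ((hasDerivAt_id (0 : ℝ)).smul_const X).const_add u₀
      simpa using h1
    have ha : HasDerivAt (fun s : ℝ => a i (u₀ + s • X)) (fderiv ℝ (a i) u₀ X) 0 := by
      have h1 : HasFDerivAt (a i) (fderiv ℝ (a i) u₀) (u₀ + (0 : ℝ) • X) := by
        rw [zero_smul, add_zero]
        exact (T.differentiableAt i T.mem).hasFDerivAt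
      exact h1.comp_hasDerivAt (0 : ℝ) hl
    rw [hasDerivAt_iff_tendsto_slope] at ha
    have hBc : Continuous fun v : V => B v v :=
      ((LinearMap.toContinuousBilinearMap B).isBoundedBilinearMap.continuous.comp
        (continuous_id.prodMk continuous_id))
    have h2 := (hBc.tendsto _).comp ha
    have hev : ∀ᶠ s : ℝ in 𝓝[≠] 0, ((fun v : V => B v v) ∘
        slope (fun s : ℝ => a i (u₀ + s • X)) 0) s = 0 := by
      have hU : ∀ᶠ s : ℝ in 𝓝 (0 : ℝ), u₀ + s • X ∈ U := by
        refine hl.continuousAt.eventually (T.isOpen.mem_nhds ?_)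
        change u₀ + (0 : ℝ) • X ∈ U
        rw [zero_smul, add_zero]
        exact T.mem
      filter_upwards [hU.filter_mono nhdsWithin_le_nhds] with s hs
      have h3 := hcon _ hs
      simp only [Function.comp_apply, slope_def_module, zero_smul, add_zero, sub_zero, map_smul,
        LinearMap.smul_apply, h3, smul_zero]
    have h4 := tendsto_nhds_unique (h2.congr' hev) tendsto_const_nhds
    linarith
  choose u huU hu using hpt
  set δ : Fin 3 → V := fun i => a i (u i) - a i u₀ with hδ
  -- projection
  have hproj : ∀ i, ∃ x : Vec (m i), ∀ y, B (δ i - e i x) (e i y) = 0 := by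
    intro i
    refine ⟨WithLp.toLp 2 fun k => B (δ i) (e i (EuclideanSpace.single k 1)), fun y => ?_⟩
    rw [LinearMap.map_sub₂, he3, PiLp.inner_apply, sub_eq_zero]
    have hy : y = ∑ k, y k • EuclideanSpace.single k (1 : ℝ) := by
      ext l
      simp [Pi.single_apply]
    conv_lhs => rw [hy, map_sum, map_sum]
    refine Finset.sum_congr rfl fun k _ => ?_
    rw [map_smul, map_smul]
    change y k * _ = y k * _
    rfl
  choose x hx using hproj
  -- orthogonality relations
  have o1 : ∀ i j, i ≠ j → ∀ y, B (δ i) (e j y) = 0 := by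
    intro i j hij y
    obtain ⟨X, hX⟩ := hmem j y
    rw [hX]
    exact T.orth_fderiv i j hij (huU i) T.mem T.mem X
  have o2 : ∀ i j, i ≠ j → B (δ i) (δ j) = 0 := fun i j hij =>
    T.orth i j hij (huU i) T.mem (huU j) T.mem
  have o3 : ∀ i j, i ≠ j → ∀ x y, B (e i x) (e j y) = 0 := by
    intro i j hij x y
    obtain ⟨X, hX⟩ := hmem i x
    obtain ⟨Y, hY⟩ := hmem j y
    rw [hX, hY]
    exact T.fderiv_orth_fderiv i j hij T.mem T.mem X Y
  have o4 : ∀ i j, i ≠ j → ∀ y, B (e i y) (a i u₀ - a j u₀) = 0 := by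
    intro i j hij y
    obtain ⟨X, hX⟩ := hmem i y
    rw [hX]
    exact T.fderiv_orth i j hij T.mem T.mem X
  have o5 : ∀ i j, i ≠ j → B (a i u₀ - a j u₀) (δ i) = -(B (δ i) (δ i) / 2) := by
    intro i j hij
    have h1 := T.null i j hij (u i) (huU i) u₀ T.mem
    have h2 := T.null i j hij u₀ T.mem u₀ T.mem
    have h3 : a i (u i) - a j u₀ = (a i u₀ - a j u₀) + δ i := by
      change a i (u i) - a j u₀ = (a i u₀ - a j u₀) + (a i (u i) - a i u₀)
      abel
    rw [h3] at h1
    generalize a i u₀ - a j u₀ = P at *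
    simp only [map_add, LinearMap.add_apply] at h1
    rw [T.symm (δ i) P] at h1
    linarith
  set n : Fin 3 → V := fun i => (2 / B (δ i) (δ i)) • (δ i - e i (x i)) with hn
  have hpnull : ∀ i j, B (a i u₀ - a j u₀) (a i u₀ - a j u₀) = 0 := by
    intro i j
    by_cases hij : i = j
    · rw [hij, sub_self, map_zero]
    · exact T.null i j hij u₀ T.mem u₀ T.mem
  let F : Frame B m (fun i => B (n i) (n i)) :=
    { e := e
      p := fun i => a i u₀
      n := n
      symm := T.symm
      ee := he3
      ee' := o3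
      en := fun i j y => by
        rw [hn]
        simp only [map_smul]
        by_cases hij : i = j
        · subst hij
          rw [T.symm (e i y), hx, smul_zero]
        · rw [map_sub _ (δ j) _, T.symm (e i y) (δ j), o1 j i (Ne.symm hij), o3 i j hij, sub_zero,
            smul_zero]
      ep := fun i j k y => by
        by_cases hj : j = i
        · by_cases hk : k = i
          · rw [hj, hk, sub_self, map_zero]
          · subst hj
            exact o4 _ k (Ne.symm hk) y
        · by_cases hk : k = i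
          · subst hk
            rw [← neg_sub, map_neg, o4 _ j (Ne.symm hj) y, neg_zero]
          · obtain ⟨X, hX⟩ := hmem i y
            rw [hX]
            exact T.fderiv_orth' i j k (Ne.symm hj) (Ne.symm hk) T.mem T.mem T.mem X
      nn := fun i => rfl
      nn' := fun i j hij => by
        rw [hn]
        simp only [map_smul, LinearMap.smul_apply, map_sub, LinearMap.sub_apply]
        rw [o2 i j hij, o3 i j hij, o1 i j hij, T.symm (e i (x i)) (δ j), o1 j i (Ne.symm hij)]
        simp
      pn := fun i j hij => by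
        rw [hn]
        simp only [map_smul, map_sub _ (δ i) _]
        rw [o5 i j hij, T.symm _ (e i (x i)), o4 i j hij, sub_zero, smul_eq_mul]
        have := hu i
        change B (δ i) (δ i) ≠ 0 at this
        field_simp
      pp := fun i j k l => Frame.polar T.symm _ _ _ _ (hpnull i l) (hpnull j k) (hpnull i k)
        (hpnull j l) }
  have hF : Adapted U u₀ a F :=
    { p := fun i => rfl
      fderiv_eq := hmem'
      eq_fderiv := hmem
      n := fun i j hij v hv => by
        change B _ ((2 / B (δ j) (δ j)) • (δ j - e j (x j))) = 0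
        obtain ⟨X, hX⟩ := hmem j (x j)
        rw [map_smul, map_sub _ (δ j) _, hX, T.orth_fderiv i j hij hv T.mem T.mem X,
          T.orth i j hij hv T.mem (huU j) T.mem, sub_zero, smul_zero] }
  refine ⟨m, _, F, hF, ?_, ?_⟩
  · intro i
    obtain ⟨X, hX⟩ := hne i
    have h1 : S i ≠ ⊥ := by
      intro h
      apply hX
      have h2 : fderiv ℝ (a i) u₀ X ∈ S i := ⟨X, rfl⟩
      rw [h] at h2
      exact (Submodule.mem_bot ℝ).1 h2
    exact Submodule.one_le_finrank_iff.2 h1
  · apply le_antisymm
    · have := F.finrank_le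
      omega
    · have h1 : Module.finrank ℝ E ≤ Module.finrank ℝ (∀ i, S i) := by
        refine LinearMap.finrank_le_finrank_of_injective (f := LinearMap.pi fun i =>
          (fderiv ℝ (a i) u₀).toLinearMap.rangeRestrict) ?_
        rw [injective_iff_map_eq_zero]
        intro X hX
        refine T.inj X fun i => ?_
        have h2 := congrFun hX i
        exact congrArg Subtype.val h2
      rw [Module.finrank_pi_fintype] at h1
      exact h1

end Pool.Agent.R744.Lie
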