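import Pool.Agent.R744.LieTube4

set_option autoImplicit false
set_option linter.unusedSectionVars false

namespace Pool.Agent.R744.Lie

open scoped ContDiff InnerProductSpace Topology

section

variable {E V : Type} [NormedAddCommGroup E] [NormedSpace ℝ E] [FiniteDimensional ℝ E]
  [NormedAddCommGroup V] [NormedSpace ℝ V] [FiniteDimensional ℝ V]

theorem const_on_segment {S : Set E} (hS : Convex ℝ S) (hSo : IsOpen S) {f : E → V}
    (hf : ContDiffOn ℝ ∞ f S) {y s : E} (hy : y ∈ S) (hys : y + s ∈ S)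
    (h : ∀ z ∈ S, fderiv ℝ f z s = 0) : f (y + s) = f y := by
  have hseg : ∀ t ∈ Set.Icc (0 : ℝ) 1, y + t • s ∈ S := by
    intro t ht
    have := hS hy hys (sub_nonneg.2 ht.2) ht.1 (by ring)
    have e : (1 - t) • y + t • (y + s) = y + t • s := by module
    rwa [e] at this
  have hd : ∀ t ∈ Set.Icc (0 : ℝ) 1, HasDerivAt (fun t : ℝ => f (y + t • s)) 0 t := by
    intro t ht
    have h1 : HasDerivAt (fun t : ℝ => y + t • s) s t := by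
      have h1 := ((hasDerivAt_id t).smul_const s).const_add y
      simpa using h1
    have h2 := (ContDiffOn.differentiableAt' hf hSo (hseg t ht)).hasFDerivAt
    have h3 := h2.comp_hasDerivAt t h1
    rw [h _ (hseg t ht)] at h3
    exact h3
  have h4 := constant_of_has_deriv_right_zero (f := fun t : ℝ => f (y + t • s)) (a := 0) (b := 1)
    (fun t ht => (hd t ht).continuousAt.continuousWithinAt)
    (fun t ht => (hd t ⟨ht.1, ht.2.le⟩).hasDerivWithinAt) 1 ⟨zero_le_one, le_rfl⟩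
  simpa using h4

theorem exists_section (D₁ D₂ : E →ₗ[ℝ] V)
    (hinj : ∀ X, D₁ X = 0 → D₂ X = 0 → X = 0) :
    ∃ L : V →ₗ[ℝ] E, (∀ X, D₂ X = 0 → L (D₁ X) = X) ∧ ∀ v, D₂ (L v) = 0 := by
  obtain ⟨g, hg⟩ := (D₁.domRestrict (LinearMap.ker D₂)).exists_leftInverse_of_injective (by
    rw [LinearMap.ker_eq_bot']
    intro X hX
    exact Subtype.ext (hinj X hX X.2))
  refine ⟨(LinearMap.ker D₂).subtype ∘ₗ g, ?_, ?_⟩
  · intro X hX
    have := congrArg (fun L => L (⟨X, hX⟩ : LinearMap.ker D₂)) hg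
    exact congrArg Subtype.val this
  · intro v
    exact (g v).2

theorem exists_product {U : Set E} (hU : IsOpen U) {w₀ : E} (hw : w₀ ∈ U) {K₁ K₂ : E → V}
    (h1 : ContDiffOn ℝ ∞ K₁ U) (h2 : ContDiffOn ℝ ∞ K₂ U)
    (hsplit : ∀ w ∈ U, ∀ X, ∃ Y₁ Y₂, Y₁ + Y₂ = X ∧ fderiv ℝ K₁ w Y₁ = 0 ∧ fderiv ℝ K₂ w Y₂ = 0)
    (hinj : ∀ w ∈ U, ∀ X, fderiv ℝ K₁ w X = 0 → fderiv ℝ K₂ w X = 0 → X = 0) :
    ∃ U' ⊆ U, IsOpen U' ∧ w₀ ∈ U' ∧ ∀ w ∈ U', ∀ w' ∈ U', ∃ w'' ∈ U,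
      K₁ w'' = K₁ w ∧ K₂ w'' = K₂ w' := by
  obtain ⟨L₁, hL₁, hL₁'⟩ := exists_section (fderiv ℝ K₁ w₀).toLinearMap
    (fderiv ℝ K₂ w₀).toLinearMap (hinj w₀ hw)
  obtain ⟨L₂, hL₂, hL₂'⟩ := exists_section (fderiv ℝ K₂ w₀).toLinearMap
    (fderiv ℝ K₁ w₀).toLinearMap (fun X h h' => hinj w₀ hw X h' h)
  have hd1 : ∀ w ∈ U, DifferentiableAt ℝ K₁ w := fun w hw => ContDiffOn.differentiableAt' h1 hU hw
  have hd2 : ∀ w ∈ U, DifferentiableAt ℝ K₂ w := fun w hw => ContDiffOn.differentiableAt' h2 hU hw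
  set Φ : E → E := fun w => L₁ (K₁ w) + L₂ (K₂ w) with hΦ
  have hΦs : ContDiffOn ℝ ∞ Φ U := (contDiffOn_linear L₁ h1).add (contDiffOn_linear L₂ h2)
  have hdΦ : ∀ w ∈ U, ∀ X, fderiv ℝ Φ w X = L₁ (fderiv ℝ K₁ w X) + L₂ (fderiv ℝ K₂ w X) := by
    intro w hw X
    have e1 : DifferentiableAt ℝ (fun w => L₁ (K₁ w)) w :=
      ContDiffOn.differentiableAt' (contDiffOn_linear L₁ h1) hU hw
    have e2 : DifferentiableAt ℝ (fun w => L₂ (K₂ w)) w :=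
      ContDiffOn.differentiableAt' (contDiffOn_linear L₂ h2) hU hw
    rw [hΦ, fderiv_fun_add e1 e2, add_apply, fderiv_linear L₁ (hd1 w hw),
      fderiv_linear L₂ (hd2 w hw)]
  set P₂ : E →ₗ[ℝ] E := L₁ ∘ₗ (fderiv ℝ K₁ w₀).toLinearMap with hP₂
  set P₁ : E →ₗ[ℝ] E := L₂ ∘ₗ (fderiv ℝ K₂ w₀).toLinearMap with hP₁
  have hid : ∀ X, P₂ X + P₁ X = X := by
    intro X
    obtain ⟨Y₁, Y₂, hY, hY1, hY2⟩ := hsplit w₀ hw X
    have e1 : P₂ X = Y₂ := by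
      rw [← hY, map_add]
      have : P₂ Y₁ = 0 := by
        change L₁ (fderiv ℝ K₁ w₀ Y₁) = 0
        rw [hY1, map_zero]
      rw [this, zero_add]
      exact hL₁ Y₂ hY2
    have e2 : P₁ X = Y₁ := by
      rw [← hY, map_add]
      have : P₁ Y₂ = 0 := by
        change L₂ (fderiv ℝ K₂ w₀ Y₂) = 0
        rw [hY2, map_zero]
      rw [this, add_zero]
      exact hL₂ Y₁ hY1
    rw [e1, e2, add_comm, hY]
  have hP₂L₂ : ∀ v, P₂ (L₂ v) = 0 := by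
    intro v
    change L₁ (fderiv ℝ K₁ w₀ (L₂ v)) = 0
    have : fderiv ℝ K₁ w₀ (L₂ v) = 0 := hL₂' v
    rw [this, map_zero]
  have hP₁L₁ : ∀ v, P₁ (L₁ v) = 0 := by
    intro v
    change L₂ (fderiv ℝ K₂ w₀ (L₁ v)) = 0
    have : fderiv ℝ K₂ w₀ (L₁ v) = 0 := hL₁' v
    rw [this, map_zero]
  have hP₂L₁ : ∀ v, P₂ (L₁ v) = L₁ v := by
    intro v
    have := hid (L₁ v)
    rwa [hP₁L₁, add_zero] at this
  have hP₁L₂ : ∀ v, P₁ (L₂ v) = L₂ v := by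
    intro v
    have := hid (L₂ v)
    rwa [hP₂L₂, zero_add] at this
  have hbij : Function.Bijective (fderiv ℝ Φ w₀) := by
    have : (fderiv ℝ Φ w₀ : E → E) = id := by
      funext X
      rw [hdΦ w₀ hw]
      exact hid X
    rw [this]
    exact Function.bijective_id
  obtain ⟨U₁, hU₁U, hU₁, hw₁, hdiff⟩ := exists_isDiffeo hU hw hΦs hbij
  obtain ⟨O, θ, hO, hyO, hθ, hθ0, hθ1⟩ := hdiff.exists_inverse hU₁ hw₁
  have hdθ : ∀ y ∈ O, ∀ s, fderiv ℝ Φ (θ y) (fderiv ℝ θ y s) = s := by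
    intro y hy s
    have e1 : DifferentiableAt ℝ θ y := ContDiffOn.differentiableAt' hθ.smooth hO hy
    have e2 : DifferentiableAt ℝ Φ (θ y) :=
      ContDiffOn.differentiableAt' hΦs hU (hU₁U (hθ1 y hy).1)
    have e3 : (fun y => Φ (θ y)) =ᶠ[𝓝 y] fun y => y := by
      filter_upwards [hO.mem_nhds hy] with z hz using (hθ1 z hz).2
    have e4 : fderiv ℝ (fun y => Φ (θ y)) y = (fderiv ℝ Φ (θ y)).comp (fderiv ℝ θ y) :=
      fderiv_comp y e2 e1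
    have e5 := congrArg (fun L => L s) (e3.fderiv_eq (𝕜 := ℝ))
    rw [e4] at e5
    simpa using e5
  have key1 : ∀ y ∈ O, ∀ s, P₂ s = 0 → fderiv ℝ (fun y => K₁ (θ y)) y s = 0 := by
    intro y hy s hs
    have hwU := hU₁U (hθ1 y hy).1
    have e1 : DifferentiableAt ℝ θ y := ContDiffOn.differentiableAt' hθ.smooth hO hy
    have e4 : fderiv ℝ (fun y => K₁ (θ y)) y = (fderiv ℝ K₁ (θ y)).comp (fderiv ℝ θ y) :=
      fderiv_comp y (hd1 _ hwU) e1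
    rw [e4, ContinuousLinearMap.comp_apply]
    have e5 := hdθ y hy s
    obtain ⟨Y₁, Y₂, hY, hY1, hY2⟩ := hsplit _ hwU (fderiv ℝ θ y s)
    rw [← hY, map_add, hY1, zero_add]
    rw [← hY, hdΦ _ hwU, map_add, map_add (fderiv ℝ K₂ _), hY1, hY2, zero_add, add_zero] at e5
    have e6 : L₁ (fderiv ℝ K₁ (θ y) Y₂) = 0 := by
      have := congrArg P₂ e5
      rwa [map_add, hP₂L₁, hP₂L₂, add_zero, hs] at this
    have e7 : fderiv ℝ Φ (θ y) Y₂ = 0 := by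
      rw [hdΦ _ hwU, e6, hY2, map_zero, add_zero]
    have e8 : Y₂ = 0 := (hdiff.bijective _ (hθ1 y hy).1).1 (by rw [e7, map_zero])
    rw [e8, map_zero]
  have key2 : ∀ y ∈ O, ∀ s, P₁ s = 0 → fderiv ℝ (fun y => K₂ (θ y)) y s = 0 := by
    intro y hy s hs
    have hwU := hU₁U (hθ1 y hy).1
    have e1 : DifferentiableAt ℝ θ y := ContDiffOn.differentiableAt' hθ.smooth hO hy
    have e4 : fderiv ℝ (fun y => K₂ (θ y)) y = (fderiv ℝ K₂ (θ y)).comp (fderiv ℝ θ y) :=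
      fderiv_comp y (hd2 _ hwU) e1
    rw [e4, ContinuousLinearMap.comp_apply]
    have e5 := hdθ y hy s
    obtain ⟨Y₁, Y₂, hY, hY1, hY2⟩ := hsplit _ hwU (fderiv ℝ θ y s)
    rw [← hY, map_add, hY2, add_zero]
    rw [← hY, hdΦ _ hwU, map_add, map_add (fderiv ℝ K₂ _), hY1, hY2, zero_add, add_zero] at e5
    have e6 : L₂ (fderiv ℝ K₂ (θ y) Y₁) = 0 := by
      have := congrArg P₁ e5
      rwa [map_add, hP₁L₁, hP₁L₂, zero_add, hs] at this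
    have e7 : fderiv ℝ Φ (θ y) Y₁ = 0 := by
      rw [hdΦ _ hwU, hY1, map_zero, zero_add, e6]
    have e8 : Y₁ = 0 := (hdiff.bijective _ (hθ1 y hy).1).1 (by rw [e7, map_zero])
    rw [e8, map_zero]
  obtain ⟨ε, hε, hball⟩ := Metric.isOpen_iff.1 hO _ hyO
  have hcont : ContinuousAt (fun p : E × E => P₂ p.1 + P₁ p.2) (Φ w₀, Φ w₀) := by
    have c1 : Continuous P₂ := P₂.continuous_of_finiteDimensional
    have c2 : Continuous P₁ := P₁.continuous_of_finiteDimensional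
    exact ((c1.comp continuous_fst).add (c2.comp continuous_snd)).continuousAt
  have hval : (fun p : E × E => P₂ p.1 + P₁ p.2) (Φ w₀, Φ w₀) = Φ w₀ := hid _
  have hnb : (fun p : E × E => P₂ p.1 + P₁ p.2) ⁻¹' Metric.ball (Φ w₀) ε ∈
      𝓝 (Φ w₀, Φ w₀) := by
    apply hcont
    rw [hval]
    exact Metric.ball_mem_nhds _ hε
  rw [nhds_prod_eq] at hnb
  obtain ⟨δ, hδ, hsub⟩ := (Metric.nhds_basis_ball.prod_self).mem_iff.1 hnb
  have hopen : IsOpen (U₁ ∩ Φ ⁻¹' (Metric.ball (Φ w₀) δ ∩ Metric.ball (Φ w₀) ε)) :=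
    (hΦs.mono hU₁U).continuousOn.isOpen_inter_preimage hU₁
      (Metric.isOpen_ball.inter Metric.isOpen_ball)
  refine ⟨U₁ ∩ Φ ⁻¹' (Metric.ball (Φ w₀) δ ∩ Metric.ball (Φ w₀) ε), fun w hw => hU₁U hw.1, hopen,
    ⟨hw₁, Metric.mem_ball_self hδ, Metric.mem_ball_self hε⟩, ?_⟩
  intro w hw w' hw'
  have hθw : ∀ w ∈ U₁ ∩ Φ ⁻¹' (Metric.ball (Φ w₀) δ ∩ Metric.ball (Φ w₀) ε), θ (Φ w) = w := by
    intro w hw
    have h3 := hθ1 _ (hball hw.2.2)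
    exact hdiff.injOn h3.1 hw.1 h3.2
  have hy'' : P₂ (Φ w) + P₁ (Φ w') ∈ Metric.ball (Φ w₀) ε :=
    hsub (Set.mk_mem_prod hw.2.1 hw'.2.1)
  refine ⟨θ (P₂ (Φ w) + P₁ (Φ w')), hU₁U (hθ1 _ (hball hy'')).1, ?_, ?_⟩
  · have e1 : P₂ (Φ w) + P₁ (Φ w') = Φ w + P₁ (Φ w' - Φ w) := by
      have e0 : Φ w + (P₁ (Φ w') - P₁ (Φ w)) =
          (P₂ (Φ w) + P₁ (Φ w)) + (P₁ (Φ w') - P₁ (Φ w)) := by rw [hid]
      rw [map_sub, e0]
      abel
    have e2 := const_on_segment (convex_ball (Φ w₀) ε) Metric.isOpen_ball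
      (f := fun y => K₁ (θ y)) ((h1.comp (hθ.smooth.mono hball)
        fun y hy => hU₁U (hθ1 y (hball hy)).1)) (y := Φ w) (s := P₁ (Φ w' - Φ w)) hw.2.2
      (by rw [← e1]; exact hy'') (fun z hz => key1 z (hball hz) _ (hP₂L₂ _))
    rw [← e1] at e2
    rw [e2, hθw w hw]
  · have e1 : P₂ (Φ w) + P₁ (Φ w') = Φ w' + P₂ (Φ w - Φ w') := by
      have e0 : Φ w' + (P₂ (Φ w) - P₂ (Φ w')) =
          (P₂ (Φ w') + P₁ (Φ w')) + (P₂ (Φ w) - P₂ (Φ w')) := by rw [hid]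
      rw [map_sub, e0]
      abel
    have e2 := const_on_segment (convex_ball (Φ w₀) ε) Metric.isOpen_ball
      (f := fun y => K₂ (θ y)) ((h2.comp (hθ.smooth.mono hball)
        fun y hy => hU₁U (hθ1 y (hball hy)).1)) (y := Φ w') (s := P₂ (Φ w - Φ w')) hw'.2.2
      (by rw [← e1]; exact hy'') (fun z hz => key2 z (hball hz) _ (hP₁L₁ _))
    rw [← e1] at e2
    rw [e2, hθw w' hw']

end

end Pool.Agent.R744.Lie
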