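import Pool.Agent.R744.LieHyp2

set_option autoImplicit false
set_option linter.unusedSectionVars false

namespace Pool.Agent.R744.Lie

open scoped ContDiff InnerProductSpace Topology

theorem exists_isometry {W : Type} [AddCommGroup W] [Module ℝ W] [FiniteDimensional ℝ W]
    (b : W →ₗ[ℝ] W →ₗ[ℝ] ℝ) (symm : ∀ v w, b v w = b w v) (pos : ∀ v, v ≠ 0 → 0 < b v v)
    (n : ℕ) (hn : Module.finrank ℝ W = n) :
    ∃ J : W →ₗ[ℝ] Vec n, ∀ x y, ⟪J x, J y⟫_ℝ = b x y := by
  subst hn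
  obtain ⟨e, he⟩ := exists_orthonormal_param b symm pos
  refine ⟨e.symm.toLinearMap, fun x y => ?_⟩
  rw [← he]
  simp

section Sphere

variable {d : ℕ} {m : Fin 3 → ℕ} {σ : Fin 3 → ℝ}

/-- first height coordinate -/
noncomputable def sS (H : Type) [NormedAddCommGroup H] [InnerProductSpace ℝ H] :
    (H × ℝ × ℝ) →ₗ[ℝ] ℝ := LinearMap.fst ℝ ℝ ℝ ∘ₗ LinearMap.snd ℝ H (ℝ × ℝ)

/-- second height coordinate -/
noncomputable def tS (H : Type) [NormedAddCommGroup H] [InnerProductSpace ℝ H] :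
    (H × ℝ × ℝ) →ₗ[ℝ] ℝ := LinearMap.snd ℝ ℝ ℝ ∘ₗ LinearMap.snd ℝ H (ℝ × ℝ)

theorem sphere_of_model {U : Set (Vec d)} {a : Fin 3 → Vec d → (Vec (d + 2) × ℝ × ℝ)}
    {k ν : Vec d → (Vec (d + 2) × ℝ × ℝ)} (F : Frame (BS (Vec (d + 2))) m σ)
    {ψ : Vec d → ∀ i, Vec (m i)} (hU : IsOpen U) (hψ : IsDiffeo U ψ)
    (hden : ∀ u ∈ U, ∀ i, 0 < 1 + σ i * ‖ψ u i‖ ^ 2 / 4)
    (ha : a = fun i u => F.pt i (ψ u i))
    (h : LineData (BS (Vec (d + 2))) U a (sS _) (tS _) k ν) (hpos : ∀ i, 1 ≤ m i)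
    (ht : ∀ u ∈ U, ∀ i, (tS _) (a (i + 1) u - a (i + 2) u) ≠ 0) :
    IsSphereHypersurface U (fun u => (k u).1) (fun u => (ν u).1) ∧
      IsProperDupin 3 U (fun u => (k u).1) (fun u => (ν u).1) ∧
      ∀ u ∈ U, liftS (fun u => (k u).1) (fun u => (ν u).1) u = tripleLine a u := by
  have T : ∀ u ∈ U, Triple (BS (Vec (d + 2))) U u a := fun u hu => by
    rw [ha]
    exact model_triple F hU hu hψ hden
  have h2 : ∀ v : Vec (d + 2) × ℝ × ℝ, (sS _) v = v.2.1 := fun v => rfl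
  have h3 : ∀ v : Vec (d + 2) × ℝ × ℝ, (tS _) v = v.2.2 := fun v => rfl
  have hν : ∀ u ∈ U, ‖(ν u).1‖ = 1 := by
    intro u hu
    have h1 := (h.iso (T u hu)).2.1
    rw [BS_self, qS, ← h2, ← h3, h.sν u hu, h.tν u hu] at h1
    have : ‖(ν u).1‖ ^ 2 = 1 := by linarith
    have h0 := norm_nonneg (ν u).1
    nlinarith
  have hk : ∀ u ∈ U, ‖(k u).1‖ = 1 := by
    intro u hu
    have h1 := (h.iso (T u hu)).1
    rw [BS_self, qS, ← h2, ← h3, h.sk u hu, h.tk u hu] at h1
    have : ‖(k u).1‖ ^ 2 = 1 := by linarith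
    have h0 := norm_nonneg (k u).1
    nlinarith
  obtain ⟨h4, h5⟩ := hyp_of_model (fun i => i) (fun _ _ h => h) F hU hψ hden ha h hpos
    (fun l hl => absurd rfl (hl l)) ht (LinearMap.fst ℝ (Vec (d + 2)) (ℝ × ℝ))
    (fun u hu v h1 h4 _ h5 => by
      rw [h2] at h1
      rw [h3] at h4
      exact Prod.ext h5 (Prod.ext h1 h4))
    (fun u hu v h1 h4 => by
      rw [h2] at h1
      rw [h3] at h4
      rw [BS_apply, h1, h4]
      simp) hν
  refine ⟨⟨h4, hk, ?_⟩, h5, ?_⟩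
  · intro u hu
    have h1 := (h.iso (T u hu)).2.2
    rw [BS_apply, ← h2, ← h3, ← h2, ← h3, h.sk u hu, h.tk u hu, h.sν u hu, h.tν u hu] at h1
    change ⟪(k u).1, (ν u).1⟫_ℝ = 0
    linarith
  · intro u hu
    rw [← h.line u hu]
    unfold liftS
    congr 2
    · refine Prod.ext rfl (Prod.ext ?_ ?_)
      · exact (h.sk u hu).symm
      · exact (h.tk u hu).symm
    · congr 1
      refine Prod.ext rfl (Prod.ext ?_ ?_)
      · exact (h.sν u hu).symm
      · exact (h.tν u hu).symm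

/-- an isometric embedding of the model space -/
theorem exists_model_isometry (hm : ∑ i, m i = d) :
    ∃ C : NF m →ₗ[ℝ] (Vec (d + 2) × ℝ × ℝ),
      (∀ v w, BS (Vec (d + 2)) (C v) (C w) = BN m σ v w) ∧
      (∀ v, (sS _) (C v) = 4 / 5 * (v.2 0 + v.2 2 * ((σ 1 - 1) / 2)) -
        3 / 5 * (v.2 1 + v.2 3 * ((σ 2 - 1) / 2))) ∧
      (∀ v, (tS _) (C v) = 3 / 5 * (v.2 0 + v.2 2 * ((σ 1 - 1) / 2)) +
        4 / 5 * (v.2 1 + v.2 3 * ((σ 2 - 1) / 2))) := by
  obtain ⟨J, hJ⟩ := exists_isometry (W := (∀ i, Vec (m i)) × ℝ × ℝ)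
    (LinearMap.mk₂ ℝ (fun v w => ∑ i, ⟪v.1 i, w.1 i⟫_ℝ + v.2.1 * w.2.1 + v.2.2 * w.2.2)
      (fun v v' w => by
        simp only [Prod.fst_add, Prod.snd_add, Pi.add_apply, inner_add_left,
          Finset.sum_add_distrib]
        ring)
      (fun c v w => by
        simp only [Prod.smul_fst, Prod.smul_snd, Pi.smul_apply, inner_smul_left, smul_eq_mul,
          RCLike.conj_to_real, ← Finset.mul_sum]
        ring)
      (fun v w w' => by
        simp only [Prod.fst_add, Prod.snd_add, Pi.add_apply, inner_add_right,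
          Finset.sum_add_distrib]
        ring)
      (fun c v w => by
        simp only [Prod.smul_fst, Prod.smul_snd, Pi.smul_apply, inner_smul_right, smul_eq_mul,
          ← Finset.mul_sum]
        ring))
    (fun v w => by
      simp only [LinearMap.mk₂_apply, real_inner_comm]
      ring)
    (fun v hv => by
      simp only [LinearMap.mk₂_apply, real_inner_self_eq_norm_sq]
      by_contra hcon
      push Not at hcon
      have h1 : 0 ≤ ∑ i, ‖v.1 i‖ ^ 2 := Finset.sum_nonneg fun i _ => by positivity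
      have h2 : 0 ≤ v.2.1 * v.2.1 := mul_self_nonneg _
      have h3 : 0 ≤ v.2.2 * v.2.2 := mul_self_nonneg _
      apply hv
      have h4 : ∑ i, ‖v.1 i‖ ^ 2 = 0 := by linarith
      have h5 : v.2.1 * v.2.1 = 0 := by linarith
      have h6 : v.2.2 * v.2.2 = 0 := by linarith
      refine Prod.ext (funext fun i => ?_) (Prod.ext ?_ ?_)
      · have h7 := (Finset.sum_eq_zero_iff_of_nonneg (fun i _ => by positivity)).1 h4 i
          (Finset.mem_univ i)
        exact norm_eq_zero.1 (pow_eq_zero_iff (by norm_num) |>.1 h7)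
      · exact mul_self_eq_zero.1 h5
      · exact mul_self_eq_zero.1 h6)
    (d + 2) (by
      rw [Module.finrank_prod, Module.finrank_prod, Module.finrank_pi_fintype]
      simp [hm])
  refine ⟨{ toFun := fun v => (J (v.1, v.2 0 + v.2 2 * ((σ 1 + 1) / 2),
        v.2 1 + v.2 3 * ((σ 2 + 1) / 2)),
        4 / 5 * (v.2 0 + v.2 2 * ((σ 1 - 1) / 2)) - 3 / 5 * (v.2 1 + v.2 3 * ((σ 2 - 1) / 2)),
        3 / 5 * (v.2 0 + v.2 2 * ((σ 1 - 1) / 2)) + 4 / 5 * (v.2 1 + v.2 3 * ((σ 2 - 1) / 2)))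
            map_add' := fun v w => by
              refine Prod.ext ?_ (Prod.ext ?_ ?_)
              · simp only [Prod.fst_add, ← map_add]
                congr 1
                refine Prod.ext rfl (Prod.ext ?_ ?_)
                · simp only [Prod.fst_add, Prod.snd_add, Pi.add_apply]
                  ring
                · simp only [Prod.snd_add, Pi.add_apply]
                  ring
              · simp only [Prod.fst_add, Prod.snd_add, Pi.add_apply]
                ring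
              · simp only [Prod.snd_add, Pi.add_apply]
                ring
            map_smul' := fun c v => by
              refine Prod.ext ?_ (Prod.ext ?_ ?_)
              · simp only [Prod.smul_fst, RingHom.id_apply, ← map_smul]
                congr 1
                refine Prod.ext rfl (Prod.ext ?_ ?_)
                · simp only [Prod.smul_fst, Prod.smul_snd, Pi.smul_apply, smul_eq_mul]
                  ring
                · simp only [Prod.smul_snd, Pi.smul_apply, smul_eq_mul]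
                  ring
              · simp only [Prod.smul_fst, Prod.smul_snd, Pi.smul_apply, smul_eq_mul,
                  RingHom.id_apply]
                ring
              · simp only [Prod.smul_snd, Pi.smul_apply, smul_eq_mul, RingHom.id_apply]
                ring }, ?_, ?_, ?_⟩
  · intro v w
    rw [BS_apply, BN_apply]
    simp only [LinearMap.coe_mk, AddHom.coe_mk]
    rw [hJ]
    simp only [LinearMap.mk₂_apply]
    ring
  · intro v
    rfl
  · intro v
    rfl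

/-- shrinking a neighbourhood -/
theorem exists_shrink {E : Type} [TopologicalSpace E] {U : Set E} {u₀ : E} (hU : IsOpen U)
    (hu : u₀ ∈ U) {Φ : E → ℝ} (hΦ : ContinuousOn Φ U) (h0 : Φ u₀ ≠ 0) :
    ∃ U' ⊆ U, IsOpen U' ∧ u₀ ∈ U' ∧ ∀ u ∈ U', Φ u ≠ 0 :=
  ⟨U ∩ Φ ⁻¹' {x | x ≠ 0}, Set.inter_subset_left, hΦ.isOpen_inter_preimage hU isOpen_ne,
    ⟨hu, h0⟩, fun _ hu => hu.2⟩

theorem isDiffeo_linear {E F : Type} [NormedAddCommGroup E] [NormedSpace ℝ E]
    [NormedAddCommGroup F] [NormedSpace ℝ F] (L : E ≃L[ℝ] F) (U : Set E) : IsDiffeo U L where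
  smooth := L.contDiff.contDiffOn
  injOn := L.injective.injOn
  bijective := fun u _ => by
    rw [L.fderiv]
    exact L.bijective

theorem exists_param {E : Type} [NormedAddCommGroup E] [NormedSpace ℝ E]
    [FiniteDimensional ℝ E] (m : Fin 3 → ℕ) (hE : Module.finrank ℝ E = ∑ i, m i) :
    Nonempty (E ≃L[ℝ] (∀ i, Vec (m i))) :=
  ⟨ContinuousLinearEquiv.ofFinrankEq (by rw [hE, Module.finrank_pi_fintype]; simp)⟩

theorem isOpen_den {E : Type} [NormedAddCommGroup E] [NormedSpace ℝ E]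
    (L : E ≃L[ℝ] (∀ i, Vec (m i))) : IsOpen {u : E | ∀ i, 0 < 1 + σ i * ‖L u i‖ ^ 2 / 4} := by
  have e : {u : E | ∀ i, 0 < 1 + σ i * ‖L u i‖ ^ 2 / 4} =
      ⋂ i, (fun u => 1 + σ i * ‖L u i‖ ^ 2 / 4) ⁻¹' Set.Ioi 0 := by
    ext u
    simp
  rw [e]
  refine isOpen_iInter_of_finite fun i => ?_
  refine IsOpen.preimage ?_ isOpen_Ioi
  have h1 : Continuous fun u => L u i := (continuous_apply i).comp L.continuous
  fun_prop

/-- Every admissible data set is realized by a proper Dupin hypersurface of the sphere. -/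
theorem exists_realization (h : IsData d m σ) :
    ∃ (U : Set (Vec d)) (f ξ : Vec d → Vec (d + 2)) (u₀ : Vec d), u₀ ∈ U ∧
      IsSphereHypersurface U f ξ ∧ IsProperDupin 3 U f ξ ∧ IsModelledAt m σ f ξ u₀ := by
  obtain ⟨C, hC, hs, ht⟩ := exists_model_isometry (σ := σ) h.sum_m
  obtain ⟨L⟩ := exists_param (E := Vec d) m (by simp [h.sum_m])
  set F := (stdFrame m σ h.sum_σ).trans BS_symm C hC with hF
  have hopen := isOpen_den (σ := σ) L
  have hmem : (0 : Vec d) ∈ {u : Vec d | ∀ i, 0 < 1 + σ i * ‖L u i‖ ^ 2 / 4} := by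
    intro i
    rw [map_zero]
    simp
  have hT := model_triple F hopen hmem (isDiffeo_linear L _) (fun u hu => hu)
  obtain ⟨a, ha⟩ : ∃ a : Fin 3 → Vec d → (Vec (d + 2) × ℝ × ℝ), a = fun i u => F.pt i (L u i) :=
    ⟨_, rfl⟩
  rw [← ha] at hT
  have hp : ∀ i, a i 0 = F.p i := by
    intro i
    rw [ha]
    simp [Frame.pt]
  have s01 : (sS _) (a 0 0 - a 1 0) = 4 / 5 := by
    rw [hp, hp]
    change (sS _) (C (pvec m 0) - C (pvec m 1)) = _
    rw [map_sub, hs, hs]
    simp [pvec]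
  have s02 : (sS _) (a 0 0 - a 2 0) = -(3 / 5) := by
    rw [hp, hp]
    change (sS _) (C (pvec m 0) - C (pvec m 2)) = _
    rw [map_sub, hs, hs]
    simp [pvec]
  have t01 : (tS _) (a 0 0 - a 1 0) = 3 / 5 := by
    rw [hp, hp]
    change (tS _) (C (pvec m 0) - C (pvec m 1)) = _
    rw [map_sub, ht, ht]
    simp [pvec]
  have t02 : (tS _) (a 0 0 - a 2 0) = 4 / 5 := by
    rw [hp, hp]
    change (tS _) (C (pvec m 0) - C (pvec m 2)) = _
    rw [map_sub, ht, ht]
    simp [pvec]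
  have cs : ∀ (φ : (Vec (d + 2) × ℝ × ℝ) →ₗ[ℝ] ℝ) (i j : Fin 3), ContinuousOn
      (fun u => φ (a i u - a j u)) {u : Vec d | ∀ i, 0 < 1 + σ i * ‖L u i‖ ^ 2 / 4} :=
    fun φ i j => (contDiffOn_linear φ ((hT.smooth i).sub (hT.smooth j))).continuousOn
  obtain ⟨U, hUs, hU, hu, hΦ⟩ := exists_shrink hopen hmem
    (Φ := fun u => ((sS _) (a 0 u - a 1 u) * (tS _) (a 0 u - a 2 u) -
      (sS _) (a 0 u - a 2 u) * (tS _) (a 0 u - a 1 u)) * ((tS _) (a 0 u - a 1 u) *
      (tS _) (a 0 u - a 2 u) * (tS _) (a 1 u - a 2 u)))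
    ((((cs _ 0 1).mul (cs _ 0 2)).sub ((cs _ 0 2).mul (cs _ 0 1))).mul
      (((cs _ 0 1).mul (cs _ 0 2)).mul (cs _ 1 2))) (by
      have e : a 1 0 - a 2 0 = (a 0 0 - a 2 0) - (a 0 0 - a 1 0) := by abel
      rw [e, map_sub _ (_ - _) _, s01, s02, t01, t02]
      norm_num)
  have hT' := hT.mono hUs hU hu
  obtain ⟨k, ν, hkν⟩ := exists_lineData (φs := sS _) (φt := tS _) hT'
    fun u hu => (mul_ne_zero_iff.1 (hΦ u hu)).1
  have htt : ∀ u ∈ U, ∀ i, (tS _) (a (i + 1) u - a (i + 2) u) ≠ 0 := by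
    intro u hu i
    have h1 := (mul_ne_zero_iff.1 (hΦ u hu)).2
    have h2 := mul_ne_zero_iff.1 h1
    have h3 := mul_ne_zero_iff.1 h2.1
    fin_cases i
    · exact h2.2
    · change (tS _) (a 2 u - a 0 u) ≠ 0
      rw [← neg_sub, map_neg, neg_ne_zero]
      exact h3.2
    · exact h3.1
  obtain ⟨h1, h2, h3⟩ := sphere_of_model F hU (isDiffeo_linear L U) (fun u hu => hUs hu) ha hkν
    h.pos htt
  refine ⟨U, _, _, 0, hu, h1, h2, ?_⟩
  refine FrameModel.isModelledAt (y₀ := 0) h.sum_m ⟨F, U, L, hU, hu, map_zero L,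
    isDiffeo_linear L U, fun u hu => hUs hu, ?_⟩
  intro u hu
  rw [h3 u hu, ha]

end Sphere

end Pool.Agent.R744.Lie
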