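import Pool.Agent.R744.LieProd

set_option autoImplicit false
set_option linter.unusedSectionVars false

namespace Pool.Agent.R744.Lie

open scoped ContDiff InnerProductSpace Topology

section

variable {H : Type} [NormedAddCommGroup H] [InnerProductSpace ℝ H] [FiniteDimensional ℝ H]

/-- infinitesimal point sphere -/
noncomputable def dirE (w x : H) : H × ℝ × ℝ × ℝ := (x, -⟪w, x⟫_ℝ, ⟪w, x⟫_ℝ, 0)

theorem BE_hat_hat (w : H) : BE H (hatE w) (hatE w) = 0 := by
  rw [BE_self, qE, hatE]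
  simp only
  ring

theorem BE_hat_nu (w n : H) : BE H (hatE w) (nuE w n) = 0 := by
  rw [BE_apply, hatE, nuE]
  simp only
  ring

theorem BE_dir_hat (w x : H) : BE H (dirE w x) (hatE w) = 0 := by
  rw [BE_apply, hatE, dirE]
  simp only
  rw [real_inner_comm]
  ring

theorem BE_dir_dir (w x y : H) : BE H (dirE w x) (dirE w y) = ⟪x, y⟫_ℝ := by
  rw [BE_apply, dirE, dirE]
  simp only
  ring

theorem BE_dir_nu (w x n : H) : BE H (dirE w x) (nuE w n) = ⟪x, n⟫_ℝ := by
  rw [BE_apply, nuE, dirE]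
  simp only
  ring

theorem dirE_neg_smul (w x : H) (c : ℝ) : dirE w (-(c • x)) = -(c • dirE w x) := by
  unfold dirE
  refine Prod.ext rfl (Prod.ext ?_ (Prod.ext ?_ ?_))
  · simp [inner_smul_right]
  · simp [inner_smul_right]
  · simp

theorem eq_dirE {v : H × ℝ × ℝ × ℝ} {w : H} (h1 : sE H v = 0) (h2 : tE H v = 0)
    (h3 : BE H v (hatE w) = 0) : v = dirE w v.1 := by
  rw [sE_apply] at h1
  rw [tE_apply] at h2
  rw [BE_apply, h2, hatE] at h3
  simp only at h3
  have h4 : v.2.1 = -v.2.2.1 := by linarith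
  rw [h4] at h3
  have h5 : v.2.2.1 = ⟪w, v.1⟫_ℝ := by
    rw [real_inner_comm]
    linarith
  unfold dirE
  refine Prod.ext rfl (Prod.ext ?_ (Prod.ext ?_ h2))
  · simp only
    rw [h4, h5]
  · exact h5

variable {E : Type} [NormedAddCommGroup E] [NormedSpace ℝ E] [FiniteDimensional ℝ E]
  {W : Set E} {w N : E → H}

theorem fderiv_hatE (h : IsImmersedWithNormal W w N) {y : E} (hy : y ∈ W) (X : E) :
    fderiv ℝ (fun y => hatE (w y)) y X = dirE (w y) (fderiv ℝ w y X) := by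
  have hs := contDiffOn_hatE h.smooth_f
  have hd := ContDiffOn.differentiableAt' hs h.isOpen hy
  have e1 : sE H (fderiv ℝ (fun y => hatE (w y)) y X) = 0 := by
    rw [← fderiv_linear (sE H) hd X]
    exact Triple.fderiv_eq_zero_of_eqOn h.isOpen hy (fun v _ => sE_hatE _) X
  have e2 : tE H (fderiv ℝ (fun y => hatE (w y)) y X) = 0 := by
    rw [← fderiv_linear (tE H) hd X]
    exact Triple.fderiv_eq_zero_of_eqOn h.isOpen hy (fun v _ => tE_hatE _) X
  have e3 : BE H (fderiv ℝ (fun y => hatE (w y)) y X) (hatE (w y)) = 0 := by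
    have h1 := Triple.fderiv_eq_zero_of_eqOn (f := fun y => BE H (hatE (w y)) (hatE (w y)))
      h.isOpen hy (fun v _ => BE_hat_hat _) X
    rw [fderiv_B (BE H) hd hd, BE_symm (hatE (w y))] at h1
    linarith
  have e4 : (fderiv ℝ (fun y => hatE (w y)) y X).1 = fderiv ℝ w y X := by
    have := fderiv_linear (LinearMap.fst ℝ H (ℝ × ℝ × ℝ)) hd X
    exact this.symm
  rw [← e4]
  exact eq_dirE e1 e2 e3

theorem fderiv_nuE (h : IsImmersedWithNormal W w N) {y : E} (hy : y ∈ W) (X : E) :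
    fderiv ℝ (fun y => nuE (w y) (N y)) y X = dirE (w y) (fderiv ℝ N y X) := by
  have hs := contDiffOn_hatE h.smooth_f
  have hd := ContDiffOn.differentiableAt' hs h.isOpen hy
  have hs' := contDiffOn_nuE h.smooth_f h.smooth_ξ
  have hd' := ContDiffOn.differentiableAt' hs' h.isOpen hy
  have e1 : sE H (fderiv ℝ (fun y => nuE (w y) (N y)) y X) = 0 := by
    rw [← fderiv_linear (sE H) hd' X]
    exact Triple.fderiv_eq_zero_of_eqOn h.isOpen hy (fun v _ => sE_nuE _ _) X
  have e2 : tE H (fderiv ℝ (fun y => nuE (w y) (N y)) y X) = 0 := by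
    rw [← fderiv_linear (tE H) hd' X]
    exact Triple.fderiv_eq_zero_of_eqOn h.isOpen hy (fun v _ => tE_nuE _ _) X
  have e3 : BE H (fderiv ℝ (fun y => nuE (w y) (N y)) y X) (hatE (w y)) = 0 := by
    have h1 := Triple.fderiv_eq_zero_of_eqOn (f := fun y => BE H (hatE (w y)) (nuE (w y) (N y)))
      h.isOpen hy (fun v _ => BE_hat_nu _ _) X
    rw [fderiv_B (BE H) hd hd', fderiv_hatE h hy, BE_dir_nu, h.normal y hy, add_zero] at h1
    rw [BE_symm, h1]
  have e4 : (fderiv ℝ (fun y => nuE (w y) (N y)) y X).1 = fderiv ℝ N y X := by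
    have := fderiv_linear (LinearMap.fst ℝ H (ℝ × ℝ × ℝ)) hd' X
    exact this.symm
  rw [← e4]
  exact eq_dirE e1 e2 e3

/-- the curvature sphere -/
noncomputable def curv (w N : E → H) (κ : E → ℝ) (y : E) : H × ℝ × ℝ × ℝ :=
  κ y • hatE (w y) + nuE (w y) (N y)

variable {κ κ' : E → ℝ}

theorem contDiffOn_curv (h : IsImmersedWithNormal W w N) (hκ : ContDiffOn ℝ ∞ κ W) :
    ContDiffOn ℝ ∞ (curv w N κ) W :=
  (hκ.smul (contDiffOn_hatE h.smooth_f)).add (contDiffOn_nuE h.smooth_f h.smooth_ξ)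

theorem BE_curv (c c' : ℝ) (w n : H) (hn : ‖n‖ = 1) :
    BE H (c • hatE w + nuE w n) (c' • hatE w + nuE w n) = 0 := by
  simp only [map_add, map_smul, LinearMap.add_apply, LinearMap.smul_apply, BE_hat_hat, BE_hat_nu,
    BE_symm (nuE w n) (hatE w), BE_nu_nu, hn]
  simp

theorem fderiv_curv (h : IsImmersedWithNormal W w N) (hκ : ContDiffOn ℝ ∞ κ W) {y : E}
    (hy : y ∈ W) {c : ℝ} {X : E} (hX : IsPrincipal w N y c X) :
    fderiv ℝ (curv w N κ) y X = fderiv ℝ κ y X • hatE (w y) +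
      (κ y - c) • dirE (w y) (fderiv ℝ w y X) := by
  have hs := contDiffOn_hatE h.smooth_f
  have hd := ContDiffOn.differentiableAt' hs h.isOpen hy
  have hs' := contDiffOn_nuE h.smooth_f h.smooth_ξ
  have hd' := ContDiffOn.differentiableAt' hs' h.isOpen hy
  have hdκ := ContDiffOn.differentiableAt' hκ h.isOpen hy
  have e : curv w N κ = fun y => κ y • hatE (w y) + nuE (w y) (N y) := rfl
  have h1 : DifferentiableAt ℝ (fun y => κ y • hatE (w y)) y := hdκ.smul hd
  rw [e, fderiv_fun_add h1 hd', fderiv_fun_smul hdκ hd]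
  rw [add_apply, add_apply, ContinuousLinearMap.smulRight_apply, smul_apply, fderiv_hatE h hy,
    fderiv_nuE h hy, hX, dirE_neg_smul]
  module

theorem norm_curv (c : ℝ) (p : ℝ) (w x : H) :
    BE H (p • hatE w + c • dirE w x) (p • hatE w + c • dirE w x) = c ^ 2 * ‖x‖ ^ 2 := by
  simp only [map_add, map_smul, LinearMap.add_apply, LinearMap.smul_apply, BE_hat_hat,
    BE_dir_hat, BE_symm (hatE w) (dirE w x), BE_dir_dir, real_inner_self_eq_norm_sq, smul_eq_mul]
  ring

/-- The facts about the two curvature sphere maps of a proper Dupin hypersurface with two principal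
curvatures. -/
theorem dupin_two (h : IsImmersedWithNormal W w N) (hD : IsProperDupin 2 W w N) :
    ∃ κ : Fin 2 → E → ℝ, (∀ i, ContDiffOn ℝ ∞ (κ i) W) ∧ ∀ y ∈ W, κ 0 y ≠ κ 1 y ∧
      (∀ X, ∃ Y₀ Y₁, Y₀ + Y₁ = X ∧ fderiv ℝ (curv w N (κ 0)) y Y₀ = 0 ∧
        fderiv ℝ (curv w N (κ 1)) y Y₁ = 0) ∧
      (∀ X, fderiv ℝ (curv w N (κ 0)) y X = 0 → fderiv ℝ (curv w N (κ 1)) y X = 0 → X = 0) ∧
      (∀ i X, fderiv ℝ (curv w N (κ i)) y X ≠ 0 →
        0 < BE H (fderiv ℝ (curv w N (κ i)) y X) (fderiv ℝ (curv w N (κ i)) y X)) ∧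
      ∀ i, ∃ X, fderiv ℝ (curv w N (κ i)) y X ≠ 0 := by
  obtain ⟨κ, hκ, hprop⟩ := hD
  refine ⟨κ, hκ, fun y hy => ?_⟩
  obtain ⟨h1, h2, h3, h4⟩ := hprop y hy
  have hne : κ 0 y ≠ κ 1 y := fun h => absurd (h1 h) (by decide)
  have hz : ∀ i X, IsPrincipal w N y (κ i y) X → fderiv ℝ (curv w N (κ i)) y X = 0 := by
    intro i X hX
    rw [fderiv_curv h (hκ i) hy hX, h4 i X hX, sub_self, zero_smul, zero_smul, add_zero]
  have hform : ∀ i X, ∃ Y, fderiv ℝ (curv w N (κ i)) y X = fderiv ℝ (κ i) y Y • hatE (w y) +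
      (κ i y - κ (1 - i) y) • dirE (w y) (fderiv ℝ w y Y) ∧
      IsPrincipal w N y (κ (1 - i) y) Y ∧ IsPrincipal w N y (κ i y) (X - Y) := by
    intro i X
    obtain ⟨Y, hY, hY'⟩ := h3 X
    rw [Fin.sum_univ_two] at hY
    refine ⟨Y (1 - i), ?_, hY' _, ?_⟩
    · rw [← fderiv_curv h (hκ i) hy (hY' (1 - i)), ← hY, map_add]
      fin_cases i
      · have := hz 0 _ (hY' 0)
        simp only [Fin.zero_eta, Fin.isValue, sub_zero] at this ⊢
        rw [this, zero_add]
      · have := hz 1 _ (hY' 1)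
        simp only [Fin.mk_one, Fin.isValue, sub_self] at this ⊢
        rw [this, add_zero]
    · have e : X - Y (1 - i) = Y i := by
        rw [← hY]
        fin_cases i
        · change Y 0 + Y 1 - Y 1 = Y 0
          abel
        · change Y 0 + Y 1 - Y 0 = Y 1
          abel
      rw [e]
      exact hY' i
  have hne' : ∀ i, κ i y - κ (1 - i) y ≠ 0 := by
    intro i
    fin_cases i
    · exact sub_ne_zero.2 hne
    · exact sub_ne_zero.2 hne.symm
  have hnorm : ∀ i X Y, fderiv ℝ (curv w N (κ i)) y X = fderiv ℝ (κ i) y Y • hatE (w y) +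
      (κ i y - κ (1 - i) y) • dirE (w y) (fderiv ℝ w y Y) → Y ≠ 0 →
      0 < BE H (fderiv ℝ (curv w N (κ i)) y X) (fderiv ℝ (curv w N (κ i)) y X) := by
    intro i X Y hY h0
    rw [hY, norm_curv]
    have h5 : fderiv ℝ w y Y ≠ 0 := fun h6 => h0 (h.injective y hy (by rw [h6, map_zero]))
    have h6 := norm_pos_iff.2 h5
    have h7 := hne' i
    positivity
  refine ⟨hne, ?_, ?_, ?_, ?_⟩
  · intro X
    obtain ⟨Y, hY, hY'⟩ := h3 X
    rw [Fin.sum_univ_two] at hY
    exact ⟨Y 0, Y 1, hY, hz 0 _ (hY' 0), hz 1 _ (hY' 1)⟩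
  · intro X hX0 hX1
    obtain ⟨Y, hY, hY', hY''⟩ := hform 0 X
    have e1 : Y = 0 := by
      by_contra h0
      have := hnorm 0 X Y hY h0
      rw [hX0, map_zero] at this
      exact lt_irrefl _ this
    rw [e1, sub_zero] at hY''
    obtain ⟨Z, hZ, hZ', hZ''⟩ := hform 1 X
    have e2 : Z = 0 := by
      by_contra h0
      have := hnorm 1 X Z hZ h0
      rw [hX1, map_zero] at this
      exact lt_irrefl _ this
    rw [e2, sub_zero] at hZ''
    have h5 : (κ 0 y - κ 1 y) • fderiv ℝ w y X = 0 := by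
      unfold IsPrincipal at hY'' hZ''
      rw [hY''] at hZ''
      have h6 := neg_injective hZ''
      rw [sub_smul, h6, sub_self]
    have h6 := (smul_eq_zero.1 h5).resolve_left (sub_ne_zero.2 hne)
    exact h.injective y hy (by rw [h6, map_zero])
  · intro i X hX
    obtain ⟨Y, hY, hY', hY''⟩ := hform i X
    refine hnorm i X Y hY ?_
    intro h0
    rw [h0, map_zero, map_zero, zero_smul, zero_add] at hY
    apply hX
    rw [hY]
    unfold dirE
    simp
  · intro i
    obtain ⟨X, hX, hX'⟩ := h2 (1 - i)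
    refine ⟨X, fun h0 => ?_⟩
    have h5 := hnorm i X X (fderiv_curv h (hκ i) hy hX') hX
    rw [h0, map_zero] at h5
    exact lt_irrefl _ h5

end

end Pool.Agent.R744.Lie
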