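import Pool.Agent.R744.LieRed

set_option autoImplicit false
set_option linter.unusedSectionVars false

namespace Pool.Agent.R744.Lie

open scoped ContDiff InnerProductSpace Topology

section

variable {E V : Type} [NormedAddCommGroup E] [NormedSpace ℝ E] [FiniteDimensional ℝ E]
  [NormedAddCommGroup V] [NormedSpace ℝ V] [FiniteDimensional ℝ V]
  {B : V →ₗ[ℝ] V →ₗ[ℝ] ℝ} {m : Fin 3 → ℕ} {σ : Fin 3 → ℝ} {U : Set E} {u₀ : E}
  {a : Fin 3 → E → V}

/-- the curvature of the third factor of a tube -/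
theorem sigma_two (T : Triple B U u₀ a) {F : Frame B m σ} (hF : Adapted U u₀ a F)
    (hd : Module.finrank ℝ V = ∑ i, m i + 4) (pos : ∀ i, 1 ≤ m i) (ℓ : V →ₗ[ℝ] ℝ)
    (h0 : ∀ u ∈ U, ℓ (a 0 u - a 0 u₀) = 0) (h1 : ∀ u ∈ U, ℓ (a 1 u - a 1 u₀) = 0)
    (h2 : ∀ u ∈ U, ℓ (a 2 u - a 2 u₀) = -(B (a 2 u - a 2 u₀) (a 2 u - a 2 u₀) / 2))
    (h3 : ℓ (a 0 u₀ - a 1 u₀) = 0) (h4 : ℓ (a 0 u₀ - a 2 u₀) = 1) : σ 2 = -1 := by
  have hd' : ∀ i, DifferentiableAt ℝ (a i) u₀ := fun i => T.differentiableAt i T.mem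
  have hdd : ∀ i, DifferentiableAt ℝ (fun u => a i u - a i u₀) u₀ := fun i => (hd' i).sub_const _
  have hℓe : ∀ i y, ℓ (F.e i y) = 0 := by
    intro i y
    obtain ⟨X, hX⟩ := hF.eq_fderiv i y
    rw [hX]
    have e1 : fderiv ℝ (fun u => ℓ (a i u - a i u₀)) u₀ X = ℓ (fderiv ℝ (a i) u₀ X) := by
      rw [fderiv_linear ℓ (hdd i), fderiv_sub_const]
    rw [← e1]
    fin_cases i
    · exact Triple.fderiv_eq_zero_of_eqOn T.isOpen T.mem h0 X
    · exact Triple.fderiv_eq_zero_of_eqOn T.isOpen T.mem h1 X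
    · have e2 : (fun u => ℓ (a 2 u - a 2 u₀)) =ᶠ[𝓝 u₀]
          fun u => -(B (a 2 u - a 2 u₀) (a 2 u - a 2 u₀) / 2) := by
        filter_upwards [T.isOpen.mem_nhds T.mem] with v hv using h2 v hv
      have e3 : HasFDerivAt (fun u => B (a 2 u - a 2 u₀) (a 2 u - a 2 u₀))
          (fderiv ℝ (fun u => B (a 2 u - a 2 u₀) (a 2 u - a 2 u₀)) u₀) u₀ :=
        (differentiableAt_B B (hdd 2) (hdd 2)).hasFDerivAt
      have e4 : fderiv ℝ (fun u => B (a 2 u - a 2 u₀) (a 2 u - a 2 u₀)) u₀ X = 0 := by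
        rw [fderiv_B B (hdd 2) (hdd 2), sub_self]
        simp
      have e5 : fderiv ℝ (fun u => -(B (a 2 u - a 2 u₀) (a 2 u - a 2 u₀) / 2)) u₀ X = 0 := by
        have e6 := (e3.mul_const (2⁻¹ : ℝ)).neg
        have e7 : (fun u => -(B (a 2 u - a 2 u₀) (a 2 u - a 2 u₀) / 2)) =
            -(fun u => B (a 2 u - a 2 u₀) (a 2 u - a 2 u₀) * 2⁻¹) := by
          funext u
          simp [div_eq_mul_inv]
        rw [e7, e6.fderiv]
        rw [neg_apply, smul_apply, e4]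
        simp
      change fderiv ℝ (fun u => ℓ (a 2 u - a 2 u₀)) u₀ X = 0
      rw [e2.fderiv_eq, e5]
  have hex : ∀ i, ∃ u ∈ U, Adapted.S B u₀ a i u ≠ 0 := by
    intro i
    obtain ⟨X, hX⟩ := hF.eq_fderiv i (EuclideanSpace.single ⟨0, pos i⟩ 1)
    have hX0 : fderiv ℝ (a i) u₀ X ≠ 0 := by
      rw [← hX]
      intro h
      have h2 := F.e_injective i (h.trans (map_zero _).symm)
      have h3 := congrArg norm h2
      simp at h3
    obtain ⟨u, hu, hne⟩ := T.exists_ne hX0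
    refine ⟨u, hu, ?_⟩
    unfold Adapted.S
    intro h
    apply hne
    linarith
  have hrep : ∀ i, ∀ u ∈ U, ℓ (a i u - a i u₀) = Adapted.S B u₀ a i u * ℓ (F.n i) := by
    intro i u hu
    rw [Adapted.repr' T hF hd i hu]
    unfold Frame.w
    rw [map_add, hℓe, map_smul, smul_eq_mul, zero_add]
  have n0 : ℓ (F.n 0) = 0 := by
    obtain ⟨u, hu, hne⟩ := hex 0
    have := hrep 0 u hu
    rw [h0 u hu] at this
    exact (mul_eq_zero.1 this.symm).resolve_left hne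
  have n1 : ℓ (F.n 1) = 0 := by
    obtain ⟨u, hu, hne⟩ := hex 1
    have := hrep 1 u hu
    rw [h1 u hu] at this
    exact (mul_eq_zero.1 this.symm).resolve_left hne
  have n2 : ℓ (F.n 2) = -1 := by
    obtain ⟨u, hu, hne⟩ := hex 2
    have h5 := hrep 2 u hu
    rw [h2 u hu] at h5
    change -(Adapted.S B u₀ a 2 u) = _ at h5
    have h6 : Adapted.S B u₀ a 2 u * (ℓ (F.n 2) + 1) = 0 := by linarith
    have := (mul_eq_zero.1 h6).resolve_left hne
    linarith
  have h5 := congrArg ℓ (F.n0_eq hd)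
  rw [map_sub, map_sub, map_add, map_smul, map_smul, hF.p, hF.p, hF.p, h3, h4, n0, n1, n2] at h5
  simp only [smul_eq_mul] at h5
  linarith

/-- transport of a triple -/
theorem Triple.trans {V' : Type} [NormedAddCommGroup V'] [NormedSpace ℝ V'] [FiniteDimensional ℝ V']
    {B' : V' →ₗ[ℝ] V' →ₗ[ℝ] ℝ} (T : Triple B U u₀ a) (hB' : ∀ v w, B' v w = B' w v)
    (C : V →ₗ[ℝ] V') (hC : ∀ v w, B' (C v) (C w) = B v w) :
    Triple B' U u₀ (fun i u => C (a i u)) where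
  symm := hB'
  isOpen := T.isOpen
  mem := T.mem
  smooth := fun i => contDiffOn_linear C (T.smooth i)
  null := fun i j hij u hu v hv => by rw [← map_sub, hC, T.null i j hij u hu v hv]
  pos := fun i X hX => by
    rw [fderiv_linear C (T.differentiableAt i T.mem)] at hX ⊢
    rw [hC]
    exact T.pos i X fun h => hX (by rw [h, map_zero])
  inj := fun X hX => T.inj X fun i => by
    by_contra h
    have h1 := T.pos i X h
    have h2 := hX i
    rw [fderiv_linear C (T.differentiableAt i T.mem)] at h2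
    rw [← hC, h2, map_zero] at h1
    exact lt_irrefl _ h1

end

section

variable {k l : ℕ}

/-- parallel transformation -/
noncomputable def parR (H : Type) [NormedAddCommGroup H] [InnerProductSpace ℝ H] (r : ℝ) :
    (H × ℝ × ℝ × ℝ) ≃ₗ[ℝ] (H × ℝ × ℝ × ℝ) where
  toFun v := (v.1, v.2.1 - r * v.2.2.2 + r ^ 2 / 2 * (v.2.1 + v.2.2.1),
    v.2.2.1 + r * v.2.2.2 - r ^ 2 / 2 * (v.2.1 + v.2.2.1), v.2.2.2 - r * (v.2.1 + v.2.2.1))
  invFun v := (v.1, v.2.1 + r * v.2.2.2 + r ^ 2 / 2 * (v.2.1 + v.2.2.1),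
    v.2.2.1 - r * v.2.2.2 - r ^ 2 / 2 * (v.2.1 + v.2.2.1), v.2.2.2 + r * (v.2.1 + v.2.2.1))
  left_inv v := by
    refine Prod.ext rfl (Prod.ext ?_ (Prod.ext ?_ ?_))
    · simp only
      ring
    · simp only
      ring
    · simp only
      ring
  right_inv v := by
    refine Prod.ext rfl (Prod.ext ?_ (Prod.ext ?_ ?_))
    · simp only
      ring
    · simp only
      ring
    · simp only
      ring
  map_add' v w := by
    refine Prod.ext rfl (Prod.ext ?_ (Prod.ext ?_ ?_))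
    · simp only [Prod.fst_add, Prod.snd_add]
      ring
    · simp only [Prod.fst_add, Prod.snd_add]
      ring
    · simp only [Prod.fst_add, Prod.snd_add]
      ring
  map_smul' c v := by
    refine Prod.ext rfl (Prod.ext ?_ (Prod.ext ?_ ?_))
    · simp only [Prod.smul_fst, Prod.smul_snd, smul_eq_mul, RingHom.id_apply]
      ring
    · simp only [Prod.smul_fst, Prod.smul_snd, smul_eq_mul, RingHom.id_apply]
      ring
    · simp only [Prod.smul_fst, Prod.smul_snd, smul_eq_mul, RingHom.id_apply]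
      ring

theorem parR_apply {H : Type} [NormedAddCommGroup H] [InnerProductSpace ℝ H] (r : ℝ)
    (v : H × ℝ × ℝ × ℝ) : parR H r v =
    (v.1, v.2.1 - r * v.2.2.2 + r ^ 2 / 2 * (v.2.1 + v.2.2.1),
    v.2.2.1 + r * v.2.2.2 - r ^ 2 / 2 * (v.2.1 + v.2.2.1),
    v.2.2.2 - r * (v.2.1 + v.2.2.1)) := rfl

theorem BE_parR {H : Type} [NormedAddCommGroup H] [InnerProductSpace ℝ H] (r : ℝ)
    (v w : H × ℝ × ℝ × ℝ) : BE H (parR H r v) (parR H r w) = BE H v w := by
  rw [BE_apply, BE_apply, parR_apply, parR_apply]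
  simp only
  ring

theorem inner_tubeR (w N : Vec k) (η : Vec l) (c r : ℝ) (h1 : ‖N‖ = 1)
    (h2 : c ^ 2 + ‖η‖ ^ 2 = 1) :
    ⟪pair w 0 + r • pair (c • N) η, pair (c • N) η⟫_ℝ = c * ⟪w, N⟫_ℝ + r := by
  rw [inner_add_left, inner_tube, inner_smul_left, inner_pair, real_inner_self_eq_norm_sq,
    real_inner_self_eq_norm_sq, norm_smul, mul_pow, h1, Real.norm_eq_abs, sq_abs]
  simp only [RCLike.conj_to_real]
  rw [one_pow, mul_one, h2, mul_one]

theorem norm_tubeR (w N : Vec k) (η : Vec l) (c r : ℝ) (h1 : ‖N‖ = 1)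
    (h2 : c ^ 2 + ‖η‖ ^ 2 = 1) :
    ‖pair w 0 + r • pair (c • N) η‖ ^ 2 = ‖w‖ ^ 2 + 2 * (r * (c * ⟪w, N⟫_ℝ)) + r ^ 2 := by
  rw [norm_add_sq_real, inner_smul_right, inner_tube, norm_pair_sq, norm_smul, mul_pow,
    norm_pair_sq, norm_smul, mul_pow, h1, Real.norm_eq_abs, Real.norm_eq_abs, sq_abs, sq_abs,
    norm_zero, one_pow, mul_one, h2]
  ring

/-- the tangent sphere vector of the tube of radius zero -/
noncomputable def xi (w N : Vec k) (η : Vec l) (c : ℝ) :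
    EuclideanSpace ℝ (Fin k ⊕ Fin l) × ℝ × ℝ × ℝ :=
  (pair (c • N) η, -(c * ⟪w, N⟫_ℝ), c * ⟪w, N⟫_ℝ, 1)

theorem parR_nu (w N : Vec k) (η : Vec l) (c r : ℝ) (h1 : ‖N‖ = 1)
    (h2 : c ^ 2 + ‖η‖ ^ 2 = 1) : parR _ r (xi w N η c) =
      nuE (pair w 0 + r • pair (c • N) η) (pair (c • N) η) := by
  rw [parR_apply, xi, nuE, inner_tubeR w N η c r h1 h2]
  refine Prod.ext rfl (Prod.ext ?_ (Prod.ext ?_ ?_))
  · simp only
    ring
  · simp only
    ring
  · simp only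
    ring

theorem parR_hat (w N : Vec k) (η : Vec l) (c r : ℝ) (h1 : ‖N‖ = 1)
    (h2 : c ^ 2 + ‖η‖ ^ 2 = 1) : parR _ r (inc k l (hatE w)) =
      hatE (pair w 0 + r • pair (c • N) η) -
        r • nuE (pair w 0 + r • pair (c • N) η) (pair (c • N) η) := by
  rw [inc_apply, parR_apply, nuE, hatE, hatE, inner_tubeR w N η c r h1 h2,
    norm_tubeR w N η c r h1 h2]
  refine Prod.ext ?_ (Prod.ext ?_ (Prod.ext ?_ ?_))
  · simp
  · simp only [Prod.snd_sub, Prod.fst_sub, Prod.smul_fst, Prod.smul_snd, smul_eq_mul]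
    ring
  · simp only [Prod.snd_sub, Prod.fst_sub, Prod.smul_fst, Prod.smul_snd, smul_eq_mul]
    ring
  · simp only [Prod.snd_sub, Prod.smul_snd, smul_eq_mul]
    ring

theorem tube_spanR (w N : Vec k) (η : Vec l) (c r : ℝ) (h1 : ‖N‖ = 1)
    (h2 : c ^ 2 + ‖η‖ ^ 2 = 1) :
    (Submodule.span ℝ {inc k l (hatE w), xi w N η c}).map
      (parR (EuclideanSpace ℝ (Fin k ⊕ Fin l)) r).toLinearMap =
    Submodule.span ℝ {hatE (pair w 0 + r • pair (c • N) η),
      nuE (pair w 0 + r • pair (c • N) η) (pair (c • N) η)} := by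
  rw [Submodule.map_span, Set.image_pair]
  change Submodule.span ℝ {parR _ r _, parR _ r _} = _
  rw [parR_hat w N η c r h1 h2, parR_nu w N η c r h1 h2]
  refine span_pair_eq 1 (-r) 0 1 (by norm_num) ?_ ?_
  · module
  · module

theorem BE_inc (v w : Vec k × ℝ × ℝ × ℝ) : BE _ (inc k l v) (inc k l w) = BE _ v w := by
  rw [BE_apply, BE_apply, inc_apply, inc_apply]
  simp only
  rw [pair00]

/-- the point of the third factor -/
noncomputable def third (k : ℕ) (ζ : Vec l) (τ : ℝ) :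
    EuclideanSpace ℝ (Fin k ⊕ Fin l) × ℝ × ℝ × ℝ := (pair 0 (-ζ), 0, 0, 1 - τ)

theorem inc_sub_third (K : Vec k × ℝ × ℝ × ℝ) (hK : BE _ K K = 0) (hKt : tE _ K = 1) (ζ : Vec l)
    (τ : ℝ) (h : ‖ζ‖ ^ 2 - τ ^ 2 = -1) :
    BE _ (inc k l K - third k ζ τ) (inc k l K - third k ζ τ) = 0 := by
  rw [tE_apply] at hKt
  rw [BE_self, qE, hKt] at hK
  have e : inc k l K - third k ζ τ = (pair K.1 ζ, K.2.1, K.2.2.1, τ) := by
    rw [inc_apply, third]
    refine Prod.ext ?_ (Prod.ext ?_ (Prod.ext ?_ ?_))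
    · simp only [Prod.fst_sub]
      ext i
      rcases i with i | i <;> simp [pair]
    · simp
    · simp
    · simp only [Prod.snd_sub]
      rw [hKt]
      ring
  rw [e, BE_self, qE]
  simp only
  rw [norm_pair_sq]
  linarith

end

end Pool.Agent.R744.Lie
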