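import Pool.Agent.R744.LieRed2

set_option autoImplicit false
set_option linter.unusedSectionVars false

namespace Pool.Agent.R744.Lie

open scoped ContDiff InnerProductSpace Topology

section

variable {d e l : ℕ} {U : Set (Vec d)} {Fh Ξ : Vec d → EuclideanSpace ℝ (Fin (e + 1) ⊕ Fin l)}
  {W : Set (Vec e)} {w N : Vec e → Vec (e + 1)} {r : ℝ} {α : Vec d → Vec e} {c : Vec d → ℝ}
  {η : Vec d → Vec l} {u₀ : Vec d}

/-- The data of a tube. -/
structure TubeD (U : Set (Vec d)) (Fh Ξ : Vec d → EuclideanSpace ℝ (Fin (e + 1) ⊕ Fin l))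
    (W : Set (Vec e)) (w N : Vec e → Vec (e + 1)) (r : ℝ) (α : Vec d → Vec e) (c : Vec d → ℝ)
    (η : Vec d → Vec l) : Prop where
  isF : IsImmersedWithNormal U Fh Ξ
  isW : IsImmersedWithNormal W w N
  sα : ContDiffOn ℝ ∞ α U
  sc : ContDiffOn ℝ ∞ c U
  sη : ContDiffOn ℝ ∞ η U
  mem : ∀ u ∈ U, α u ∈ W
  norm : ∀ u ∈ U, c u ^ 2 + ‖η u‖ ^ 2 = 1
  Ξ_eq : ∀ u ∈ U, Ξ u = pair (c u • N (α u)) (η u)
  F_eq : ∀ u ∈ U, Fh u = pair (w (α u)) 0 + r • Ξ u

theorem differentiableAt_linear {E V W : Type} [NormedAddCommGroup E] [NormedSpace ℝ E]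
    [NormedAddCommGroup V] [NormedSpace ℝ V] [FiniteDimensional ℝ V] [NormedAddCommGroup W]
    [NormedSpace ℝ W] (L : V →ₗ[ℝ] W) {f : E → V} {x : E} (hf : DifferentiableAt ℝ f x) :
    DifferentiableAt ℝ (fun y => L (f y)) x :=
  (LinearMap.toContinuousLinearMap L).differentiableAt.comp x hf

theorem pair_eq_zero {k l : ℕ} {x : Vec k} {y : Vec l} (h : pair x y = 0) : x = 0 ∧ y = 0 := by
  have h1 := norm_pair_sq x y
  rw [h, norm_zero] at h1
  have h2 : 0 ≤ ‖x‖ ^ 2 := by positivity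
  have h3 : 0 ≤ ‖y‖ ^ 2 := by positivity
  have h4 : ‖x‖ ^ 2 = 0 := by linarith
  have h5 : ‖y‖ ^ 2 = 0 := by linarith
  exact ⟨norm_eq_zero.1 (pow_eq_zero_iff (by norm_num) |>.1 h4),
    norm_eq_zero.1 (pow_eq_zero_iff (by norm_num) |>.1 h5)⟩

theorem fderiv_pair {k l : ℕ} {f : Vec d → Vec k} {g : Vec d → Vec l} {u : Vec d}
    (hf : DifferentiableAt ℝ f u) (hg : DifferentiableAt ℝ g u) (X : Vec d) :
    fderiv ℝ (fun u => pair (f u) (g u)) u X = pair (fderiv ℝ f u X) (fderiv ℝ g u X) := by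
  have h1 := fderiv_linear (pairL k l) (hf.prodMk hg) X
  rw [(hf.hasFDerivAt.prodMk hg.hasFDerivAt).fderiv] at h1
  exact h1

theorem differentiableAt_pair {k l : ℕ} {f : Vec d → Vec k} {g : Vec d → Vec l} {u : Vec d}
    (hf : DifferentiableAt ℝ f u) (hg : DifferentiableAt ℝ g u) :
    DifferentiableAt ℝ (fun u => pair (f u) (g u)) u :=
  differentiableAt_linear (pairL k l) (hf.prodMk hg)

namespace TubeD

variable (h : TubeD U Fh Ξ W w N r α c η)

include h

theorem dα {u : Vec d} (hu : u ∈ U) : DifferentiableAt ℝ α u :=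
  ContDiffOn.differentiableAt' h.sα h.isF.isOpen hu

theorem dc {u : Vec d} (hu : u ∈ U) : DifferentiableAt ℝ c u :=
  ContDiffOn.differentiableAt' h.sc h.isF.isOpen hu

theorem dη {u : Vec d} (hu : u ∈ U) : DifferentiableAt ℝ η u :=
  ContDiffOn.differentiableAt' h.sη h.isF.isOpen hu

theorem dw {u : Vec d} (hu : u ∈ U) : DifferentiableAt ℝ (fun u => w (α u)) u :=
  (ContDiffOn.differentiableAt' h.isW.smooth_f h.isW.isOpen (h.mem u hu)).comp u (h.dα hu)

theorem dN {u : Vec d} (hu : u ∈ U) : DifferentiableAt ℝ (fun u => N (α u)) u :=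
  (ContDiffOn.differentiableAt' h.isW.smooth_ξ h.isW.isOpen (h.mem u hu)).comp u (h.dα hu)

theorem fderiv_w {u : Vec d} (hu : u ∈ U) (X : Vec d) :
    fderiv ℝ (fun u => w (α u)) u X = fderiv ℝ w (α u) (fderiv ℝ α u X) := by
  have h1 := fderiv_comp u (ContDiffOn.differentiableAt' h.isW.smooth_f h.isW.isOpen (h.mem u hu))
    (h.dα hu)
  exact congrArg (fun L => L X) h1

theorem fderiv_N {u : Vec d} (hu : u ∈ U) (X : Vec d) :
    fderiv ℝ (fun u => N (α u)) u X = fderiv ℝ N (α u) (fderiv ℝ α u X) := by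
  have h1 := fderiv_comp u (ContDiffOn.differentiableAt' h.isW.smooth_ξ h.isW.isOpen (h.mem u hu))
    (h.dα hu)
  exact congrArg (fun L => L X) h1

theorem fderiv_Ξ {u : Vec d} (hu : u ∈ U) (X : Vec d) :
    fderiv ℝ (fun u => pair (c u • N (α u)) (η u)) u X =
      pair (fderiv ℝ c u X • N (α u) + c u • fderiv ℝ N (α u) (fderiv ℝ α u X))
        (fderiv ℝ η u X) := by
  have h1 : DifferentiableAt ℝ (fun u => c u • N (α u)) u := (h.dc hu).smul (h.dN hu)
  rw [fderiv_pair h1 (h.dη hu), fderiv_fun_smul (h.dc hu) (h.dN hu), add_apply,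
    ContinuousLinearMap.smulRight_apply, smul_apply, h.fderiv_N hu]
  congr 1
  exact add_comm _ _

theorem eq_zero {u : Vec d} (hu : u ∈ U) {X : Vec d} (h1 : fderiv ℝ α u X = 0)
    (h2 : fderiv ℝ c u X = 0) (h3 : fderiv ℝ η u X = 0) : X = 0 := by
  apply h.isF.injective u hu
  rw [map_zero]
  have e1 : Fh =ᶠ[𝓝 u] fun u => pair (w (α u)) 0 + r • pair (c u • N (α u)) (η u) := by
    filter_upwards [h.isF.isOpen.mem_nhds hu] with v hv
    rw [h.F_eq v hv, h.Ξ_eq v hv]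
  have e2 : DifferentiableAt ℝ (fun u => pair (w (α u)) (0 : Vec l)) u :=
    differentiableAt_pair (h.dw hu) (differentiableAt_const _)
  have e3 : DifferentiableAt ℝ (fun u => pair (c u • N (α u)) (η u)) u :=
    differentiableAt_pair ((h.dc hu).smul (h.dN hu)) (h.dη hu)
  have e4 : DifferentiableAt ℝ (fun u => r • pair (c u • N (α u)) (η u)) u := e3.const_smul r
  have e5 : fderiv ℝ (fun u => r • pair (c u • N (α u)) (η u)) u X =
      r • fderiv ℝ (fun u => pair (c u • N (α u)) (η u)) u X := by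
    rw [fderiv_fun_const_smul e3]
    rfl
  rw [e1.fderiv_eq, fderiv_fun_add e2 e4, add_apply, e5, h.fderiv_Ξ hu,
    fderiv_pair (h.dw hu) (differentiableAt_const _), h.fderiv_w hu, h1, h2, h3, map_zero, map_zero]
  have e6 : pair (0 : Vec (e + 1)) (0 : Vec l) = 0 := by
    ext i
    rcases i with i | i <;> simp [pair]
  simp [e6]

theorem eq_zero' {u : Vec d} (hu : u ∈ U) (hc : c u ≠ 0) {X : Vec d} (h1 : fderiv ℝ α u X = 0)
    (h3 : fderiv ℝ η u X = 0) : X = 0 := by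
  refine h.eq_zero hu h1 ?_ h3
  have e0 : HasFDerivAt (fun u => c u ^ 2 + ‖η u‖ ^ 2) _ u :=
    ((h.dc hu).hasFDerivAt.pow 2).add ((h.dη hu).hasFDerivAt.norm_sq)
  have e1 := Triple.fderiv_eq_zero_of_eqOn h.isF.isOpen hu h.norm X
  rw [e0.fderiv] at e1
  simp [h3] at e1
  exact e1.resolve_left hc

end TubeD

/-- a tube with three principal curvatures does not meet the pole -/
theorem tube_c_ne {U' : Set (Vec d)} {f ξ : Vec d → Vec (d + 2)}
    (h : TubeD U Fh Ξ W w N r α c η) (hu : u₀ ∈ U) (hf : IsSphereHypersurface U' f ξ)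
    (hD : IsProperDupin 3 U' f ξ) (hu' : u₀ ∈ U')
    (C : (EuclideanSpace ℝ (Fin (e + 1) ⊕ Fin l) × ℝ × ℝ × ℝ) ≃ₗ[ℝ] (Vec (d + 2) × ℝ × ℝ))
    (hline : ∀ u ∈ U, (Submodule.span ℝ {inc (e + 1) l (hatE (w (α u))),
      xi (w (α u)) (N (α u)) (η u) (c u)}).map C.toLinearMap = liftS f ξ u) : c u₀ ≠ 0 := by
  intro hc0
  obtain ⟨κ, -, hprop⟩ := hD
  obtain ⟨hinj, hX, -, -⟩ := hprop u₀ hu'
  have hfd : DifferentiableAt ℝ f u₀ := ContDiffOn.differentiableAt' hf.smooth_f hf.isOpen hu'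
  have hξd : DifferentiableAt ℝ ξ u₀ := ContDiffOn.differentiableAt' hf.smooth_ξ hf.isOpen hu'
  have key : ∀ i, sE _ (C.symm (κ i u₀ • (f u₀, 1, 0) + (ξ u₀, 0, 1))) = 0 ∨
      tE _ (C.symm (κ i u₀ • (f u₀, 1, 0) + (ξ u₀, 0, 1))) = 0 := by
    intro i
    obtain ⟨X, hX0, hXp⟩ := hX i
    by_contra hcon
    push Not at hcon
    obtain ⟨hα, hβ⟩ := hcon
    set x : Vec d → EuclideanSpace ℝ (Fin (e + 1) ⊕ Fin l) × ℝ × ℝ × ℝ :=
      fun v => C.symm (κ i u₀ • (f v, 1, 0) + (ξ v, 0, 1)) with hx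
    have hin : HasFDerivAt (fun v => κ i u₀ • ((f v, 1, 0) : Vec (d + 2) × ℝ × ℝ) + (ξ v, 0, 1))
        (κ i u₀ • (fderiv ℝ f u₀).prod 0 + (fderiv ℝ ξ u₀).prod 0) u₀ :=
      ((hfd.hasFDerivAt.prodMk (hasFDerivAt_const _ _)).const_smul (κ i u₀)).add
        (hξd.hasFDerivAt.prodMk (hasFDerivAt_const _ _))
    have hxd : DifferentiableAt ℝ x u₀ :=
      differentiableAt_linear C.symm.toLinearMap hin.differentiableAt
    have hdx : fderiv ℝ x u₀ X = 0 := by
      have h1 := fderiv_linear C.symm.toLinearMap hin.differentiableAt X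
      rw [hin.fderiv] at h1
      change fderiv ℝ x u₀ X = _ at h1
      rw [h1]
      have h2 : (κ i u₀ • (fderiv ℝ f u₀).prod 0 + (fderiv ℝ ξ u₀).prod 0 :
          Vec d →L[ℝ] Vec (d + 2) × ℝ × ℝ) X = 0 := by
        unfold IsPrincipal at hXp
        refine Prod.ext ?_ ?_
        · simp [hXp]
        · simp
      rw [h2, map_zero]
    have hxs : ∀ v ∈ U, x v = sE _ (x v) • inc (e + 1) l (hatE (w (α v))) +
        tE _ (x v) • xi (w (α v)) (N (α v)) (η v) (c v) := by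
      intro v hv
      have h1 : κ i u₀ • (f v, 1, 0) + (ξ v, 0, 1) ∈ liftS f ξ v := by
        unfold liftS
        exact Submodule.add_mem _ (Submodule.smul_mem _ _ (Submodule.subset_span (by simp)))
          (Submodule.subset_span (by simp))
      rw [← hline v hv] at h1
      obtain ⟨y, hy, hy'⟩ := h1
      have h2 : x v = y := by
        rw [hx]
        simp only
        rw [← hy']
        exact C.symm_apply_apply y
      rw [SetLike.mem_coe, Submodule.mem_span_pair] at hy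
      obtain ⟨p, q, hpq⟩ := hy
      have h3 : sE _ (inc (e + 1) l (hatE (w (α v)))) = 1 := sE_hatE (w (α v))
      have h4 : tE _ (inc (e + 1) l (hatE (w (α v)))) = 0 := rfl
      have h5 : sE _ (xi (w (α v)) (N (α v)) (η v) (c v)) = 0 := by
        rw [sE_apply, xi]
        simp
      have h6 : tE _ (xi (w (α v)) (N (α v)) (η v) (c v)) = 1 := rfl
      rw [h2, ← hpq, map_add, map_add, map_smul, map_smul, map_smul, map_smul, h3, h4, h5, h6]
      simp
    have hs' : DifferentiableAt ℝ (fun v => sE _ (x v)) u₀ :=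
      differentiableAt_linear (sE _) hxd
    have ht' : DifferentiableAt ℝ (fun v => tE _ (x v)) u₀ :=
      differentiableAt_linear (tE _) hxd
    have hds : fderiv ℝ (fun v => sE _ (x v)) u₀ X = 0 := by
      rw [fderiv_linear (sE _) hxd, hdx, map_zero]
    have hdt : fderiv ℝ (fun v => tE _ (x v)) u₀ X = 0 := by
      rw [fderiv_linear (tE _) hxd, hdx, map_zero]
    have hk : DifferentiableAt ℝ (fun u => pair (w (α u)) (0 : Vec l)) u₀ :=
      differentiableAt_pair (h.dw hu) (differentiableAt_const _)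
    have hxx : DifferentiableAt ℝ (fun u => pair (c u • N (α u)) (η u)) u₀ :=
      differentiableAt_pair ((h.dc hu).smul (h.dN hu)) (h.dη hu)
    have h1 : (fun v => (x v).1) =ᶠ[𝓝 u₀] fun v => sE _ (x v) • pair (w (α v)) 0 +
        tE _ (x v) • pair (c v • N (α v)) (η v) := by
      filter_upwards [h.isF.isOpen.mem_nhds hu] with v hv
      have := congrArg Prod.fst (hxs v hv)
      exact this
    have h2 := congrArg (fun L => L X) (h1.fderiv_eq (𝕜 := ℝ))
    have h3 : fderiv ℝ (fun v => (x v).1) u₀ X = 0 := by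
      have := fderiv_linear (LinearMap.fst ℝ (EuclideanSpace ℝ (Fin (e + 1) ⊕ Fin l))
        (ℝ × ℝ × ℝ)) hxd X
      rw [hdx, map_zero] at this
      exact this
    have h4 : DifferentiableAt ℝ (fun v => sE _ (x v) • pair (w (α v)) (0 : Vec l)) u₀ :=
      hs'.smul hk
    have h5 : DifferentiableAt ℝ (fun v => tE _ (x v) • pair (c v • N (α v)) (η v)) u₀ :=
      ht'.smul hxx
    rw [h3, fderiv_fun_add h4 h5, fderiv_fun_smul hs' hk, fderiv_fun_smul ht' hxx, add_apply,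
      add_apply, add_apply, ContinuousLinearMap.smulRight_apply,
      ContinuousLinearMap.smulRight_apply, smul_apply, smul_apply, hds, hdt, zero_smul, zero_smul,
      add_zero, add_zero, h.fderiv_Ξ hu, fderiv_pair (h.dw hu) (differentiableAt_const _),
      h.fderiv_w hu, hc0, zero_smul, add_zero] at h2
    have h6 : sE _ (x u₀) • pair (fderiv ℝ w (α u₀) (fderiv ℝ α u₀ X))
        (fderiv ℝ (fun _ => (0 : Vec l)) u₀ X) +
        tE _ (x u₀) • pair (fderiv ℝ c u₀ X • N (α u₀)) (fderiv ℝ η u₀ X) =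
        pair (sE _ (x u₀) • fderiv ℝ w (α u₀) (fderiv ℝ α u₀ X) +
          tE _ (x u₀) • fderiv ℝ c u₀ X • N (α u₀)) (tE _ (x u₀) • fderiv ℝ η u₀ X) := by
      ext i
      rcases i with i | i <;> simp [pair]
    rw [h6] at h2
    obtain ⟨h7, h8⟩ := pair_eq_zero h2.symm
    have h9 : fderiv ℝ η u₀ X = 0 := (smul_eq_zero.1 h8).resolve_left hβ
    have h10 : fderiv ℝ c u₀ X = 0 := by
      have h11 := congrArg (fun v => ⟪v, N (α u₀)⟫_ℝ) h7
      simp only [inner_add_left, inner_smul_left, RCLike.conj_to_real, inner_zero_left] at h11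
      rw [h.isW.normal _ (h.mem u₀ hu), real_inner_self_eq_norm_sq, h.isW.unit _ (h.mem u₀ hu)] at h11
      have h12 : tE _ (x u₀) * fderiv ℝ c u₀ X = 0 := by linarith
      exact (mul_eq_zero.1 h12).resolve_left hβ
    rw [h10, zero_smul, smul_zero, add_zero] at h7
    have h11 := (smul_eq_zero.1 h7).resolve_left hα
    have h12 : fderiv ℝ α u₀ X = 0 := h.isW.injective _ (h.mem u₀ hu) (by rw [h11, map_zero])
    exact hX0 (h.eq_zero hu h12 h10 h9)
  -- two of the three curvature spheres coincide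
  simp only [map_add, map_smul, smul_eq_mul] at key
  have hcon : ∀ φ : (EuclideanSpace ℝ (Fin (e + 1) ⊕ Fin l) × ℝ × ℝ × ℝ) →ₗ[ℝ] ℝ,
      ∀ ψ : (EuclideanSpace ℝ (Fin (e + 1) ⊕ Fin l) × ℝ × ℝ × ℝ) →ₗ[ℝ] ℝ,
      (∀ v, v ∈ Submodule.span ℝ {inc (e + 1) l (hatE (w (α u₀))),
        xi (w (α u₀)) (N (α u₀)) (η u₀) (c u₀)} → φ v = 0 → ψ v = 0 → v = 0) →
      φ (C.symm (f u₀, 1, 0)) = 0 → φ (C.symm (ξ u₀, 0, 1)) = 0 → False := by
    intro φ ψ hφψ h1 h2
    have m1 : C.symm (f u₀, 1, 0) ∈ Submodule.span ℝ {inc (e + 1) l (hatE (w (α u₀))),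
        xi (w (α u₀)) (N (α u₀)) (η u₀) (c u₀)} := by
      have h3 : ((f u₀, 1, 0) : Vec (d + 2) × ℝ × ℝ) ∈ liftS f ξ u₀ :=
        Submodule.subset_span (by simp)
      rw [← hline u₀ hu] at h3
      obtain ⟨y, hy, hy'⟩ := h3
      rw [← hy']
      change C.symm (C y) ∈ _
      rw [C.symm_apply_apply]
      exact hy
    have m2 : C.symm (ξ u₀, 0, 1) ∈ Submodule.span ℝ {inc (e + 1) l (hatE (w (α u₀))),
        xi (w (α u₀)) (N (α u₀)) (η u₀) (c u₀)} := by
      have h3 : ((ξ u₀, 0, 1) : Vec (d + 2) × ℝ × ℝ) ∈ liftS f ξ u₀ :=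
        Submodule.subset_span (by simp)
      rw [← hline u₀ hu] at h3
      obtain ⟨y, hy, hy'⟩ := h3
      rw [← hy']
      change C.symm (C y) ∈ _
      rw [C.symm_apply_apply]
      exact hy
    have h3 := hφψ (ψ (C.symm (ξ u₀, 0, 1)) • C.symm (f u₀, 1, 0) -
      ψ (C.symm (f u₀, 1, 0)) • C.symm (ξ u₀, 0, 1))
      (Submodule.sub_mem _ (Submodule.smul_mem _ _ m1) (Submodule.smul_mem _ _ m2))
      (by rw [map_sub, map_smul, map_smul, h1, h2]; simp)
      (by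
        rw [map_sub, map_smul, map_smul]
        simp only [smul_eq_mul]
        ring)
    rw [← map_smul, ← map_smul, ← map_sub, LinearEquiv.map_eq_zero_iff] at h3
    have h4 := congrArg (fun v => v.2.1) h3
    simp at h4
    have h5 := hφψ _ m2 h2 h4
    rw [LinearEquiv.map_eq_zero_iff] at h5
    have h6 := congrArg (fun v => v.2.2) h5
    simp at h6
  have hst : ∀ v, v ∈ Submodule.span ℝ {inc (e + 1) l (hatE (w (α u₀))),
      xi (w (α u₀)) (N (α u₀)) (η u₀) (c u₀)} → sE _ v = 0 → tE _ v = 0 → v = 0 := by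
    intro v hv h1 h2
    rw [Submodule.mem_span_pair] at hv
    obtain ⟨p, q, rfl⟩ := hv
    have h3 : sE _ (inc (e + 1) l (hatE (w (α u₀)))) = 1 := sE_hatE (w (α u₀))
    have h4 : tE _ (inc (e + 1) l (hatE (w (α u₀)))) = 0 := rfl
    have h5 : sE _ (xi (w (α u₀)) (N (α u₀)) (η u₀) (c u₀)) = 0 := by
      rw [sE_apply, xi]
      simp
    have h6 : tE _ (xi (w (α u₀)) (N (α u₀)) (η u₀) (c u₀)) = 1 := rfl
    rw [map_add, map_smul, map_smul, h3, h5] at h1
    rw [map_add, map_smul, map_smul, h4, h6] at h2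
    have h7 : p = 0 := by simpa using h1
    have h8 : q = 0 := by simpa using h2
    rw [h7, h8]
    simp
  have hcs := hcon (sE _) (tE _) hst
  have hct := hcon (tE _) (sE _) (fun v hv h1 h2 => hst v hv h2 h1)
  have h01 : κ 0 u₀ - κ 1 u₀ ≠ 0 := sub_ne_zero.2 fun h => absurd (hinj h) (by decide)
  have h02 : κ 0 u₀ - κ 2 u₀ ≠ 0 := sub_ne_zero.2 fun h => absurd (hinj h) (by decide)
  have h12 : κ 1 u₀ - κ 2 u₀ ≠ 0 := sub_ne_zero.2 fun h => absurd (hinj h) (by decide)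
  have lin : ∀ a b p q : ℝ, a - b ≠ 0 → a * p + q = 0 → b * p + q = 0 → p = 0 ∧ q = 0 := by
    intro a b p q hab h1 h2
    have h3 : (a - b) * p = 0 := by linarith
    have h4 := (mul_eq_zero.1 h3).resolve_left hab
    rw [h4] at h1
    exact ⟨h4, by linarith⟩
  rcases key 0 with k0 | k0 <;> rcases key 1 with k1 | k1 <;> rcases key 2 with k2 | k2
  · exact hcs (lin _ _ _ _ h01 k0 k1).1 (lin _ _ _ _ h01 k0 k1).2
  · exact hcs (lin _ _ _ _ h01 k0 k1).1 (lin _ _ _ _ h01 k0 k1).2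
  · exact hcs (lin _ _ _ _ h02 k0 k2).1 (lin _ _ _ _ h02 k0 k2).2
  · exact hct (lin _ _ _ _ h12 k1 k2).1 (lin _ _ _ _ h12 k1 k2).2
  · exact hcs (lin _ _ _ _ h12 k1 k2).1 (lin _ _ _ _ h12 k1 k2).2
  · exact hct (lin _ _ _ _ h02 k0 k2).1 (lin _ _ _ _ h02 k0 k2).2
  · exact hct (lin _ _ _ _ h01 k0 k1).1 (lin _ _ _ _ h01 k0 k1).2
  · exact hct (lin _ _ _ _ h01 k0 k1).1 (lin _ _ _ _ h01 k0 k1).2

end

end Pool.Agent.R744.Lie
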