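import Pool.Agent.R744.LieRed3

set_option autoImplicit false
set_option linter.unusedSectionVars false

namespace Pool.Agent.R744.Lie

open scoped ContDiff InnerProductSpace Topology

section

variable {d e l : ℕ} {U : Set (Vec d)} {Fh Ξ : Vec d → EuclideanSpace ℝ (Fin (e + 1) ⊕ Fin l)}
  {W : Set (Vec e)} {w N : Vec e → Vec (e + 1)} {r : ℝ} {α : Vec d → Vec e} {c : Vec d → ℝ}
  {η : Vec d → Vec l} {u₀ : Vec d}

/-- the linear part of `third` -/
noncomputable def thirdL (k l : ℕ) : (Vec l × ℝ) →ₗ[ℝ]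
    (EuclideanSpace ℝ (Fin k ⊕ Fin l) × ℝ × ℝ × ℝ) where
  toFun v := (pair 0 (-v.1), 0, 0, -v.2)
  map_add' v w := by
    refine Prod.ext ?_ (Prod.ext ?_ (Prod.ext ?_ ?_))
    · simp only [Prod.fst_add]
      ext i
      rcases i with i | i
      · simp [pair]
      · simp [pair]
        ring
    · simp
    · simp
    · simp
      ring
  map_smul' c v := by
    refine Prod.ext ?_ (Prod.ext ?_ (Prod.ext ?_ ?_))
    · simp only [Prod.smul_fst, RingHom.id_apply]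
      ext i
      rcases i with i | i <;> simp [pair]
    · simp
    · simp
    · simp

theorem thirdL_apply (k : ℕ) (v : Vec l × ℝ) : thirdL k l v = (pair 0 (-v.1), 0, 0, -v.2) := rfl

theorem third_eq (k : ℕ) (ζ : Vec l) (τ : ℝ) : third k ζ τ = thirdL k l (ζ, τ) + (0, 0, 0, 1) := by
  rw [third, thirdL_apply]
  refine Prod.ext ?_ (Prod.ext ?_ (Prod.ext ?_ ?_))
  · simp
  · simp
  · simp
  · simp only [Prod.snd_add]
    ring

theorem BE_thirdL (k : ℕ) (v v' : Vec l × ℝ) :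
    BE _ (thirdL k l v) (thirdL k l v') = ⟪v.1, v'.1⟫_ℝ - v.2 * v'.2 := by
  rw [BE_apply, thirdL_apply, thirdL_apply]
  simp only
  rw [pair22, inner_neg_left, inner_neg_right]
  ring

theorem BE_thirdL_inc (k : ℕ) (v : Vec l × ℝ) (K : Vec k × ℝ × ℝ × ℝ) (hK : tE _ K = 0) :
    BE _ (thirdL k l v) (inc k l K) = 0 := by
  rw [tE_apply] at hK
  rw [BE_apply, thirdL_apply, inc_apply]
  simp only
  rw [pair20, hK]
  ring

/-- the triple of a tube -/
noncomputable def tubeA (w N : Vec e → Vec (e + 1)) (κ : Fin 2 → Vec e → ℝ) (α : Vec d → Vec e)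
    (c : Vec d → ℝ) (η : Vec d → Vec l) :
    Fin 3 → Vec d → (EuclideanSpace ℝ (Fin (e + 1) ⊕ Fin l) × ℝ × ℝ × ℝ) :=
  ![fun u => inc (e + 1) l (curv w N (κ 0) (α u)), fun u => inc (e + 1) l (curv w N (κ 1) (α u)),
    fun u => third (e + 1) ((c u)⁻¹ • η u) ((c u)⁻¹)]

theorem tE_curv (w N : Vec e → Vec (e + 1)) (κ : Vec e → ℝ) (y : Vec e) :
    tE _ (curv w N κ y) = 1 := by
  unfold curv
  rw [map_add, map_smul, tE_hatE, tE_nuE]
  simp

theorem tubeA_line {κ : Fin 2 → Vec e → ℝ} {u : Vec d} (hc : c u ≠ 0)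
    (hκ : κ 0 (α u) ≠ κ 1 (α u)) : tripleLine (tubeA w N κ α c η) u =
      Submodule.span ℝ {inc (e + 1) l (hatE (w (α u))), xi (w (α u)) (N (α u)) (η u) (c u)} := by
  unfold tripleLine
  refine span_pair_eq (κ 0 (α u) - κ 1 (α u)) 0 (κ 0 (α u)) (c u)⁻¹ ?_ ?_ ?_
  · rw [zero_mul, sub_zero]
    exact mul_ne_zero (sub_ne_zero.2 hκ) (inv_ne_zero hc)
  · change inc _ _ (curv w N (κ 0) (α u)) - inc _ _ (curv w N (κ 1) (α u)) = _
    rw [← map_sub]
    unfold curv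
    have e : κ 0 (α u) • hatE (w (α u)) + nuE (w (α u)) (N (α u)) -
        (κ 1 (α u) • hatE (w (α u)) + nuE (w (α u)) (N (α u))) =
        (κ 0 (α u) - κ 1 (α u)) • hatE (w (α u)) := by module
    rw [e, map_smul, zero_smul, add_zero]
  · change inc _ _ (curv w N (κ 0) (α u)) - third (e + 1) ((c u)⁻¹ • η u) ((c u)⁻¹) = _
    unfold curv
    rw [map_add, map_smul, add_sub_assoc]
    congr 1
    rw [inc_apply, nuE, third, xi]
    refine Prod.ext ?_ (Prod.ext ?_ (Prod.ext ?_ ?_))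
    · simp only [Prod.fst_sub, Prod.smul_fst]
      ext i
      rcases i with i | i
      · simp only [pair, PiLp.sub_apply, PiLp.smul_apply, Sum.elim_inl, PiLp.zero_apply,
          smul_eq_mul, sub_zero]
        rw [← mul_assoc, inv_mul_cancel₀ hc, one_mul]
      · simp [pair]
    · simp only [Prod.fst_sub, Prod.snd_sub, Prod.smul_fst, Prod.smul_snd, smul_eq_mul]
      rw [mul_neg, ← mul_assoc, inv_mul_cancel₀ hc]
      ring
    · simp only [Prod.fst_sub, Prod.snd_sub, Prod.smul_fst, Prod.smul_snd, smul_eq_mul]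
      rw [← mul_assoc, inv_mul_cancel₀ hc]
      ring
    · simp only [Prod.snd_sub, Prod.smul_snd, smul_eq_mul]
      ring

theorem ineq_aux {ζ x : Vec l} {τ s : ℝ} (h1 : ‖ζ‖ ^ 2 - τ ^ 2 = -1) (h2 : ⟪ζ, x⟫_ℝ = τ * s)
    (hx : x ≠ 0) : 0 < ‖x‖ ^ 2 - s ^ 2 := by
  have h3 : ⟪ζ, x⟫_ℝ ^ 2 ≤ ‖ζ‖ ^ 2 * ‖x‖ ^ 2 := by
    have := abs_real_inner_le_norm ζ x
    rw [← sq_abs, ← mul_pow]
    exact pow_le_pow_left₀ (abs_nonneg _) this 2
  rw [h2, mul_pow] at h3
  have h4 : 0 < ‖x‖ ^ 2 := by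
    have := norm_pos_iff.2 hx
    positivity
  have h5 : 0 ≤ ‖ζ‖ ^ 2 := by positivity
  have h6 : τ ^ 2 = ‖ζ‖ ^ 2 + 1 := by linarith
  rw [h6] at h3
  nlinarith

namespace TubeD

variable (h : TubeD U Fh Ξ W w N r α c η) {κ : Fin 2 → Vec e → ℝ}

include h

theorem dτ {u : Vec d} (hu : u ∈ U) (hc : c u ≠ 0) :
    DifferentiableAt ℝ (fun u => (c u)⁻¹) u := (h.dc hu).inv hc

theorem dζ {u : Vec d} (hu : u ∈ U) (hc : c u ≠ 0) :
    DifferentiableAt ℝ (fun u => (c u)⁻¹ • η u) u := (h.dτ hu hc).smul (h.dη hu)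

theorem fderiv_two {u : Vec d} (hu : u ∈ U) (hc : c u ≠ 0) (X : Vec d) :
    fderiv ℝ (tubeA w N κ α c η 2) u X = thirdL (e + 1) l
      (fderiv ℝ (fun u => (c u)⁻¹ • η u) u X, fderiv ℝ (fun u => (c u)⁻¹) u X) := by
  have e1 : tubeA w N κ α c η 2 = fun u => thirdL (e + 1) l ((c u)⁻¹ • η u, (c u)⁻¹) +
      (0, 0, 0, 1) := by
    funext u
    exact third_eq _ _ _
  have h1 := fderiv_linear (thirdL (e + 1) l) ((h.dζ hu hc).prodMk (h.dτ hu hc)) X
  rw [((h.dζ hu hc).hasFDerivAt.prodMk (h.dτ hu hc).hasFDerivAt).fderiv] at h1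
  rw [e1, fderiv_add_const]
  exact h1

theorem fderiv_curv' (hκ : ∀ i, ContDiffOn ℝ ∞ (κ i) W) (i : Fin 2) {u : Vec d} (hu : u ∈ U)
    (X : Vec d) :
    fderiv ℝ (fun u => inc (e + 1) l (curv w N (κ i) (α u))) u X =
      inc (e + 1) l (fderiv ℝ (curv w N (κ i)) (α u) (fderiv ℝ α u X)) := by
  have h1 : DifferentiableAt ℝ (curv w N (κ i)) (α u) :=
    ContDiffOn.differentiableAt' (contDiffOn_curv h.isW (hκ i)) h.isW.isOpen (h.mem u hu)
  have h2 : DifferentiableAt ℝ (fun u => curv w N (κ i) (α u)) u := h1.comp u (h.dα hu)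
  rw [fderiv_linear (inc (e + 1) l) h2]
  congr 1
  exact congrArg (fun L => L X) (fderiv_comp u h1 (h.dα hu))

theorem norm_ζ {u : Vec d} (hu : u ∈ U) (hc : c u ≠ 0) :
    ‖(c u)⁻¹ • η u‖ ^ 2 - (c u)⁻¹ ^ 2 = -1 := by
  have h1 := h.norm u hu
  rw [norm_smul, mul_pow, Real.norm_eq_abs, sq_abs]
  have h2 : (c u)⁻¹ * c u = 1 := inv_mul_cancel₀ hc
  generalize (c u)⁻¹ = x at *
  have h3 : ‖η u‖ ^ 2 = 1 - c u ^ 2 := by linarith
  rw [h3]
  have : x ^ 2 * (1 - c u ^ 2) - x ^ 2 = -(x * c u) ^ 2 := by ring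
  rw [this, h2]
  norm_num

theorem inner_ζ {u : Vec d} (hu : u ∈ U) (hc : ∀ u ∈ U, c u ≠ 0) (X : Vec d) :
    ⟪(c u)⁻¹ • η u, fderiv ℝ (fun u => (c u)⁻¹ • η u) u X⟫_ℝ =
      (c u)⁻¹ * fderiv ℝ (fun u => (c u)⁻¹) u X := by
  have h1 : DifferentiableAt ℝ (fun u => thirdL (e + 1) l ((c u)⁻¹ • η u, (c u)⁻¹)) u :=
    differentiableAt_linear (thirdL (e + 1) l) ((h.dζ hu (hc u hu)).prodMk (h.dτ hu (hc u hu)))
  have h2 := Triple.fderiv_eq_zero_of_eqOn (f := fun u =>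
    BE _ (thirdL (e + 1) l ((c u)⁻¹ • η u, (c u)⁻¹)) (thirdL (e + 1) l ((c u)⁻¹ • η u, (c u)⁻¹)))
    (c := -1) h.isF.isOpen hu (fun v hv => by
      rw [BE_thirdL]
      simp only
      rw [real_inner_self_eq_norm_sq, ← sq]
      exact h.norm_ζ hv (hc v hv)) X
  have h3 := fderiv_linear (thirdL (e + 1) l) ((h.dζ hu (hc u hu)).prodMk (h.dτ hu (hc u hu))) X
  rw [((h.dζ hu (hc u hu)).hasFDerivAt.prodMk (h.dτ hu (hc u hu)).hasFDerivAt).fderiv] at h3
  rw [fderiv_B (BE _) h1 h1, h3, BE_thirdL, BE_thirdL] at h2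
  simp only [ContinuousLinearMap.prod_apply] at h2
  rw [real_inner_comm] at h2
  rw [real_inner_comm]
  linarith

theorem triple (hc : ∀ u ∈ U, c u ≠ 0) (hu₀ : u₀ ∈ U) (hκ : ∀ i, ContDiffOn ℝ ∞ (κ i) W)
    (hinj : ∀ y ∈ W, ∀ X, fderiv ℝ (curv w N (κ 0)) y X = 0 →
      fderiv ℝ (curv w N (κ 1)) y X = 0 → X = 0)
    (hpos : ∀ y ∈ W, ∀ i X, fderiv ℝ (curv w N (κ i)) y X ≠ 0 →
        0 < BE _ (fderiv ℝ (curv w N (κ i)) y X) (fderiv ℝ (curv w N (κ i)) y X))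
    (hprod : ∀ u ∈ U, ∀ v ∈ U, ∃ y ∈ W, curv w N (κ 0) y = curv w N (κ 0) (α u) ∧
      curv w N (κ 1) y = curv w N (κ 1) (α v)) :
    Triple (BE _) U u₀ (tubeA w N κ α c η) where
  symm := BE_symm
  isOpen := h.isF.isOpen
  mem := hu₀
  smooth := fun i => by
    fin_cases i
    · exact contDiffOn_linear (inc (e + 1) l)
        ((contDiffOn_curv h.isW (hκ 0)).comp h.sα h.mem)
    · exact contDiffOn_linear (inc (e + 1) l)
        ((contDiffOn_curv h.isW (hκ 1)).comp h.sα h.mem)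
    · have e1 : tubeA w N κ α c η 2 = fun u => thirdL (e + 1) l ((c u)⁻¹ • η u, (c u)⁻¹) +
          (0, 0, 0, 1) := by
        funext u
        exact third_eq _ _ _
      change ContDiffOn ℝ ∞ (tubeA w N κ α c η 2) U
      rw [e1]
      have h1 : ContDiffOn ℝ ∞ (fun u => (c u)⁻¹) U := h.sc.inv hc
      exact (contDiffOn_linear (thirdL (e + 1) l) ((h1.smul h.sη).prodMk h1)).add contDiffOn_const
  null := by
    have neg : ∀ x y : EuclideanSpace ℝ (Fin (e + 1) ⊕ Fin l) × ℝ × ℝ × ℝ,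
        BE _ (x - y) (x - y) = 0 → BE _ (y - x) (y - x) = 0 := by
      intro x y hxy
      rw [← neg_sub, map_neg, LinearMap.map_neg₂, neg_neg, hxy]
    have n01 : ∀ u ∈ U, ∀ v ∈ U, BE _ (tubeA w N κ α c η 0 u - tubeA w N κ α c η 1 v)
        (tubeA w N κ α c η 0 u - tubeA w N κ α c η 1 v) = 0 := by
      intro u hu v hv
      obtain ⟨y, hy, e1, e2⟩ := hprod u hu v hv
      change BE _ (inc _ _ (curv w N (κ 0) (α u)) - inc _ _ (curv w N (κ 1) (α v)))
        (inc _ _ (curv w N (κ 0) (α u)) - inc _ _ (curv w N (κ 1) (α v))) = 0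
      rw [← e1, ← e2, ← map_sub, BE_inc]
      have h1 := h.isW.unit y hy
      unfold curv
      simp only [map_sub, LinearMap.sub_apply]
      rw [BE_curv _ _ _ _ h1, BE_curv _ _ _ _ h1, BE_curv _ _ _ _ h1, BE_curv _ _ _ _ h1]
      simp
    have nj2 : ∀ (i : Fin 2), ∀ u ∈ U, ∀ v ∈ U,
        BE _ (inc (e + 1) l (curv w N (κ i) (α u)) - tubeA w N κ α c η 2 v)
        (inc (e + 1) l (curv w N (κ i) (α u)) - tubeA w N κ α c η 2 v) = 0 := by
      intro i u hu v hv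
      refine inc_sub_third _ ?_ (tE_curv _ _ _ _) _ _ (h.norm_ζ hv (hc v hv))
      exact BE_curv _ _ _ _ (h.isW.unit _ (h.mem u hu))
    intro i j hij u hu v hv
    fin_cases i <;> fin_cases j
    · exact absurd rfl hij
    · exact n01 u hu v hv
    · exact nj2 0 u hu v hv
    · exact neg _ _ (n01 v hv u hu)
    · exact absurd rfl hij
    · exact nj2 1 u hu v hv
    · exact neg _ _ (nj2 0 v hv u hu)
    · exact neg _ _ (nj2 1 v hv u hu)
    · exact absurd rfl hij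
  pos := fun i X hX => by
    have hK : ∀ j, fderiv ℝ (fun u => inc (e + 1) l (curv w N (κ j) (α u))) u₀ X ≠ 0 →
        0 < BE _ (fderiv ℝ (fun u => inc (e + 1) l (curv w N (κ j) (α u))) u₀ X)
          (fderiv ℝ (fun u => inc (e + 1) l (curv w N (κ j) (α u))) u₀ X) := by
      intro j hj
      rw [h.fderiv_curv' hκ j hu₀] at hj ⊢
      rw [BE_inc]
      exact hpos _ (h.mem u₀ hu₀) j _ fun h0 => hj (by rw [h0, map_zero])
    fin_cases i
    · exact hK 0 hX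
    · exact hK 1 hX
    · change 0 < BE _ (fderiv ℝ (tubeA w N κ α c η 2) u₀ X) (fderiv ℝ (tubeA w N κ α c η 2) u₀ X)
      change fderiv ℝ (tubeA w N κ α c η 2) u₀ X ≠ 0 at hX
      rw [h.fderiv_two hu₀ (hc u₀ hu₀)] at hX ⊢
      rw [BE_thirdL]
      simp only
      rw [real_inner_self_eq_norm_sq, ← sq]
      have h1 := h.inner_ζ hu₀ hc X
      refine ineq_aux (h.norm_ζ hu₀ (hc u₀ hu₀)) h1 ?_
      intro h0
      rw [h0, inner_zero_right] at h1
      have h2 := (mul_eq_zero.1 h1.symm).resolve_left (inv_ne_zero (hc u₀ hu₀))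
      rw [h0, h2] at hX
      exact hX (map_zero _)
  inj := fun X hX => by
    have h0 := hX 0
    have h1 := hX 1
    have h2 := hX 2
    change fderiv ℝ (fun u => inc (e + 1) l (curv w N (κ 0) (α u))) u₀ X = 0 at h0
    change fderiv ℝ (fun u => inc (e + 1) l (curv w N (κ 1) (α u))) u₀ X = 0 at h1
    rw [h.fderiv_curv' hκ 0 hu₀] at h0
    rw [h.fderiv_curv' hκ 1 hu₀] at h1
    have hz : ∀ j, inc (e + 1) l (fderiv ℝ (curv w N (κ j)) (α u₀) (fderiv ℝ α u₀ X)) = 0 →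
        fderiv ℝ (curv w N (κ j)) (α u₀) (fderiv ℝ α u₀ X) = 0 := by
      intro j hj
      by_contra hne
      have h3 := hpos _ (h.mem u₀ hu₀) j _ hne
      rw [← BE_inc (l := l), hj, map_zero] at h3
      exact lt_irrefl _ h3
    have hα : fderiv ℝ α u₀ X = 0 := hinj _ (h.mem u₀ hu₀) _ (hz 0 h0) (hz 1 h1)
    rw [h.fderiv_two hu₀ (hc u₀ hu₀), thirdL_apply] at h2
    have h3 : fderiv ℝ (fun u => (c u)⁻¹ • η u) u₀ X = 0 := by
      have := congrArg Prod.fst h2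
      exact neg_eq_zero.1 (pair_eq_zero this).2
    have h4 : fderiv ℝ (fun u => (c u)⁻¹) u₀ X = 0 := by
      have := congrArg (fun v => v.2.2.2) h2
      exact neg_eq_zero.1 this
    have h5 : fderiv ℝ c u₀ X = 0 := by
      have h6 := fderiv_div_eq_zero (s := fun _ => (1 : ℝ)) (differentiableAt_const _)
        (h.dτ hu₀ (hc u₀ hu₀)) (inv_ne_zero (hc u₀ hu₀)) (X := X) (by simp) h4
      have e1 : (fun u => (1 : ℝ) / (c u)⁻¹) = c := by
        funext u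
        rw [one_div, inv_inv]
      rwa [e1] at h6
    have h6 : fderiv ℝ η u₀ X = 0 := by
      have e1 : η =ᶠ[𝓝 u₀] fun u => c u • ((c u)⁻¹ • η u) := by
        filter_upwards [h.isF.isOpen.mem_nhds hu₀] with v hv
        rw [smul_smul, mul_inv_cancel₀ (hc v hv), one_smul]
      rw [e1.fderiv_eq, fderiv_fun_smul (h.dc hu₀) (h.dζ hu₀ (hc u₀ hu₀))]
      rw [add_apply, ContinuousLinearMap.smulRight_apply, smul_apply, h3, h5]
      simp
    exact h.eq_zero hu₀ hα h5 h6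

/-- non-trivial tangent spaces -/
theorem nontriv (hc : ∀ u ∈ U, c u ≠ 0) (hu₀ : u₀ ∈ U) (hκ : ∀ i, ContDiffOn ℝ ∞ (κ i) W)
    (T : Triple (BE _) U u₀ (tubeA w N κ α c η)) (hl : 1 ≤ l) (hel : e + l = d)
    (hne : ∀ y ∈ W, ∀ i, ∃ X, fderiv ℝ (curv w N (κ i)) y X ≠ 0) (i : Fin 3) :
    ∃ X, fderiv ℝ (tubeA w N κ α c η i) u₀ X ≠ 0 := by
  have hsurj : Function.Surjective
      ((fderiv ℝ α u₀).toLinearMap.prod (fderiv ℝ η u₀).toLinearMap) := by
    refine (LinearMap.injective_iff_surjective_of_finrank_eq_finrank ?_).1 ?_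
    · rw [Module.finrank_prod]
      simp [hel]
    · rw [injective_iff_map_eq_zero]
      intro X hX
      exact h.eq_zero' hu₀ (hc u₀ hu₀) (congrArg Prod.fst hX) (congrArg Prod.snd hX)
  have hK : ∀ j : Fin 2, ∃ X, fderiv ℝ (fun u => inc (e + 1) l (curv w N (κ j) (α u))) u₀ X ≠ 0 := by
    intro j
    obtain ⟨Y, hY⟩ := hne _ (h.mem u₀ hu₀) j
    obtain ⟨X, hX⟩ := hsurj (Y, 0)
    refine ⟨X, ?_⟩
    have h1 : fderiv ℝ α u₀ X = Y := congrArg Prod.fst hX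
    rw [h.fderiv_curv' hκ j hu₀, h1]
    intro h2
    apply hY
    rw [inc_apply] at h2
    have h3 := congrArg Prod.fst h2
    have h4 := congrArg Prod.snd h2
    exact Prod.ext (pair_eq_zero h3).1 h4
  fin_cases i
  · exact hK 0
  · exact hK 1
  · obtain ⟨X, hX⟩ := hsurj (0, EuclideanSpace.single ⟨0, hl⟩ 1)
    refine ⟨X, fun h0 => ?_⟩
    have h1 : fderiv ℝ α u₀ X = 0 := congrArg Prod.fst hX
    have h2 : X = 0 := by
      refine T.inj X fun i => ?_
      fin_cases i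
      · change fderiv ℝ (fun u => inc (e + 1) l (curv w N (κ 0) (α u))) u₀ X = 0
        rw [h.fderiv_curv' hκ 0 hu₀, h1, map_zero, map_zero]
      · change fderiv ℝ (fun u => inc (e + 1) l (curv w N (κ 1) (α u))) u₀ X = 0
        rw [h.fderiv_curv' hκ 1 hu₀, h1, map_zero, map_zero]
      · exact h0
    rw [h2, map_zero] at hX
    have h3 := congrArg (fun v => ‖v.2‖) hX
    simp at h3

end TubeD

end

end Pool.Agent.R744.Lie
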