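import Pool.Agent.R744.LieRed4

set_option autoImplicit false
set_option linter.unusedSectionVars false

namespace Pool.Agent.R744.Lie

open scoped ContDiff InnerProductSpace Topology

section

variable {d : ℕ} {f ξ : Vec d → Vec (d + 2)} {u₀ : Vec d}

/-- Reducible hypersurfaces are modelled. -/
theorem isModelled_of_isReducibleAt {U' : Set (Vec d)} (hf : IsSphereHypersurface U' f ξ)
    (hD : IsProperDupin 3 U' f ξ) (hu' : u₀ ∈ U') (h : IsReducibleAt f ξ u₀) :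
    ∃ m σ, IsData d m σ ∧ IsModelledAt m σ f ξ u₀ := by
  obtain ⟨e, l, W, w, N, U, Fh, Ξ, A, hl, hel, hW, hWD, hu, hF, ⟨r, α, c, η, hr, hα, hc, hη, ht⟩,
    hA, hline⟩ := h
  have hd : 1 ≤ d := by omega
  have hT : TubeD U Fh Ξ W w N r α c η :=
    ⟨hF, hW, hα, hc, hη, fun u hu => (ht u hu).1, fun u hu => (ht u hu).2.1,
      fun u hu => (ht u hu).2.2.1, fun u hu => (ht u hu).2.2.2⟩
  set C : (EuclideanSpace ℝ (Fin (e + 1) ⊕ Fin l) × ℝ × ℝ × ℝ) ≃ₗ[ℝ] (Vec (d + 2) × ℝ × ℝ) :=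
    (parR _ r).trans A with hC
  have hlineC : ∀ u ∈ U, (Submodule.span ℝ {inc (e + 1) l (hatE (w (α u))),
      xi (w (α u)) (N (α u)) (η u) (c u)}).map C.toLinearMap = liftS f ξ u := by
    intro u hu
    rw [← hline u hu]
    have e1 : C.toLinearMap = A.toLinearMap ∘ₗ (parR _ r).toLinearMap := rfl
    rw [e1, Submodule.map_comp, tube_spanR _ _ _ _ r (hW.unit _ (hT.mem u hu)) (hT.norm u hu)]
    congr 1
    rw [← hT.Ξ_eq u hu, ← hT.F_eq u hu]
    rfl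
  have hc0 : c u₀ ≠ 0 := tube_c_ne hT hu hf hD hu' C hlineC
  obtain ⟨cA, hcA, hsim⟩ := similarity_E hd A hA
  have hs : 0 < Real.sqrt cA := Real.sqrt_pos.2 hcA
  have hs2 : Real.sqrt cA * Real.sqrt cA = cA := Real.mul_self_sqrt hcA.le
  have hC' : ∀ v v', BS (Vec (d + 2)) (((Real.sqrt cA)⁻¹ • C.toLinearMap) v)
      (((Real.sqrt cA)⁻¹ • C.toLinearMap) v') = BE _ v v' := by
    intro v v'
    rw [LinearMap.smul_apply, LinearMap.smul_apply, map_smul, LinearMap.map_smul₂, smul_smul]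
    change _ • (BS (Vec (d + 2)) (A (parR _ r v)) (A (parR _ r v'))) = _
    rw [hsim, BE_parR, smul_eq_mul, ← mul_inv, hs2, ← mul_assoc, inv_mul_cancel₀ hcA.ne', one_mul]
  obtain ⟨κ, hκ, hprop⟩ := dupin_two hW hWD
  obtain ⟨W', hW'W, hW', hαW', hprod⟩ := exists_product hW.isOpen (hT.mem u₀ hu)
    (contDiffOn_curv hW (hκ 0)) (contDiffOn_curv hW (hκ 1)) (fun y hy => (hprop y hy).2.1)
    (fun y hy => (hprop y hy).2.2.1)
  have hopen : IsOpen (U ∩ α ⁻¹' W') := hα.continuousOn.isOpen_inter_preimage hF.isOpen hW'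
  obtain ⟨U₁, hU₁s, hU₁, hu₁, hcU₁⟩ := exists_shrink hopen ⟨hu, hαW'⟩
    (hc.continuousOn.mono Set.inter_subset_left) hc0
  have hU₁U : U₁ ⊆ U := fun u hu => (hU₁s hu).1
  have hT₁ : TubeD U₁ Fh Ξ W w N r α c η :=
    ⟨⟨hU₁, hF.smooth_f.mono hU₁U, hF.smooth_ξ.mono hU₁U, fun u hu => hF.injective u (hU₁U hu),
      fun u hu => hF.unit u (hU₁U hu), fun u hu => hF.normal u (hU₁U hu)⟩, hW, hα.mono hU₁U,
      hc.mono hU₁U, hη.mono hU₁U, fun u hu => hT.mem u (hU₁U hu), fun u hu => hT.norm u (hU₁U hu),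
      fun u hu => hT.Ξ_eq u (hU₁U hu), fun u hu => hT.F_eq u (hU₁U hu)⟩
  have Tr := hT₁.triple (κ := κ) hcU₁ hu₁ hκ (fun y hy => (hprop y hy).2.2.1)
    (fun y hy => (hprop y hy).2.2.2.1)
    (fun u hu v hv => hprod _ (hU₁s hu).2 _ (hU₁s hv).2)
  have hne := fun i => hT₁.nontriv hcU₁ hu₁ hκ Tr hl hel (fun y hy => (hprop y hy).2.2.2.2) i
  have Tr' := Tr.trans (V' := Vec (d + 2) × ℝ × ℝ) BS_symm _ hC'
  have hdiff : ∀ i, DifferentiableAt ℝ (tubeA w N κ α c η i) u₀ := fun i =>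
    Tr.differentiableAt i hu₁
  have hne' : ∀ i, ∃ X, fderiv ℝ (fun u => ((Real.sqrt cA)⁻¹ • C.toLinearMap)
      (tubeA w N κ α c η i u)) u₀ X ≠ 0 := by
    intro i
    obtain ⟨X, hX⟩ := hne i
    refine ⟨X, ?_⟩
    rw [fderiv_linear _ (hdiff i)]
    intro h0
    have h1 := Tr.pos i X hX
    rw [← hC', h0, map_zero] at h1
    exact lt_irrefl _ h1
  obtain ⟨m, σ, F, hAd, hm1, hm2⟩ := Tr'.exists_frame hne' (by rw [finrank_LS]; simp)
  have hmd : ∑ i, m i = d := by rw [hm2]; simp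
  have hfr : Module.finrank ℝ (Vec (d + 2) × ℝ × ℝ) = ∑ i, m i + 4 := by rw [finrank_LS, hmd]
  have hσ : σ 2 = -1 := by
    have hx : ∀ u, tubeA w N κ α c η 2 u = thirdL (e + 1) l ((c u)⁻¹ • η u, (c u)⁻¹) +
        (0, 0, 0, 1) := fun u => third_eq _ _ _
    have hinc : ∀ K K' : Vec (e + 1) × ℝ × ℝ × ℝ, tE _ K = 1 → tE _ K' = 1 →
        BE _ (thirdL (e + 1) l ((c u₀)⁻¹ • η u₀, (c u₀)⁻¹)) (inc (e + 1) l K - inc (e + 1) l K') =
          0 := by
      intro K K' h1 h2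
      rw [← map_sub]
      exact BE_thirdL_inc _ _ _ (by rw [map_sub, h1, h2, sub_self])
    have hnorm : ∀ u ∈ U₁, BE _ (thirdL (e + 1) l ((c u)⁻¹ • η u, (c u)⁻¹))
        (thirdL (e + 1) l ((c u)⁻¹ • η u, (c u)⁻¹)) = -1 := by
      intro u hu
      rw [BE_thirdL]
      simp only
      rw [real_inner_self_eq_norm_sq, ← sq]
      exact hT₁.norm_ζ hu (hcU₁ u hu)
    have hC'' : ∀ v v', BS (Vec (d + 2)) (((Real.sqrt cA)⁻¹ • C.toLinearMap) v)
      (((Real.sqrt cA)⁻¹ • C.toLinearMap) v') = BE _ v v' := hC'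
    refine sigma_two Tr' hAd hfr hm1 (BS (Vec (d + 2)) (((Real.sqrt cA)⁻¹ • C.toLinearMap)
      (thirdL (e + 1) l ((c u₀)⁻¹ • η u₀, (c u₀)⁻¹)))) ?_ ?_ ?_ ?_ ?_
    · intro u _
      rw [← map_sub, hC'']
      exact hinc _ _ (tE_curv _ _ _ _) (tE_curv _ _ _ _)
    · intro u _
      rw [← map_sub, hC'']
      exact hinc _ _ (tE_curv _ _ _ _) (tE_curv _ _ _ _)
    · intro u hu
      rw [← map_sub, hC'', hC'', hx, hx, add_sub_add_right_eq_sub]
      have n1 := hnorm u hu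
      have n2 := hnorm u₀ hu₁
      generalize thirdL (e + 1) l ((c u)⁻¹ • η u, (c u)⁻¹) = x at *
      generalize thirdL (e + 1) l ((c u₀)⁻¹ • η u₀, (c u₀)⁻¹) = y at *
      simp only [map_sub, LinearMap.sub_apply]
      rw [n1, n2, BE_symm y x]
      ring
    · rw [← map_sub, hC'']
      exact hinc _ _ (tE_curv _ _ _ _) (tE_curv _ _ _ _)
    · rw [← map_sub, hC'', hx]
      have n2 := hnorm u₀ hu₁
      have n3 : BE _ (thirdL (e + 1) l ((c u₀)⁻¹ • η u₀, (c u₀)⁻¹))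
          (tubeA w N κ α c η 0 u₀ - (0, 0, 0, 1)) = 0 := by
        have e1 : ((0, 0, 0, 1) : EuclideanSpace ℝ (Fin (e + 1) ⊕ Fin l) × ℝ × ℝ × ℝ) =
            inc (e + 1) l (0, 0, 0, 1) := by
          rw [inc_apply]
          refine Prod.ext ?_ rfl
          ext i
          rcases i with i | i <;> simp [pair]
        rw [e1]
        exact hinc _ _ (tE_curv _ _ _ _) rfl
      rw [map_sub] at n3
      rw [map_sub, map_add, n2]
      linarith
  refine ⟨m, σ, ⟨hm1, hmd, F.sum_σ hfr, fun h0 => ?_⟩, ?_⟩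
  · rw [h0] at hσ
    simp at hσ
  · refine (frameModel_of_triple hmd Tr' hAd fun u hu => ?_).isModelledAt hmd
    have hκne : κ 0 (α u) ≠ κ 1 (α u) := (hprop _ (hT₁.mem u hu)).1
    rw [← map_tripleLine, tubeA_line (hcU₁ u hu) hκne,
      map_smul_span _ _ _ (inv_ne_zero hs.ne'), hlineC u (hU₁U hu)]

/-- Modelled hypersurfaces are reducible. -/
theorem IsModelledAt.isReducibleAt {m : Fin 3 → ℕ} {σ : Fin 3 → ℝ} (h : IsData d m σ)
    (hM : IsModelledAt m σ f ξ u₀) : IsReducibleAt f ξ u₀ := by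
  have hd : 1 ≤ d := by
    have h1 := h.pos 0
    have h2 := h.sum_m
    rw [Fin.sum_univ_three] at h2
    omega
  obtain ⟨y, hF⟩ := hM.frameModel hd h.sum_σ
  obtain ⟨i, hi⟩ : ∃ i, σ i < 0 := by
    by_contra hcon
    push Not at hcon
    apply h.ne_zero
    funext i
    exact (Finset.sum_eq_zero_iff_of_nonneg fun i _ => hcon i).1 h.sum_σ i (Finset.mem_univ i)
  set π : Equiv.Perm (Fin 3) := Equiv.swap i 2 with hπ
  have hπ2 : π 2 = i := Equiv.swap_apply_right i 2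
  have hs : 0 < Real.sqrt (-σ i) := Real.sqrt_pos.2 (by linarith)
  have h1 := (hF.perm h.sum_m π).scale (by rw [Equiv.sum_comp π m, h.sum_m])
    (Real.sqrt (-σ i)) hs.ne'
  refine h1.isReducibleAt_aux (by rw [Equiv.sum_comp π m, h.sum_m]) (fun j => h.pos (π j)) ?_ ?_
  · rw [← Finset.mul_sum, Equiv.sum_comp π σ, h.sum_σ, mul_zero]
  · simp only [hπ2]
    rw [inv_pow, Real.sq_sqrt (by linarith), inv_neg, neg_mul, inv_mul_cancel₀ hi.ne]

end

end Pool.Agent.R744.Lie
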