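import Pool.Agent.R744.LieFrame

set_option autoImplicit false

namespace Pool.Agent.R744.Lie

open scoped ContDiff InnerProductSpace

section

variable {H : Type} [NormedAddCommGroup H] [InnerProductSpace ℝ H]

/-- The bilinear form of `qS`. -/
noncomputable def BS (H : Type) [NormedAddCommGroup H] [InnerProductSpace ℝ H] :
    (H × ℝ × ℝ) →ₗ[ℝ] (H × ℝ × ℝ) →ₗ[ℝ] ℝ :=
  LinearMap.mk₂ ℝ (fun v w => ⟪v.1, w.1⟫_ℝ - v.2.1 * w.2.1 - v.2.2 * w.2.2)
    (fun v v' w => by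
      simp only [Prod.fst_add, Prod.snd_add, inner_add_left]
      ring)
    (fun c v w => by
      simp only [Prod.smul_fst, Prod.smul_snd, inner_smul_left, smul_eq_mul,
        RCLike.conj_to_real]
      ring)
    (fun v w w' => by
      simp only [Prod.fst_add, Prod.snd_add, inner_add_right]
      ring)
    (fun c v w => by
      simp only [Prod.smul_fst, Prod.smul_snd, inner_smul_right, smul_eq_mul]
      ring)

theorem BS_apply (v w : H × ℝ × ℝ) :
    BS H v w = ⟪v.1, w.1⟫_ℝ - v.2.1 * w.2.1 - v.2.2 * w.2.2 := rfl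

theorem BS_symm (v w : H × ℝ × ℝ) : BS H v w = BS H w v := by
  rw [BS_apply, BS_apply, real_inner_comm]
  ring

theorem BS_self (v : H × ℝ × ℝ) : BS H v v = qS v := by
  rw [BS_apply, qS, real_inner_self_eq_norm_sq]
  ring

theorem BS_nondeg (v : H × ℝ × ℝ) (h : ∀ w, BS H v w = 0) : v = 0 := by
  obtain ⟨x, s, t⟩ := v
  have h1 := h (x, 0, 0)
  have h2 := h (0, 1, 0)
  have h3 := h (0, 0, 1)
  rw [BS_apply] at h1 h2 h3
  simp only [mul_zero, sub_zero, mul_one, inner_zero_right, zero_sub, neg_eq_zero,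
    inner_self_eq_zero] at h1 h2 h3
  rw [h1, h2, h3]
  rfl

/-- The bilinear form of `qE`. -/
noncomputable def BE (H : Type) [NormedAddCommGroup H] [InnerProductSpace ℝ H] :
    (H × ℝ × ℝ × ℝ) →ₗ[ℝ] (H × ℝ × ℝ × ℝ) →ₗ[ℝ] ℝ :=
  LinearMap.mk₂ ℝ (fun v w => ⟪v.1, w.1⟫_ℝ + v.2.1 * w.2.1 - v.2.2.1 * w.2.2.1 -
      v.2.2.2 * w.2.2.2)
    (fun v v' w => by
      simp only [Prod.fst_add, Prod.snd_add, inner_add_left]
      ring)
    (fun c v w => by
      simp only [Prod.smul_fst, Prod.smul_snd, inner_smul_left, smul_eq_mul,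
        RCLike.conj_to_real]
      ring)
    (fun v w w' => by
      simp only [Prod.fst_add, Prod.snd_add, inner_add_right]
      ring)
    (fun c v w => by
      simp only [Prod.smul_fst, Prod.smul_snd, inner_smul_right, smul_eq_mul]
      ring)

theorem BE_apply (v w : H × ℝ × ℝ × ℝ) : BE H v w = ⟪v.1, w.1⟫_ℝ + v.2.1 * w.2.1 -
    v.2.2.1 * w.2.2.1 - v.2.2.2 * w.2.2.2 := rfl

theorem BE_symm (v w : H × ℝ × ℝ × ℝ) : BE H v w = BE H w v := by
  rw [BE_apply, BE_apply, real_inner_comm]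
  ring

theorem BE_self (v : H × ℝ × ℝ × ℝ) : BE H v v = qE v := by
  rw [BE_apply, qE, real_inner_self_eq_norm_sq]
  ring

variable {V : Type} [AddCommGroup V] [Module ℝ V] {B : V →ₗ[ℝ] V →ₗ[ℝ] ℝ}

/-- A linear map which maps null vectors to null vectors is a similarity. -/
theorem exists_similarity (hB : ∀ v w, B v w = B w v) (x₀ : H) (hx₀ : ‖x₀‖ = 1)
    (C : (H × ℝ × ℝ) →ₗ[ℝ] V) (hC : ∀ v, qS v = 0 → B (C v) (C v) = 0) :
    ∃ c : ℝ, ∀ v w, B (C v) (C w) = c * BS H v w := by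
  have dec : ∀ (x : H) (s t : ℝ), C (x, s, t) = C (x, 0, 0) + C (0, s, t) := by
    intro x s t
    rw [← map_add]
    simp
  have key : ∀ (x : H) (s t : ℝ), ‖x‖ ^ 2 = s ^ 2 + t ^ 2 →
      B (C (x, 0, 0)) (C (0, s, t)) = 0 ∧
        B (C (x, 0, 0)) (C (x, 0, 0)) = - B (C (0, s, t)) (C (0, s, t)) := by
    intro x s t h
    have h1 := hC (x, s, t) (by simp only [qS]; linarith)
    have h2 := hC (x, -s, -t) (by simp only [qS]; nlinarith)
    have h3 : C (x, -s, -t) = C (x, 0, 0) - C (0, s, t) := by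
      rw [← map_sub]
      simp
    rw [dec] at h1
    rw [h3] at h2
    simp only [map_add, map_sub, LinearMap.add_apply, LinearMap.sub_apply] at h1 h2
    rw [hB (C (0, s, t)) (C (x, 0, 0))] at h1 h2
    constructor <;> linarith
  refine ⟨B (C (x₀, 0, 0)) (C (x₀, 0, 0)), ?_⟩
  set c := B (C (x₀, 0, 0)) (C (x₀, 0, 0)) with hc
  have hx : ∀ ρ : ℝ, C (ρ • x₀, 0, 0) = ρ • C (x₀, 0, 0) := by
    intro ρ
    rw [← map_smul]
    simp
  have h1 : ∀ s t : ℝ, B (C (0, s, t)) (C (0, s, t)) = -(c * (s ^ 2 + t ^ 2)) := by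
    intro s t
    have hρ : Real.sqrt (s ^ 2 + t ^ 2) ^ 2 = s ^ 2 + t ^ 2 := Real.sq_sqrt (by positivity)
    have h2 := (key (Real.sqrt (s ^ 2 + t ^ 2) • x₀) s t (by
      rw [norm_smul, hx₀, mul_one, Real.norm_eq_abs, sq_abs, hρ])).2
    rw [hx, map_smul, LinearMap.map_smul₂, ← hc, smul_smul, smul_eq_mul] at h2
    rw [← hρ]
    linarith
  have h2 : ∀ x, B (C (x, 0, 0)) (C (x, 0, 0)) = c * ‖x‖ ^ 2 := by
    intro x
    rw [(key x ‖x‖ 0 (by ring)).2, h1]
    ring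
  have h3 : ∀ x s t, B (C (x, 0, 0)) (C (0, s, t)) = 0 := by
    intro x s t
    by_cases hx0 : x = 0
    · have : C ((0 : H), (0 : ℝ), (0 : ℝ)) = 0 := map_zero C
      rw [hx0, this, map_zero, LinearMap.zero_apply]
    by_cases hst : s ^ 2 + t ^ 2 = 0
    · have hs : s = 0 := by nlinarith [sq_nonneg s, sq_nonneg t]
      have ht : t = 0 := by nlinarith [sq_nonneg s, sq_nonneg t]
      have : C ((0 : H), (0 : ℝ), (0 : ℝ)) = 0 := map_zero C
      rw [hs, ht, this, map_zero]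
    · have hpos : 0 < s ^ 2 + t ^ 2 := lt_of_le_of_ne (by positivity) (Ne.symm hst)
      have hρ : Real.sqrt (s ^ 2 + t ^ 2) ^ 2 = s ^ 2 + t ^ 2 := Real.sq_sqrt hpos.le
      have hρ' : 0 < Real.sqrt (s ^ 2 + t ^ 2) := Real.sqrt_pos.2 hpos
      set ρ := Real.sqrt (s ^ 2 + t ^ 2) with hρdef
      have hn : ‖x‖ / ρ ≠ 0 := div_ne_zero (norm_ne_zero_iff.2 hx0) hρ'.ne'
      have h4 := (key x (‖x‖ / ρ * s) (‖x‖ / ρ * t) (by
        have : (‖x‖ / ρ * s) ^ 2 + (‖x‖ / ρ * t) ^ 2 = (‖x‖ / ρ) ^ 2 * (s ^ 2 + t ^ 2) := by ring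
        rw [this, ← hρ]
        field_simp)).1
      have h5 : C (0, ‖x‖ / ρ * s, ‖x‖ / ρ * t) = (‖x‖ / ρ) • C (0, s, t) := by
        rw [← map_smul]
        simp
      rw [h5, map_smul, smul_eq_mul] at h4
      exact (mul_eq_zero.1 h4).resolve_left hn
  have h4 : ∀ v, B (C v) (C v) = c * BS H v v := by
    rintro ⟨x, s, t⟩
    rw [dec]
    simp only [map_add, LinearMap.add_apply]
    rw [hB (C (0, s, t)) (C (x, 0, 0)), h1, h2, h3, BS_self, qS]
    ring
  intro v w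
  have h5 := h4 (v + w)
  simp only [map_add, LinearMap.add_apply, h4] at h5
  rw [hB (C w) (C v), BS_symm w v] at h5
  linarith

theorem similarity_nonneg [FiniteDimensional ℝ H] (hH : 3 ≤ Module.finrank ℝ H)
    (C : (H × ℝ × ℝ) →ₗ[ℝ] V) (c : ℝ) (hc : ∀ v w, B (C v) (C w) = c * BS H v w)
    (φ : V →ₗ[ℝ] (ℝ × ℝ)) (hφ : ∀ v, φ v = 0 → 0 ≤ B v v) : 0 ≤ c := by
  let g : H →ₗ[ℝ] (ℝ × ℝ) := φ ∘ₗ C ∘ₗ LinearMap.inl ℝ H (ℝ × ℝ)
  have h1 : Module.finrank ℝ (LinearMap.ker g) ≠ 0 := by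
    have h2 := LinearMap.finrank_range_add_finrank_ker g
    have h3 : Module.finrank ℝ (LinearMap.range g) ≤ 2 := by
      have := Submodule.finrank_le (LinearMap.range g)
      rw [Module.finrank_prod, Module.finrank_self] at this
      exact this
    omega
  have h2 : LinearMap.ker g ≠ ⊥ := by
    intro h
    rw [h, finrank_bot] at h1
    exact h1 rfl
  obtain ⟨x, hx, hx0⟩ := Submodule.exists_mem_ne_zero_of_ne_bot h2
  have h3 := hφ (C (x, 0, 0)) hx
  rw [hc, BS_self, qS] at h3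
  have h4 : 0 < ‖x‖ ^ 2 := by
    have := norm_pos_iff.2 hx0
    positivity
  simp only [ne_eq, OfNat.ofNat_ne_zero, not_false_eq_true, zero_pow, sub_zero] at h3
  by_contra hneg
  push Not at hneg
  nlinarith

end

/-- For a Lie map between the model space and the Lie sphere space. -/
theorem similarity_NF {d : ℕ} {m : Fin 3 → ℕ} {σ : Fin 3 → ℝ} (hd : 1 ≤ d)
    (A : NF m ≃ₗ[ℝ] (Vec (d + 2) × ℝ × ℝ)) (hA : IsLieMap (qN σ) qS A) :
    ∃ c : ℝ, 0 < c ∧ ∀ v w, BS (Vec (d + 2)) (A v) (A w) = c * BN m σ v w := by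
  have hfr : Module.finrank ℝ (Vec (d + 2)) = d + 2 := by simp
  obtain ⟨x₀, hx₀⟩ : ∃ x : Vec (d + 2), ‖x‖ = 1 := by
    refine ⟨EuclideanSpace.single 0 1, ?_⟩
    simp
  obtain ⟨c, hc⟩ := exists_similarity (BN_symm m σ) x₀ hx₀ A.symm.toLinearMap (by
    intro v hv
    have := (hA (A.symm v)).2 (by rw [A.apply_symm_apply]; exact hv)
    rw [BN_self]
    exact this)
  have hnn : 0 ≤ c := by
    refine similarity_nonneg (by rw [hfr]; omega) A.symm.toLinearMap c hc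
      { toFun := fun v => (v.2 0 - (|σ 1| + |σ 2|) * v.2 2, v.2 1 - (|σ 1| + |σ 2|) * v.2 3)
        map_add' := fun v w => by
          simp only [Prod.snd_add, Pi.add_apply]
          refine Prod.ext ?_ ?_
          · change _ = _ + _
            ring
          · change _ = _ + _
            ring
        map_smul' := fun a v => by
          simp only [Prod.smul_snd, Pi.smul_apply, smul_eq_mul, RingHom.id_apply]
          refine Prod.ext ?_ ?_
          · change _ = _ * _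
            ring
          · change _ = _ * _
            ring } ?_
    intro v hv
    have h1 : v.2 0 = (|σ 1| + |σ 2|) * v.2 2 := by
      have := congrArg Prod.fst hv
      exact sub_eq_zero.1 this
    have h2 : v.2 1 = (|σ 1| + |σ 2|) * v.2 3 := by
      have := congrArg Prod.snd hv
      exact sub_eq_zero.1 this
    rw [BN_self, qN, h1, h2]
    have h3 : 0 ≤ ∑ i, ‖v.1 i‖ ^ 2 := Finset.sum_nonneg fun i _ => by positivity
    have h4 := neg_abs_le (σ 1)
    have h5 := neg_abs_le (σ 2)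
    have h6 := abs_nonneg (σ 1)
    have h7 := abs_nonneg (σ 2)
    nlinarith [sq_nonneg (v.2 2), sq_nonneg (v.2 3)]
  have hne : c ≠ 0 := by
    intro h0
    have h1 := hc (A (0, ![(1 - σ 1) / 2, 0, 1, 0])) (A (0, ![(1 - σ 1) / 2, 0, 1, 0]))
    rw [h0, zero_mul] at h1
    change BN m σ (A.symm (A _)) (A.symm (A _)) = 0 at h1
    rw [A.symm_apply_apply, BN_apply] at h1
    simp at h1
  have hpos : 0 < c := lt_of_le_of_ne hnn (Ne.symm hne)
  refine ⟨c⁻¹, inv_pos.2 hpos, fun v w => ?_⟩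
  have h1 := hc (A v) (A w)
  change BN m σ (A.symm (A _)) (A.symm (A _)) = _ at h1
  rw [A.symm_apply_apply, A.symm_apply_apply] at h1
  rw [h1]
  field_simp

/-- For a Lie map from the Lie space of a Euclidean space. -/
theorem similarity_E {H : Type} [NormedAddCommGroup H] [InnerProductSpace ℝ H] {d : ℕ} (hd : 1 ≤ d)
    (A : (H × ℝ × ℝ × ℝ) ≃ₗ[ℝ] (Vec (d + 2) × ℝ × ℝ)) (hA : IsLieMap qE qS A) :
    ∃ c : ℝ, 0 < c ∧ ∀ v w, BS (Vec (d + 2)) (A v) (A w) = c * BE H v w := by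
  have hfr : Module.finrank ℝ (Vec (d + 2)) = d + 2 := by simp
  obtain ⟨x₀, hx₀⟩ : ∃ x : Vec (d + 2), ‖x‖ = 1 := by
    refine ⟨EuclideanSpace.single 0 1, ?_⟩
    simp
  obtain ⟨c, hc⟩ := exists_similarity (B := BE H) BE_symm x₀ hx₀ A.symm.toLinearMap (by
    intro v hv
    have := (hA (A.symm v)).2 (by rw [A.apply_symm_apply]; exact hv)
    rw [BE_self]
    exact this)
  have hnn : 0 ≤ c := by
    refine similarity_nonneg (by rw [hfr]; omega) A.symm.toLinearMap c hc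
      (LinearMap.snd ℝ ℝ (ℝ × ℝ) ∘ₗ LinearMap.snd ℝ H (ℝ × ℝ × ℝ)) ?_
    intro v hv
    have h1 : v.2.2 = 0 := hv
    rw [BE_self, qE, h1]
    simp only [Prod.fst_zero, Prod.snd_zero]
    have h2 : 0 ≤ ‖v.1‖ ^ 2 := by positivity
    have h3 : 0 ≤ v.2.1 ^ 2 := by positivity
    linarith
  have hne : c ≠ 0 := by
    intro h0
    have h1 := hc (A (0, 1, 0, 0)) (A (0, 1, 0, 0))
    rw [h0, zero_mul] at h1
    change BE H (A.symm (A _)) (A.symm (A _)) = 0 at h1
    rw [A.symm_apply_apply, BE_apply] at h1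
    simp at h1
  have hpos : 0 < c := lt_of_le_of_ne hnn (Ne.symm hne)
  refine ⟨c⁻¹, inv_pos.2 hpos, fun v w => ?_⟩
  have h1 := hc (A v) (A w)
  change BE H (A.symm (A _)) (A.symm (A _)) = _ at h1
  rw [A.symm_apply_apply, A.symm_apply_apply] at h1
  rw [h1]
  field_simp

end Pool.Agent.R744.Lie
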