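import Pool.Agent.R744.LieModel

set_option autoImplicit false
set_option linter.unusedSectionVars false

namespace Pool.Agent.R744.Lie

open scoped ContDiff InnerProductSpace Topology

section Transport

variable {V V' : Type} [AddCommGroup V] [Module ℝ V] [AddCommGroup V'] [Module ℝ V']
  {B : V →ₗ[ℝ] V →ₗ[ℝ] ℝ} {B' : V' →ₗ[ℝ] V' →ₗ[ℝ] ℝ} {m : Fin 3 → ℕ} {σ : Fin 3 → ℝ}

/-- transport of a frame under an isometry -/
noncomputable def Frame.trans (F : Frame B m σ) (hB' : ∀ v w, B' v w = B' w v) (C : V →ₗ[ℝ] V')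
    (hC : ∀ v w, B' (C v) (C w) = B v w) : Frame B' m σ where
  e := fun i => C ∘ₗ F.e i
  p := fun i => C (F.p i)
  n := fun i => C (F.n i)
  symm := hB'
  ee := fun i x y => by
    rw [LinearMap.comp_apply, LinearMap.comp_apply, hC, F.ee]
  ee' := fun i j hij x y => by
    rw [LinearMap.comp_apply, LinearMap.comp_apply, hC, F.ee' i j hij]
  en := fun i j x => by rw [LinearMap.comp_apply, hC, F.en]
  ep := fun i j k x => by rw [LinearMap.comp_apply, ← map_sub, hC, F.ep]
  nn := fun i => by rw [hC, F.nn]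
  nn' := fun i j hij => by rw [hC, F.nn' i j hij]
  pn := fun i j hij => by rw [← map_sub, hC, F.pn i j hij]
  pp := fun i j k l => by rw [← map_sub, ← map_sub, hC, F.pp]

theorem Frame.trans_pt (F : Frame B m σ) (hB' : ∀ v w, B' v w = B' w v) (C : V →ₗ[ℝ] V')
    (hC : ∀ v w, B' (C v) (C w) = B v w) (i : Fin 3) (y : Vec (m i)) :
    (F.trans hB' C hC).pt i y = C (F.pt i y) := by
  unfold Frame.pt
  simp only [Frame.trans, LinearMap.comp_apply, map_add, map_smul]

theorem map_tripleLine {E : Type} (a : Fin 3 → E → V) (C : V →ₗ[ℝ] V') (u : E) :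
    (tripleLine a u).map C = tripleLine (fun i u => C (a i u)) u := by
  unfold tripleLine
  rw [Submodule.map_span, Set.image_pair, map_sub, map_sub]

theorem map_smul_span (S : Submodule ℝ V) (C : V →ₗ[ℝ] V') (c : ℝ) (hc : c ≠ 0) :
    S.map (c • C) = S.map C := by
  apply le_antisymm
  · rintro _ ⟨v, hv, rfl⟩
    exact ⟨c • v, S.smul_mem c hv, by simp⟩
  · rintro _ ⟨v, hv, rfl⟩
    exact ⟨c⁻¹ • v, S.smul_mem _ hv, by
      rw [LinearMap.smul_apply, map_smul, smul_smul, mul_inv_cancel₀ hc, one_smul]⟩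

theorem span_pair_eq {v w v' w' : V} (a b c d : ℝ) (h : a * d - b * c ≠ 0)
    (h1 : v' = a • v + b • w) (h2 : w' = c • v + d • w) :
    Submodule.span ℝ {v', w'} = Submodule.span ℝ {v, w} := by
  apply le_antisymm
  · rw [Submodule.span_le]
    have hv : v ∈ Submodule.span ℝ {v, w} := Submodule.subset_span (by simp)
    have hw : w ∈ Submodule.span ℝ {v, w} := Submodule.subset_span (by simp)
    rintro x (rfl | rfl)
    · rw [h1]
      exact Submodule.add_mem _ (Submodule.smul_mem _ _ hv) (Submodule.smul_mem _ _ hw)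
    · rw [h2]
      exact Submodule.add_mem _ (Submodule.smul_mem _ _ hv) (Submodule.smul_mem _ _ hw)
  · rw [Submodule.span_le]
    have hv : v' ∈ Submodule.span ℝ {v', w'} := Submodule.subset_span (by simp)
    have hw : w' ∈ Submodule.span ℝ {v', w'} := Submodule.subset_span (by simp)
    rintro x (rfl | rfl)
    · have e : x = (d / (a * d - b * c)) • v' + (-b / (a * d - b * c)) • w' := by
        rw [h1, h2, smul_add, smul_add, smul_smul, smul_smul, smul_smul, smul_smul]
        have e1 : d / (a * d - b * c) * a + -b / (a * d - b * c) * c = 1 := by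
          rw [div_mul_eq_mul_div, div_mul_eq_mul_div, ← add_div, div_eq_one_iff_eq h]
          ring
        have e2 : d / (a * d - b * c) * b + -b / (a * d - b * c) * d = 0 := by
          field_simp
          ring
        have e3 : ∀ p q r s : ℝ, p • x + q • w + (r • x + s • w) = (p + r) • x + (q + s) • w := by
          intro p q r s
          module
        rw [e3, e1, e2, one_smul, zero_smul, add_zero]
      rw [e]
      exact Submodule.add_mem _ (Submodule.smul_mem _ _ hv) (Submodule.smul_mem _ _ hw)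
    · have e : x = (-c / (a * d - b * c)) • v' + (a / (a * d - b * c)) • w' := by
        rw [h1, h2, smul_add, smul_add, smul_smul, smul_smul, smul_smul, smul_smul]
        have e1 : -c / (a * d - b * c) * b + a / (a * d - b * c) * d = 1 := by
          rw [div_mul_eq_mul_div, div_mul_eq_mul_div, ← add_div, div_eq_one_iff_eq h]
          ring
        have e2 : -c / (a * d - b * c) * a + a / (a * d - b * c) * c = 0 := by
          field_simp
          ring
        have e3 : ∀ p q r s : ℝ, p • v + q • x + (r • v + s • x) = (p + r) • v + (q + s) • x := by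
          intro p q r s
          module
        rw [e3, e1, e2, one_smul, zero_smul, zero_add]
      rw [e]
      exact Submodule.add_mem _ (Submodule.smul_mem _ _ hv) (Submodule.smul_mem _ _ hw)

end Transport

section Sphere

variable {d : ℕ} {m : Fin 3 → ℕ} {σ : Fin 3 → ℝ} {f ξ : Vec d → Vec (d + 2)} {u₀ : Vec d}

/-- The hypersurface is modelled on the data in terms of frames. -/
def FrameModel (m : Fin 3 → ℕ) (σ : Fin 3 → ℝ) (f ξ : Vec d → Vec (d + 2)) (u₀ : Vec d)
    (y₀ : ∀ i, Vec (m i)) : Prop :=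
  ∃ (F : Frame (BS (Vec (d + 2))) m σ) (U : Set (Vec d)) (ψ : Vec d → ∀ i, Vec (m i)),
    IsOpen U ∧ u₀ ∈ U ∧ ψ u₀ = y₀ ∧ IsDiffeo U ψ ∧
    (∀ u ∈ U, ∀ i, 0 < 1 + σ i * ‖ψ u i‖ ^ 2 / 4) ∧
    ∀ u ∈ U, liftS f ξ u = tripleLine (fun i u => F.pt i (ψ u i)) u

theorem stdFrame_pt (h : ∑ i, σ i = 0) (i : Fin 3) (y : Vec (m i)) :
    (stdFrame m σ h).pt i y = apt m σ i y := rfl

theorem IsModelledAt.frameModel (hd : 1 ≤ d) (hσ : ∑ i, σ i = 0)
    (h : IsModelledAt m σ f ξ u₀) : ∃ y₀, FrameModel m σ f ξ u₀ y₀ := by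
  obtain ⟨U, ψ, A, hU, hu, hψ, hden, hA, hline⟩ := h
  obtain ⟨c, hc, hsim⟩ := similarity_NF hd A hA
  have hs : 0 < Real.sqrt c := Real.sqrt_pos.2 hc
  have hs2 : Real.sqrt c * Real.sqrt c = c := Real.mul_self_sqrt hc.le
  have hC : ∀ v w, BS (Vec (d + 2)) (((Real.sqrt c)⁻¹ • A.toLinearMap) v)
      (((Real.sqrt c)⁻¹ • A.toLinearMap) w) = BN m σ v w := by
    intro v w
    rw [LinearMap.smul_apply, LinearMap.smul_apply, map_smul, LinearMap.map_smul₂, smul_smul]
    change _ • (BS (Vec (d + 2)) (A v) (A w)) = _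
    rw [hsim, smul_eq_mul, ← mul_inv, hs2, ← mul_assoc, inv_mul_cancel₀ hc.ne', one_mul]
  refine ⟨ψ u₀, (stdFrame m σ hσ).trans BS_symm _ hC, U, ψ, hU, hu, rfl, hψ, hden, ?_⟩
  intro u hu
  rw [← hline u hu, ← map_smul_span _ A.toLinearMap (Real.sqrt c)⁻¹ (inv_ne_zero hs.ne')]
  have h1 : modelLine m σ (ψ u) = tripleLine (fun i u => (stdFrame m σ hσ).pt i (ψ u i)) u := rfl
  rw [h1, map_tripleLine]
  simp only [Frame.trans_pt]

theorem FrameModel.isModelledAt {y₀ : ∀ i, Vec (m i)} (hm : ∑ i, m i = d)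
    (h : FrameModel m σ f ξ u₀ y₀) : IsModelledAt m σ f ξ u₀ := by
  obtain ⟨F, U, ψ, hU, hu, -, hψ, hden, hline⟩ := h
  have hfr : Module.finrank ℝ (Vec (d + 2) × ℝ × ℝ) = ∑ i, m i + 4 := by rw [finrank_LS, hm]
  refine ⟨U, ψ, F.equiv hfr, hU, hu, hψ, hden, ?_, ?_⟩
  · intro v
    rw [← BN_self, ← BS_self, F.equiv_apply, F.B_map]
  · intro u hu
    rw [hline u hu]
    unfold modelLine tripleLine
    rw [Submodule.map_span, Set.image_pair]
    change Submodule.span ℝ {F.map _, F.map _} = _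
    rw [F.map_apt hfr, F.map_apt hfr]

theorem tripleLine_perm {E V : Type} [AddCommGroup V] [Module ℝ V] (a : Fin 3 → E → V)
    (π : Equiv.Perm (Fin 3)) (u : E) : tripleLine (fun i => a (π i)) u = tripleLine a u := by
  have key : ∀ (π : Equiv.Perm (Fin 3)), ∃ p q r s : ℝ, p * s - q * r ≠ 0 ∧
      (a (π 0) u - a (π 1) u = p • (a 0 u - a 1 u) + q • (a 0 u - a 2 u)) ∧
      (a (π 0) u - a (π 2) u = r • (a 0 u - a 1 u) + s • (a 0 u - a 2 u)) := by
    intro π
    have h01 : π 0 ≠ π 1 := fun h => absurd (π.injective h) (by decide)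
    have h02 : π 0 ≠ π 2 := fun h => absurd (π.injective h) (by decide)
    have h12 : π 1 ≠ π 2 := fun h => absurd (π.injective h) (by decide)
    generalize π 0 = x at *
    generalize π 1 = y at *
    generalize π 2 = z at *
    fin_cases x <;> fin_cases y <;> fin_cases z <;> simp at h01 h02 h12
    · exact ⟨1, 0, 0, 1, by norm_num, by simp, by simp⟩
    · exact ⟨0, 1, 1, 0, by norm_num, by simp, by simp⟩
    · refine ⟨-1, 0, -1, 1, by norm_num, ?_, ?_⟩
      · change a 1 u - a 0 u = _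
        module
      · change a 1 u - a 2 u = _
        module
    · refine ⟨-1, 1, -1, 0, by norm_num, ?_, ?_⟩
      · change a 1 u - a 2 u = _
        module
      · change a 1 u - a 0 u = _
        module
    · refine ⟨0, -1, 1, -1, by norm_num, ?_, ?_⟩
      · change a 2 u - a 0 u = _
        module
      · change a 2 u - a 1 u = _
        module
    · refine ⟨1, -1, 0, -1, by norm_num, ?_, ?_⟩
      · change a 2 u - a 1 u = _
        module
      · change a 2 u - a 0 u = _
        module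
  obtain ⟨p, q, r, s, h, h1, h2⟩ := key π
  exact span_pair_eq p q r s h h1 h2

theorem tripleLine_smul {E V : Type} [AddCommGroup V] [Module ℝ V] (a : Fin 3 → E → V)
    (c : ℝ) (hc : c ≠ 0) (b : V) (u : E) : tripleLine (fun i u => c • a i u + b) u =
      tripleLine a u := by
  unfold tripleLine
  refine span_pair_eq c 0 0 c (by simpa using hc) ?_ ?_
  · module
  · module

/-- Models from a triple. -/
theorem frameModel_of_triple {U : Set (Vec d)} {a : Fin 3 → Vec d → (Vec (d + 2) × ℝ × ℝ)}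
    {F : Frame (BS (Vec (d + 2))) m σ} (hm : ∑ i, m i = d)
    (T : Triple (BS (Vec (d + 2))) U u₀ a)
    (hF : Adapted U u₀ a F) (hline : ∀ u ∈ U, liftS f ξ u = tripleLine a u) :
    FrameModel m σ f ξ u₀ 0 := by
  have hfr : Module.finrank ℝ (Vec (d + 2) × ℝ × ℝ) = ∑ i, m i + 4 := by rw [finrank_LS, hm]
  obtain ⟨U', hU', h1, h2, ψ, h3, h4, h5, h6⟩ := hF.exists_model T hfr (by simp [hm])
  refine ⟨F, U', ψ, h1, h2, h3, h4, h5, ?_⟩
  intro u hu
  rw [hline u (hU' hu)]
  unfold tripleLine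
  rw [h6 u hu, h6 u hu, h6 u hu]

/-- change of the base point -/
theorem FrameModel.base {y₀ : ∀ i, Vec (m i)} (hm : ∑ i, m i = d)
    (h : FrameModel m σ f ξ u₀ y₀) : FrameModel m σ f ξ u₀ 0 := by
  obtain ⟨F, U, ψ, hU, hu, -, hψ, hden, hline⟩ := h
  exact frameModel_of_triple hm (model_triple F hU hu hψ hden) (model_adapted F hU hu hψ hden)
    hline

end Sphere

section Invariance

variable {E V : Type} [NormedAddCommGroup E] [NormedSpace ℝ E] [FiniteDimensional ℝ E]
  [NormedAddCommGroup V] [NormedSpace ℝ V] [FiniteDimensional ℝ V]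
  {B : V →ₗ[ℝ] V →ₗ[ℝ] ℝ} {m : Fin 3 → ℕ} {σ : Fin 3 → ℝ} {U : Set E} {u₀ : E}
  {a : Fin 3 → E → V}

theorem fderiv_smul_add {f : E → V} {u : E} (hf : DifferentiableAt ℝ f u) (c : ℝ) (b : V) (X : E) :
    fderiv ℝ (fun u => c • f u + b) u X = c • fderiv ℝ f u X := by
  rw [fderiv_add_const, fderiv_fun_const_smul hf]
  rfl

theorem Triple.smul_add (T : Triple B U u₀ a) (c : ℝ) (hc : c ≠ 0) (b : V) :
    Triple B U u₀ (fun i u => c • a i u + b) where
  symm := T.symm
  isOpen := T.isOpen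
  mem := T.mem
  smooth := fun i => ((T.smooth i).const_smul c).add contDiffOn_const
  null := fun i j hij u hu v hv => by
    have e : c • a i u + b - (c • a j v + b) = c • (a i u - a j v) := by module
    rw [e, map_smul, LinearMap.map_smul₂, T.null i j hij u hu v hv, smul_zero, smul_zero]
  pos := fun i X hX => by
    rw [fderiv_smul_add (T.differentiableAt i T.mem)] at hX ⊢
    rw [map_smul, LinearMap.map_smul₂, smul_eq_mul, smul_eq_mul]
    have h1 : fderiv ℝ (a i) u₀ X ≠ 0 := fun h => hX (by rw [h, smul_zero])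
    have h2 := T.pos i X h1
    have h3 : 0 < c * c := mul_self_pos.2 hc
    rw [← mul_assoc]
    exact mul_pos h3 h2
  inj := fun X hX => T.inj X fun i => by
    have h1 := hX i
    rw [fderiv_smul_add (T.differentiableAt i T.mem)] at h1
    exact (smul_eq_zero.1 h1).resolve_left hc

theorem Adapted.perm {F : Frame B m σ} (h : Adapted U u₀ a F) (π : Equiv.Perm (Fin 3)) :
    Adapted U u₀ (fun i => a (π i)) (F.perm π) where
  p := fun i => h.p (π i)
  fderiv_eq := fun i => h.fderiv_eq (π i)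
  eq_fderiv := fun i => h.eq_fderiv (π i)
  n := fun i j hij => h.n (π i) (π j) (fun h => hij (π.injective h))

theorem Adapted.scale {F : Frame B m σ} (T : Triple B U u₀ a) (h : Adapted U u₀ a F) (c : ℝ)
    (hc : c ≠ 0) :
    Adapted U u₀ (fun i u => c • a i u + 0) (F.scale c hc) where
  p := fun i => by
    rw [add_zero, ← h.p i]
    rfl
  fderiv_eq := fun i X => by
    rw [fderiv_smul_add (T.differentiableAt i T.mem)]
    obtain ⟨y, hy⟩ := h.fderiv_eq i X
    exact ⟨c • y, by rw [map_smul, hy]; rfl⟩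
  eq_fderiv := fun i y => by
    obtain ⟨X, hX⟩ := h.eq_fderiv i y
    refine ⟨c⁻¹ • X, ?_⟩
    rw [fderiv_smul_add (T.differentiableAt i T.mem), map_smul, smul_smul, mul_inv_cancel₀ hc,
      one_smul, ← hX]
    rfl
  n := fun i j hij u hu => by
    change B _ (c⁻¹ • F.n j) = 0
    have e : c • a i u + 0 - (c • a i u₀ + 0) = c • (a i u - a i u₀) := by module
    rw [e, map_smul, LinearMap.map_smul₂, h.n i j hij u hu, smul_zero, smul_zero]

end Invariance

section Sphere2

variable {d : ℕ} {m : Fin 3 → ℕ} {σ : Fin 3 → ℝ} {f ξ : Vec d → Vec (d + 2)} {u₀ : Vec d}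

theorem FrameModel.perm {y₀ : ∀ i, Vec (m i)} (hm : ∑ i, m i = d)
    (h : FrameModel m σ f ξ u₀ y₀) (π : Equiv.Perm (Fin 3)) :
    FrameModel (fun i => m (π i)) (fun i => σ (π i)) f ξ u₀ 0 := by
  obtain ⟨F, U, ψ, hU, hu, -, hψ, hden, hline⟩ := h
  have hm' : ∑ i, m (π i) = d := by rw [Equiv.sum_comp π m, hm]
  refine frameModel_of_triple hm' ((model_triple F hU hu hψ hden).perm π)
    ((model_adapted F hU hu hψ hden).perm π) fun u hu => ?_
  rw [hline u hu, ← tripleLine_perm _ π]

theorem FrameModel.scale {y₀ : ∀ i, Vec (m i)} (hm : ∑ i, m i = d)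
    (h : FrameModel m σ f ξ u₀ y₀) (c : ℝ) (hc : c ≠ 0) :
    FrameModel m (fun i => c⁻¹ ^ 2 * σ i) f ξ u₀ 0 := by
  obtain ⟨F, U, ψ, hU, hu, -, hψ, hden, hline⟩ := h
  refine frameModel_of_triple hm ((model_triple F hU hu hψ hden).smul_add c hc 0)
    ((model_adapted F hU hu hψ hden).scale (model_triple F hU hu hψ hden) c hc) fun u hu => ?_
  rw [hline u hu]
  exact (tripleLine_smul _ c hc 0 u).symm

end Sphere2

end Pool.Agent.R744.Lie
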