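import Pool.Agent.R744.LieCalc

set_option autoImplicit false
set_option linter.unusedSectionVars false

namespace Pool.Agent.R744.Lie

open scoped ContDiff InnerProductSpace Topology

variable {E V : Type} [NormedAddCommGroup E] [NormedSpace ℝ E] [FiniteDimensional ℝ E]
  [NormedAddCommGroup V] [NormedSpace ℝ V] [FiniteDimensional ℝ V]

/-- Three families of points with mutually null differences. -/
structure Triple (B : V →ₗ[ℝ] V →ₗ[ℝ] ℝ) (U : Set E) (u₀ : E) (a : Fin 3 → E → V) : Prop where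
  symm : ∀ v w, B v w = B w v
  isOpen : IsOpen U
  mem : u₀ ∈ U
  smooth : ∀ i, ContDiffOn ℝ ∞ (a i) U
  null : ∀ i j, i ≠ j → ∀ u ∈ U, ∀ v ∈ U, B (a i u - a j v) (a i u - a j v) = 0
  pos : ∀ i X, fderiv ℝ (a i) u₀ X ≠ 0 → 0 < B (fderiv ℝ (a i) u₀ X) (fderiv ℝ (a i) u₀ X)
  inj : ∀ X, (∀ i, fderiv ℝ (a i) u₀ X = 0) → X = 0

namespace Triple

variable {B : V →ₗ[ℝ] V →ₗ[ℝ] ℝ} {U : Set E} {u₀ : E} {a : Fin 3 → E → V}

theorem mono (T : Triple B U u₀ a) {U' : Set E} (h : U' ⊆ U) (hU' : IsOpen U') (hu : u₀ ∈ U') :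
    Triple B U' u₀ a where
  symm := T.symm
  isOpen := hU'
  mem := hu
  smooth := fun i => (T.smooth i).mono h
  null := fun i j hij u hu v hv => T.null i j hij u (h hu) v (h hv)
  pos := T.pos
  inj := T.inj

theorem perm (T : Triple B U u₀ a) (π : Equiv.Perm (Fin 3)) :
    Triple B U u₀ (fun i => a (π i)) where
  symm := T.symm
  isOpen := T.isOpen
  mem := T.mem
  smooth := fun i => T.smooth (π i)
  null := fun i j hij u hu v hv =>
    T.null (π i) (π j) (fun h => hij (π.injective h)) u hu v hv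
  pos := fun i X h => T.pos (π i) X h
  inj := fun X h => T.inj X fun i => by
    have := h (π.symm i)
    simpa using this

theorem orth (T : Triple B U u₀ a) (i j : Fin 3) (hij : i ≠ j) {u u' v v' : E} (hu : u ∈ U)
    (hu' : u' ∈ U) (hv : v ∈ U) (hv' : v' ∈ U) : B (a i u - a i u') (a j v - a j v') = 0 :=
  Frame.polar T.symm _ _ _ _ (T.null i j hij u hu v' hv') (T.null i j hij u' hu' v hv)
    (T.null i j hij u hu v hv) (T.null i j hij u' hu' v' hv')

theorem orth' (T : Triple B U u₀ a) (i j k : Fin 3) (hij : i ≠ j) (hik : i ≠ k) {u u' v w : E}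
    (hu : u ∈ U) (hu' : u' ∈ U) (hv : v ∈ U) (hw : w ∈ U) :
    B (a i u - a i u') (a j v - a k w) = 0 :=
  Frame.polar T.symm _ _ _ _ (T.null i k hik u hu w hw) (T.null i j hij u' hu' v hv)
    (T.null i j hij u hu v hv) (T.null i k hik u' hu' w hw)

theorem differentiableAt (T : Triple B U u₀ a) (i : Fin 3) {u : E} (hu : u ∈ U) :
    DifferentiableAt ℝ (a i) u := ContDiffOn.differentiableAt' (T.smooth i) T.isOpen hu

/-- a function which is constant on an open set has zero derivative -/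
theorem fderiv_eq_zero_of_eqOn {f : E → ℝ} {c : ℝ} {u : E} (hU : IsOpen U) (hu : u ∈ U)
    (h : ∀ v ∈ U, f v = c) (X : E) : fderiv ℝ f u X = 0 := by
  have h1 : f =ᶠ[𝓝 u] fun _ => c := by
    filter_upwards [hU.mem_nhds hu] with v hv using h v hv
  rw [h1.fderiv_eq]
  simp

theorem orth_fderiv (T : Triple B U u₀ a) (i j : Fin 3) (hij : i ≠ j) {u u' v : E} (hu : u ∈ U)
    (hu' : u' ∈ U) (hv : v ∈ U) (X : E) : B (a i u - a i u') (fderiv ℝ (a j) v X) = 0 := by
  have h := fderiv_eq_zero_of_eqOn (f := fun w => B (a i u - a i u') (a j w)) (c := B (a i u - a i u') (a j v))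
    T.isOpen hv (fun w hw => by
      have := T.orth i j hij hu hu' hw hv
      rw [map_sub] at this
      exact sub_eq_zero.1 this) X
  rwa [fderiv_linear (B (a i u - a i u')) (T.differentiableAt j hv)] at h

theorem fderiv_orth_fderiv (T : Triple B U u₀ a) (i j : Fin 3) (hij : i ≠ j) {u v : E}
    (hu : u ∈ U) (hv : v ∈ U) (X Y : E) : B (fderiv ℝ (a i) u X) (fderiv ℝ (a j) v Y) = 0 := by
  rw [T.symm]
  have h := fderiv_eq_zero_of_eqOn (f := fun w => B (fderiv ℝ (a j) v Y) (a i w))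
    (c := B (fderiv ℝ (a j) v Y) (a i u))
    T.isOpen hu (fun w hw => by
      have := T.orth_fderiv i j hij hw hu hv Y
      rw [T.symm, map_sub] at this
      exact sub_eq_zero.1 this) X
  rwa [fderiv_linear (B (fderiv ℝ (a j) v Y)) (T.differentiableAt i hu)] at h

/-- the tangent space of one family is orthogonal to the difference with another -/
theorem fderiv_orth (T : Triple B U u₀ a) (i j : Fin 3) (hij : i ≠ j) {u v : E}
    (hu : u ∈ U) (hv : v ∈ U) (X : E) : B (fderiv ℝ (a i) u X) (a i u - a j v) = 0 := by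
  have hd := T.differentiableAt i hu
  have h := fderiv_eq_zero_of_eqOn (f := fun w => B (a i w - a j v) (a i w - a j v)) (c := 0)
    T.isOpen hu (fun w hw => T.null i j hij w hw v hv) X
  rw [fderiv_B B (hd.sub_const _) (hd.sub_const _), fderiv_sub_const] at h
  rw [T.symm (a i u - a j v)] at h
  linarith

theorem fderiv_orth' (T : Triple B U u₀ a) (i j k : Fin 3) (hij : i ≠ j) (hik : i ≠ k)
    {u v w : E} (hu : u ∈ U) (hv : v ∈ U) (hw : w ∈ U) (X : E) :
    B (fderiv ℝ (a i) u X) (a j v - a k w) = 0 := by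
  have h1 := T.fderiv_orth i j hij hu hv X
  have h2 := T.fderiv_orth i k hik hu hw X
  have h3 : a j v - a k w = (a i u - a k w) - (a i u - a j v) := by abel
  rw [h3, map_sub, h1, h2, sub_zero]

end Triple

/-- A frame adapted to a triple. -/
structure Adapted {B : V →ₗ[ℝ] V →ₗ[ℝ] ℝ} {m : Fin 3 → ℕ} {σ : Fin 3 → ℝ} (U : Set E) (u₀ : E)
    (a : Fin 3 → E → V) (F : Frame B m σ) : Prop where
  p : ∀ i, F.p i = a i u₀
  fderiv_eq : ∀ i X, ∃ y, fderiv ℝ (a i) u₀ X = F.e i y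
  eq_fderiv : ∀ i y, ∃ X, F.e i y = fderiv ℝ (a i) u₀ X
  n : ∀ i j, i ≠ j → ∀ u ∈ U, B (a i u - a i u₀) (F.n j) = 0

namespace Adapted

variable {B : V →ₗ[ℝ] V →ₗ[ℝ] ℝ} {U : Set E} {u₀ : E} {a : Fin 3 → E → V}
  {m : Fin 3 → ℕ} {σ : Fin 3 → ℝ} {F : Frame B m σ}

/-- coordinates of the orthogonal projection to the range of `e i` -/
noncomputable def proj (F : Frame B m σ) (i : Fin 3) : V →ₗ[ℝ] Vec (m i) where
  toFun v := WithLp.toLp 2 fun k => B v (F.e i (EuclideanSpace.single k 1))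
  map_add' v w := by
    ext k
    simp
  map_smul' c v := by
    ext k
    simp

theorem inner_proj (F : Frame B m σ) (i : Fin 3) (v : V) (x : Vec (m i)) :
    ⟪proj F i v, x⟫_ℝ = B v (F.e i x) := by
  have hx : x = ∑ k, x k • EuclideanSpace.single k (1 : ℝ) := by
    ext l
    simp [Pi.single_apply]
  rw [PiLp.inner_apply]
  conv_rhs => rw [hx, map_sum, map_sum]
  refine Finset.sum_congr rfl fun k _ => ?_
  rw [map_smul, map_smul]
  change x k * _ = x k * _
  rfl

theorem proj_e (F : Frame B m σ) (i : Fin 3) (y : Vec (m i)) : proj F i (F.e i y) = y := by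
  refine ext_inner_right ℝ fun x => ?_
  rw [inner_proj, F.ee]

theorem repr (T : Triple B U u₀ a) (hF : Adapted U u₀ a F)
    (hd : Module.finrank ℝ V = ∑ i, m i + 4) (i : Fin 3) {u : E} (hu : u ∈ U) :
    a i u = F.p i + F.w i (proj F i (a i u - a i u₀)) (B (a i u - a i u₀) (a i u - a i u₀) / 2) := by
  set δ := a i u - a i u₀ with hδ
  set v := δ - F.w i (proj F i δ) (B δ δ / 2) with hv
  have h1 : ∀ j x, B v (F.e j x) = 0 := by
    intro j x
    have e1 : F.e j x = F.w j x 0 := by simp [Frame.w]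
    by_cases hij : i = j
    · subst hij
      rw [hv, map_sub, LinearMap.sub_apply, ← inner_proj F i δ x, e1, F.B_w_w]
      ring
    · rw [hv, map_sub, LinearMap.sub_apply]
      obtain ⟨X, hX⟩ := hF.eq_fderiv j x
      rw [hX, T.orth_fderiv i j hij hu T.mem T.mem, ← hX, e1, F.B_w_w' i j hij]
      ring
  have h2 : ∀ j, j ≠ i → B v (F.p i - F.p j) = 0 := by
    intro j hj
    have h3 := T.null i j hj.symm u hu u₀ T.mem
    have h4 : a i u - a j u₀ = (F.p i - F.p j) + δ := by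
      rw [hF.p, hF.p, hδ]
      abel
    rw [h4] at h3
    simp only [map_add, LinearMap.add_apply] at h3
    rw [F.pp, T.symm δ (F.p i - F.p j)] at h3
    rw [hv, LinearMap.map_sub₂, F.symm _ (F.p i - F.p j), F.symm _ (F.p i - F.p j),
      F.B_p_w i j hj.symm]
    linarith
  have h2' : ∀ j k, B v (F.p j - F.p k) = 0 := by
    have key : ∀ j, B v (F.p i - F.p j) = 0 := by
      intro j
      by_cases hj : j = i
      · rw [hj, sub_self, map_zero]
      · exact h2 j hj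
    intro j k
    have e : F.p j - F.p k = (F.p i - F.p k) - (F.p i - F.p j) := by abel
    rw [e, map_sub, key, key, sub_zero]
  have h5 : ∀ j, j ≠ i → B v (F.n j) = 0 := by
    intro j hj
    have e1 : F.n j = F.w j 0 1 := by simp [Frame.w]
    rw [hv, map_sub, LinearMap.sub_apply, hF.n i j hj.symm u hu, e1, F.B_w_w' i j hj.symm, sub_zero]
  have h6 : B v (F.n 0) + B v (F.n 1) + B v (F.n 2) = 0 := by
    rw [F.n0_eq hd]
    simp only [map_sub _ (_ - _) _, map_sub _ (_ + _) _, map_add, map_smul, h2']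
    simp
    ring
  have h7 : ∀ j, B v (F.n j) = 0 := by
    intro j
    by_cases hj : j = i
    · subst hj
      fin_cases j
      · have := h5 1 (by decide)
        have := h5 2 (by decide)
        change B v (F.n 0) = 0
        linarith
      · have := h5 0 (by decide)
        have := h5 2 (by decide)
        change B v (F.n 1) = 0
        linarith
      · have := h5 0 (by decide)
        have := h5 1 (by decide)
        change B v (F.n 2) = 0
        linarith
    · exact h5 j hj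
  have h8 := F.eq_zero hd v h1 (h2' 0 1) (h2' 0 2) (h7 1) (h7 2)
  have h9 : δ = F.w i (proj F i δ) (B δ δ / 2) := sub_eq_zero.1 h8
  rw [← h9, hδ, hF.p]
  abel

/-- the height function -/
noncomputable def S (B : V →ₗ[ℝ] V →ₗ[ℝ] ℝ) (u₀ : E) (a : Fin 3 → E → V) (i : Fin 3) (u : E) : ℝ :=
  B (a i u - a i u₀) (a i u - a i u₀) / 2

/-- the tangential coordinate -/
noncomputable def Y (F : Frame B m σ) (u₀ : E) (a : Fin 3 → E → V) (i : Fin 3) (u : E) :
    Vec (m i) := proj F i (a i u - a i u₀)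

theorem repr' (T : Triple B U u₀ a) (hF : Adapted U u₀ a F)
    (hd : Module.finrank ℝ V = ∑ i, m i + 4) (i : Fin 3) {u : E} (hu : u ∈ U) :
    a i u - a i u₀ = F.w i (Y F u₀ a i u) (S B u₀ a i u) := by
  have h := repr T hF hd i hu
  rw [hF.p] at h
  rw [← sub_eq_iff_eq_add'] at h
  exact h

theorem norm_Y (T : Triple B U u₀ a) (hF : Adapted U u₀ a F)
    (hd : Module.finrank ℝ V = ∑ i, m i + 4) (i : Fin 3) {u : E} (hu : u ∈ U) :
    ‖Y F u₀ a i u‖ ^ 2 + σ i * S B u₀ a i u ^ 2 = 2 * S B u₀ a i u := by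
  have h := repr' T hF hd i hu
  have h1 : B (a i u - a i u₀) (a i u - a i u₀) = 2 * S B u₀ a i u := by
    unfold S
    ring
  rw [← h1]
  conv_rhs => rw [h]
  rw [F.B_w_w, real_inner_self_eq_norm_sq]
  ring

/-- the stereographic coordinate -/
noncomputable def ψ (F : Frame B m σ) (u₀ : E) (a : Fin 3 → E → V) (u : E) (i : Fin 3) :
    Vec (m i) := (1 - σ i * S B u₀ a i u / 2)⁻¹ • Y F u₀ a i u

theorem den_ψ (T : Triple B U u₀ a) (hF : Adapted U u₀ a F)
    (hd : Module.finrank ℝ V = ∑ i, m i + 4) (i : Fin 3) {u : E} (hu : u ∈ U)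
    (h : 0 < 1 - σ i * S B u₀ a i u / 2) :
    Frame.den σ i (ψ F u₀ a u i) = (1 - σ i * S B u₀ a i u / 2)⁻¹ := by
  have h1 := norm_Y T hF hd i hu
  unfold Frame.den ψ
  rw [norm_smul, mul_pow, Real.norm_eq_abs, sq_abs]
  have h2 : (1 - σ i * S B u₀ a i u / 2)⁻¹ * (1 - σ i * S B u₀ a i u / 2) = 1 :=
    inv_mul_cancel₀ h.ne'
  generalize (1 - σ i * S B u₀ a i u / 2)⁻¹ = d at *
  generalize S B u₀ a i u = s at *
  have h3 : ‖Y F u₀ a i u‖ ^ 2 = 2 * s - σ i * s ^ 2 := by linarith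
  rw [h3]
  linear_combination (σ i * s * d / 2 - 1) * h2

theorem eq_pt (T : Triple B U u₀ a) (hF : Adapted U u₀ a F)
    (hd : Module.finrank ℝ V = ∑ i, m i + 4) (i : Fin 3) {u : E} (hu : u ∈ U)
    (h : 0 < 1 - σ i * S B u₀ a i u / 2) : a i u = F.pt i (ψ F u₀ a u i) := by
  have h0 := repr' T hF hd i hu
  have h1 := norm_Y T hF hd i hu
  rw [F.pt_eq, den_ψ T hF hd i hu h, inv_inv]
  have h2 : (1 - σ i * S B u₀ a i u / 2) * (1 - σ i * S B u₀ a i u / 2)⁻¹ = 1 :=
    mul_inv_cancel₀ h.ne'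
  have e1 : (1 - σ i * S B u₀ a i u / 2) • ψ F u₀ a u i = Y F u₀ a i u := by
    unfold ψ
    rw [smul_smul, h2, one_smul]
  have e2 : (1 - σ i * S B u₀ a i u / 2) * (‖ψ F u₀ a u i‖ ^ 2 / 2) = S B u₀ a i u := by
    unfold ψ
    rw [norm_smul, mul_pow, Real.norm_eq_abs, sq_abs]
    generalize (1 - σ i * S B u₀ a i u / 2)⁻¹ = d at *
    generalize S B u₀ a i u = s at *
    have h3 : ‖Y F u₀ a i u‖ ^ 2 = 2 * s - σ i * s ^ 2 := by linarith
    rw [h3]
    linear_combination (s * (1 - σ i * s / 2) * d + s) * h2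
  rw [e1, e2, ← h0, hF.p]
  abel

theorem exists_model (T : Triple B U u₀ a) (hF : Adapted U u₀ a F)
    (hd : Module.finrank ℝ V = ∑ i, m i + 4) (hE : Module.finrank ℝ E = ∑ i, m i) :
    ∃ U' ⊆ U, IsOpen U' ∧ u₀ ∈ U' ∧ ∃ ψ : E → ∀ i, Vec (m i), ψ u₀ = 0 ∧ IsDiffeo U' ψ ∧
      (∀ u ∈ U', ∀ i, 0 < 1 + σ i * ‖ψ u i‖ ^ 2 / 4) ∧ ∀ u ∈ U', ∀ i, a i u = F.pt i (ψ u i) := by
  have hδ : ∀ i, ContDiffOn ℝ ∞ (fun u => a i u - a i u₀) U := fun i =>
    (T.smooth i).sub contDiffOn_const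
  have hS : ∀ i, ContDiffOn ℝ ∞ (S B u₀ a i) U := fun i =>
    (contDiffOn_B B (hδ i) (hδ i)).div_const 2
  have hY : ∀ i, ContDiffOn ℝ ∞ (Y F u₀ a i) U := fun i => contDiffOn_linear (proj F i) (hδ i)
  have hS0 : ∀ i, S B u₀ a i u₀ = 0 := fun i => by simp [S]
  have hY0 : ∀ i, Y F u₀ a i u₀ = 0 := fun i => by simp [Y]
  have hopen : IsOpen (U ∩ {u | ∀ i, 0 < 1 - σ i * S B u₀ a i u / 2}) := by
    have e : (U ∩ {u | ∀ i, 0 < 1 - σ i * S B u₀ a i u / 2}) =
        U ∩ ⋂ i, (U ∩ (fun u => 1 - σ i * S B u₀ a i u / 2) ⁻¹' Set.Ioi 0) := by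
      ext u
      simp only [Set.mem_inter_iff, Set.mem_ofPred_eq, Set.mem_iInter, Set.mem_preimage,
        Set.mem_Ioi]
      constructor
      · rintro ⟨h1, h2⟩
        exact ⟨h1, fun i => ⟨h1, h2 i⟩⟩
      · rintro ⟨h1, h2⟩
        exact ⟨h1, fun i => (h2 i).2⟩
    rw [e]
    refine T.isOpen.inter (isOpen_iInter_of_finite fun i => ?_)
    refine ContinuousOn.isOpen_inter_preimage ?_ T.isOpen isOpen_Ioi
    have := (hS i).continuousOn
    fun_prop
  set U1 := U ∩ {u | ∀ i, 0 < 1 - σ i * S B u₀ a i u / 2} with hU1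
  have hmem : u₀ ∈ U1 := ⟨T.mem, fun i => by rw [hS0]; norm_num⟩
  have hψ : ContDiffOn ℝ ∞ (ψ F u₀ a) U1 := by
    rw [contDiffOn_pi]
    intro i
    refine ContDiffOn.smul (ContDiffOn.inv ?_ fun u (hu : u ∈ U1) => (hu.2 i).ne')
      ((hY i).mono fun u (hu : u ∈ U1) => hu.1)
    exact contDiffOn_const.sub ((contDiffOn_const.mul
      ((hS i).mono fun u (hu : u ∈ U1) => hu.1)).div_const 2)
  have hder : ∀ X i, fderiv ℝ (ψ F u₀ a) u₀ X i = proj F i (fderiv ℝ (a i) u₀ X) := by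
    intro X i
    have h1 : DifferentiableAt ℝ (ψ F u₀ a) u₀ := ContDiffOn.differentiableAt' hψ hopen hmem
    have h2 : fderiv ℝ (ψ F u₀ a) u₀ X i = fderiv ℝ (fun u => ψ F u₀ a u i) u₀ X := by
      rw [fderiv_pi (fun i => differentiableAt_pi.1 h1 i)]
      rfl
    have h3 : DifferentiableAt ℝ (fun u => (1 - σ i * S B u₀ a i u / 2)⁻¹) u₀ :=
      (((ContDiffOn.inv (contDiffOn_const.sub ((contDiffOn_const.mul
        ((hS i).mono fun u (hu : u ∈ U1) => hu.1)).div_const 2)) fun u (hu : u ∈ U1) =>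
          (hu.2 i).ne').contDiffAt (hopen.mem_nhds hmem))).differentiableAt (by simp)
    have h4 : DifferentiableAt ℝ (Y F u₀ a i) u₀ := ContDiffOn.differentiableAt' (hY i) T.isOpen T.mem
    rw [h2]
    have h5 : (fun u => ψ F u₀ a u i) = fun u => (1 - σ i * S B u₀ a i u / 2)⁻¹ • Y F u₀ a i u :=
      rfl
    rw [h5, fderiv_fun_smul h3 h4]
    have h6 : fderiv ℝ (Y F u₀ a i) u₀ X = proj F i (fderiv ℝ (a i) u₀ X) := by
      unfold Y
      rw [fderiv_linear (proj F i) ((T.differentiableAt i T.mem).sub_const _), fderiv_sub_const]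
    rw [add_apply, ContinuousLinearMap.smulRight_apply, hY0, smul_zero,
      add_zero, smul_apply, h6, hS0]
    simp
  have hinj : Function.Injective (fderiv ℝ (ψ F u₀ a) u₀) := by
    rw [injective_iff_map_eq_zero]
    intro X hX
    refine T.inj X fun i => ?_
    obtain ⟨y, hy⟩ := hF.fderiv_eq i X
    have h1 := hder X i
    rw [hX, hy, proj_e] at h1
    rw [hy, ← h1]
    simp
  have hbij : Function.Bijective (fderiv ℝ (ψ F u₀ a) u₀) := by
    refine ⟨hinj, ?_⟩
    have h1 : Module.finrank ℝ E = Module.finrank ℝ (∀ i, Vec (m i)) := by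
      rw [hE, Module.finrank_pi_fintype]
      simp
    exact (LinearMap.injective_iff_surjective_of_finrank_eq_finrank h1
      (f := (fderiv ℝ (ψ F u₀ a) u₀).toLinearMap)).1 hinj
  obtain ⟨U', hU', h1, h2, h3⟩ := exists_isDiffeo hopen hmem hψ hbij
  refine ⟨U', fun u hu => (hU' hu).1, h1, h2, ψ F u₀ a, ?_, h3, ?_, ?_⟩
  · funext i
    unfold ψ
    rw [hY0, smul_zero]
    rfl
  · intro u hu i
    have h4 := den_ψ T hF hd i (hU' hu).1 ((hU' hu).2 i)
    have h5 : (0 : ℝ) < Frame.den σ i (ψ F u₀ a u i) := by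
      rw [h4]
      exact inv_pos.2 ((hU' hu).2 i)
    exact h5
  · intro u hu i
    exact eq_pt T hF hd i (hU' hu).1 ((hU' hu).2 i)

end Adapted

end Pool.Agent.R744.Lie
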