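import Pool.Agent.R744.LieReal

set_option autoImplicit false
set_option linter.unusedSectionVars false

namespace Pool.Agent.R744.Lie

open scoped ContDiff InnerProductSpace Topology

section Euclid

variable {H : Type} [NormedAddCommGroup H] [InnerProductSpace ℝ H]

/-- coordinate -/
noncomputable def sE (H : Type) [NormedAddCommGroup H] [InnerProductSpace ℝ H] :
    (H × ℝ × ℝ × ℝ) →ₗ[ℝ] ℝ where
  toFun v := v.2.1 + v.2.2.1
  map_add' v w := by
    simp only [Prod.fst_add, Prod.snd_add]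
    ring
  map_smul' c v := by
    simp only [Prod.smul_fst, Prod.smul_snd, smul_eq_mul, RingHom.id_apply]
    ring

/-- coordinate -/
noncomputable def tE (H : Type) [NormedAddCommGroup H] [InnerProductSpace ℝ H] :
    (H × ℝ × ℝ × ℝ) →ₗ[ℝ] ℝ where
  toFun v := v.2.2.2
  map_add' v w := rfl
  map_smul' c v := rfl

theorem sE_apply (v : H × ℝ × ℝ × ℝ) : sE H v = v.2.1 + v.2.2.1 := rfl

theorem tE_apply (v : H × ℝ × ℝ × ℝ) : tE H v = v.2.2.2 := rfl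

/-- point sphere -/
noncomputable def hatE (x : H) : H × ℝ × ℝ × ℝ := (x, (1 - ‖x‖ ^ 2) / 2, (1 + ‖x‖ ^ 2) / 2, 0)

/-- hyperplane -/
noncomputable def nuE (x n : H) : H × ℝ × ℝ × ℝ := (n, -⟪x, n⟫_ℝ, ⟪x, n⟫_ℝ, 1)

theorem eq_hatE {k : H × ℝ × ℝ × ℝ} (h1 : sE H k = 1) (h2 : tE H k = 0)
    (h3 : BE H k k = 0) : k = hatE k.1 := by
  rw [sE_apply] at h1
  rw [tE_apply] at h2
  rw [BE_self, qE, h2] at h3
  have h4 : k.2.1 - k.2.2.1 = -‖k.1‖ ^ 2 := by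
    have h5 : k.2.1 ^ 2 - k.2.2.1 ^ 2 = (k.2.1 + k.2.2.1) * (k.2.1 - k.2.2.1) := by ring
    rw [h1, one_mul] at h5
    linarith
  unfold hatE
  refine Prod.ext rfl (Prod.ext ?_ (Prod.ext ?_ h2))
  · simp only
    linarith
  · simp only
    linarith

theorem eq_nuE {k ν : H × ℝ × ℝ × ℝ} (h1 : sE H k = 1) (h2 : tE H k = 0) (h3 : sE H ν = 0)
    (h4 : tE H ν = 1) (h5 : BE H k ν = 0) : ν = nuE k.1 ν.1 := by
  rw [sE_apply] at h1 h3
  rw [tE_apply] at h2 h4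
  rw [BE_apply, h2, zero_mul, sub_zero] at h5
  have h6 : ν.2.1 = -ν.2.2.1 := by linarith
  rw [h6] at h5
  have h7 : ν.2.2.1 = ⟪k.1, ν.1⟫_ℝ := by
    have : k.2.1 * -ν.2.2.1 - k.2.2.1 * ν.2.2.1 = -(k.2.1 + k.2.2.1) * ν.2.2.1 := by ring
    rw [h1] at this
    linarith
  unfold nuE
  refine Prod.ext rfl (Prod.ext ?_ (Prod.ext ?_ h4))
  · simp only
    rw [h6, h7]
  · exact h7

theorem BE_nu_nu (x n : H) : BE H (nuE x n) (nuE x n) = ‖n‖ ^ 2 - 1 := by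
  rw [BE_self, qE, nuE]
  simp

variable {E : Type} [NormedAddCommGroup E] [NormedSpace ℝ E] [FiniteDimensional ℝ E]
  [FiniteDimensional ℝ H]

theorem euclid_of_model {μ : Fin 3 → ℕ} {σ : Fin 3 → ℝ} {g : ℕ} (ι : Fin g → Fin 3)
    (hι : Function.Injective ι) {U : Set E} {a : Fin 3 → E → (H × ℝ × ℝ × ℝ)}
    {k ν : E → (H × ℝ × ℝ × ℝ)} (F : Frame (BE H) μ σ)
    {ψ : E → ∀ i, Vec (μ i)} (hU : IsOpen U) (hψ : IsDiffeo U ψ)
    (hden : ∀ u ∈ U, ∀ i, 0 < 1 + σ i * ‖ψ u i‖ ^ 2 / 4)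
    (ha : a = fun i u => F.pt i (ψ u i))
    (h : LineData (BE H) U a (sE H) (tE H) k ν)
    (hpos : ∀ i, 1 ≤ μ (ι i)) (hz : ∀ l, (∀ i, ι i ≠ l) → μ l = 0)
    (ht : ∀ u ∈ U, ∀ i, (tE H) (a (ι i + 1) u - a (ι i + 2) u) ≠ 0) :
    IsImmersedWithNormal U (fun u => (k u).1) (fun u => (ν u).1) ∧
      IsProperDupin g U (fun u => (k u).1) (fun u => (ν u).1) ∧
      ∀ u ∈ U, k u = hatE (k u).1 ∧ ν u = nuE (k u).1 (ν u).1 := by
  have T : ∀ u ∈ U, Triple (BE H) U u a := fun u hu => by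
    rw [ha]
    exact model_triple F hU hu hψ hden
  have e1 : ∀ u ∈ U, k u = hatE (k u).1 := fun u hu =>
    eq_hatE (h.sk u hu) (h.tk u hu) (h.iso (T u hu)).1
  have e2 : ∀ u ∈ U, ν u = nuE (k u).1 (ν u).1 := fun u hu =>
    eq_nuE (h.sk u hu) (h.tk u hu) (h.sν u hu) (h.tν u hu) (h.iso (T u hu)).2.2
  have hν : ∀ u ∈ U, ‖(ν u).1‖ = 1 := by
    intro u hu
    have h1 := (h.iso (T u hu)).2.1
    rw [e2 u hu, BE_nu_nu] at h1
    have : ‖(ν u).1‖ ^ 2 = 1 := by linarith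
    have h0 := norm_nonneg (ν u).1
    nlinarith
  obtain ⟨h4, h5⟩ := hyp_of_model ι hι F hU hψ hden ha h hpos hz ht
    (LinearMap.fst ℝ H (ℝ × ℝ × ℝ))
    (fun u hu v h1 h4 h6 h5 => by
      rw [sE_apply] at h1
      rw [tE_apply] at h4
      have h5' : v.1 = 0 := h5
      have h7 := h.sk u hu
      rw [sE_apply] at h7
      rw [BE_apply, h5', h4, inner_zero_left, zero_mul, sub_zero, zero_add] at h6
      have h8 : v.2.2.1 = -v.2.1 := by linarith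
      rw [h8] at h6
      have h9 : v.2.1 = 0 := by
        have : v.2.1 * (k u).2.1 - -v.2.1 * (k u).2.2.1 = v.2.1 * ((k u).2.1 + (k u).2.2.1) := by
          ring
        rw [h7, mul_one] at this
        linarith
      exact Prod.ext h5' (Prod.ext h9 (Prod.ext (by rw [h8, h9]; simp) h4)))
    (fun u hu v h1 h4 => by
      rw [sE_apply] at h1
      rw [tE_apply] at h4
      have h7 := h.sν u hu
      rw [sE_apply] at h7
      rw [BE_apply, h4]
      have h8 : v.2.2.1 = -v.2.1 := by linarith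
      have h9 : (ν u).2.2.1 = -(ν u).2.1 := by linarith
      rw [h8, h9]
      simp only [LinearMap.fst_apply]
      ring) hν
  exact ⟨h4, h5, fun u hu => ⟨e1 u hu, e2 u hu⟩⟩

/-- orthonormal embedding data -/
structure Emb (H : Type) [NormedAddCommGroup H] [InnerProductSpace ℝ H] (μ : Fin 3 → ℕ) where
  e : ∀ i, Vec (μ i) →ₗ[ℝ] H
  ν : H
  ee : ∀ i x y, ⟪e i x, e i y⟫_ℝ = ⟪x, y⟫_ℝ
  ee' : ∀ i j, i ≠ j → ∀ x y, ⟪e i x, e j y⟫_ℝ = 0
  eν : ∀ i x, ⟪e i x, ν⟫_ℝ = 0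
  νν : ⟪ν, ν⟫_ℝ = 1

/-- the explicit frame of a tube -/
noncomputable def tubeFrame {μ : Fin 3 → ℕ} (h : Emb H μ) (σ : Fin 3 → ℝ) (hσ : ∑ i, σ i = 0)
    (h2 : σ 2 = -1) : Frame (BE H) μ σ where
  e := fun i => LinearMap.inl ℝ H (ℝ × ℝ × ℝ) ∘ₗ h.e i
  p := ![(h.ν, 0, 0, 0), (h.ν, -1 / 2, -1 / 2, 0), (0, 0, 0, -1)]
  n := ![(-h.ν, σ 1 / 4 - 1, σ 1 / 4 + 1, 0), (0, σ 1 / 4 + 1, σ 1 / 4 - 1, 0), (0, 0, 0, -1)]
  symm := BE_symm
  ee := fun i x y => by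
    rw [BE_apply]
    simp [h.ee]
  ee' := fun i j hij x y => by
    rw [BE_apply]
    simp [h.ee' i j hij]
  en := fun i j x => by
    rw [BE_apply]
    fin_cases j <;> simp [h.eν]
  ep := fun i j k x => by
    rw [BE_apply]
    fin_cases j <;> fin_cases k <;> simp [h.eν]
  nn := fun i => by
    rw [Fin.sum_univ_three, h2] at hσ
    rw [BE_apply]
    have hν := h.νν
    fin_cases i
    · simp only [Fin.zero_eta, Matrix.cons_val_zero, inner_neg_left, inner_neg_right, neg_neg, hν]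
      linarith
    · simp
      ring
    · simp [h2]
  nn' := fun i j hij => by
    rw [BE_apply]
    fin_cases i <;> fin_cases j <;> simp at hij ⊢
    all_goals ring
  pn := fun i j hij => by
    rw [BE_apply]
    have hν : ‖h.ν‖ ^ 2 = 1 := by rw [← real_inner_self_eq_norm_sq, h.νν]
    have hν' : ‖h.ν‖ = 1 := by
      have h0 := norm_nonneg h.ν
      nlinarith
    fin_cases i <;> fin_cases j <;> simp [hν'] at hij ⊢
    all_goals ring
  pp := fun i j k l => by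
    rw [BE_apply]
    have hν : ‖h.ν‖ ^ 2 = 1 := by rw [← real_inner_self_eq_norm_sq, h.νν]
    have hν' : ‖h.ν‖ = 1 := by
      have h0 := norm_nonneg h.ν
      nlinarith
    fin_cases i <;> fin_cases j <;> fin_cases k <;> fin_cases l <;> simp [hν']

end Euclid

end Pool.Agent.R744.Lie
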