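import Pool.Agent.R744.LieTube

set_option autoImplicit false
set_option linter.unusedSectionVars false

namespace Pool.Agent.R744.Lie

open scoped ContDiff InnerProductSpace Topology

section

variable {k l : ℕ}

theorem inner_pair (x x' : Vec k) (y y' : Vec l) :
    ⟪pair x y, pair x' y'⟫_ℝ = ⟪x, x'⟫_ℝ + ⟪y, y'⟫_ℝ := by
  unfold pair
  rw [PiLp.inner_apply, PiLp.inner_apply, PiLp.inner_apply, Fintype.sum_sum_type]
  rfl

/-- the pairing as a linear map -/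
noncomputable def pairL (k l : ℕ) : (Vec k × Vec l) →ₗ[ℝ] EuclideanSpace ℝ (Fin k ⊕ Fin l) where
  toFun v := pair v.1 v.2
  map_add' v w := by
    ext i
    rcases i with i | i <;> rfl
  map_smul' c v := by
    ext i
    rcases i with i | i <;> rfl

theorem pairL_apply (v : Vec k × Vec l) : pairL k l v = pair v.1 v.2 := rfl

theorem norm_pair_sq (x : Vec k) (y : Vec l) : ‖pair x y‖ ^ 2 = ‖x‖ ^ 2 + ‖y‖ ^ 2 := by
  rw [← real_inner_self_eq_norm_sq, inner_pair, real_inner_self_eq_norm_sq,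
    real_inner_self_eq_norm_sq]

/-- the inclusion of the Lie spaces -/
noncomputable def inc (k l : ℕ) : (Vec k × ℝ × ℝ × ℝ) →ₗ[ℝ]
    (EuclideanSpace ℝ (Fin k ⊕ Fin l) × ℝ × ℝ × ℝ) :=
  (pairL k l ∘ₗ LinearMap.inl ℝ (Vec k) (Vec l)).prodMap LinearMap.id

theorem inc_apply (v : Vec k × ℝ × ℝ × ℝ) : inc k l v = (pair v.1 0, v.2) := rfl

/-- parallel transformation -/
noncomputable def par (H : Type) [NormedAddCommGroup H] [InnerProductSpace ℝ H] :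
    (H × ℝ × ℝ × ℝ) →ₗ[ℝ] (H × ℝ × ℝ × ℝ) where
  toFun v := (v.1, v.2.1 - v.2.2.2 + (v.2.1 + v.2.2.1) / 2,
    v.2.2.1 + v.2.2.2 - (v.2.1 + v.2.2.1) / 2, v.2.2.2 - (v.2.1 + v.2.2.1))
  map_add' v w := by
    refine Prod.ext rfl (Prod.ext ?_ (Prod.ext ?_ ?_))
    · simp only [Prod.fst_add, Prod.snd_add]
      ring
    · simp only [Prod.fst_add, Prod.snd_add]
      ring
    · simp only [Prod.fst_add, Prod.snd_add]
      ring
  map_smul' c v := by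
    refine Prod.ext rfl (Prod.ext ?_ (Prod.ext ?_ ?_))
    · simp only [Prod.smul_fst, Prod.smul_snd, smul_eq_mul, RingHom.id_apply]
      ring
    · simp only [Prod.smul_fst, Prod.smul_snd, smul_eq_mul, RingHom.id_apply]
      ring
    · simp only [Prod.smul_fst, Prod.smul_snd, smul_eq_mul, RingHom.id_apply]
      ring

theorem par_apply {H : Type} [NormedAddCommGroup H] [InnerProductSpace ℝ H]
    (v : H × ℝ × ℝ × ℝ) : par H v = (v.1, v.2.1 - v.2.2.2 + (v.2.1 + v.2.2.1) / 2,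
    v.2.2.1 + v.2.2.2 - (v.2.1 + v.2.2.1) / 2, v.2.2.2 - (v.2.1 + v.2.2.1)) := rfl

theorem BE_par {H : Type} [NormedAddCommGroup H] [InnerProductSpace ℝ H]
    (v w : H × ℝ × ℝ × ℝ) : BE H (par H v) (par H w) = BE H v w := by
  rw [BE_apply, BE_apply, par_apply, par_apply]
  simp only
  ring

variable {m : Fin 3 → ℕ}

section facts

variable (J : (Vec (m 0) × Vec (m 1) × ℝ) →ₗ[ℝ] Vec (m 0 + m 1 + 1))
    (hJ : ∀ x y, ⟪J x, J y⟫_ℝ = ⟪x.1, y.1⟫_ℝ + ⟪x.2.1, y.2.1⟫_ℝ + x.2.2 * y.2.2)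

include hJ

theorem f00 (x y : Vec (m 0)) : ⟪J (x, 0, 0), J (y, 0, 0)⟫_ℝ = ⟪x, y⟫_ℝ := by
  rw [hJ]
  simp

theorem f11 (x y : Vec (m 1)) : ⟪J (0, x, 0), J (0, y, 0)⟫_ℝ = ⟪x, y⟫_ℝ := by
  rw [hJ]
  simp

theorem f01 (x : Vec (m 0)) (y : Vec (m 1)) : ⟪J (x, 0, 0), J (0, y, 0)⟫_ℝ = 0 := by
  rw [hJ]
  simp

theorem f10 (x : Vec (m 1)) (y : Vec (m 0)) : ⟪J (0, x, 0), J (y, 0, 0)⟫_ℝ = 0 := by
  rw [hJ]
  simp

theorem f0n (x : Vec (m 0)) : ⟪J (x, 0, 0), J (0, 0, 1)⟫_ℝ = 0 := by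
  rw [hJ]
  simp

theorem f1n (x : Vec (m 1)) : ⟪J (0, x, 0), J (0, 0, 1)⟫_ℝ = 0 := by
  rw [hJ]
  simp

theorem fnn : ⟪J (0, 0, 1), J (0, 0, 1)⟫_ℝ = 1 := by
  rw [hJ]
  simp

omit hJ

variable {K L : ℕ}

theorem pair00 (x y : Vec K) : ⟪pair x (0 : Vec L), pair y 0⟫_ℝ = ⟪x, y⟫_ℝ := by
  rw [inner_pair]
  simp

theorem pair02 (x : Vec K) (y : Vec L) : ⟪pair x (0 : Vec L), pair 0 y⟫_ℝ = 0 := by
  rw [inner_pair]
  simp

theorem pair20 (x : Vec K) (y : Vec L) : ⟪pair (0 : Vec K) y, pair x 0⟫_ℝ = 0 := by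
  rw [inner_pair]
  simp

theorem pair22 (x y : Vec L) : ⟪pair (0 : Vec K) x, pair 0 y⟫_ℝ = ⟪x, y⟫_ℝ := by
  rw [inner_pair]
  simp

end facts

/-- embedding data for the hypersurface `W` -/
noncomputable def embW (J : (Vec (m 0) × Vec (m 1) × ℝ) →ₗ[ℝ] Vec (m 0 + m 1 + 1))
    (hJ : ∀ x y, ⟪J x, J y⟫_ℝ = ⟪x.1, y.1⟫_ℝ + ⟪x.2.1, y.2.1⟫_ℝ + x.2.2 * y.2.2) :
    Emb (Vec (m 0 + m 1 + 1)) ![m 0, m 1, 0] where
  e := fun i => match i with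
    | 0 => J ∘ₗ LinearMap.inl ℝ (Vec (m 0)) (Vec (m 1) × ℝ)
    | 1 => J ∘ₗ LinearMap.inr ℝ (Vec (m 0)) (Vec (m 1) × ℝ) ∘ₗ LinearMap.inl ℝ (Vec (m 1)) ℝ
    | 2 => 0
  ν := J (0, 0, 1)
  ee := fun i x y => by
    match i with
    | 0 => exact f00 J hJ x y
    | 1 => exact f11 J hJ x y
    | 2 =>
      have hx : x = 0 := by
        ext i
        exact Fin.elim0 i
      have h1 : ⟪x, y⟫_ℝ = 0 := by
        rw [hx]
        exact inner_zero_left _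
      exact (inner_zero_left _).trans h1.symm
  ee' := fun i j hij x y => by
    match i, j with
    | 0, 0 => exact absurd rfl hij
    | 1, 1 => exact absurd rfl hij
    | 2, 2 => exact absurd rfl hij
    | 0, 1 => exact f01 J hJ x y
    | 1, 0 => exact f10 J hJ x y
    | 0, 2 => exact inner_zero_right _
    | 1, 2 => exact inner_zero_right _
    | 2, 0 => exact inner_zero_left _
    | 2, 1 => exact inner_zero_left _
  eν := fun i x => by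
    match i with
    | 0 => exact f0n J hJ x
    | 1 => exact f1n J hJ x
    | 2 => exact inner_zero_left _
  νν := fnn J hJ

/-- embedding data for the tube -/
noncomputable def embH (J : (Vec (m 0) × Vec (m 1) × ℝ) →ₗ[ℝ] Vec (m 0 + m 1 + 1))
    (hJ : ∀ x y, ⟪J x, J y⟫_ℝ = ⟪x.1, y.1⟫_ℝ + ⟪x.2.1, y.2.1⟫_ℝ + x.2.2 * y.2.2) :
    Emb (EuclideanSpace ℝ (Fin (m 0 + m 1 + 1) ⊕ Fin (m 2))) m where
  e := fun i => match i with
    | 0 => pairL _ _ ∘ₗ LinearMap.inl ℝ _ _ ∘ₗ J ∘ₗ LinearMap.inl ℝ (Vec (m 0)) (Vec (m 1) × ℝ)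
    | 1 => pairL _ _ ∘ₗ LinearMap.inl ℝ _ _ ∘ₗ J ∘ₗ LinearMap.inr ℝ (Vec (m 0)) (Vec (m 1) × ℝ) ∘ₗ
        LinearMap.inl ℝ (Vec (m 1)) ℝ
    | 2 => pairL _ _ ∘ₗ LinearMap.inr ℝ _ _
  ν := pair (J (0, 0, 1)) 0
  ee := fun i x y => by
    match i with
    | 0 => exact (pair00 _ _).trans (f00 J hJ x y)
    | 1 => exact (pair00 _ _).trans (f11 J hJ x y)
    | 2 => exact pair22 x y
  ee' := fun i j hij x y => by
    match i, j with
    | 0, 0 => exact absurd rfl hij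
    | 1, 1 => exact absurd rfl hij
    | 2, 2 => exact absurd rfl hij
    | 0, 1 => exact (pair00 _ _).trans (f01 J hJ x y)
    | 1, 0 => exact (pair00 _ _).trans (f10 J hJ x y)
    | 0, 2 => exact pair02 _ _
    | 1, 2 => exact pair02 _ _
    | 2, 0 => exact pair20 _ _
    | 2, 1 => exact pair20 _ _
  eν := fun i x => by
    match i with
    | 0 => exact (pair00 _ _).trans (f0n J hJ x)
    | 1 => exact (pair00 _ _).trans (f1n J hJ x)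
    | 2 => exact pair20 _ _
  νν := (pair00 _ _).trans (fnn J hJ)

/-- the projection to the first two factors -/
noncomputable def cut (m : Fin 3 → ℕ) : (∀ i, Vec (m i)) →ₗ[ℝ] (∀ i, Vec (![m 0, m 1, 0] i)) :=
  LinearMap.pi fun i => match i with
    | 0 => LinearMap.proj 0
    | 1 => LinearMap.proj 1
    | 2 => 0

theorem cut_zero (y : ∀ i, Vec (m i)) : cut m y 0 = y 0 := rfl

theorem cut_one (y : ∀ i, Vec (m i)) : cut m y 1 = y 1 := rfl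

theorem cut_two (y : ∀ i, Vec (m i)) : cut m y 2 = 0 := rfl

variable {σ : Fin 3 → ℝ} (J : (Vec (m 0) × Vec (m 1) × ℝ) →ₗ[ℝ] Vec (m 0 + m 1 + 1))
    (hJ : ∀ x y, ⟪J x, J y⟫_ℝ = ⟪x.1, y.1⟫_ℝ + ⟪x.2.1, y.2.1⟫_ℝ + x.2.2 * y.2.2)
    (hσ : ∑ i, σ i = 0) (h2 : σ 2 = -1)

theorem _root_.Pool.Agent.R744.Lie.Frame.pt_zero {V : Type} [AddCommGroup V] [Module ℝ V]
    {B : V →ₗ[ℝ] V →ₗ[ℝ] ℝ} {m : Fin 3 → ℕ} {σ : Fin 3 → ℝ} (F : Frame B m σ) (i : Fin 3) :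
    F.pt i 0 = F.p i := by
  unfold Frame.pt
  simp

theorem n0_inc : (tubeFrame (embH J hJ) σ hσ h2).n 0 =
    inc _ _ ((tubeFrame (embW J hJ) σ hσ h2).n 0) := by
  change ((-pair (J (0, 0, 1)) 0 : EuclideanSpace ℝ (Fin (m 0 + m 1 + 1) ⊕ Fin (m 2))), _) =
    (pair (-(J (0, 0, 1))) 0, _)
  refine Prod.ext ?_ rfl
  simp only
  ext i
  rcases i with i | i
  · rfl
  · simp [pair]

theorem n1_inc : (tubeFrame (embH J hJ) σ hσ h2).n 1 =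
    inc _ _ ((tubeFrame (embW J hJ) σ hσ h2).n 1) := by
  change ((0 : EuclideanSpace ℝ (Fin (m 0 + m 1 + 1) ⊕ Fin (m 2))), _) = (pair 0 0, _)
  refine Prod.ext ?_ rfl
  simp only
  ext i
  rcases i with i | i <;> simp [pair]

theorem pt_zero_eq (y : Vec (m 0)) : (tubeFrame (embH J hJ) σ hσ h2).pt 0 y =
    inc _ _ ((tubeFrame (embW J hJ) σ hσ h2).pt 0 y) := by
  unfold Frame.pt
  rw [map_add, map_smul, map_add, map_smul, ← n0_inc]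
  rfl

theorem pt_one_eq (y : Vec (m 1)) : (tubeFrame (embH J hJ) σ hσ h2).pt 1 y =
    inc _ _ ((tubeFrame (embW J hJ) σ hσ h2).pt 1 y) := by
  unfold Frame.pt
  rw [map_add, map_smul, map_add, map_smul, ← n1_inc]
  rfl

theorem pt_two_eq (y : Vec (m 2)) : (tubeFrame (embH J hJ) σ hσ h2).pt 2 y =
    (pair 0 ((1 - ‖y‖ ^ 2 / 4)⁻¹ • y), 0, 0, -1 - (1 - ‖y‖ ^ 2 / 4)⁻¹ * (‖y‖ ^ 2 / 2)) := by
  unfold Frame.pt
  have e : 1 + σ 2 * ‖y‖ ^ 2 / 4 = 1 - ‖y‖ ^ 2 / 4 := by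
    rw [h2]
    ring
  rw [e]
  change ((0 : EuclideanSpace ℝ (Fin (m 0 + m 1 + 1) ⊕ Fin (m 2))), (0 : ℝ), (0 : ℝ), (-1 : ℝ)) +
    (1 - ‖y‖ ^ 2 / 4)⁻¹ • ((pair 0 y, 0, 0, 0) + (‖y‖ ^ 2 / 2) •
    ((0 : EuclideanSpace ℝ (Fin (m 0 + m 1 + 1) ⊕ Fin (m 2))), (0 : ℝ), (0 : ℝ), (-1 : ℝ))) = _
  refine Prod.ext ?_ (Prod.ext ?_ (Prod.ext ?_ ?_))
  · simp only [Prod.fst_add, Prod.smul_fst, smul_zero, add_zero, zero_add]
    ext i
    rcases i with i | i <;> simp [pair]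
  · simp
  · simp
  · simp only [Prod.snd_add, Prod.smul_snd, smul_eq_mul]
    ring

theorem ptW_two (y : Vec (![m 0, m 1, 0] 2)) : (tubeFrame (embW J hJ) σ hσ h2).pt 2 y =
    (0, 0, 0, -1) := by
  have hy : y = 0 := by
    ext i
    exact Fin.elim0 i
  rw [hy]
  exact (Frame.pt_zero _ 2).trans rfl

theorem tE_ptW_zero (y : Vec (m 0)) : tE _ ((tubeFrame (embW J hJ) σ hσ h2).pt 0 y) = 0 := by
  unfold Frame.pt
  rw [map_add, map_smul, map_add, map_smul]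
  have e1 : tE _ ((tubeFrame (embW J hJ) σ hσ h2).p 0) = 0 := rfl
  have e2 : tE _ ((tubeFrame (embW J hJ) σ hσ h2).e 0 y) = 0 := rfl
  have e3 : tE _ ((tubeFrame (embW J hJ) σ hσ h2).n 0) = 0 := rfl
  rw [e1, e2, e3]
  simp

theorem tE_ptW_one (y : Vec (m 1)) : tE _ ((tubeFrame (embW J hJ) σ hσ h2).pt 1 y) = 0 := by
  unfold Frame.pt
  rw [map_add, map_smul, map_add, map_smul]
  have e1 : tE _ ((tubeFrame (embW J hJ) σ hσ h2).p 1) = 0 := rfl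
  have e2 : tE _ ((tubeFrame (embW J hJ) σ hσ h2).e 1 y) = 0 := rfl
  have e3 : tE _ ((tubeFrame (embW J hJ) σ hσ h2).n 1) = 0 := rfl
  rw [e1, e2, e3]
  simp

end

end Pool.Agent.R744.Lie
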