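import Pool.Agent.R744.LieTube2

set_option autoImplicit false
set_option linter.unusedSectionVars false

namespace Pool.Agent.R744.Lie

open scoped ContDiff InnerProductSpace Topology

section

variable {k l : ℕ}

theorem inner_tube (w N : Vec k) (η : Vec l) (c : ℝ) :
    ⟪pair w (0 : Vec l), pair (c • N) η⟫_ℝ = c * ⟪w, N⟫_ℝ := by
  rw [inner_pair, inner_smul_right]
  simp

theorem inner_tube' (w N : Vec k) (η : Vec l) (c : ℝ) (h1 : ‖N‖ = 1) (h2 : c ^ 2 + ‖η‖ ^ 2 = 1) :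
    ⟪pair w 0 + pair (c • N) η, pair (c • N) η⟫_ℝ = c * ⟪w, N⟫_ℝ + 1 := by
  rw [inner_add_left, inner_tube, inner_pair, real_inner_self_eq_norm_sq,
    real_inner_self_eq_norm_sq, norm_smul, mul_pow, h1, Real.norm_eq_abs, sq_abs]
  linarith

theorem norm_tube (w N : Vec k) (η : Vec l) (c : ℝ) (h1 : ‖N‖ = 1) (h2 : c ^ 2 + ‖η‖ ^ 2 = 1) :
    ‖pair w 0 + pair (c • N) η‖ ^ 2 = ‖w‖ ^ 2 + 2 * (c * ⟪w, N⟫_ℝ) + 1 := by
  rw [norm_add_sq_real, inner_tube, norm_pair_sq, norm_pair_sq, norm_smul, mul_pow, h1,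
    Real.norm_eq_abs, sq_abs]
  simp
  linarith

theorem par_nu (w N : Vec k) (η : Vec l) (c : ℝ) (h1 : ‖N‖ = 1) (h2 : c ^ 2 + ‖η‖ ^ 2 = 1) :
    par (EuclideanSpace ℝ (Fin k ⊕ Fin l)) (pair (c • N) η, -(c * ⟪w, N⟫_ℝ), c * ⟪w, N⟫_ℝ, 1) =
      nuE (pair w 0 + pair (c • N) η) (pair (c • N) η) := by
  rw [par_apply, nuE, inner_tube' w N η c h1 h2]
  refine Prod.ext rfl (Prod.ext ?_ (Prod.ext ?_ ?_))
  · simp only
    ring
  · simp only
    ring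
  · simp only
    ring

theorem par_hat (w N : Vec k) (η : Vec l) (c : ℝ) (h1 : ‖N‖ = 1) (h2 : c ^ 2 + ‖η‖ ^ 2 = 1) :
    par (EuclideanSpace ℝ (Fin k ⊕ Fin l)) (inc k l (hatE w)) =
      hatE (pair w 0 + pair (c • N) η) -
        nuE (pair w 0 + pair (c • N) η) (pair (c • N) η) := by
  rw [inc_apply, par_apply, nuE, hatE, hatE, inner_tube' w N η c h1 h2, norm_tube w N η c h1 h2]
  refine Prod.ext ?_ (Prod.ext ?_ (Prod.ext ?_ ?_))
  · simp
  · simp only [Prod.snd_sub, Prod.fst_sub]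
    ring
  · simp only [Prod.snd_sub, Prod.fst_sub]
    ring
  · simp only [Prod.snd_sub]
    ring

theorem tube_span (w N : Vec k) (η : Vec l) (c s t : ℝ) (h1 : ‖N‖ = 1)
    (h2 : c ^ 2 + ‖η‖ ^ 2 = 1) (hc : c ≠ 0) (hs : s ≠ 0) :
    Submodule.span ℝ {par (EuclideanSpace ℝ (Fin k ⊕ Fin l)) (s • inc k l (hatE w)),
      par (EuclideanSpace ℝ (Fin k ⊕ Fin l)) (t • inc k l (hatE w) +
        c⁻¹ • (pair (c • N) η, -(c * ⟪w, N⟫_ℝ), c * ⟪w, N⟫_ℝ, 1))} =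
    Submodule.span ℝ {hatE (pair w 0 + pair (c • N) η),
      nuE (pair w 0 + pair (c • N) η) (pair (c • N) η)} := by
  refine span_pair_eq s (-s) t (c⁻¹ - t) ?_ ?_ ?_
  · have e : s * (c⁻¹ - t) - -s * t = s * c⁻¹ := by ring
    rw [e]
    exact mul_ne_zero hs (inv_ne_zero hc)
  · rw [map_smul, par_hat w N η c h1 h2]
    module
  · rw [map_add, map_smul, map_smul, par_hat w N η c h1 h2, par_nu w N η c h1 h2]
    module

variable {m : Fin 3 → ℕ} {σ : Fin 3 → ℝ}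

theorem exists_W (pos : ∀ i, 1 ≤ m i) (J : (Vec (m 0) × Vec (m 1) × ℝ) →ₗ[ℝ] Vec (m 0 + m 1 + 1))
    (hJ : ∀ x y, ⟪J x, J y⟫_ℝ = ⟪x.1, y.1⟫_ℝ + ⟪x.2.1, y.2.1⟫_ℝ + x.2.2 * y.2.2)
    (hσ : ∑ i, σ i = 0) (h2 : σ 2 = -1)
    (L : Vec (m 0 + m 1) ≃L[ℝ] (∀ i, Vec (![m 0, m 1, 0] i))) :
    ∃ (W : Set (Vec (m 0 + m 1))) (w N : Vec (m 0 + m 1) → Vec (m 0 + m 1 + 1))
      (s t : Vec (m 0 + m 1) → ℝ), (0 : Vec (m 0 + m 1)) ∈ W ∧
      IsImmersedWithNormal W w N ∧ IsProperDupin 2 W w N ∧ ∀ y ∈ W, s y ≠ 0 ∧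
      (tubeFrame (embW J hJ) σ hσ h2).pt 0 (L y 0) - (tubeFrame (embW J hJ) σ hσ h2).pt 1 (L y 1) =
        s y • hatE (w y) ∧
      (tubeFrame (embW J hJ) σ hσ h2).pt 0 (L y 0) - (0, 0, 0, -1) =
        t y • hatE (w y) + nuE (w y) (N y) := by
  have hopen := isOpen_den (σ := σ) L
  have hmem : (0 : Vec (m 0 + m 1)) ∈
      {u : Vec (m 0 + m 1) | ∀ i, 0 < 1 + σ i * ‖L u i‖ ^ 2 / 4} := by
    intro i
    rw [map_zero]
    simp
  set F := tubeFrame (embW J hJ) σ hσ h2 with hF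
  have hT := model_triple F hopen hmem (isDiffeo_linear L _) (fun u hu => hu)
  obtain ⟨a, ha⟩ : ∃ a : Fin 3 → Vec (m 0 + m 1) → (Vec (m 0 + m 1 + 1) × ℝ × ℝ × ℝ),
    a = fun i u => F.pt i (L u i) := ⟨_, rfl⟩
  rw [← ha] at hT
  have ha2 : ∀ y, a 2 y = (0, 0, 0, -1) := by
    intro y
    rw [ha]
    exact ptW_two J hJ hσ h2 _
  have hp : ∀ i, a i 0 = F.p i := by
    intro i
    rw [ha]
    simp only
    rw [map_zero]
    exact F.pt_zero i
  have t01 : ∀ y, (tE _) (a 0 y - a 1 y) = 0 := by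
    intro y
    rw [map_sub, ha]
    have e1 := tE_ptW_zero J hJ hσ h2 (L y 0)
    have e2 := tE_ptW_one J hJ hσ h2 (L y 1)
    change tE _ (F.pt 0 (L y 0)) = 0 at e1
    change tE _ (F.pt 1 (L y 1)) = 0 at e2
    rw [e1, e2, sub_zero]
  have t02 : ∀ y, (tE _) (a 0 y - a 2 y) = 1 := by
    intro y
    rw [map_sub, ha2, ha]
    have e1 := tE_ptW_zero J hJ hσ h2 (L y 0)
    change tE _ (F.pt 0 (L y 0)) = 0 at e1
    rw [e1, tE_apply]
    norm_num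
  have s01 : (sE _) (a 0 0 - a 1 0) = 1 := by
    rw [hp, hp, sE_apply]
    change (0 - (-1 / 2) + (0 - (-1 / 2)) : ℝ) = 1
    norm_num
  have cs : ∀ (φ : (Vec (m 0 + m 1 + 1) × ℝ × ℝ × ℝ) →ₗ[ℝ] ℝ) (i j : Fin 3), ContinuousOn
      (fun u => φ (a i u - a j u)) {u : Vec (m 0 + m 1) | ∀ i, 0 < 1 + σ i * ‖L u i‖ ^ 2 / 4} :=
    fun φ i j => (contDiffOn_linear φ ((hT.smooth i).sub (hT.smooth j))).continuousOn
  obtain ⟨U, hUs, hU, hu, hΦ⟩ := exists_shrink hopen hmem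
    (Φ := fun u => (sE _) (a 0 u - a 1 u)) (cs _ 0 1) (by
      rw [s01]
      exact one_ne_zero)
  have hT' := hT.mono hUs hU hu
  obtain ⟨k, ν, hkν⟩ := exists_lineData (φs := sE _) (φt := tE _) hT' (fun u hu => by
    rw [t01, t02, mul_one, mul_zero, sub_zero]
    exact hΦ u hu)
  have hι : Function.Injective (Fin.castSucc : Fin 2 → Fin 3) := Fin.castSucc_injective 2
  obtain ⟨h3, h4, h5⟩ := euclid_of_model (g := 2) Fin.castSucc hι F hU (isDiffeo_linear L U)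
    (fun u hu => hUs hu) ha hkν (by
      intro i
      fin_cases i
      · exact pos 0
      · exact pos 1) (by
      intro l hl
      fin_cases l
      · exact absurd rfl (hl 0)
      · exact absurd rfl (hl 1)
      · rfl) (by
      intro u hu i
      fin_cases i
      · change (tE _) (a 1 u - a 2 u) ≠ 0
        have e : a 1 u - a 2 u = (a 0 u - a 2 u) - (a 0 u - a 1 u) := by abel
        rw [e, map_sub _ (_ - _) _, t01, t02]
        norm_num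
      · change (tE _) (a 2 u - a 0 u) ≠ 0
        rw [← neg_sub, map_neg, t02]
        norm_num)
  refine ⟨U, fun u => (k u).1, fun u => (ν u).1, fun y => (sE _) (a 0 y - a 1 y),
    fun y => (sE _) (a 0 y - a 2 y), hu, h3, h4, ?_⟩
  intro y hy
  obtain ⟨e1, e2⟩ := h5 y hy
  have m1 : a 0 y - a 1 y ∈ tripleLine a y := by
    unfold tripleLine
    exact Submodule.subset_span (by simp)
  have m2 : a 0 y - a 2 y ∈ tripleLine a y := by
    unfold tripleLine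
    exact Submodule.subset_span (by simp)
  have e3 := hkν.eq_of_mem hy m1
  have e4 := hkν.eq_of_mem hy m2
  rw [t01, zero_smul, add_zero] at e3
  rw [t02, one_smul] at e4
  refine ⟨hΦ y hy, ?_, ?_⟩
  · rw [← e1]
    rw [← e3, ha]
  · rw [← e1, ← e2]
    rw [← e4, ha2, ha]

end

end Pool.Agent.R744.Lie
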