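import Pool.Agent.R744.LieTube3

set_option autoImplicit false
set_option linter.unusedSectionVars false

namespace Pool.Agent.R744.Lie

open scoped ContDiff InnerProductSpace Topology

section

variable {E H : Type} [NormedAddCommGroup E] [NormedSpace ℝ E] [NormedAddCommGroup H]
  [InnerProductSpace ℝ H]

theorem contDiffOn_hatE {U : Set E} {f : E → H} (hf : ContDiffOn ℝ ∞ f U) :
    ContDiffOn ℝ ∞ (fun u => hatE (f u)) U := by
  unfold hatE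
  have h1 : ContDiffOn ℝ ∞ (fun u => ‖f u‖ ^ 2) U := hf.norm_sq ℝ
  exact hf.prodMk (((contDiffOn_const.sub h1).div_const 2).prodMk
    (((contDiffOn_const.add h1).div_const 2).prodMk contDiffOn_const))

theorem contDiffOn_nuE {U : Set E} {f g : E → H} (hf : ContDiffOn ℝ ∞ f U)
    (hg : ContDiffOn ℝ ∞ g U) : ContDiffOn ℝ ∞ (fun u => nuE (f u) (g u)) U := by
  unfold nuE
  have h1 : ContDiffOn ℝ ∞ (fun u => ⟪f u, g u⟫_ℝ) U := hf.inner ℝ hg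
  exact hg.prodMk (h1.neg.prodMk (h1.prodMk contDiffOn_const))

theorem sE_hatE (x : H) : sE H (hatE x) = 1 := by
  rw [sE_apply, hatE]
  simp only
  ring

theorem tE_hatE (x : H) : tE H (hatE x) = 0 := rfl

theorem sE_nuE (x n : H) : sE H (nuE x n) = 0 := by
  rw [sE_apply, nuE]
  simp

theorem tE_nuE (x n : H) : tE H (nuE x n) = 1 := rfl

theorem contDiffOn_pair [FiniteDimensional ℝ E] {k l : ℕ} {U : Set E} {f : E → Vec k} {g : E → Vec l}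
    (hf : ContDiffOn ℝ ∞ f U) (hg : ContDiffOn ℝ ∞ g U) :
    ContDiffOn ℝ ∞ (fun u => pair (f u) (g u)) U :=
  contDiffOn_linear (pairL k l) (hf.prodMk hg)

theorem norm_q {l : ℕ} (y : Vec l) :
    ((1 - ‖y‖ ^ 2 / 4) / (1 + ‖y‖ ^ 2 / 4)) ^ 2 + ‖-((1 + ‖y‖ ^ 2 / 4)⁻¹ • y)‖ ^ 2 = 1 := by
  rw [norm_neg, norm_smul, mul_pow, Real.norm_eq_abs, sq_abs]
  have h1 : 0 < 1 + ‖y‖ ^ 2 / 4 := by positivity
  have h2 : (1 + ‖y‖ ^ 2 / 4) * (1 + ‖y‖ ^ 2 / 4)⁻¹ = 1 := mul_inv_cancel₀ h1.ne'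
  rw [div_eq_mul_inv]
  generalize (1 + ‖y‖ ^ 2 / 4)⁻¹ = d at *
  have e : ((1 - ‖y‖ ^ 2 / 4) * d) ^ 2 + d ^ 2 * ‖y‖ ^ 2 = ((1 + ‖y‖ ^ 2 / 4) * d) ^ 2 := by ring
  rw [e, h2]
  norm_num

theorem two_eq {k l : ℕ} (w N : Vec k) (y : Vec l) (t : ℝ) (h : 0 < 1 - ‖y‖ ^ 2 / 4)
    (v : Vec k × ℝ × ℝ × ℝ) (hv : v - (0, 0, 0, -1) = t • hatE w + nuE w N) :
    inc k l v - (pair 0 ((1 - ‖y‖ ^ 2 / 4)⁻¹ • y), 0, 0,
      -1 - (1 - ‖y‖ ^ 2 / 4)⁻¹ * (‖y‖ ^ 2 / 2)) =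
    t • inc k l (hatE w) + ((1 - ‖y‖ ^ 2 / 4) / (1 + ‖y‖ ^ 2 / 4))⁻¹ •
      (pair (((1 - ‖y‖ ^ 2 / 4) / (1 + ‖y‖ ^ 2 / 4)) • N) (-((1 + ‖y‖ ^ 2 / 4)⁻¹ • y)),
        -(((1 - ‖y‖ ^ 2 / 4) / (1 + ‖y‖ ^ 2 / 4)) * ⟪w, N⟫_ℝ),
        ((1 - ‖y‖ ^ 2 / 4) / (1 + ‖y‖ ^ 2 / 4)) * ⟪w, N⟫_ℝ, 1) := by
  have hv' : v = (0, 0, 0, -1) + (t • hatE w + nuE w N) := by rw [← hv]; abel
  rw [hv', map_add, map_add, map_smul, inc_apply (0, 0, 0, -1), inc_apply (nuE w N)]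
  have h1 : 0 < 1 + ‖y‖ ^ 2 / 4 := by positivity
  have key : ∀ a b c e : EuclideanSpace ℝ (Fin k ⊕ Fin l) × ℝ × ℝ × ℝ, a + c - e = b →
      a + (t • inc k l (hatE w) + c) - e = t • inc k l (hatE w) + b := by
    intro a b c e h
    rw [← h]
    abel
  refine key _ _ _ _ ?_
  have hr : ((1 - ‖y‖ ^ 2 / 4) / (1 + ‖y‖ ^ 2 / 4)) ≠ 0 := (div_pos h h1).ne'
  refine Prod.ext ?_ (Prod.ext ?_ (Prod.ext ?_ ?_))
  · simp only [Prod.fst_sub, Prod.fst_add, Prod.smul_fst]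
    ext i
    rcases i with i | i
    · simp only [pair, nuE, PiLp.sub_apply, PiLp.add_apply, PiLp.smul_apply, Sum.elim_inl,
        PiLp.zero_apply, smul_eq_mul]
      rw [← mul_assoc, inv_mul_cancel₀ hr]
      ring
    · simp only [pair, nuE, PiLp.sub_apply, PiLp.add_apply, PiLp.smul_apply, Sum.elim_inr,
        PiLp.zero_apply, PiLp.neg_apply, smul_eq_mul]
      field_simp
      ring
  · simp only [nuE, Prod.fst_sub, Prod.snd_sub, Prod.fst_add, Prod.snd_add, Prod.smul_fst,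
      Prod.smul_snd, smul_eq_mul]
    rw [mul_neg, ← mul_assoc, inv_mul_cancel₀ hr]
    ring
  · simp only [nuE, Prod.fst_sub, Prod.snd_sub, Prod.fst_add, Prod.snd_add, Prod.smul_fst,
      Prod.smul_snd, smul_eq_mul]
    rw [← mul_assoc, inv_mul_cancel₀ hr]
    ring
  · simp only [nuE, Prod.snd_sub, Prod.snd_add, Prod.smul_snd, smul_eq_mul]
    have h4 : 4 - ‖y‖ ^ 2 ≠ 0 := by
      intro h5
      apply h.ne'
      linarith
    have h5 : 4 + ‖y‖ ^ 2 ≠ 0 := by positivity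
    field_simp
    ring

end

section

variable {d : ℕ} {m : Fin 3 → ℕ} {σ : Fin 3 → ℝ} {f ξ : Vec d → Vec (d + 2)} {u₀ : Vec d}

theorem exists_J (a b n : ℕ) (hn : a + (b + 1) = n) :
    ∃ J : (Vec a × Vec b × ℝ) →ₗ[ℝ] Vec n,
      ∀ x y, ⟪J x, J y⟫_ℝ = ⟪x.1, y.1⟫_ℝ + ⟪x.2.1, y.2.1⟫_ℝ + x.2.2 * y.2.2 := by
  obtain ⟨J, hJ⟩ := exists_isometry (W := Vec a × Vec b × ℝ)
    (LinearMap.mk₂ ℝ (fun v w => ⟪v.1, w.1⟫_ℝ + ⟪v.2.1, w.2.1⟫_ℝ + v.2.2 * w.2.2)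
      (fun v v' w => by
        simp only [Prod.fst_add, Prod.snd_add, inner_add_left]
        ring)
      (fun c v w => by
        simp only [Prod.smul_fst, Prod.smul_snd, inner_smul_left, smul_eq_mul,
          RCLike.conj_to_real]
        ring)
      (fun v w w' => by
        simp only [Prod.fst_add, Prod.snd_add, inner_add_right]
        ring)
      (fun c v w => by
        simp only [Prod.smul_fst, Prod.smul_snd, inner_smul_right, smul_eq_mul]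
        ring))
    (fun v w => by
      simp only [LinearMap.mk₂_apply, real_inner_comm]
      ring)
    (fun v hv => by
      simp only [LinearMap.mk₂_apply, real_inner_self_eq_norm_sq]
      by_contra hcon
      push Not at hcon
      have h1 : 0 ≤ ‖v.1‖ ^ 2 := by positivity
      have h2 : 0 ≤ ‖v.2.1‖ ^ 2 := by positivity
      have h3 : 0 ≤ v.2.2 * v.2.2 := mul_self_nonneg _
      apply hv
      have h4 : ‖v.1‖ ^ 2 = 0 := by linarith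
      have h5 : ‖v.2.1‖ ^ 2 = 0 := by linarith
      have h6 : v.2.2 * v.2.2 = 0 := by linarith
      refine Prod.ext ?_ (Prod.ext ?_ ?_)
      · exact norm_eq_zero.1 (pow_eq_zero_iff (by norm_num) |>.1 h4)
      · exact norm_eq_zero.1 (pow_eq_zero_iff (by norm_num) |>.1 h5)
      · exact mul_self_eq_zero.1 h6)
    n (by
      rw [Module.finrank_prod, Module.finrank_prod]
      simp [hn])
  exact ⟨J, hJ⟩

theorem FrameModel.isReducibleAt_aux (hm : ∑ i, m i = d) (pos : ∀ i, 1 ≤ m i)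
    (hσ : ∑ i, σ i = 0) (h2 : σ 2 = -1) (h : FrameModel m σ f ξ u₀ 0) :
    IsReducibleAt f ξ u₀ := by
  obtain ⟨F₀, U₀, ψ, hU₀, hu₀, hψ0, hψ, hden, hline⟩ := h
  obtain ⟨J, hJ⟩ := exists_J (m 0) (m 1) (m 0 + m 1 + 1) (by ring)
  obtain ⟨L⟩ := exists_param (E := Vec (m 0 + m 1)) ![m 0, m 1, 0] (by
    simp [Fin.sum_univ_three])
  obtain ⟨W, w, N, s, t, h0W, hW1, hW2, hW3⟩ := exists_W pos J hJ hσ h2 L
  set G := (tubeFrame (embH J hJ) σ hσ h2).trans BE_symm (par _) BE_par with hG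
  set α : Vec d → Vec (m 0 + m 1) := fun u => L.symm (cut m (ψ u)) with hα
  have hLα : ∀ u, L (α u) = cut m (ψ u) := fun u => L.apply_symm_apply _
  have hαs : ContDiffOn ℝ ∞ α U₀ :=
    L.symm.contDiff.comp_contDiffOn (contDiffOn_linear (cut m) hψ.smooth)
  have hα0 : α u₀ = 0 := by
    rw [hα]
    simp only
    rw [hψ0, map_zero, map_zero]
  have hU₁ : IsOpen (U₀ ∩ α ⁻¹' W) := hαs.continuousOn.isOpen_inter_preimage hU₀ hW1.isOpen
  have hu₁ : u₀ ∈ U₀ ∩ α ⁻¹' W := ⟨hu₀, by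
    change α u₀ ∈ W
    rw [hα0]
    exact h0W⟩
  obtain ⟨a, ha⟩ : ∃ a : Fin 3 → Vec d →
    (EuclideanSpace ℝ (Fin (m 0 + m 1 + 1) ⊕ Fin (m 2)) × ℝ × ℝ × ℝ),
    a = fun i u => G.pt i (ψ u i) := ⟨_, rfl⟩
  have hT := model_triple G hU₁ hu₁ (hψ.mono Set.inter_subset_left) (fun u hu => hden u hu.1)
  rw [← ha] at hT
  have hp : ∀ i, a i u₀ = par _ ((tubeFrame (embH J hJ) σ hσ h2).p i) := by
    intro i
    rw [ha]
    simp only
    rw [hψ0]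
    exact G.pt_zero i
  have t01 : (tE _) (a 0 u₀ - a 1 u₀) = -1 := by
    rw [hp, hp, ← map_sub, par_apply, tE_apply]
    change ((0 - 0) - ((0 - (-1 / 2)) + (0 - (-1 / 2))) : ℝ) = -1
    norm_num
  have t02 : (tE _) (a 0 u₀ - a 2 u₀) = 1 := by
    rw [hp, hp, ← map_sub, par_apply, tE_apply]
    change ((0 - (-1)) - ((0 - 0) + (0 - 0)) : ℝ) = 1
    norm_num
  have cs : ∀ (φ : (EuclideanSpace ℝ (Fin (m 0 + m 1 + 1) ⊕ Fin (m 2)) × ℝ × ℝ × ℝ) →ₗ[ℝ] ℝ)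
      (i j : Fin 3), ContinuousOn (fun u => φ (a i u - a j u)) (U₀ ∩ α ⁻¹' W) :=
    fun φ i j => (contDiffOn_linear φ ((hT.smooth i).sub (hT.smooth j))).continuousOn
  obtain ⟨U, hUs, hU, hu, hΦ⟩ := exists_shrink hU₁ hu₁
    (Φ := fun u => (tE _) (a 0 u - a 1 u) * (tE _) (a 0 u - a 2 u) * (tE _) (a 1 u - a 2 u))
    (((cs _ 0 1).mul (cs _ 0 2)).mul (cs _ 1 2)) (by
      have e : a 1 u₀ - a 2 u₀ = (a 0 u₀ - a 2 u₀) - (a 0 u₀ - a 1 u₀) := by abel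
      rw [e, map_sub _ (_ - _) _, t01, t02]
      norm_num)
  have hψ2 : ContDiffOn ℝ ∞ (fun u => ψ u 2) U₀ := contDiffOn_pi.1 hψ.smooth 2
  have hpos : ∀ u, 0 < 1 + ‖ψ u 2‖ ^ 2 / 4 := fun u => by positivity
  have hden2 : ∀ u ∈ U₀, 0 < 1 - ‖ψ u 2‖ ^ 2 / 4 := by
    intro u hu
    have := hden u hu 2
    rw [h2] at this
    linarith
  set c : Vec d → ℝ := fun u => (1 - ‖ψ u 2‖ ^ 2 / 4) / (1 + ‖ψ u 2‖ ^ 2 / 4) with hc
  set η : Vec d → Vec (m 2) := fun u => -((1 + ‖ψ u 2‖ ^ 2 / 4)⁻¹ • ψ u 2) with hη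
  have hn : ContDiffOn ℝ ∞ (fun u => ‖ψ u 2‖ ^ 2 / 4) U₀ := (hψ2.norm_sq ℝ).div_const 4
  have hcs : ContDiffOn ℝ ∞ c U₀ := (contDiffOn_const.sub hn).div (contDiffOn_const.add hn)
    fun u _ => (hpos u).ne'
  have hηs : ContDiffOn ℝ ∞ η U₀ := (((contDiffOn_const.add hn).inv
    fun u _ => (hpos u).ne').smul hψ2).neg
  have hcη : ∀ u, c u ^ 2 + ‖η u‖ ^ 2 = 1 := fun u => norm_q (ψ u 2)
  have hUU : U ⊆ U₀ := fun u hu => (hUs hu).1
  have hUW : ∀ u ∈ U, α u ∈ W := fun u hu => (hUs hu).2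
  have hws : ContDiffOn ℝ ∞ (fun u => w (α u)) U :=
    hW1.smooth_f.comp (hαs.mono hUU) hUW
  have hNs : ContDiffOn ℝ ∞ (fun u => N (α u)) U :=
    hW1.smooth_ξ.comp (hαs.mono hUU) hUW
  set Ξ : Vec d → EuclideanSpace ℝ (Fin (m 0 + m 1 + 1) ⊕ Fin (m 2)) :=
    fun u => pair (c u • N (α u)) (η u) with hΞ
  set Fh : Vec d → EuclideanSpace ℝ (Fin (m 0 + m 1 + 1) ⊕ Fin (m 2)) :=
    fun u => pair (w (α u)) 0 + Ξ u with hFh
  have hΞs : ContDiffOn ℝ ∞ Ξ U := contDiffOn_pair ((hcs.mono hUU).smul hNs) (hηs.mono hUU)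
  have hFs : ContDiffOn ℝ ∞ Fh U := (contDiffOn_pair hws contDiffOn_const).add hΞs
  have hl : ∀ u ∈ U, Submodule.span ℝ {hatE (Fh u), nuE (Fh u) (Ξ u)} = tripleLine a u := by
    intro u hu
    obtain ⟨h3, h4, h5⟩ := hW3 (α u) (hUW u hu)
    have e01 : a 0 u - a 1 u = par _ (s (α u) • inc _ _ (hatE (w (α u)))) := by
      rw [← map_smul (inc _ _), ← h4, hLα, map_sub (inc _ _)]
      have e1 := pt_zero_eq J hJ hσ h2 (ψ u 0)
      have e2 := pt_one_eq J hJ hσ h2 (ψ u 1)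
      rw [ha]
      simp only
      rw [hG, Frame.trans_pt, Frame.trans_pt, ← map_sub, e1, e2]
      rfl
    have e02 : a 0 u - a 2 u = par _ (t (α u) • inc _ _ (hatE (w (α u))) + (c u)⁻¹ •
        (pair (c u • N (α u)) (η u), -(c u * ⟪w (α u), N (α u)⟫_ℝ),
          c u * ⟪w (α u), N (α u)⟫_ℝ, 1)) := by
      rw [hLα] at h5
      have e1 := pt_zero_eq J hJ hσ h2 (ψ u 0)
      have e2 := pt_two_eq J hJ hσ h2 (ψ u 2)
      have e3 := two_eq (w (α u)) (N (α u)) (ψ u 2) (t (α u)) (hden2 u (hUU hu)) _ h5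
      rw [hc, hη]
      simp only
      rw [← e3, ← e2, ha]
      simp only
      rw [hG, Frame.trans_pt, Frame.trans_pt, ← map_sub, e1]
      rfl
    unfold tripleLine
    rw [e01, e02]
    exact (tube_span (w (α u)) (N (α u)) (η u) (c u) (s (α u)) (t (α u))
      (hW1.unit _ (hUW u hu)) (hcη u) (div_pos (hden2 u (hUU hu)) (hpos u)).ne' h3).symm
  have hLD : LineData (BE _) U a (sE _) (tE _) (fun u => hatE (Fh u))
      (fun u => nuE (Fh u) (Ξ u)) :=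
    ⟨contDiffOn_hatE hFs, contDiffOn_nuE hFs hΞs, hl, fun u _ => sE_hatE _, fun u _ => tE_hatE _,
      fun u _ => sE_nuE _ _, fun u _ => tE_nuE _ _⟩
  obtain ⟨h3, -, -⟩ := euclid_of_model (g := 3) (fun i => i) (fun _ _ h => h) G hU
    (hψ.mono hUU) (fun u hu => hden u (hUU hu)) ha hLD pos (fun l hl => absurd rfl (hl l)) (by
      intro u hu i
      have h1 := mul_ne_zero_iff.1 (hΦ u hu)
      have h2 := mul_ne_zero_iff.1 h1.1
      fin_cases i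
      · exact h1.2
      · change (tE _) (a 2 u - a 0 u) ≠ 0
        rw [← neg_sub, map_neg, neg_ne_zero]
        exact h2.2
      · exact h2.1)
  have hfr : Module.finrank ℝ (Vec (d + 2) × ℝ × ℝ) = ∑ i, m i + 4 := by rw [finrank_LS, hm]
  have hfrE : Module.finrank ℝ (EuclideanSpace ℝ (Fin (m 0 + m 1 + 1) ⊕ Fin (m 2)) × ℝ × ℝ × ℝ) =
      ∑ i, m i + 4 := by
    rw [Module.finrank_prod, Module.finrank_prod, Module.finrank_prod, Fin.sum_univ_three]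
    simp
    ring
  refine ⟨m 0 + m 1, m 2, W, w, N, U, Fh, Ξ, (G.equiv hfrE).symm.trans (F₀.equiv hfr), pos 2, ?_,
    hW1, hW2, hu, h3, ?_, ?_, ?_⟩
  · rw [← hm, Fin.sum_univ_three]
  · refine ⟨1, α, c, η, one_pos, hαs.mono hUU, hcs.mono hUU, hηs.mono hUU, fun u hu =>
      ⟨hUW u hu, hcη u, rfl, ?_⟩⟩
    rw [one_smul]
  · intro v
    obtain ⟨v', rfl⟩ := (G.equiv hfrE).surjective v
    rw [LinearEquiv.trans_apply, LinearEquiv.symm_apply_apply, ← BE_self, ← BS_self,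
      G.equiv_apply, F₀.equiv_apply, G.B_map, F₀.B_map]
  · intro u hu
    have e1 : liftE Fh Ξ u = tripleLine a u := hl u hu
    rw [e1, hline u (hUU hu), ha]
    unfold tripleLine
    rw [Submodule.map_span, Set.image_pair]
    have key : ∀ i j y z, ((G.equiv hfrE).symm.trans (F₀.equiv hfr)).toLinearMap
        (G.pt i y - G.pt j z) = F₀.pt i y - F₀.pt j z := by
      intro i j y z
      change (F₀.equiv hfr) ((G.equiv hfrE).symm (G.pt i y - G.pt j z)) = _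
      rw [← G.map_apt hfrE, ← G.equiv_apply hfrE, LinearEquiv.symm_apply_apply, F₀.equiv_apply,
        F₀.map_apt hfr]
    rw [key, key]

end

end Pool.Agent.R744.Lie
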