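import Pool.Agent.R744.LieTrans

set_option autoImplicit false
set_option linter.unusedSectionVars false

namespace Pool.Agent.R744.Lie

open scoped ContDiff InnerProductSpace Topology

/-- the sign pattern of the differences -/
def sgn : Fin 3 → Fin 3 → ℝ := ![![0, 1, -1], ![-1, 0, 1], ![1, -1, 0]]

theorem exists_perm_of_matrix (c : Fin 3 → Fin 3 → ℝ) (h1 : ∀ i, ∑ l, c i l = 0)
    (h2 : ∀ l, ∑ i, c i l = 0) (h3 : ∀ i, ∃ l, c i l = 0)
    (h4 : ∀ i j, i ≠ j → ∀ x y : ℝ, (∀ l, x * c i l + y * c j l = 0) → x = 0 ∧ y = 0) :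
    ∃ (π : Equiv.Perm (Fin 3)) (g : ℝ), g ≠ 0 ∧ ∀ i l, c i (π l) = g * sgn i l := by
  choose f hf using h3
  have hinj : Function.Injective f := by
    intro i j hij
    by_contra hne
    set l := f i with hl
    have hcol : ∀ k l', l' ≠ l → ∀ l'', l'' ≠ l → l'' ≠ l' → c k l = 0 → c k l' = - c k l'' := by
      intro k l' h' l'' h'' hne' hz
      have hs := h1 k
      rw [Fin.sum_univ_three] at hs
      fin_cases l' <;> fin_cases l'' <;> simp at hne' <;>
        (generalize l = l0 at *; fin_cases l0 <;> simp at h' h'' hz ⊢; linarith)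
    obtain ⟨l', hl'⟩ : ∃ l', l' ≠ l := ⟨l + 1, by
      generalize l = l0
      fin_cases l0 <;> decide⟩
    have hi : c i l = 0 := hf i
    have hj : c j l = 0 := by rw [hij]; exact hf j
    have key := h4 i j hne (c j l') (-c i l') (by
      intro l''
      by_cases h5 : l'' = l
      · rw [h5, hi, hj]
        ring
      · by_cases h6 : l'' = l'
        · rw [h6]
          ring
        · rw [hcol i l'' h5 l' hl' (Ne.symm h6) hi, hcol j l'' h5 l' hl' (Ne.symm h6) hj]
          ring)
    have hi' : c i l' = 0 := by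
      have := key.2
      linarith
    have := h4 i j hne 1 0 (by
      intro l''
      by_cases h5 : l'' = l
      · rw [h5, hi]
        ring
      · by_cases h6 : l'' = l'
        · rw [h6, hi']
          ring
        · rw [hcol i l'' h5 l' hl' (Ne.symm h6) hi, hi']
          ring)
    exact one_ne_zero this.1
  let π : Equiv.Perm (Fin 3) := Equiv.ofBijective f (Finite.injective_iff_bijective.1 hinj)
  have hπ : ∀ i, c i (π i) = 0 := hf
  have r1 : ∀ i, ∑ l, c i (π l) = 0 := fun i => by rw [Equiv.sum_comp π (c i), h1]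
  have r2 : ∀ l, ∑ i, c i (π l) = 0 := fun l => h2 (π l)
  simp only [Fin.sum_univ_three] at r1 r2
  have hd0 := hπ 0
  have hd1 := hπ 1
  have hd2 := hπ 2
  have a0 := r1 0
  have a1 := r1 1
  have a2 := r1 2
  have b0 := r2 0
  have b1 := r2 1
  have b2 := r2 2
  have key : ∀ i l, c i (π l) = c 0 (π 1) * sgn i l := by
    intro i l
    fin_cases i <;> fin_cases l <;> simp [sgn] <;> linarith
  refine ⟨π, c 0 (π 1), ?_, key⟩
  intro h0
  have := h4 0 1 (by decide) 1 0 (by
    intro l
    have h5 := key 0 (π.symm l)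
    rw [π.apply_symm_apply, h0, zero_mul] at h5
    rw [h5]
    ring)
  exact one_ne_zero this.1

section

variable {E V : Type} [NormedAddCommGroup E] [NormedSpace ℝ E] [FiniteDimensional ℝ E]
  [NormedAddCommGroup V] [NormedSpace ℝ V] [FiniteDimensional ℝ V]
  {B : V →ₗ[ℝ] V →ₗ[ℝ] ℝ} {m m' : Fin 3 → ℕ} {σ σ' : Fin 3 → ℝ} {U : Set E} {u₀ : E}
  {a a' : Fin 3 → E → V}

/-- splitting of the tangent space -/
def Splits (a : Fin 3 → E → V) (u : E) : Prop :=
  ∀ X, ∃ Y : Fin 3 → E, ∑ i, Y i = X ∧ ∀ i j, j ≠ i → fderiv ℝ (a j) u (Y i) = 0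

/-- independence of the differences -/
def Indep (a : Fin 3 → E → V) (u : E) : Prop :=
  ∀ x : Fin 3 → ℝ, ∑ i, x i = 0 → ∑ i, x i • a i u = 0 → x = 0

theorem Indep.ne {u : E} (h : Indep a u) {i j : Fin 3} (hij : i ≠ j) : a i u - a j u ≠ 0 := by
  intro h0
  have h1 := h (Pi.single i 1 - Pi.single j 1) (by
    simp only [Pi.sub_apply, Finset.sum_sub_distrib, Finset.sum_pi_single', Finset.mem_univ,
      if_true]
    simp) (by
    simp only [Pi.sub_apply, sub_smul, Finset.sum_sub_distrib, Pi.single_apply, ite_smul,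
      one_smul, zero_smul, Finset.sum_ite_eq', Finset.mem_univ, if_true]
    exact h0)
  have h2 := congrFun h1 i
  rw [Pi.sub_apply, Pi.single_eq_same, Pi.single_eq_of_ne hij] at h2
  simp at h2

/-- squared norm of a combination of derivatives -/
theorem Triple.norm_comb {u : E} (T : Triple B U u a) (x : Fin 3 → ℝ) (X : E) :
    B (∑ i, x i • fderiv ℝ (a i) u X) (∑ i, x i • fderiv ℝ (a i) u X) =
      ∑ i, x i ^ 2 * B (fderiv ℝ (a i) u X) (fderiv ℝ (a i) u X) := by
  have h := fun i j hij => T.fderiv_orth_fderiv i j hij T.mem T.mem X X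
  simp only [Fin.sum_univ_three, map_add, map_smul, LinearMap.add_apply, LinearMap.smul_apply,
    smul_eq_mul, h 0 1 (by decide), h 0 2 (by decide), h 1 0 (by decide), h 1 2 (by decide),
    h 2 0 (by decide), h 2 1 (by decide)]
  ring

/-- a null combination of derivatives has vanishing terms -/
theorem Triple.comb_null {u : E} (T : Triple B U u a) (x : Fin 3 → ℝ) (X : E)
    (h : B (∑ i, x i • fderiv ℝ (a i) u X) (∑ i, x i • fderiv ℝ (a i) u X) = 0) (i : Fin 3) :
    x i = 0 ∨ fderiv ℝ (a i) u X = 0 := by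
  rw [T.norm_comb] at h
  have hnn : ∀ i, 0 ≤ B (fderiv ℝ (a i) u X) (fderiv ℝ (a i) u X) := by
    intro i
    by_cases h0 : fderiv ℝ (a i) u X = 0
    · rw [h0, map_zero]
    · exact (T.pos i X h0).le
  have h1 := (Finset.sum_eq_zero_iff_of_nonneg fun i _ => mul_nonneg (sq_nonneg (x i)) (hnn i)).1 h
    i (Finset.mem_univ i)
  by_contra hcon
  push Not at hcon
  have h2 := T.pos i X hcon.2
  have h3 : 0 < x i ^ 2 := by
    have := hcon.1
    positivity
  exact (mul_pos h3 h2).ne' h1

/-- the span of the differences -/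
theorem mem_tripleLine {u : E} {v : V} : v ∈ tripleLine a u ↔
    ∃ x : Fin 3 → ℝ, ∑ i, x i = 0 ∧ v = ∑ i, x i • a i u := by
  unfold tripleLine
  rw [Submodule.mem_span_pair]
  constructor
  · rintro ⟨p, q, rfl⟩
    refine ⟨![p + q, -p, -q], ?_, ?_⟩
    · simp [Fin.sum_univ_three]
    · simp only [Fin.sum_univ_three]
      simp
      module
  · rintro ⟨x, hx, rfl⟩
    refine ⟨-x 1, -x 2, ?_⟩
    rw [Fin.sum_univ_three] at hx ⊢
    have : x 0 = -x 1 - x 2 := by linarith
    rw [this]
    module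

theorem null_of_mem_tripleLine {u : E} (T : Triple B U u a) {v : V} (hv : v ∈ tripleLine a u) :
    B v v = 0 := by
  unfold tripleLine at hv
  rw [Submodule.mem_span_pair] at hv
  obtain ⟨p, q, rfl⟩ := hv
  have h01 := T.null 0 1 (by decide) u T.mem u T.mem
  have h02 := T.null 0 2 (by decide) u T.mem u T.mem
  have h12 := T.null 1 2 (by decide) u T.mem u T.mem
  have h : B (a 0 u - a 1 u) (a 0 u - a 2 u) = 0 := by
    refine Frame.polar T.symm _ _ _ _ h02 ?_ ?_ ?_
    · rw [← neg_sub, map_neg, LinearMap.map_neg₂, neg_neg, h01]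
    · rw [sub_self, map_zero]
    · exact h12
  have h' : B (a 0 u - a 2 u) (a 0 u - a 1 u) = 0 := by rw [T.symm, h]
  generalize a 0 u - a 1 u = P at *
  generalize a 0 u - a 2 u = Q at *
  simp only [map_add, map_smul, LinearMap.add_apply, LinearMap.smul_apply, h01, h02, h, h']
  simp

theorem exists_uniq (T : ∀ u ∈ U, Triple B U u a) (T' : ∀ u ∈ U, Triple B U u a')
    (ind : ∀ u ∈ U, Indep a u) (ind' : ∀ u ∈ U, Indep a' u)
    (sp' : ∀ u ∈ U, Splits a' u)
    (ne' : ∀ u ∈ U, ∀ i, ∃ X, X ≠ 0 ∧ ∀ j, j ≠ i → fderiv ℝ (a' j) u X = 0)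
    (hu : u₀ ∈ U)
    (hc : ∀ i, ∃ c : Fin 3 → E → ℝ, (∀ l, ContDiffOn ℝ ∞ (c l) U) ∧ ∀ u ∈ U, ∑ l, c l u = 0 ∧
      a' (i + 1) u - a' (i + 2) u = ∑ l, c l u • a l u) :
    ∃ U₁ ⊆ U, IsOpen U₁ ∧ u₀ ∈ U₁ ∧ ∃ (π : Equiv.Perm (Fin 3)) (g : ℝ) (b : V), g ≠ 0 ∧
      ∀ u ∈ U₁, ∀ i, a' i u = g • a (π i) u + b := by
  choose c hcs hc2 using hc
  have hU : IsOpen U := (T u₀ hu).isOpen
  have hdc : ∀ i l, ∀ u ∈ U, DifferentiableAt ℝ (c i l) u := fun i l u hu =>
    ContDiffOn.differentiableAt' (hcs i l) hU hu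
  -- derivative of the differences
  have hder : ∀ i, ∀ u ∈ U, ∀ X, fderiv ℝ (a' (i + 1)) u X - fderiv ℝ (a' (i + 2)) u X =
      ∑ l, fderiv ℝ (c i l) u X • a l u + ∑ l, c i l u • fderiv ℝ (a l) u X := by
    intro i u hu X
    have h1 : (fun u => a' (i + 1) u - a' (i + 2) u) =ᶠ[𝓝 u] fun u => ∑ l, c i l u • a l u := by
      filter_upwards [hU.mem_nhds hu] with v hv using (hc2 i v hv).2
    have h2 := h1.fderiv_eq (𝕜 := ℝ)
    have h3 := congrArg (fun L => L X) h2
    rw [fderiv_fun_sub ((T' u hu).differentiableAt _ hu) ((T' u hu).differentiableAt _ hu)] at h3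
    rw [sub_apply] at h3
    have hd : ∀ l ∈ Finset.univ, DifferentiableAt ℝ (fun u => c i l u • a l u) u := fun l _ =>
      (hdc i l u hu).smul ((T u hu).differentiableAt l hu)
    rw [h3, fderiv_fun_sum hd]
    rw [sum_apply, ← Finset.sum_add_distrib]
    refine Finset.sum_congr rfl fun l _ => ?_
    rw [fderiv_fun_smul (hdc i l u hu) ((T u hu).differentiableAt l hu)]
    rw [add_apply, ContinuousLinearMap.smulRight_apply, smul_apply, add_comm]
  have hdsum : ∀ i, ∀ u ∈ U, ∀ X, ∑ l, fderiv ℝ (c i l) u X = 0 := by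
    intro i u hu X
    have h1 : (fun u => ∑ l, c i l u) =ᶠ[𝓝 u] fun _ => 0 := by
      filter_upwards [hU.mem_nhds hu] with v hv using (hc2 i v hv).1
    have h2 := congrArg (fun L => L X) (h1.fderiv_eq (𝕜 := ℝ))
    rw [fderiv_fun_sum (fun l _ => hdc i l u hu)] at h2
    rw [sum_apply] at h2
    rw [h2]
    simp
  -- vanishing
  have hvan : ∀ i, ∀ u ∈ U, ∀ X, (∀ j, j ≠ i → fderiv ℝ (a' j) u X = 0) → ∀ l,
      c i l u = 0 ∨ fderiv ℝ (a l) u X = 0 := by
    intro i u hu X hX l
    have h1 := hder i u hu X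
    have e1 : i + 1 ≠ i := by
      fin_cases i <;> decide
    have e2 : i + 2 ≠ i := by
      fin_cases i <;> decide
    rw [hX _ e1, hX _ e2, sub_self] at h1
    refine (T u hu).comb_null (fun l => c i l u) X ?_ l
    have h2 : ∑ l, c i l u • fderiv ℝ (a l) u X = ∑ l, (-fderiv ℝ (c i l) u X) • a l u := by
      simp only [neg_smul, Finset.sum_neg_distrib]
      exact (neg_eq_of_add_eq_zero_right h1.symm).symm
    rw [h2]
    refine null_of_mem_tripleLine (T u hu) (mem_tripleLine.2 ⟨_, ?_, rfl⟩)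
    rw [Finset.sum_neg_distrib, hdsum i u hu X, neg_zero]
  have hex : ∀ u ∈ U, ∃ (π : Equiv.Perm (Fin 3)) (g : ℝ), g ≠ 0 ∧
      ∀ i l, c i (π l) u = g * sgn i l := by
    intro u hu
    refine exists_perm_of_matrix (fun i l => c i l u) (fun i => (hc2 i u hu).1) ?_ ?_ ?_
    · intro l
      have h1 : (fun l => ∑ i, c i l u) = 0 := by
        refine ind u hu _ ?_ ?_
        · rw [Finset.sum_comm]
          exact Finset.sum_eq_zero fun i _ => (hc2 i u hu).1
        · simp only [Finset.sum_smul]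
          rw [Finset.sum_comm]
          simp only [← (hc2 _ u hu).2]
          rw [Fin.sum_univ_three]
          change a' 1 u - a' 2 u + (a' 2 u - a' 0 u) + (a' 0 u - a' 1 u) = 0
          abel
      exact congrFun h1 l
    · intro i
      obtain ⟨X, hX, hX'⟩ := ne' u hu i
      by_contra hcon
      push Not at hcon
      exact hX ((T u hu).inj X fun l => (hvan i u hu X hX' l).resolve_left (hcon l))
    · intro i j hij x y hxy
      have h1 : x • (a' (i + 1) u - a' (i + 2) u) + y • (a' (j + 1) u - a' (j + 2) u) = 0 := by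
        rw [(hc2 i u hu).2, (hc2 j u hu).2, Finset.smul_sum, Finset.smul_sum,
          ← Finset.sum_add_distrib]
        refine Finset.sum_eq_zero fun l _ => ?_
        rw [smul_smul, smul_smul, ← add_smul, hxy l, zero_smul]
      have h2 := ind' u hu (fun l => x * sgn i l + y * sgn j l) (by
        rw [Fin.sum_univ_three]
        fin_cases i <;> fin_cases j <;> simp [sgn] <;> ring) (by
        rw [← h1, Fin.sum_univ_three]
        fin_cases i <;> fin_cases j
        all_goals
          simp [sgn]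
          try module)
      have h20 := congrFun h2 0
      have h21 := congrFun h2 1
      have h22 := congrFun h2 2
      fin_cases i <;> fin_cases j <;> simp [sgn] at hij h20 h21 h22 ⊢
      all_goals
        constructor <;> linarith
  obtain ⟨π, g₀, hg₀, hπ⟩ := hex u₀ hu
  -- neighbourhood
  have hs : ∀ i l, i ≠ l → sgn i l ≠ 0 := by
    intro i l hil
    fin_cases i <;> fin_cases l <;> simp [sgn] at hil ⊢
  have hs0 : ∀ i, sgn i i = 0 := by
    intro i
    fin_cases i <;> simp [sgn]
  have hopen : ∀ i l, IsOpen (U ∩ (c i l) ⁻¹' {x | x ≠ 0}) := fun i l =>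
    (hcs i l).continuousOn.isOpen_inter_preimage hU isOpen_ne
  have hnb : ∀ᶠ u in 𝓝 u₀, ∀ i l, i ≠ l → c i (π l) u ≠ 0 := by
    rw [Filter.eventually_all]
    intro i
    rw [Filter.eventually_all]
    intro l
    by_cases hil : i = l
    · exact Filter.Eventually.of_forall fun u h => absurd hil h
    · have h1 : u₀ ∈ U ∩ (c i (π l)) ⁻¹' {x | x ≠ 0} := by
        refine ⟨hu, ?_⟩
        change c i (π l) u₀ ≠ 0
        rw [hπ]
        exact mul_ne_zero hg₀ (hs i l hil)
      filter_upwards [(hopen i (π l)).mem_nhds h1] with u hu' _ using hu'.2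
  obtain ⟨ε, hε, hball⟩ := Metric.mem_nhds_iff.1 (Filter.inter_mem hnb (hU.mem_nhds hu))
  have hbU : Metric.ball u₀ ε ⊆ U := fun u hu => (hball hu).2
  have hbn : ∀ u ∈ Metric.ball u₀ ε, ∀ i l, i ≠ l → c i (π l) u ≠ 0 := fun u hu => (hball hu).1
  set g : E → ℝ := fun u => c 0 (π 1) u with hg
  have hcg : ∀ u ∈ Metric.ball u₀ ε, g u ≠ 0 ∧ ∀ i l, c i (π l) u = g u * sgn i l := by
    intro u hu
    obtain ⟨π', g', hg', hπ'⟩ := hex u (hbU hu)
    have hpp : π' = π := by
      ext1 l
      by_contra hne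
      have h1 : π.symm (π' l) ≠ l := fun h => hne (by rw [← h, π.apply_symm_apply, h])
      have h2 := hbn u hu l (π.symm (π' l)) (Ne.symm h1)
      rw [π.apply_symm_apply, hπ' l l, hs0, mul_zero] at h2
      exact h2 rfl
    subst hpp
    have h3 : g u = g' := by
      rw [hg]
      simp only
      rw [hπ' 0 1]
      simp [sgn]
    rw [h3]
    exact ⟨hg', hπ'⟩
  have hdiff : ∀ u ∈ Metric.ball u₀ ε, ∀ j k, a' j u - a' k u = g u • (a (π j) u - a (π k) u) := by
    intro u hu
    have h1 : ∀ i, a' (i + 1) u - a' (i + 2) u = g u • ∑ l, sgn i l • a (π l) u := by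
      intro i
      rw [(hc2 i u (hbU hu)).2, ← Equiv.sum_comp π, Finset.smul_sum]
      refine Finset.sum_congr rfl fun l _ => ?_
      rw [(hcg u hu).2, smul_smul]
    have e0 : a' 1 u - a' 2 u = g u • (a (π 1) u - a (π 2) u) := by
      rw [show a' 1 u - a' 2 u = _ from h1 0, Fin.sum_univ_three]
      simp [sgn]
      module
    have e1 : a' 2 u - a' 0 u = g u • (a (π 2) u - a (π 0) u) := by
      rw [show a' 2 u - a' 0 u = _ from h1 1, Fin.sum_univ_three]
      simp [sgn]
      module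
    have e2 : a' 0 u - a' 1 u = g u • (a (π 0) u - a (π 1) u) := by
      rw [show a' 0 u - a' 1 u = _ from h1 2, Fin.sum_univ_three]
      simp [sgn]
      module
    have neg : ∀ j k, a' j u - a' k u = g u • (a (π j) u - a (π k) u) →
        a' k u - a' j u = g u • (a (π k) u - a (π j) u) := by
      intro j k h
      rw [← neg_sub, h]
      module
    have self : ∀ j, a' j u - a' j u = g u • (a (π j) u - a (π j) u) := by
      intro j
      simp
    intro j k
    fin_cases j <;> fin_cases k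
    · exact self 0
    · exact e2
    · exact neg 2 0 e1
    · exact neg 0 1 e2
    · exact self 1
    · exact e0
    · exact e1
    · exact neg 1 2 e0
    · exact self 2
  -- the factor is constant
  have hball_open : IsOpen (Metric.ball u₀ ε) := Metric.isOpen_ball
  have hgs : ∀ u ∈ Metric.ball u₀ ε, DifferentiableAt ℝ g u := fun u hu => hdc 0 (π 1) u (hbU hu)
  have hTT : ∀ u ∈ Metric.ball u₀ ε, ∀ i X, (∀ j, j ≠ i → fderiv ℝ (a' j) u X = 0) →
      ∀ j, j ≠ i → fderiv ℝ (a (π j)) u X = 0 := by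
    intro u hu i X hX j hj
    refine (hvan i u (hbU hu) X hX (π j)).resolve_left ?_
    exact hbn u hu i j (Ne.symm hj)
  have hdg : ∀ u ∈ Metric.ball u₀ ε, fderiv ℝ g u = 0 := by
    intro u hu
    have key : ∀ i X, (∀ j, j ≠ i → fderiv ℝ (a' j) u X = 0) → fderiv ℝ g u X = 0 := by
      intro i X hX
      have h1 : (fun u => a' (i + 1) u - a' (i + 2) u) =ᶠ[𝓝 u]
          fun u => g u • (a (π (i + 1)) u - a (π (i + 2)) u) := by
        filter_upwards [hball_open.mem_nhds hu] with v hv using hdiff v hv _ _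
      have h3 := congrArg (fun L => L X) (h1.fderiv_eq (𝕜 := ℝ))
      have hda : ∀ l, DifferentiableAt ℝ (a l) u := fun l =>
        (T u (hbU hu)).differentiableAt l (hbU hu)
      have hda' : ∀ l, DifferentiableAt ℝ (a' l) u := fun l =>
        (T' u (hbU hu)).differentiableAt l (hbU hu)
      have e1 : i + 1 ≠ i := by
        fin_cases i <;> decide
      have e2 : i + 2 ≠ i := by
        fin_cases i <;> decide
      have e3 : i + 1 ≠ i + 2 := by
        fin_cases i <;> decide
      have hd12 : DifferentiableAt ℝ (fun u => a (π (i + 1)) u - a (π (i + 2)) u) u :=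
        (hda _).sub (hda _)
      rw [fderiv_fun_sub (hda' _) (hda' _), sub_apply, hX _ e1, hX _ e2,
        fderiv_fun_smul (hgs u hu) hd12, fderiv_fun_sub (hda _) (hda _)] at h3
      rw [add_apply, ContinuousLinearMap.smulRight_apply, smul_apply, sub_apply,
        hTT u hu i X hX _ e1, hTT u hu i X hX _ e2, sub_self, smul_zero, zero_add] at h3
      exact (smul_eq_zero.1 h3.symm).resolve_right
        ((ind u (hbU hu)).ne fun h => e3 (π.injective h))
    ext X
    obtain ⟨Y, hY, hY'⟩ := sp' u (hbU hu) X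
    rw [← hY, map_sum]
    simp only [zero_apply]
    exact Finset.sum_eq_zero fun i _ => key i (Y i) (hY' i)
  have hgc : ∀ u ∈ Metric.ball u₀ ε, g u = g u₀ := by
    intro u hu
    exact hball_open.is_const_of_fderiv_eq_zero (Metric.isPreconnected_ball)
      (fun v hv => (hgs v hv).differentiableWithinAt) hdg hu (Metric.mem_ball_self hε)
  set b : E → V := fun u => a' 0 u - g u₀ • a (π 0) u with hb
  have hbi : ∀ u ∈ Metric.ball u₀ ε, ∀ i, a' i u - g u₀ • a (π i) u = b u := by
    intro u hu i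
    have h1 := hdiff u hu i 0
    rw [hgc u hu] at h1
    rw [hb]
    simp only
    rw [smul_sub] at h1
    rw [← sub_eq_zero] at h1 ⊢
    rw [← h1]
    abel
  have hbd : ∀ u ∈ Metric.ball u₀ ε, DifferentiableAt ℝ b u := fun u hu =>
    ((T' u (hbU hu)).differentiableAt 0 (hbU hu)).sub
      (((T u (hbU hu)).differentiableAt (π 0) (hbU hu)).const_smul _)
  have hdb : ∀ u ∈ Metric.ball u₀ ε, fderiv ℝ b u = 0 := by
    intro u hu
    have hda : ∀ l, DifferentiableAt ℝ (a l) u := fun l =>
      (T u (hbU hu)).differentiableAt l (hbU hu)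
    have hda' : ∀ l, DifferentiableAt ℝ (a' l) u := fun l =>
      (T' u (hbU hu)).differentiableAt l (hbU hu)
    have key : ∀ i X, (∀ j, j ≠ i → fderiv ℝ (a' j) u X = 0) → fderiv ℝ b u X = 0 := by
      intro i X hX
      have h1 : b =ᶠ[𝓝 u] fun u => a' (i + 1) u - g u₀ • a (π (i + 1)) u := by
        filter_upwards [hball_open.mem_nhds hu] with v hv using (hbi v hv _).symm
      have e1 : i + 1 ≠ i := by
        fin_cases i <;> decide
      have h4 : DifferentiableAt ℝ (fun u => g u₀ • a (π (i + 1)) u) u := (hda _).const_smul _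
      have h5 : fderiv ℝ (fun u => g u₀ • a (π (i + 1)) u) u X =
          g u₀ • fderiv ℝ (a (π (i + 1))) u X := by
        rw [fderiv_fun_const_smul (hda _)]
        rfl
      rw [h1.fderiv_eq, fderiv_fun_sub (hda' _) h4, sub_apply, h5, hX _ e1,
        hTT u hu i X hX _ e1, smul_zero, sub_zero]
    ext1 X
    obtain ⟨Y, hY, hY'⟩ := sp' u (hbU hu) X
    rw [← hY, map_sum]
    simp only [zero_apply]
    exact Finset.sum_eq_zero fun i _ => key i (Y i) (hY' i)
  have hbc : ∀ u ∈ Metric.ball u₀ ε, b u = b u₀ := by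
    intro u hu
    exact hball_open.is_const_of_fderiv_eq_zero (Metric.isPreconnected_ball)
      (fun v hv => (hbd v hv).differentiableWithinAt) hdb hu (Metric.mem_ball_self hε)
  refine ⟨Metric.ball u₀ ε, hbU, hball_open, Metric.mem_ball_self hε, π, g u₀, b u₀,
    (hcg u₀ (Metric.mem_ball_self hε)).1, ?_⟩
  intro u hu i
  rw [← hbc u hu, ← hbi u hu i]
  abel

end

end Pool.Agent.R744.Lie
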