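import Pool.Agent.R744.LieUniq

set_option autoImplicit false
set_option linter.unusedSectionVars false

namespace Pool.Agent.R744.Lie

open scoped ContDiff InnerProductSpace Topology

section

variable {E V : Type} [NormedAddCommGroup E] [NormedSpace ℝ E] [FiniteDimensional ℝ E]
  [NormedAddCommGroup V] [NormedSpace ℝ V] [FiniteDimensional ℝ V]
  {B : V →ₗ[ℝ] V →ₗ[ℝ] ℝ} {m m' : Fin 3 → ℕ} {σ σ' : Fin 3 → ℝ} {U : Set E} {u₀ : E}
  {a a' : Fin 3 → E → V}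

theorem IsDiffeo.mono {F : Type} [NormedAddCommGroup F] [NormedSpace ℝ F] {U U' : Set E} {ψ : E → F}
    (h : IsDiffeo U ψ) (hU : U' ⊆ U) : IsDiffeo U' ψ where
  smooth := h.smooth.mono hU
  injOn := h.injOn.mono hU
  bijective := fun u hu => h.bijective u (hU hu)

theorem Frame.indep (F : Frame B m σ) (x : Fin 3 → ℝ) (hx : ∑ i, x i = 0)
    (h : ∑ i, x i • F.p i = 0) : x = 0 := by
  rw [Fin.sum_univ_three] at hx h
  have e : x 0 • F.p 0 + x 1 • F.p 1 + x 2 • F.p 2 =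
      (-x 1) • (F.p 0 - F.p 1) + (-x 2) • (F.p 0 - F.p 2) := by
    have : x 0 = -x 1 - x 2 := by linarith
    rw [this]
    module
  rw [e] at h
  have h1 := congrArg (fun v => B v (F.n 1)) h
  have h2 := congrArg (fun v => B v (F.n 2)) h
  simp only [LinearMap.map_add₂, LinearMap.map_smul₂, F.pn' 0 1 (by decide),
    F.pn'' 1 0 2 (by decide) (by decide), F.pn' 0 2 (by decide),
    F.pn'' 2 0 1 (by decide) (by decide), LinearMap.map_zero₂, smul_eq_mul] at h1 h2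
  have x1 : x 1 = 0 := by linarith
  have x2 : x 2 = 0 := by linarith
  have x0 : x 0 = 0 := by linarith
  funext i
  fin_cases i
  · exact x0
  · exact x1
  · exact x2

theorem Frame.e_injective (F : Frame B m σ) (i : Fin 3) : Function.Injective (F.e i) := by
  rw [injective_iff_map_eq_zero]
  intro x hx
  have := F.ee i x x
  rw [hx, map_zero] at this
  exact inner_self_eq_zero.1 this.symm

variable {ψ : E → ∀ i, Vec (m i)}

theorem model_indep (F : Frame B m σ)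
    (hden : ∀ u ∈ U, ∀ i, 0 < 1 + σ i * ‖ψ u i‖ ^ 2 / 4) {u : E} (hu : u ∈ U) :
    Indep (fun i u => F.pt i (ψ u i)) u := fun x hx h =>
  (F.move (ψ u) (Frame.pos_ne (hden u hu))).indep x hx h

theorem model_splits (F : Frame B m σ) (hU : IsOpen U) (hψ : IsDiffeo U ψ)
    (hden : ∀ u ∈ U, ∀ i, 0 < 1 + σ i * ‖ψ u i‖ ^ 2 / 4) {u : E} (hu : u ∈ U) :
    Splits (fun i u => F.pt i (ψ u i)) u := by
  intro X
  choose Z hZ using (hψ.bijective u hu).2
  refine ⟨fun i => Z (Pi.single i (fderiv ℝ ψ u X i)), ?_, ?_⟩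
  · apply (hψ.bijective u hu).1
    rw [map_sum]
    simp only [hZ]
    exact Finset.univ_sum_single _
  · intro i j hij
    rw [fderiv_pt_comp F hU hψ hden hu, hZ, Pi.single_eq_of_ne hij, map_zero, smul_zero]

theorem model_ne (F : Frame B m σ) (hU : IsOpen U) (hψ : IsDiffeo U ψ)
    (hden : ∀ u ∈ U, ∀ i, 0 < 1 + σ i * ‖ψ u i‖ ^ 2 / 4) {u : E} (hu : u ∈ U) (i : Fin 3)
    (hm : 1 ≤ m i) : ∃ X, (∀ j, j ≠ i → fderiv ℝ (fun u => F.pt j (ψ u j)) u X = 0) ∧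
      fderiv ℝ (fun u => F.pt i (ψ u i)) u X ≠ 0 := by
  obtain ⟨X, hX⟩ := (hψ.bijective u hu).2 (Pi.single i (EuclideanSpace.single ⟨0, hm⟩ 1))
  refine ⟨X, ?_, ?_⟩
  · intro j hj
    rw [fderiv_pt_comp F hU hψ hden hu, hX, Pi.single_eq_of_ne hj, map_zero, smul_zero]
  · rw [fderiv_pt_comp F hU hψ hden hu, hX, Pi.single_eq_same]
    intro h
    have h1 := (smul_eq_zero.1 h).resolve_left (inv_ne_zero (Frame.pos_ne (hden u hu) i))
    have h2 := (F.move (ψ u) (Frame.pos_ne (hden u hu))).e_injective i (h1.trans (map_zero _).symm)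
    have h3 := congrArg norm h2
    simp at h3

/-- non-trivial factors -/
def NonTriv (a : Fin 3 → E → V) (u : E) : Prop :=
  ∀ i, ∃ X, (∀ j, j ≠ i → fderiv ℝ (a j) u X = 0) ∧ fderiv ℝ (a i) u X ≠ 0

theorem model_nonTriv (F : Frame B m σ) (hU : IsOpen U) (hψ : IsDiffeo U ψ)
    (hden : ∀ u ∈ U, ∀ i, 0 < 1 + σ i * ‖ψ u i‖ ^ 2 / 4) {u : E} (hu : u ∈ U)
    (hm : ∀ i, 1 ≤ m i) : NonTriv (fun i u => F.pt i (ψ u i)) u := fun i =>
  model_ne F hU hψ hden hu i (hm i)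

/-- smooth coefficients of sections of the line -/
theorem exists_coeff (T : Triple B U u₀ a) {F : Frame B m σ} (hF : Adapted U u₀ a F) :
    ∃ U₁ ⊆ U, IsOpen U₁ ∧ u₀ ∈ U₁ ∧ ∀ v : E → V, ContDiffOn ℝ ∞ v U →
      (∀ u ∈ U, v u ∈ tripleLine a u) → ∃ c : Fin 3 → E → ℝ, (∀ l, ContDiffOn ℝ ∞ (c l) U₁) ∧
      ∀ u ∈ U₁, ∑ l, c l u = 0 ∧ v u = ∑ l, c l u • a l u := by
  set φ₁ : E → ℝ := fun u => B (F.n 1) (a 0 u - a 1 u) with hφ₁
  set φ₂ : E → ℝ := fun u => B (F.n 2) (a 0 u - a 2 u) with hφ₂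
  have s1 : ContDiffOn ℝ ∞ φ₁ U := contDiffOn_linear (B (F.n 1)) ((T.smooth 0).sub (T.smooth 1))
  have s2 : ContDiffOn ℝ ∞ φ₂ U := contDiffOn_linear (B (F.n 2)) ((T.smooth 0).sub (T.smooth 2))
  have o1 : IsOpen (U ∩ φ₁ ⁻¹' {x | x ≠ 0}) :=
    s1.continuousOn.isOpen_inter_preimage T.isOpen isOpen_ne
  have o2 : IsOpen (U ∩ φ₂ ⁻¹' {x | x ≠ 0}) :=
    s2.continuousOn.isOpen_inter_preimage T.isOpen isOpen_ne
  have z : ∀ i j, i ≠ j → ∀ k, k ≠ j → ∀ u ∈ U, B (F.n j) (a i u - a k u) = 0 := by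
    intro i j hij k hkj u hu
    rw [F.symm]
    have e : a i u - a k u = (a i u - a i u₀) + (F.p i - F.p k) - (a k u - a k u₀) := by
      rw [hF.p, hF.p]
      abel
    rw [e, LinearMap.map_sub₂, LinearMap.map_add₂, hF.n i j hij u hu, hF.n k j hkj u hu,
      F.pn'' j i k hij hkj]
    ring
  refine ⟨(U ∩ φ₁ ⁻¹' {x | x ≠ 0}) ∩ (U ∩ φ₂ ⁻¹' {x | x ≠ 0}), fun u hu => hu.1.1, o1.inter o2,
    ⟨⟨T.mem, ?_⟩, ⟨T.mem, ?_⟩⟩, ?_⟩
  · change B (F.n 1) (a 0 u₀ - a 1 u₀) ≠ 0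
    rw [F.symm, ← hF.p, ← hF.p, F.pn' 0 1 (by decide)]
    exact one_ne_zero
  · change B (F.n 2) (a 0 u₀ - a 2 u₀) ≠ 0
    rw [F.symm, ← hF.p, ← hF.p, F.pn' 0 2 (by decide)]
    exact one_ne_zero
  · intro v hv hl
    set U₁ := (U ∩ φ₁ ⁻¹' {x | x ≠ 0}) ∩ (U ∩ φ₂ ⁻¹' {x | x ≠ 0}) with hU₁
    have hsub : U₁ ⊆ U := fun u hu => hu.1.1
    have c1 : ContDiffOn ℝ ∞ (fun u => B (F.n 1) (v u) / φ₁ u) U₁ :=
      ((contDiffOn_linear (B (F.n 1)) hv).mono hsub).div (s1.mono hsub) fun u hu => hu.1.2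
    have c2 : ContDiffOn ℝ ∞ (fun u => B (F.n 2) (v u) / φ₂ u) U₁ :=
      ((contDiffOn_linear (B (F.n 2)) hv).mono hsub).div (s2.mono hsub) fun u hu => hu.2.2
    refine ⟨![fun u => B (F.n 1) (v u) / φ₁ u + B (F.n 2) (v u) / φ₂ u,
      fun u => -(B (F.n 1) (v u) / φ₁ u), fun u => -(B (F.n 2) (v u) / φ₂ u)], ?_, ?_⟩
    · intro l
      fin_cases l
      · exact c1.add c2
      · exact c1.neg
      · exact c2.neg
    · intro u hu
      have h1 : φ₁ u ≠ 0 := hu.1.2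
      have h2 : φ₂ u ≠ 0 := hu.2.2
      have h3 := hl u (hsub hu)
      unfold tripleLine at h3
      rw [Submodule.mem_span_pair] at h3
      obtain ⟨p, q, hpq⟩ := h3
      have e1 : B (F.n 1) (v u) / φ₁ u = p := by
        rw [div_eq_iff h1, ← hpq, map_add, map_smul, map_smul, z 0 1 (by decide) 2 (by decide) u
          (hsub hu)]
        simp [hφ₁]
      have e2 : B (F.n 2) (v u) / φ₂ u = q := by
        rw [div_eq_iff h2, ← hpq, map_add, map_smul, map_smul, z 0 2 (by decide) 1 (by decide) u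
          (hsub hu)]
        simp [hφ₂]
      rw [Fin.sum_univ_three, Fin.sum_univ_three]
      change (B (F.n 1) (v u) / φ₁ u + B (F.n 2) (v u) / φ₂ u) + -(B (F.n 1) (v u) / φ₁ u) +
        -(B (F.n 2) (v u) / φ₂ u) = 0 ∧ v u =
        (B (F.n 1) (v u) / φ₁ u + B (F.n 2) (v u) / φ₂ u) • a 0 u +
        (-(B (F.n 1) (v u) / φ₁ u)) • a 1 u + (-(B (F.n 2) (v u) / φ₂ u)) • a 2 u
      rw [e1, e2, ← hpq]
      exact ⟨by ring, by module⟩

/-- a point with non-null difference -/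
theorem Triple.exists_ne (T : Triple B U u₀ a) {i : Fin 3} {X : E}
    (hX : fderiv ℝ (a i) u₀ X ≠ 0) : ∃ u ∈ U, B (a i u - a i u₀) (a i u - a i u₀) ≠ 0 := by
  have hr := T.pos i X hX
  by_contra hcon
  push Not at hcon
  have hl : HasDerivAt (fun s : ℝ => u₀ + s • X) X 0 := by
    have h1 := ((hasDerivAt_id (0 : ℝ)).smul_const X).const_add u₀
    simpa using h1
  have ha : HasDerivAt (fun s : ℝ => a i (u₀ + s • X)) (fderiv ℝ (a i) u₀ X) 0 := by
    have h1 : HasFDerivAt (a i) (fderiv ℝ (a i) u₀) (u₀ + (0 : ℝ) • X) := by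
      rw [zero_smul, add_zero]
      exact (T.differentiableAt i T.mem).hasFDerivAt
    exact h1.comp_hasDerivAt (0 : ℝ) hl
  rw [hasDerivAt_iff_tendsto_slope] at ha
  have hBc : Continuous fun v : V => B v v :=
    ((LinearMap.toContinuousBilinearMap B).isBoundedBilinearMap.continuous.comp
      (continuous_id.prodMk continuous_id))
  have h2 := (hBc.tendsto _).comp ha
  have hev : ∀ᶠ s : ℝ in 𝓝[≠] 0, ((fun v : V => B v v) ∘
      slope (fun s : ℝ => a i (u₀ + s • X)) 0) s = 0 := by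
    have hU : ∀ᶠ s : ℝ in 𝓝 (0 : ℝ), u₀ + s • X ∈ U := by
      refine hl.continuousAt.eventually (T.isOpen.mem_nhds ?_)
      change u₀ + (0 : ℝ) • X ∈ U
      rw [zero_smul, add_zero]
      exact T.mem
    filter_upwards [hU.filter_mono nhdsWithin_le_nhds] with s hs
    have h3 := hcon _ hs
    simp only [Function.comp_apply, slope_def_module, zero_smul, add_zero, sub_zero, map_smul,
      LinearMap.smul_apply, h3, smul_zero]
  have h4 := tendsto_nhds_unique (h2.congr' hev) tendsto_const_nhds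
  linarith

/-- the data of an adapted frame are determined by the triple up to translation -/
theorem adapted_unique (T : Triple B U u₀ a) (T' : Triple B U u₀ a') {F : Frame B m σ}
    {F' : Frame B m' σ'} (hF : Adapted U u₀ a F) (hF' : Adapted U u₀ a' F')
    (hd : Module.finrank ℝ V = ∑ i, m i + 4) (hd' : Module.finrank ℝ V = ∑ i, m' i + 4) (b : V)
    (hab : ∀ u ∈ U, ∀ i, a' i u = a i u + b) (pos : ∀ i, 1 ≤ m i) : m' = m ∧ σ' = σ := by
  have hder : ∀ i X, fderiv ℝ (a' i) u₀ X = fderiv ℝ (a i) u₀ X := by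
    intro i X
    have h1 : a' i =ᶠ[𝓝 u₀] fun u => a i u + b := by
      filter_upwards [T.isOpen.mem_nhds T.mem] with v hv using hab v hv i
    rw [h1.fderiv_eq, fderiv_add_const]
  have hr1 : ∀ i x, ∃ x', F.e i x = F'.e i x' := by
    intro i x
    obtain ⟨X, hX⟩ := hF.eq_fderiv i x
    obtain ⟨y, hy⟩ := hF'.fderiv_eq i X
    exact ⟨y, by rw [hX, ← hy, hder]⟩
  have hr2 : ∀ i x, ∃ x', F'.e i x = F.e i x' := by
    intro i x
    obtain ⟨X, hX⟩ := hF'.eq_fderiv i x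
    obtain ⟨y, hy⟩ := hF.fderiv_eq i X
    exact ⟨y, by rw [hX, ← hy, hder]⟩
  have hm : m' = m := by
    funext i
    have h1 : LinearMap.range (F'.e i) = LinearMap.range (F.e i) := by
      apply le_antisymm
      · rintro _ ⟨x, rfl⟩
        obtain ⟨x', hx'⟩ := hr2 i x
        exact ⟨x', hx'.symm⟩
      · rintro _ ⟨x, rfl⟩
        obtain ⟨x', hx'⟩ := hr1 i x
        exact ⟨x', hx'.symm⟩
    have h2 := LinearMap.finrank_range_of_inj (F'.e_injective i)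
    have h3 := LinearMap.finrank_range_of_inj (F.e_injective i)
    rw [h1, h3] at h2
    simpa using h2.symm
  refine ⟨hm, ?_⟩
  have hδ : ∀ i, ∀ u ∈ U, a' i u - a' i u₀ = a i u - a i u₀ := by
    intro i u hu
    rw [hab u hu i, hab u₀ T.mem i]
    abel
  have hS : ∀ i, ∀ u ∈ U, Adapted.S B u₀ a' i u = Adapted.S B u₀ a i u := by
    intro i u hu
    unfold Adapted.S
    rw [hδ i u hu]
  have key : ∀ {k k' : ℕ} (e : Vec k →ₗ[ℝ] V) (e' : Vec k' →ₗ[ℝ] V) (Y : Vec k) (Y' : Vec k')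
      (δ : V), (∀ x, ∃ x', e x = e' x') → (∀ x x', B (e x) (e x') = ⟪x, x'⟫_ℝ) →
      (∀ x x', B (e' x) (e' x') = ⟪x, x'⟫_ℝ) → (∀ x, ⟪Y, x⟫_ℝ = B δ (e x)) →
      (∀ x, ⟪Y', x⟫_ℝ = B δ (e' x)) → ‖Y‖ ≤ ‖Y'‖ := by
    intro k k' e e' Y Y' δ h1 h2 h3 h4 h5
    obtain ⟨x', hx'⟩ := h1 Y
    have h6 : ‖Y‖ ^ 2 = ‖x'‖ ^ 2 := by
      rw [← real_inner_self_eq_norm_sq, ← real_inner_self_eq_norm_sq, ← h2, ← h3, hx']
    have h7 : ‖Y‖ ^ 2 = ⟪Y', x'⟫_ℝ := by
      rw [← real_inner_self_eq_norm_sq, h4, h5, hx']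
    have h8 : ‖x'‖ = ‖Y‖ := by
      have := (sq_eq_sq₀ (norm_nonneg Y) (norm_nonneg x')).1 h6
      exact this.symm
    have h9 := real_inner_le_norm Y' x'
    rw [← h7, h8] at h9
    by_cases h0 : ‖Y‖ = 0
    · rw [h0]
      exact norm_nonneg _
    · have hpos : 0 < ‖Y‖ := lt_of_le_of_ne (norm_nonneg _) (Ne.symm h0)
      rw [sq] at h9
      exact le_of_mul_le_mul_right h9 hpos
  have hY : ∀ i, ∀ u ∈ U, ‖Adapted.Y F' u₀ a' i u‖ = ‖Adapted.Y F u₀ a i u‖ := by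
    intro i u hu
    apply le_antisymm
    · exact key (F'.e i) (F.e i) _ _ (a i u - a i u₀) (hr2 i) (F'.ee i) (F.ee i)
        (fun x => by rw [← hδ i u hu]; exact Adapted.inner_proj F' i _ x)
        (fun x => Adapted.inner_proj F i _ x)
    · exact key (F.e i) (F'.e i) _ _ (a i u - a i u₀) (hr1 i) (F.ee i) (F'.ee i)
        (fun x => Adapted.inner_proj F i _ x)
        (fun x => by rw [← hδ i u hu]; exact Adapted.inner_proj F' i _ x)
  funext i
  obtain ⟨X, hX⟩ := hF.eq_fderiv i (EuclideanSpace.single ⟨0, pos i⟩ 1)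
  have hX0 : fderiv ℝ (a i) u₀ X ≠ 0 := by
    rw [← hX]
    intro h
    have h2 := F.e_injective i (h.trans (map_zero _).symm)
    have h3 := congrArg norm h2
    simp at h3
  obtain ⟨u, hu, hne⟩ := T.exists_ne hX0
  have h1 := Adapted.norm_Y T hF hd i hu
  have h2 := Adapted.norm_Y T' hF' hd' i hu
  rw [hS i u hu, hY i u hu] at h2
  have h3 : Adapted.S B u₀ a i u ≠ 0 := by
    unfold Adapted.S
    intro h
    apply hne
    linarith
  have h4 : 0 < Adapted.S B u₀ a i u ^ 2 := by positivity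
  have h5 : (σ' i - σ i) * Adapted.S B u₀ a i u ^ 2 = 0 := by linarith
  have h6 := (mul_eq_zero.1 h5).resolve_right h4.ne'
  linarith

end

section Sphere

variable {d : ℕ} {m m' : Fin 3 → ℕ} {σ σ' : Fin 3 → ℝ} {f ξ : Vec d → Vec (d + 2)} {u₀ : Vec d}

theorem FrameModel.unique {y₀ : ∀ i, Vec (m i)} {y₀' : ∀ i, Vec (m' i)} (hm : ∑ i, m i = d)
    (hm' : ∑ i, m' i = d) (pos : ∀ i, 1 ≤ m i) (pos' : ∀ i, 1 ≤ m' i)
    (h : FrameModel m σ f ξ u₀ y₀) (h' : FrameModel m' σ' f ξ u₀ y₀') :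
    ∃ (π : Equiv.Perm (Fin 3)) (c : ℝ), 0 < c ∧ (m' = fun i => m (π i)) ∧
      σ' = fun i => c * σ (π i) := by
  obtain ⟨F, U, ψ, hU, hu, -, hψ, hden, hline⟩ := h
  obtain ⟨F', U', ψ', hU', hu', -, hψ', hden', hline'⟩ := h'
  have hV := hU.inter hU'
  have hmem : u₀ ∈ U ∩ U' := ⟨hu, hu'⟩
  have hψ1 := hψ.mono (U' := U ∩ U') Set.inter_subset_left
  have hψ1' := hψ'.mono (U' := U ∩ U') Set.inter_subset_right
  have hden1 : ∀ u ∈ U ∩ U', ∀ i, 0 < 1 + σ i * ‖ψ u i‖ ^ 2 / 4 := fun u hu => hden u hu.1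
  have hden1' : ∀ u ∈ U ∩ U', ∀ i, 0 < 1 + σ' i * ‖ψ' u i‖ ^ 2 / 4 := fun u hu => hden' u hu.2
  have hl : ∀ u ∈ U ∩ U', tripleLine (fun i u => F.pt i (ψ u i)) u =
      tripleLine (fun i u => F'.pt i (ψ' u i)) u := fun u hu => by
    rw [← hline u hu.1, ← hline' u hu.2]
  generalize U ∩ U' = W at *
  have T := fun u (hu : u ∈ W) => model_triple F hV hu hψ1 hden1
  have T' := fun u (hu : u ∈ W) => model_triple F' hV hu hψ1' hden1'
  have hF := model_adapted F hV hmem hψ1 hden1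
  have hF' := model_adapted F' hV hmem hψ1' hden1'
  have ind := fun u (hu : u ∈ W) => model_indep F hden1 hu
  have ind' := fun u (hu : u ∈ W) => model_indep F' hden1' hu
  have sp' := fun u (hu : u ∈ W) => model_splits F' hV hψ1' hden1' hu
  have ne' := fun u (hu : u ∈ W) => model_nonTriv F' hV hψ1' hden1' hu pos'
  generalize (fun i u => F.pt i (ψ u i)) = a at *
  generalize (fun i u => F'.pt i (ψ' u i)) = a' at *
  obtain ⟨U₁, hU₁, o1, m1, hc⟩ := exists_coeff (T u₀ hmem) hF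
  have T1 : ∀ u ∈ U₁, Triple (BS (Vec (d + 2))) U₁ u a := fun u hu => (T u (hU₁ hu)).mono hU₁ o1 hu
  have T1' : ∀ u ∈ U₁, Triple (BS (Vec (d + 2))) U₁ u a' := fun u hu =>
    (T' u (hU₁ hu)).mono hU₁ o1 hu
  obtain ⟨U₂, hU₂, o2, m2, π, g, b, hg, hab⟩ := exists_uniq T1 T1' (fun u hu => ind u (hU₁ hu))
    (fun u hu => ind' u (hU₁ hu)) (fun u hu => sp' u (hU₁ hu)) (fun u hu i => by
      obtain ⟨X, hX, hX'⟩ := ne' u (hU₁ hu) i
      exact ⟨X, fun h => hX' (by rw [h, map_zero]), hX⟩) m1 (fun i => by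
      refine hc (fun u => a' (i + 1) u - a' (i + 2) u) ?_ ?_
      · exact ((T' u₀ hmem).smooth _).sub ((T' u₀ hmem).smooth _)
      · intro u hu
        rw [hl u hu]
        have e : ∀ l, a' l u = ∑ k, (Pi.single l 1 : Fin 3 → ℝ) k • a' k u := by
          intro l
          rw [Finset.sum_eq_single l]
          · simp
          · intro k _ hk
            rw [Pi.single_eq_of_ne hk, zero_smul]
          · simp
        refine mem_tripleLine.2 ⟨Pi.single (i + 1) 1 - Pi.single (i + 2) 1, ?_, ?_⟩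
        · simp
        · rw [e (i + 1), e (i + 2), ← Finset.sum_sub_distrib]
          refine Finset.sum_congr rfl fun k _ => ?_
          rw [Pi.sub_apply, sub_smul])
  have hsub : U₂ ⊆ W := hU₂.trans hU₁
  have T2 := (T u₀ hmem).mono hsub o2 m2
  have T2' := (T' u₀ hmem).mono hsub o2 m2
  have hfr : Module.finrank ℝ (Vec (d + 2) × ℝ × ℝ) = ∑ i, m (π i) + 4 := by
    rw [finrank_LS, Equiv.sum_comp π m, hm]
  have hfr' : Module.finrank ℝ (Vec (d + 2) × ℝ × ℝ) = ∑ i, m' i + 4 := by rw [finrank_LS, hm']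
  have mono : ∀ {k : Fin 3 → ℕ} {τ : Fin 3 → ℝ} {G : Frame (BS (Vec (d + 2))) k τ}
      {a : Fin 3 → Vec d → (Vec (d + 2) × ℝ × ℝ)}, Adapted W u₀ a G → Adapted U₂ u₀ a G :=
    fun h => ⟨h.p, h.fderiv_eq, h.eq_fderiv, fun i j hij u hu => h.n i j hij u (hsub hu)⟩
  have key := adapted_unique ((T2.perm π).smul_add g hg 0) T2'
    (((mono hF).perm π).scale (T2.perm π) g hg) (mono hF') hfr hfr' b (fun u hu i => by
      rw [hab u hu i, add_zero]) (fun i => pos (π i))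
  refine ⟨π, g⁻¹ ^ 2, ?_, key.1, key.2⟩
  have := inv_ne_zero hg
  positivity

end Sphere

end Pool.Agent.R744.Lie
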