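import Pool.Agent.R744.SphereImm

set_option autoImplicit false

namespace Pool.Agent.R744.SphereImm.Ex

open scoped ContDiff InnerProductSpace
open scoped Matrix

/-- the manifold `ℝ^3 × ℝ^7` -/
abbrev E : Type := (Fin 3 ⊕ Fin 7) → ℝ

/-- the ambient space, of dimension `23` -/
abbrev F : Type := EuclideanSpace ℝ ((Fin 3 × Fin 3) ⊕ (Fin 7 × Fin 2))

/-- a vector of `F` from its matrix part and its torus part -/
noncomputable def mk (A : Matrix (Fin 3) (Fin 3) ℝ) (C : Fin 7 → Fin 2 → ℝ) : F :=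
  WithLp.toLp 2 (Sum.elim (fun q => A q.1 q.2) (fun q => C q.1 q.2))

/-- matrix part -/
def mp (v : F) : Matrix (Fin 3) (Fin 3) ℝ := fun i j => v (Sum.inl (i, j))

/-- torus part -/
def tp (v : F) : Fin 7 → Fin 2 → ℝ := fun j s => v (Sum.inr (j, s))

@[simp] theorem mk_inl (A : Matrix (Fin 3) (Fin 3) ℝ) (C : Fin 7 → Fin 2 → ℝ) (q : Fin 3 × Fin 3) :
    mk A C (Sum.inl q) = A q.1 q.2 := rfl

@[simp] theorem mk_inr (A : Matrix (Fin 3) (Fin 3) ℝ) (C : Fin 7 → Fin 2 → ℝ) (q : Fin 7 × Fin 2) :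
    mk A C (Sum.inr q) = C q.1 q.2 := rfl

@[simp] theorem mp_mk (A : Matrix (Fin 3) (Fin 3) ℝ) (C : Fin 7 → Fin 2 → ℝ) :
    mp (mk A C) = A := rfl

@[simp] theorem tp_mk (A : Matrix (Fin 3) (Fin 3) ℝ) (C : Fin 7 → Fin 2 → ℝ) :
    tp (mk A C) = C := rfl

theorem mk_mp_tp (v : F) : mk (mp v) (tp v) = v := by
  ext q
  rcases q with q | q <;> rfl

@[simp] theorem mp_add (v w : F) : mp (v + w) = mp v + mp w := rfl
@[simp] theorem tp_add (v w : F) : tp (v + w) = tp v + tp w := rfl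
@[simp] theorem mp_smul (c : ℝ) (w : F) : mp (c • w) = c • mp w := rfl
@[simp] theorem tp_smul (c : ℝ) (w : F) : tp (c • w) = c • tp w := rfl

theorem mk_add (A A' : Matrix (Fin 3) (Fin 3) ℝ) (C C' : Fin 7 → Fin 2 → ℝ) :
    mk (A + A') (C + C') = mk A C + mk A' C' := by
  ext q
  rcases q with q | q <;> rfl

theorem mk_smul (c : ℝ) (A : Matrix (Fin 3) (Fin 3) ℝ) (C : Fin 7 → Fin 2 → ℝ) :
    mk (c • A) (c • C) = c • mk A C := by
  ext q
  rcases q with q | q <;> rfl

theorem inner_eq (v w : F) : ⟪v, w⟫_ℝ = ((mp v)ᵀ * mp w).trace +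
    ∑ j, (tp v j 0 * tp w j 0 + tp v j 1 * tp w j 1) := by
  rw [PiLp.inner_apply, Fintype.sum_sum_type, Fintype.sum_prod_type, Fintype.sum_prod_type]
  congr 1
  · rw [Matrix.trace, Finset.sum_comm]
    refine Finset.sum_congr rfl fun i _ => ?_
    rw [Matrix.diag_apply, Matrix.mul_apply]
    refine Finset.sum_congr rfl fun j _ => ?_
    simp [mp, mul_comm]
  · refine Finset.sum_congr rfl fun j _ => ?_
    rw [Fin.sum_univ_two]
    simp [tp, mul_comm]

/-! ### The rotation matrix of the quaternion `1 + x` -/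

/-- denominator -/
def den (x : E) : ℝ := 1 + x (Sum.inl 0) ^ 2 + x (Sum.inl 1) ^ 2 + x (Sum.inl 2) ^ 2

theorem den_pos (x : E) : 0 < den x := by unfold den; positivity

theorem den_ne (x : E) : den x ≠ 0 := (den_pos x).ne'

/-- numerators -/
def num (x : E) : Matrix (Fin 3) (Fin 3) ℝ :=
  !![1 + x (Sum.inl 0) ^ 2 - x (Sum.inl 1) ^ 2 - x (Sum.inl 2) ^ 2,
     2 * (x (Sum.inl 0) * x (Sum.inl 1) - x (Sum.inl 2)),
     2 * (x (Sum.inl 0) * x (Sum.inl 2) + x (Sum.inl 1));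
     2 * (x (Sum.inl 0) * x (Sum.inl 1) + x (Sum.inl 2)),
     1 - x (Sum.inl 0) ^ 2 + x (Sum.inl 1) ^ 2 - x (Sum.inl 2) ^ 2,
     2 * (x (Sum.inl 1) * x (Sum.inl 2) - x (Sum.inl 0));
     2 * (x (Sum.inl 0) * x (Sum.inl 2) - x (Sum.inl 1)),
     2 * (x (Sum.inl 1) * x (Sum.inl 2) + x (Sum.inl 0)),
     1 - x (Sum.inl 0) ^ 2 - x (Sum.inl 1) ^ 2 + x (Sum.inl 2) ^ 2]

/-- the rotation matrix -/
noncomputable def gm (x : E) : Matrix (Fin 3) (Fin 3) ℝ := (den x)⁻¹ • num x

theorem gm_orth (x : E) : (gm x)ᵀ * gm x = 1 := by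
  have h : (num x)ᵀ * num x = (den x ^ 2) • (1 : Matrix (Fin 3) (Fin 3) ℝ) := by
    ext i j
    fin_cases i <;> fin_cases j <;>
      simp [num, den, Matrix.mul_apply, Fin.sum_univ_three] <;> ring
  unfold gm
  rw [Matrix.transpose_smul, Matrix.smul_mul, Matrix.mul_smul, h, smul_smul, smul_smul, mul_assoc]
  have h2 := den_ne x
  have : (den x)⁻¹ * ((den x)⁻¹ * den x ^ 2) = 1 := by field_simp
  rw [this, one_smul]

/-- infinitesimal rotations -/
def L : Fin 3 → Matrix (Fin 3) (Fin 3) ℝ :=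
  ![!![0, 0, 0; 0, 0, -1; 0, 1, 0], !![0, 0, 1; 0, 0, 0; -1, 0, 0], !![0, -1, 0; 1, 0, 0; 0, 0, 0]]

/-- the coordinate functionals -/
abbrev pr (i : Fin 3 ⊕ Fin 7) : E →L[ℝ] ℝ := ContinuousLinearMap.proj i

/-- the left invariant coframe -/
noncomputable def β : Fin 3 → E → E →L[ℝ] ℝ :=
  ![fun x => (2 * (den x)⁻¹) • (pr (Sum.inl 0) -
      (x (Sum.inl 1) • pr (Sum.inl 2) - x (Sum.inl 2) • pr (Sum.inl 1))),
    fun x => (2 * (den x)⁻¹) • (pr (Sum.inl 1) -
      (x (Sum.inl 2) • pr (Sum.inl 0) - x (Sum.inl 0) • pr (Sum.inl 2))),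
    fun x => (2 * (den x)⁻¹) • (pr (Sum.inl 2) -
      (x (Sum.inl 0) • pr (Sum.inl 1) - x (Sum.inl 1) • pr (Sum.inl 0)))]

theorem hasFDerivAt_pr (i : Fin 3 ⊕ Fin 7) (x : E) : HasFDerivAt (fun y : E => y i) (pr i) x :=
  hasFDerivAt_apply i x

/-- derivative of a quadratic polynomial divided by `den` -/
theorem hasFDerivAt_quad (c a0 a1 a2 b01 b02 b12 l0 l1 l2 : ℝ) (x : E) :
    HasFDerivAt (fun y : E => (den y)⁻¹ * (c + a0 * y (Sum.inl 0) ^ 2 + a1 * y (Sum.inl 1) ^ 2 +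
      a2 * y (Sum.inl 2) ^ 2 + b01 * (y (Sum.inl 0) * y (Sum.inl 1)) +
      b02 * (y (Sum.inl 0) * y (Sum.inl 2)) + b12 * (y (Sum.inl 1) * y (Sum.inl 2)) +
      l0 * y (Sum.inl 0) + l1 * y (Sum.inl 1) + l2 * y (Sum.inl 2)))
      ((den x)⁻¹ • ((2 * a0 * x (Sum.inl 0) + b01 * x (Sum.inl 1) + b02 * x (Sum.inl 2) + l0) •
          pr (Sum.inl 0) +
        (2 * a1 * x (Sum.inl 1) + b01 * x (Sum.inl 0) + b12 * x (Sum.inl 2) + l1) •
          pr (Sum.inl 1) +
        (2 * a2 * x (Sum.inl 2) + b02 * x (Sum.inl 0) + b12 * x (Sum.inl 1) + l2) •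
          pr (Sum.inl 2)) -
       ((den x)⁻¹ ^ 2 * (c + a0 * x (Sum.inl 0) ^ 2 + a1 * x (Sum.inl 1) ^ 2 +
      a2 * x (Sum.inl 2) ^ 2 + b01 * (x (Sum.inl 0) * x (Sum.inl 1)) +
      b02 * (x (Sum.inl 0) * x (Sum.inl 2)) + b12 * (x (Sum.inl 1) * x (Sum.inl 2)) +
      l0 * x (Sum.inl 0) + l1 * x (Sum.inl 1) + l2 * x (Sum.inl 2))) •
        (2 * x (Sum.inl 0)) • pr (Sum.inl 0) -
       ((den x)⁻¹ ^ 2 * (c + a0 * x (Sum.inl 0) ^ 2 + a1 * x (Sum.inl 1) ^ 2 +
      a2 * x (Sum.inl 2) ^ 2 + b01 * (x (Sum.inl 0) * x (Sum.inl 1)) +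
      b02 * (x (Sum.inl 0) * x (Sum.inl 2)) + b12 * (x (Sum.inl 1) * x (Sum.inl 2)) +
      l0 * x (Sum.inl 0) + l1 * x (Sum.inl 1) + l2 * x (Sum.inl 2))) •
        (2 * x (Sum.inl 1)) • pr (Sum.inl 1) -
       ((den x)⁻¹ ^ 2 * (c + a0 * x (Sum.inl 0) ^ 2 + a1 * x (Sum.inl 1) ^ 2 +
      a2 * x (Sum.inl 2) ^ 2 + b01 * (x (Sum.inl 0) * x (Sum.inl 1)) +
      b02 * (x (Sum.inl 0) * x (Sum.inl 2)) + b12 * (x (Sum.inl 1) * x (Sum.inl 2)) +
      l0 * x (Sum.inl 0) + l1 * x (Sum.inl 1) + l2 * x (Sum.inl 2))) •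
        (2 * x (Sum.inl 2)) • pr (Sum.inl 2)) x := by
  have h0 := hasFDerivAt_pr (Sum.inl 0) x
  have h1 := hasFDerivAt_pr (Sum.inl 1) x
  have h2 := hasFDerivAt_pr (Sum.inl 2) x
  have hd : HasFDerivAt (fun y : E => 1 + y (Sum.inl 0) ^ 2 + y (Sum.inl 1) ^ 2 +
      y (Sum.inl 2) ^ 2) _ x := (((h0.pow 2).const_add 1).fun_add (h1.pow 2)).fun_add (h2.pow 2)
  have hi := (hasDerivAt_inv (x := den x) (den_ne x)).comp_hasFDerivAt x hd
  have hn : HasFDerivAt (fun y : E => c + a0 * y (Sum.inl 0) ^ 2 + a1 * y (Sum.inl 1) ^ 2 +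
      a2 * y (Sum.inl 2) ^ 2 + b01 * (y (Sum.inl 0) * y (Sum.inl 1)) +
      b02 * (y (Sum.inl 0) * y (Sum.inl 2)) + b12 * (y (Sum.inl 1) * y (Sum.inl 2)) +
      l0 * y (Sum.inl 0) + l1 * y (Sum.inl 1) + l2 * y (Sum.inl 2)) _ x :=
    (((((((((h0.pow 2).const_mul a0).const_add c).fun_add ((h1.pow 2).const_mul a1)).fun_add
      ((h2.pow 2).const_mul a2)).fun_add ((h0.mul h1).const_mul b01)).fun_add
      ((h0.mul h2).const_mul b02)).fun_add ((h1.mul h2).const_mul b12)).fun_add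
      (h0.const_mul l0)).fun_add (h1.const_mul l1) |>.fun_add (h2.const_mul l2)
  refine (hi.mul hn).congr_fderiv ?_
  ext Y
  have hdn := den_ne x
  simp [den]
  ring

/-- derivative of the rotation matrix -/
noncomputable def dg (x : E) (i k : Fin 3) : E →L[ℝ] ℝ := ∑ a, (gm x * L a) i k • β a x

/-- coefficients of the numerators -/
def co : Fin 3 → Fin 3 → Fin 10 → ℝ :=
  ![![![1, 1, -1, -1, 0, 0, 0, 0, 0, 0], ![0, 0, 0, 0, 2, 0, 0, 0, 0, -2],
      ![0, 0, 0, 0, 0, 2, 0, 0, 2, 0]],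
    ![![0, 0, 0, 0, 2, 0, 0, 0, 0, 2], ![1, -1, 1, -1, 0, 0, 0, 0, 0, 0],
      ![0, 0, 0, 0, 0, 0, 2, -2, 0, 0]],
    ![![0, 0, 0, 0, 0, 2, 0, 0, -2, 0], ![0, 0, 0, 0, 0, 0, 2, 2, 0, 0],
      ![1, -1, -1, 1, 0, 0, 0, 0, 0, 0]]]

theorem gm_eq (y : E) (i k : Fin 3) : gm y i k =
    (den y)⁻¹ * (co i k 0 + co i k 1 * y (Sum.inl 0) ^ 2 + co i k 2 * y (Sum.inl 1) ^ 2 +
      co i k 3 * y (Sum.inl 2) ^ 2 + co i k 4 * (y (Sum.inl 0) * y (Sum.inl 1)) +
      co i k 5 * (y (Sum.inl 0) * y (Sum.inl 2)) + co i k 6 * (y (Sum.inl 1) * y (Sum.inl 2)) +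
      co i k 7 * y (Sum.inl 0) + co i k 8 * y (Sum.inl 1) + co i k 9 * y (Sum.inl 2)) := by
  have h : gm y i k = (den y)⁻¹ * num y i k := rfl
  rw [h]
  congr 1
  fin_cases i <;> fin_cases k <;> simp [num, co] <;> ring

theorem hasFDerivAt_gm (x : E) (i k : Fin 3) : HasFDerivAt (fun y => gm y i k) (dg x i k) x := by
  have e : (fun y => gm y i k) = fun y => (den y)⁻¹ * (co i k 0 + co i k 1 * y (Sum.inl 0) ^ 2 +
      co i k 2 * y (Sum.inl 1) ^ 2 +
      co i k 3 * y (Sum.inl 2) ^ 2 + co i k 4 * (y (Sum.inl 0) * y (Sum.inl 1)) +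
      co i k 5 * (y (Sum.inl 0) * y (Sum.inl 2)) + co i k 6 * (y (Sum.inl 1) * y (Sum.inl 2)) +
      co i k 7 * y (Sum.inl 0) + co i k 8 * y (Sum.inl 1) + co i k 9 * y (Sum.inl 2)) :=
    funext fun y => gm_eq y i k
  rw [e]
  refine (hasFDerivAt_quad _ _ _ _ _ _ _ _ _ _ x).congr_fderiv ?_
  ext Y
  have hdn := den_ne x
  unfold dg
  fin_cases i <;> fin_cases k <;>
    simp [gm, num, co, β, L, Matrix.mul_apply, Fin.sum_univ_three] <;> field_simp <;>
    simp only [den] <;> ring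

/-- The linear isometry `ρ x`. -/
noncomputable def ρ (x : E) : F →ₗ[ℝ] F where
  toFun v := mk (gm x * mp v * (gm x)ᵀ) (fun j =>
    ![Real.cos (x (Sum.inr j)) * tp v j 0 - Real.sin (x (Sum.inr j)) * tp v j 1,
      Real.sin (x (Sum.inr j)) * tp v j 0 + Real.cos (x (Sum.inr j)) * tp v j 1])
  map_add' v w := by
    rw [← mk_add]
    congr 1
    · rw [mp_add, Matrix.mul_add, Matrix.add_mul]
    · funext j s
      rw [tp_add]
      fin_cases s <;> simp <;> ring
  map_smul' c v := by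
    rw [RingHom.id_apply, ← mk_smul]
    congr 1
    · rw [mp_smul, Matrix.mul_smul, Matrix.smul_mul]
    · funext j s
      rw [tp_smul]
      fin_cases s <;> simp <;> ring

theorem ρ_apply (x : E) (v : F) : ρ x v = mk (gm x * mp v * (gm x)ᵀ) (fun j =>
    ![Real.cos (x (Sum.inr j)) * tp v j 0 - Real.sin (x (Sum.inr j)) * tp v j 1,
      Real.sin (x (Sum.inr j)) * tp v j 0 + Real.cos (x (Sum.inr j)) * tp v j 1]) := rfl

theorem inner_ρ (x : E) (v w : F) : ⟪ρ x v, ρ x w⟫_ℝ = ⟪v, w⟫_ℝ := by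
  rw [inner_eq, inner_eq, ρ_apply, ρ_apply, mp_mk, mp_mk, tp_mk, tp_mk]
  congr 1
  · have h1 : (gm x * mp v * (gm x)ᵀ)ᵀ * (gm x * mp w * (gm x)ᵀ) =
        gm x * ((mp v)ᵀ * ((gm x)ᵀ * gm x) * mp w) * (gm x)ᵀ := by
      simp only [Matrix.transpose_mul, Matrix.transpose_transpose, Matrix.mul_assoc]
    rw [h1, gm_orth, Matrix.mul_one, Matrix.trace_mul_comm, ← Matrix.mul_assoc, gm_orth,
      Matrix.one_mul]
  · refine Finset.sum_congr rfl fun j _ => ?_
    have h := Real.sin_sq_add_cos_sq (x (Sum.inr j))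
    simp only [Matrix.cons_val_zero, Matrix.cons_val_one]
    linear_combination (tp v j 0 * tp w j 0 + tp v j 1 * tp w j 1) * h

/-- `√2` -/
noncomputable def c : ℝ := √2
/-- `√5` -/
noncomputable def w : ℝ := √5
/-- `√15` -/
noncomputable def r : ℝ := √15

theorem c_sq : c ^ 2 = 2 := Real.sq_sqrt (by norm_num)
theorem w_sq : w ^ 2 = 5 := Real.sq_sqrt (by norm_num)
theorem r_sq : r ^ 2 = 15 := Real.sq_sqrt (by norm_num)
theorem r_pos : 0 < r := Real.sqrt_pos.2 (by norm_num)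
theorem w_lt : w < 5 / 2 := by
  rw [w, Real.sqrt_lt' (by norm_num)]; norm_num
theorem w_gt : 2 < w := by
  rw [w, Real.lt_sqrt (by norm_num)]; norm_num

/-- normalisation of the infinitesimal rotations -/
noncomputable def s : Fin 3 → ℝ := ![w / 2, (5 + w) / 4, -(5 - w) / 4]

theorem s_ne (i : Fin 3) : s i ≠ 0 := by
  have h1 := w_gt
  have h2 := w_lt
  fin_cases i
  · change w / 2 ≠ 0
    positivity
  · change (5 + w) / 4 ≠ 0
    positivity
  · change -(5 - w) / 4 ≠ 0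
    intro h
    linarith

/-- the operators `T a` -/
noncomputable def T : Fin 3 ⊕ Fin 7 → F →ₗ[ℝ] F
  | Sum.inl i =>
    { toFun := fun v => mk (s i • (L i * mp v + mp v * (L i)ᵀ)) 0
      map_add' := fun v v' => by
        rw [← mk_add, mp_add, add_zero, ← smul_add]
        congr 2
        rw [Matrix.mul_add, Matrix.add_mul]
        abel
      map_smul' := fun a v => by
        rw [RingHom.id_apply, ← mk_smul, mp_smul, smul_zero, smul_comm]
        congr 2
        rw [Matrix.mul_smul, Matrix.smul_mul, smul_add] }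
  | Sum.inr j =>
    { toFun := fun v => mk 0 (fun k => if k = j then ![-(r * tp v k 1), r * tp v k 0] else 0)
      map_add' := fun v v' => by
        rw [← mk_add, add_zero]
        congr 1
        funext k q
        rw [tp_add]
        by_cases h : k = j
        · fin_cases q <;> simp [h] <;> ring
        · simp [h]
      map_smul' := fun a v => by
        rw [RingHom.id_apply, ← mk_smul, smul_zero]
        congr 1
        funext k q
        rw [tp_smul]
        by_cases h : k = j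
        · fin_cases q <;> simp [h] <;> ring
        · simp [h] }

theorem T_inl (i : Fin 3) (v : F) : T (Sum.inl i) v = mk (s i • (L i * mp v + mp v * (L i)ᵀ)) 0 :=
  rfl

theorem T_inr (j : Fin 7) (v : F) : T (Sum.inr j) v =
    mk 0 (fun k => if k = j then ![-(r * tp v k 1), r * tp v k 0] else 0) := rfl

/-- the coframe -/
noncomputable def α : Fin 3 ⊕ Fin 7 → E → E →L[ℝ] ℝ
  | Sum.inl i => fun x => (s i)⁻¹ • β i x
  | Sum.inr j => fun _ => r⁻¹ • pr (Sum.inr j)

/-- cross product matrix `1 + [x] + x x^T` -/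
def fm (x : E) : Fin 3 → Fin 3 → ℝ :=
  ![![1 + x (Sum.inl 0) ^ 2, x (Sum.inl 2) + x (Sum.inl 0) * x (Sum.inl 1),
      -x (Sum.inl 1) + x (Sum.inl 0) * x (Sum.inl 2)],
    ![-x (Sum.inl 2) + x (Sum.inl 0) * x (Sum.inl 1), 1 + x (Sum.inl 1) ^ 2,
      x (Sum.inl 0) + x (Sum.inl 1) * x (Sum.inl 2)],
    ![x (Sum.inl 1) + x (Sum.inl 0) * x (Sum.inl 2),
      -x (Sum.inl 0) + x (Sum.inl 1) * x (Sum.inl 2), 1 + x (Sum.inl 2) ^ 2]]

/-- the frame -/
noncomputable def fr : Fin 3 ⊕ Fin 7 → E → E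
  | Sum.inl i => fun x => Sum.elim (fun k => s i * (fm x i k / 2)) 0
  | Sum.inr j => fun _ => Sum.elim 0 (fun k => if k = j then r else 0)

theorem β0 (x Y : E) : β 0 x Y = 2 * (den x)⁻¹ * (Y (Sum.inl 0) -
    (x (Sum.inl 1) * Y (Sum.inl 2) - x (Sum.inl 2) * Y (Sum.inl 1))) := rfl

theorem β1 (x Y : E) : β 1 x Y = 2 * (den x)⁻¹ * (Y (Sum.inl 1) -
    (x (Sum.inl 2) * Y (Sum.inl 0) - x (Sum.inl 0) * Y (Sum.inl 2))) := rfl

theorem β2 (x Y : E) : β 2 x Y = 2 * (den x)⁻¹ * (Y (Sum.inl 2) -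
    (x (Sum.inl 0) * Y (Sum.inl 1) - x (Sum.inl 1) * Y (Sum.inl 0))) := rfl

theorem β_fr (x : E) (i j : Fin 3) (u : ℝ) :
    β i x (Sum.elim (fun k => u * (fm x j k / 2)) 0) = u * if i = j then 1 else 0 := by
  have hd : (den x)⁻¹ * den x = 1 := inv_mul_cancel₀ (den_ne x)
  fin_cases i
  · change β 0 x _ = _
    rw [β0]
    generalize (den x)⁻¹ = d at hd ⊢
    rw [den] at hd
    fin_cases j
    · simp [fm]
      linear_combination u * hd
    · simp only [Sum.elim_inl, fm]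
      simp
      ring_nf
      simp
    · simp only [Sum.elim_inl, fm]
      simp
      ring_nf
      simp
  · change β 1 x _ = _
    rw [β1]
    generalize (den x)⁻¹ = d at hd ⊢
    rw [den] at hd
    fin_cases j
    · simp only [Sum.elim_inl, fm]
      simp
      ring_nf
      simp
    · simp [fm]
      linear_combination u * hd
    · simp only [Sum.elim_inl, fm]
      simp
      ring_nf
      simp
  · change β 2 x _ = _
    rw [β2]
    generalize (den x)⁻¹ = d at hd ⊢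
    rw [den] at hd
    fin_cases j
    · simp only [Sum.elim_inl, fm]
      simp
      ring_nf
      simp
    · simp only [Sum.elim_inl, fm]
      simp
      ring_nf
      simp
    · simp [fm]
      linear_combination u * hd

theorem dual (x : E) (a b : Fin 3 ⊕ Fin 7) : α a x (fr b x) = if a = b then 1 else 0 := by
  rcases a with i | i <;> rcases b with j | j
  · have hs := s_ne i
    change (s i)⁻¹ * β i x (Sum.elim (fun k => s j * (fm x j k / 2)) 0) = _
    rw [β_fr]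
    by_cases h : i = j
    · subst h
      simp [hs]
    · simp [h]
  · fin_cases i <;> simp [α, fr, β]
  · simp [α, fr]
  · have hr : r ≠ 0 := r_pos.ne'
    by_cases h : i = j
    · simp [α, fr, h, hr]
    · simp [α, fr, h]

theorem span (x Y : E) : ∑ a, α a x Y • fr a x = Y := by
  have hd : (den x)⁻¹ * den x = 1 := inv_mul_cancel₀ (den_ne x)
  have hr : r ≠ 0 := r_pos.ne'
  rw [Fintype.sum_sum_type]
  funext q
  rcases q with q | q
  · have h1 : (∑ j, α (Sum.inr j) x Y • fr (Sum.inr j) x) (Sum.inl q) = 0 := by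
      rw [Finset.sum_apply]
      simp [fr]
    rw [Pi.add_apply, h1, add_zero, Finset.sum_apply]
    have h2 : ∀ i, (α (Sum.inl i) x Y • fr (Sum.inl i) x) (Sum.inl q) =
        β i x Y * (fm x i q / 2) := by
      intro i
      have hs := s_ne i
      change (s i)⁻¹ * β i x Y * (s i * (fm x i q / 2)) = _
      field_simp
    simp only [h2, Fin.sum_univ_three, β0, β1, β2]
    generalize (den x)⁻¹ = d at hd ⊢
    rw [den] at hd
    fin_cases q
    · simp [fm]
      linear_combination Y (Sum.inl 0) * hd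
    · simp [fm]
      linear_combination Y (Sum.inl 1) * hd
    · simp [fm]
      linear_combination Y (Sum.inl 2) * hd
  · rw [Pi.add_apply, Finset.sum_apply, Finset.sum_apply]
    simp [fr, α]
    field_simp

theorem hasFDerivAt_ρ (x : E) (v : F) : HasFDerivAt (fun y => ρ y v)
    (∑ a, (α a x).smulRight (ρ x (T a v))) x := by
  rw [← hasFDerivWithinAt_univ, hasFDerivWithinAt_euclidean]
  intro q
  rw [hasFDerivWithinAt_univ]
  rcases q with ⟨i, j⟩ | ⟨j, q⟩
  · have e : (fun y => ρ y v (Sum.inl (i, j))) = fun y =>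
        ∑ l, (∑ k, gm y i k * mp v k l) * gm y j l := by
      funext y
      rw [ρ_apply, mk_inl, Matrix.mul_apply]
      refine Finset.sum_congr rfl fun l _ => ?_
      rw [Matrix.mul_apply, Matrix.transpose_apply]
    rw [e]
    have h : HasFDerivAt (fun y => ∑ l, (∑ k, gm y i k * mp v k l) * gm y j l)
        (∑ l, ((∑ k, gm x i k * mp v k l) • dg x j l +
          gm x j l • (∑ k, mp v k l • dg x i k))) x :=
      HasFDerivAt.fun_sum fun l _ => (HasFDerivAt.fun_sum fun k _ =>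
        ((hasFDerivAt_gm x i k).mul_const (mp v k l))).mul (hasFDerivAt_gm x j l)
    refine h.congr_fderiv ?_
    ext Y
    have h1 : ∀ k : Fin 3, (α (Sum.inl k) x Y) * s k = β k x Y := by
      intro k
      have hs := s_ne k
      change (s k)⁻¹ * β k x Y * s k = _
      field_simp
    have h2 : ∀ k : Fin 3, ((α (Sum.inl k) x Y) • ρ x (T (Sum.inl k) v)) (Sum.inl (i, j)) =
        β k x Y * (gm x * (L k * mp v + mp v * (L k)ᵀ) * (gm x)ᵀ) i j := by
      intro k
      rw [← h1, ρ_apply, T_inl]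
      simp only [PiLp.smul_apply, mk_inl, mp_mk, smul_eq_mul, Matrix.mul_smul, Matrix.smul_mul,
        Matrix.smul_apply]
      ring
    have h3 : ∀ k : Fin 7, ((α (Sum.inr k) x Y) • ρ x (T (Sum.inr k) v)) (Sum.inl (i, j)) = 0 := by
      intro k
      rw [ρ_apply, T_inr]
      simp
    rw [ContinuousLinearMap.comp_apply]
    simp only [sum_apply, ContinuousLinearMap.smulRight_apply]
    rw [PiLp.proj_apply, WithLp.ofLp_sum, Finset.sum_apply, Fintype.sum_sum_type]
    simp only [h2, h3]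
    simp only [Finset.sum_const_zero, add_zero, add_apply, smul_apply, dg, smul_eq_mul,
      Fin.sum_univ_three, Matrix.mul_apply, Matrix.transpose_apply, Matrix.add_apply]
    simp only [L]
    simp
    ring
  · have hcos := (Real.hasDerivAt_cos (x (Sum.inr j))).comp_hasFDerivAt x (hasFDerivAt_pr (Sum.inr j) x)
    have hsin := (Real.hasDerivAt_sin (x (Sum.inr j))).comp_hasFDerivAt x (hasFDerivAt_pr (Sum.inr j) x)
    have hr : r ≠ 0 := r_pos.ne'
    have h2 : ∀ (Y : E) (k : Fin 3), ((α (Sum.inl k) x Y) • ρ x (T (Sum.inl k) v)) (Sum.inr (j, q)) = 0 := by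
      intro Y k
      rw [ρ_apply, T_inl]
      fin_cases q <;> simp
    have h3 : ∀ (Y : E) (k : Fin 7), ((α (Sum.inr k) x Y) • ρ x (T (Sum.inr k) v)) (Sum.inr (j, q)) =
        if j = k then Y (Sum.inr j) * ![-(Real.sin (x (Sum.inr j)) * tp v j 0) -
          Real.cos (x (Sum.inr j)) * tp v j 1, Real.cos (x (Sum.inr j)) * tp v j 0 -
          Real.sin (x (Sum.inr j)) * tp v j 1] q else 0 := by
      intro Y k
      rw [ρ_apply, T_inr]
      by_cases h : j = k
      · subst h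
        fin_cases q <;> simp [α] <;> field_simp <;> ring
      · fin_cases q <;> simp [h]
    fin_cases q
    · refine HasFDerivAt.congr_fderiv ((hcos.mul_const (tp v j 0)).sub (hsin.mul_const (tp v j 1))) ?_
      ext Y
      rw [ContinuousLinearMap.comp_apply]
      simp only [sum_apply, ContinuousLinearMap.smulRight_apply]
      rw [PiLp.proj_apply, WithLp.ofLp_sum, Finset.sum_apply, Fintype.sum_sum_type]
      simp only [h2, h3]
      simp
      ring
    · refine HasFDerivAt.congr_fderiv ((hsin.mul_const (tp v j 0)).add (hcos.mul_const (tp v j 1))) ?_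
      ext Y
      rw [ContinuousLinearMap.comp_apply]
      simp only [sum_apply, ContinuousLinearMap.smulRight_apply]
      rw [PiLp.proj_apply, WithLp.ofLp_sum, Finset.sum_apply, Fintype.sum_sum_type]
      simp only [h2, h3]
      simp
      ring

/-- the base point -/
noncomputable def p : F := mk (Matrix.diagonal ![-c / 3, c * (5 + 3 * w) / 30, c * (5 - 3 * w) / 30])
  (fun _ => ![r / 15, 0])

/-- the unit symmetric matrices -/
noncomputable def S : Fin 3 → Matrix (Fin 3) (Fin 3) ℝ :=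
  ![!![0, 0, 0; 0, 0, c / 2; 0, c / 2, 0], !![0, 0, c / 2; 0, 0, 0; c / 2, 0, 0],
    !![0, c / 2, 0; c / 2, 0, 0; 0, 0, 0]]

/-- action of the infinitesimal rotations on diagonal matrices -/
def K (d : Fin 3 → ℝ) : Fin 3 → Matrix (Fin 3) (Fin 3) ℝ :=
  ![!![0, 0, 0; 0, 0, d 1 - d 2; 0, d 1 - d 2, 0], !![0, 0, d 2 - d 0; 0, 0, 0; d 2 - d 0, 0, 0],
    !![0, d 0 - d 1, 0; d 0 - d 1, 0, 0; 0, 0, 0]]

theorem L_diag (d : Fin 3 → ℝ) (i : Fin 3) :
    L i * Matrix.diagonal d + Matrix.diagonal d * (L i)ᵀ = K d i := by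
  ext a b
  rw [Matrix.add_apply, Matrix.mul_diagonal, Matrix.diagonal_mul, Matrix.transpose_apply]
  fin_cases i <;> fin_cases a <;> fin_cases b <;> simp [L, K] <;> ring

/-- action of the infinitesimal rotations on the symmetric matrices with zero diagonal -/
theorem L_S (i : Fin 3) : L i * S i + S i * (L i)ᵀ =
    Matrix.diagonal (![![0, -c, c], ![c, 0, -c], ![-c, c, 0]] i) := by
  ext a b
  rw [Matrix.add_apply, Matrix.mul_apply, Matrix.mul_apply]
  simp only [Matrix.transpose_apply, Fin.sum_univ_three]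
  fin_cases i <;> fin_cases a <;> fin_cases b <;> simp [L, S] <;> ring

theorem T_inl_p (i : Fin 3) : T (Sum.inl i) p = mk (S i) 0 := by
  have hw := w_sq
  rw [T_inl, p, mp_mk, L_diag]
  congr 1
  ext a b
  rw [Matrix.smul_apply, smul_eq_mul]
  fin_cases i
  · fin_cases a <;> fin_cases b <;> simp [s, S, K] <;> linear_combination (c / 10) * hw
  · fin_cases a <;> fin_cases b <;> simp [s, S, K] <;> linear_combination (-c / 40) * hw
  · fin_cases a <;> fin_cases b <;> simp [s, S, K] <;> linear_combination (-c / 40) * hw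

theorem T_inr_p (j : Fin 7) : T (Sum.inr j) p = mk 0 (fun k => if k = j then ![0, 1] else 0) := by
  rw [T_inr, p, tp_mk]
  congr 1
  have hr := r_sq
  funext k q
  by_cases h : k = j
  · fin_cases q
    · simp [h]
    · simp [h]
      linear_combination hr / 15
  · simp [h]

theorem inner_p : ⟪p, p⟫_ℝ = 1 := by
  have hr := r_sq
  have hw := w_sq
  have hc := c_sq
  rw [inner_eq, p, mp_mk, tp_mk]
  simp [Matrix.trace, Fin.sum_univ_three]
  ring_nf
  rw [hr, hc, hw]
  norm_num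

theorem orth_p (a : Fin 3 ⊕ Fin 7) : ⟪p, T a p⟫_ℝ = 0 := by
  rcases a with i | j
  · rw [T_inl_p, inner_eq, p, mp_mk, tp_mk, mp_mk, tp_mk]
    fin_cases i <;> simp [Matrix.trace, Fin.sum_univ_three, S]
  · rw [T_inr_p, inner_eq, p, mp_mk, tp_mk, mp_mk, tp_mk]
    rw [Finset.sum_eq_single j]
    · simp
    · intro b _ hb
      simp [hb]
    · simp

theorem orthonormal (a b : Fin 3 ⊕ Fin 7) : ⟪T a p, T b p⟫_ℝ = if a = b then 1 else 0 := by
  have hc := c_sq
  rcases a with i | i <;> rcases b with j | j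
  · rw [T_inl_p, T_inl_p, inner_eq, mp_mk, tp_mk, mp_mk, tp_mk]
    fin_cases i <;> fin_cases j <;> simp [Matrix.trace, Fin.sum_univ_three, S, Matrix.mul_apply] <;>
      linear_combination hc / 2
  · rw [T_inl_p, T_inr_p, inner_eq, mp_mk, tp_mk, mp_mk, tp_mk]
    simp
  · rw [T_inl_p, T_inr_p, inner_eq, mp_mk, tp_mk, mp_mk, tp_mk]
    simp
  · rw [T_inr_p, T_inr_p, inner_eq, mp_mk, tp_mk, mp_mk, tp_mk]
    by_cases h : i = j
    · subst h
      rw [Finset.sum_eq_single i]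
      · simp
      · intro b _ hb
        simp [hb]
      · simp
    · rw [Finset.sum_eq_zero]
      · simp [h]
      · intro k _
        by_cases hk : k = i
        · subst hk
          simp [h]
        · simp [hk]

theorem contDiff_gm (i k : Fin 3) : ContDiff ℝ ∞ (fun y => gm y i k) := by
  have e : (fun y => gm y i k) = fun y => (den y)⁻¹ * (co i k 0 + co i k 1 * y (Sum.inl 0) ^ 2 +
      co i k 2 * y (Sum.inl 1) ^ 2 +
      co i k 3 * y (Sum.inl 2) ^ 2 + co i k 4 * (y (Sum.inl 0) * y (Sum.inl 1)) +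
      co i k 5 * (y (Sum.inl 0) * y (Sum.inl 2)) + co i k 6 * (y (Sum.inl 1) * y (Sum.inl 2)) +
      co i k 7 * y (Sum.inl 0) + co i k 8 * y (Sum.inl 1) + co i k 9 * y (Sum.inl 2)) :=
    funext fun y => gm_eq y i k
  rw [e]
  refine ContDiff.mul (ContDiff.inv ?_ den_ne) (by fun_prop)
  unfold den
  fun_prop

theorem smooth : ContDiff ℝ ∞ (fun y => ρ y p) := by
  rw [contDiff_euclidean]
  intro q
  rcases q with ⟨i, j⟩ | ⟨j, q⟩
  · have e : (fun y => ρ y p (Sum.inl (i, j))) = fun y =>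
        ∑ l, (∑ k, gm y i k * mp p k l) * gm y j l := by
      funext y
      rw [ρ_apply, mk_inl, Matrix.mul_apply]
      refine Finset.sum_congr rfl fun l _ => ?_
      rw [Matrix.mul_apply, Matrix.transpose_apply]
    rw [e]
    exact ContDiff.sum fun l _ => (ContDiff.sum fun k _ =>
      (contDiff_gm i k).mul contDiff_const).mul (contDiff_gm j l)
  · fin_cases q
    · change ContDiff ℝ ∞ (fun y : E => Real.cos (y (Sum.inr j)) * tp p j 0 -
        Real.sin (y (Sum.inr j)) * tp p j 1)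
      fun_prop
    · change ContDiff ℝ ∞ (fun y : E => Real.sin (y (Sum.inr j)) * tp p j 0 +
        Real.cos (y (Sum.inr j)) * tp p j 1)
      fun_prop

theorem differentiable_den_inv : Differentiable ℝ (fun y => (den y)⁻¹) := by
  refine Differentiable.inv ?_ den_ne
  unfold den
  fun_prop

theorem differentiable_α (a : Fin 3 ⊕ Fin 7) (Y : E) : Differentiable ℝ (fun y => α a y Y) := by
  have hd := differentiable_den_inv
  rcases a with i | j
  · change Differentiable ℝ (fun y => (s i)⁻¹ * β i y Y)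
    refine Differentiable.const_mul ?_ _
    fin_cases i
    · change Differentiable ℝ (fun x : E => 2 * (den x)⁻¹ * (Y (Sum.inl 0) -
        (x (Sum.inl 1) * Y (Sum.inl 2) - x (Sum.inl 2) * Y (Sum.inl 1))))
      fun_prop
    · change Differentiable ℝ (fun x : E => 2 * (den x)⁻¹ * (Y (Sum.inl 1) -
        (x (Sum.inl 2) * Y (Sum.inl 0) - x (Sum.inl 0) * Y (Sum.inl 2))))
      fun_prop
    · change Differentiable ℝ (fun x : E => 2 * (den x)⁻¹ * (Y (Sum.inl 2) -
        (x (Sum.inl 0) * Y (Sum.inl 1) - x (Sum.inl 1) * Y (Sum.inl 0))))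
      fun_prop
  · exact differentiable_const _

/-- the homogeneous immersion -/
noncomputable def D : HomData (Fin 3 ⊕ Fin 7) E F where
  ρ := ρ
  T := T
  α := α
  fr := fr
  p := p
  inner_ρ := inner_ρ
  hasFDerivAt_ρ := hasFDerivAt_ρ
  differentiable_α := differentiable_α
  dual := dual
  span := span
  inner_p := inner_p
  orth_p := orth_p
  orthonormal := orthonormal
  smooth := smooth

theorem f_inl (i : Fin 3) : D.f (Sum.inl i) = mk (S i) 0 := T_inl_p i

theorem f_inr (j : Fin 7) : D.f (Sum.inr j) = mk 0 (fun k => if k = j then ![0, 1] else 0) :=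
  T_inr_p j

/-- the diagonals of `T a (f a)` -/
noncomputable def g : Fin 3 → Fin 3 → ℝ := ![![0, -c, c], ![c, 0, -c], ![-c, c, 0]]

theorem Tf_inl (i : Fin 3) : D.T (Sum.inl i) (D.f (Sum.inl i)) =
    mk (s i • Matrix.diagonal (g i)) 0 := by
  rw [f_inl]
  change T (Sum.inl i) _ = _
  rw [T_inl, mp_mk, L_S]
  rfl

theorem Tf_inr (j : Fin 7) : D.T (Sum.inr j) (D.f (Sum.inr j)) =
    mk 0 (fun k => if k = j then ![-r, 0] else 0) := by
  rw [f_inr]
  change T (Sum.inr j) _ = _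
  rw [T_inr, tp_mk]
  congr 1
  funext k q
  by_cases h : k = j
  · fin_cases q <;> simp [h]
  · simp [h]

theorem inner_f_Tf (b a : Fin 3 ⊕ Fin 7) : ⟪D.f b, D.T a (D.f a)⟫_ℝ = 0 := by
  rcases a with i | i <;> rcases b with j | j
  · rw [Tf_inl, f_inl, inner_eq, mp_mk, tp_mk, mp_mk, tp_mk]
    fin_cases j <;> simp [Matrix.trace, Fin.sum_univ_three, S]
  · rw [Tf_inl, f_inr, inner_eq, mp_mk, tp_mk, mp_mk, tp_mk]
    simp
  · rw [Tf_inr, f_inl, inner_eq, mp_mk, tp_mk, mp_mk, tp_mk]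
    simp
  · rw [Tf_inr, f_inr, inner_eq, mp_mk, tp_mk, mp_mk, tp_mk]
    rw [Finset.sum_eq_zero]
    · simp
    · intro k _
      simp only [ite_apply]
      simp

theorem inner_p_Tf (a : Fin 3 ⊕ Fin 7) : ⟪D.p, D.T a (D.f a)⟫_ℝ = -1 := by
  have hw := w_sq
  have hc := c_sq
  have hr := r_sq
  change ⟪p, _⟫_ℝ = _
  rcases a with i | i
  · rw [Tf_inl, inner_eq, p, mp_mk, tp_mk, mp_mk, tp_mk]
    fin_cases i
    · simp [Matrix.trace, Fin.sum_univ_three, g, s]
      linear_combination (-w ^ 2 / 10) * hc - (1 / 5) * hw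
    · simp [Matrix.trace, Fin.sum_univ_three, g, s]
      linear_combination (-(75 - 3 * w ^ 2) / 120) * hc + (1 / 20) * hw
    · simp [Matrix.trace, Fin.sum_univ_three, g, s]
      linear_combination (-(75 - 3 * w ^ 2) / 120) * hc + (1 / 20) * hw
  · rw [Tf_inr, inner_eq, p, mp_mk, tp_mk, mp_mk, tp_mk]
    rw [Finset.sum_eq_single i]
    · simp
      linear_combination (1 / 15) * hr
    · intro b _ hb
      simp [hb]
    · simp

theorem P_Tf (a : Fin 3 ⊕ Fin 7) : D.P (D.T a (D.f a)) = 0 := by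
  unfold HomData.P
  simp [inner_f_Tf]

theorem Q_Tf (a : Fin 3 ⊕ Fin 7) : D.Q (D.T a (D.f a)) = D.T a (D.f a) + p := by
  unfold HomData.Q
  rw [inner_p_Tf]
  change _ - (-1 : ℝ) • p = _
  rw [neg_smul, one_smul, sub_neg_eq_add]

/-- the diagonal part of the mean curvature vector -/
noncomputable def hd : Fin 3 → ℝ := ![-c / 12, c * (5 + 9 * w) / 120, c * (5 - 9 * w) / 120]

/-- a weighted sum of the vectors `T a (f a)` -/
theorem sum_Tf (u : Fin 3 → ℝ) (v : ℝ) : ∑ a, (Sum.elim u (fun _ => v) a) • D.T a (D.f a) =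
    mk (Matrix.diagonal ![c * (u 1 * s 1 - u 2 * s 2), c * (u 2 * s 2 - u 0 * s 0),
      c * (u 0 * s 0 - u 1 * s 1)]) (fun _ => ![-r * v, 0]) := by
  rw [Fintype.sum_sum_type, Fin.sum_univ_three]
  simp only [Sum.elim_inl, Sum.elim_inr, Tf_inl, Tf_inr]
  ext q
  rcases q with ⟨i, j⟩ | ⟨j, q⟩
  · have h : (∑ x : Fin 7, v • mk 0 (fun k => if k = x then ![-r, 0] else 0)) (Sum.inl (i, j)) = 0 := by
      rw [WithLp.ofLp_sum, Finset.sum_apply]
      simp
    rw [PiLp.add_apply, h, add_zero, PiLp.add_apply, PiLp.add_apply]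
    simp only [PiLp.smul_apply, mk_inl, Matrix.smul_apply]
    fin_cases i <;> fin_cases j <;> simp [g] <;> ring
  · rw [PiLp.add_apply, WithLp.ofLp_sum, Finset.sum_apply, PiLp.add_apply, PiLp.add_apply]
    simp only [PiLp.smul_apply, mk_inr, ite_apply]
    fin_cases q
    · simp
      ring
    · simp

/-- the mean curvature vector at the base point -/
noncomputable def hh : F := mk (Matrix.diagonal hd) (fun _ => ![-r / 30, 0])

theorem t_eq : D.t = (10 : ℝ) • hh := by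
  unfold HomData.t
  simp only [P_Tf, Q_Tf, sub_zero, Finset.sum_add_distrib]
  have h1 := sum_Tf (fun _ => 1) 1
  have h2 : ∑ a, (Sum.elim (fun _ => 1) (fun _ => 1) a : ℝ) • D.T a (D.f a) =
      ∑ a, D.T a (D.f a) := by
    refine Finset.sum_congr rfl fun a _ => ?_
    rcases a with a | a <;> simp
  rw [← h2, h1]
  have h3 : ∑ _a : Fin 3 ⊕ Fin 7, p = (10 : ℝ) • p := by
    rw [Finset.sum_const, ← Nat.cast_smul_eq_nsmul ℝ]
    simp
  rw [h3, p, hh, ← mk_smul, ← mk_smul, ← mk_add]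
  congr 1
  · ext i j
    fin_cases i <;> fin_cases j <;> simp [hd, s] <;> ring
  · funext j q
    fin_cases q
    · simp
      ring
    · simp

theorem finrank_E : Module.finrank ℝ E = 10 := by
  rw [Module.finrank_fintype_fun_eq_card]
  simp

theorem h_eq : D.h = hh := by
  unfold HomData.h
  rw [t_eq, finrank_E, smul_smul]
  norm_num

/-- the eigenvalues of the shape operator in the direction `H` -/
noncomputable def κ : Fin 3 ⊕ Fin 7 → ℝ :=
  Sum.elim ![-3 / 4, (w - 1) / 8, -(1 + w) / 8] (fun _ => 1 / 2)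

theorem T_hh (a : Fin 3 ⊕ Fin 7) : D.T a hh = -(κ a) • D.f a := by
  have hw := w_sq
  have hc := c_sq
  have hr := r_sq
  rcases a with i | j
  · change T (Sum.inl i) hh = _
    rw [T_inl, hh, mp_mk, L_diag, f_inl, ← mk_smul, smul_zero]
    congr 1
    ext a b
    rw [Matrix.smul_apply, smul_eq_mul, Matrix.smul_apply, smul_eq_mul]
    fin_cases i
    · fin_cases a <;> fin_cases b <;> simp [s, S, K, hd, κ] <;>
        linear_combination (3 * c / 40) * hw
    · fin_cases a <;> fin_cases b <;> simp [s, S, K, hd, κ] <;>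
        linear_combination (-3 * c / 160) * hw
    · fin_cases a <;> fin_cases b <;> simp [s, S, K, hd, κ] <;>
        linear_combination (-3 * c / 160) * hw
  · change T (Sum.inr j) hh = _
    rw [T_inr, hh, tp_mk, f_inr, ← mk_smul, smul_zero]
    congr 1
    funext k q
    by_cases h : k = j
    · fin_cases q
      · simp [h]
      · simp [h, κ]
        linear_combination (-1 / 30) * hr
    · simp [h]

theorem hκ (a : Fin 3 ⊕ Fin 7) : D.Q (D.T a D.h) = -(κ a) • D.f a := by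
  rw [h_eq, T_hh, D.Q_smul, D.Q_f]

theorem inner_hh_f (a : Fin 3 ⊕ Fin 7) : ⟪hh, D.f a⟫_ℝ = 0 := by
  rcases a with i | j
  · rw [f_inl, hh, inner_eq, mp_mk, tp_mk, mp_mk, tp_mk]
    fin_cases i <;> simp [Matrix.trace, Fin.sum_univ_three, S]
  · rw [f_inr, hh, inner_eq, mp_mk, tp_mk, mp_mk, tp_mk]
    simp only [ite_apply]
    simp

theorem bt_eq : D.bt = 0 := by
  have hw := w_sq
  have hc := c_sq
  have hr := r_sq
  have h1 : ∀ a, D.Q (D.T a D.t) = (-(10 * κ a)) • D.f a := by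
    intro a
    rw [t_eq, map_smul, T_hh, D.Q_smul, D.Q_smul, D.Q_f, smul_smul]
    congr 1
    ring
  have h2 : ∀ a, D.Q (D.T a (D.Q (D.T a D.t))) = (-(10 * κ a)) • (D.T a (D.f a) + p) := by
    intro a
    rw [h1, map_smul, D.Q_smul, Q_Tf]
  have h3 : ∀ a, ⟪D.t, D.f a⟫_ℝ = 0 := by
    intro a
    rw [t_eq, inner_smul_left, inner_hh_f, mul_zero]
  unfold HomData.bt
  simp only [h2, h3, inner_f_Tf, zero_smul, Finset.sum_const_zero, sub_zero, smul_add,
    Finset.sum_add_distrib, zero_sub, sub_neg_eq_add]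
  have h4 := sum_Tf (fun i => -(10 * κ (Sum.inl i))) (-5)
  have h5 : ∑ a, (Sum.elim (fun i => -(10 * κ (Sum.inl i))) (fun _ => -5) a : ℝ) • D.T a (D.f a) =
      ∑ a, (-(10 * κ a)) • D.T a (D.f a) := by
    refine Finset.sum_congr rfl fun a _ => ?_
    rcases a with a | a
    · rfl
    · rw [Sum.elim_inr, κ, Sum.elim_inr]
      norm_num
  rw [← h5, h4, t_eq, ← Finset.sum_smul]
  have h6 : ∑ a, -(10 * κ a) = -25 := by
    rw [Fintype.sum_sum_type, Fin.sum_univ_three]
    simp [κ]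
    ring
  rw [h6, smul_smul, p, hh, ← mk_smul, ← mk_smul, ← mk_add, ← mk_add]
  have h7 : (0 : F) = mk 0 0 := by
    ext q
    rcases q with q | q <;> rfl
  rw [h7]
  congr 1
  · ext i j
    fin_cases i <;> fin_cases j <;> simp [hd, s, κ]
    · linear_combination (-5 * c / 8) * hw
    · linear_combination (5 * c / 16) * hw
    · linear_combination (5 * c / 16) * hw
  · funext j q
    fin_cases q
    · simp
      ring
    · simp

theorem hh_ne : hh ≠ 0 := by
  intro h
  have h1 : hh (Sum.inr (0, 0)) = 0 := by rw [h]; rfl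
  have h2 : hh (Sum.inr (0, 0)) = -r / 30 := rfl
  have := r_pos
  rw [h2] at h1
  linarith

theorem inner_T : ⟪D.f (Sum.inl 1), D.T (Sum.inl 2) (D.f (Sum.inl 0))⟫_ℝ ≠ 0 := by
  have hc := c_sq
  have h1 : D.T (Sum.inl 2) (D.f (Sum.inl 0)) = mk ((-s 2) • S 1) 0 := by
    rw [f_inl]
    change T (Sum.inl 2) _ = _
    rw [T_inl, mp_mk]
    congr 1
    ext i j
    rw [Matrix.smul_apply, Matrix.smul_apply, smul_eq_mul, smul_eq_mul, Matrix.add_apply,
      Matrix.mul_apply, Matrix.mul_apply]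
    simp only [Matrix.transpose_apply, Fin.sum_univ_three]
    fin_cases i <;> fin_cases j <;> simp [L, S]
  have h2 : ⟪D.f (Sum.inl 1), D.T (Sum.inl 2) (D.f (Sum.inl 0))⟫_ℝ = -s 2 := by
    rw [h1, f_inl, inner_eq, mp_mk, tp_mk, mp_mk, tp_mk]
    simp [Matrix.trace, Fin.sum_univ_three, S, Matrix.mul_apply]
    linear_combination (-s 2 / 2) * hc
  rw [h2]
  exact neg_ne_zero.2 (s_ne 2)

/-- The immersion of `ℝ^10` into the unit sphere of `F ≅ ℝ^23`. -/
theorem example_spec : IsPMCProperBiharmonic D.φ ∧ ∀ x, ¬ ParallelShapeHAt D.φ x := by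
  refine ⟨⟨D.isImmersion, fun x => ?_, fun x h => ?_, fun x X => D.nablaPerp_eq_zero hκ x X⟩,
    fun x h => D.nablaShapeH_ne_zero hκ (a := Sum.inl 0) (b := Sum.inl 2) (c := Sum.inl 1)
      ?_ inner_T x (h _ _)⟩
  · rw [D.bitension_eq, bt_eq, map_zero]
  · rw [D.tension_eq, t_eq, map_smul] at h
    have h1 : D.ρ x hh = 0 := by
      have := congrArg (fun v => (10 : ℝ)⁻¹ • v) h
      simpa using this
    exact hh_ne (D.ρ_injective x (h1.trans (map_zero _).symm))
  · have h1 := w_gt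
    change (-3 / 4 : ℝ) ≠ (w - 1) / 8
    intro h
    linarith

end Pool.Agent.R744.SphereImm.Ex
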