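import Mathlib

/-!
Immersions of `ℝ^m` into unit spheres: tension field, bitension field, normal connection and shape
operator of the mean curvature vector field, written with the flat connection of the ambient
Euclidean space and orthogonal projections.
-/

set_option autoImplicit false
set_option linter.unusedSectionVars false

namespace Pool.Agent.R744.SphereImm

open scoped ContDiff InnerProductSpace

/-- The trace `∑ b (e_i, e_i)` of a bilinear map `b` on a finite-dimensional Euclidean space `V`, for an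
orthonormal basis `(e_i)` of `V`. -/
noncomputable def orthoTrace {V W : Type} [NormedAddCommGroup V] [InnerProductSpace ℝ V]
    [FiniteDimensional ℝ V] [AddCommMonoid W] (b : V → V → W) : W :=
  ∑ i, b (stdOrthonormalBasis ℝ V i) (stdOrthonormalBasis ℝ V i)

variable {E F : Type} [NormedAddCommGroup E] [NormedSpace ℝ E] [FiniteDimensional ℝ E]
  [NormedAddCommGroup F] [InnerProductSpace ℝ F] [FiniteDimensional ℝ F]

/-- `φ` is a smooth immersion of the manifold `E` (a finite-dimensional real vector space, `≅ ℝ^m`)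
into the unit sphere of the Euclidean space `F`. The manifold `E` carries the induced metric
`g_x(X, Y) = ⟪dφ_x X, dφ_x Y⟫`. -/
structure IsImmersion (φ : E → F) : Prop where
  smooth : ContDiff ℝ ∞ φ
  norm_eq : ∀ x, ‖φ x‖ = 1
  injective : ∀ x, Function.Injective (fderiv ℝ φ x)

/-- The tangent space `dφ_x(E)` of the immersion at `x`, as a subspace of `F`. -/
noncomputable def tangentSpace (φ : E → F) (x : E) : Submodule ℝ F :=
  LinearMap.range (fderiv ℝ φ x).toLinearMap

/-- For `v ∈ F`, the vector `X ∈ E` such that `dφ_x X` is the tangential part of `v`, that is the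
orthogonal projection of `v` to the tangent space `dφ_x(E)`. -/
noncomputable def tangentialPart (φ : E → F) (x : E) (v : F) : E :=
  Function.invFun (fderiv ℝ φ x) ((tangentSpace φ x).starProjection v)

/-- The trace of a bilinear map `b` on the tangent space at `x` with respect to the induced metric:
the sum of `b (e_i, e_i)` over an orthonormal basis `(e_i)` of the tangent space `dφ_x(E)`, each
vector of `dφ_x(E)` being identified with its preimage in `E`. -/
noncomputable def trace (φ : E → F) (x : E) (b : E → E → F) : F :=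
  orthoTrace fun v w : tangentSpace φ x => b (tangentialPart φ x v) (tangentialPart φ x w)

/-- The Levi-Civita connection `∇_X Y` of the induced metric at `x`, for a tangent vector `X` and a
vector field `Y`: the tangential part of the derivative of `dφ(Y)` in the direction `X`. -/
noncomputable def leviCivita (φ : E → F) (Y : E → E) (x X : E) : E :=
  tangentialPart φ x (fderiv ℝ (fun y => fderiv ℝ φ y (Y y)) x X)

/-- The pull-back `∇^φ_X V` at `x` of the Levi-Civita connection of the unit sphere of `F`, for a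
section `V` of `φ⁻¹ T S`: the orthogonal projection of the derivative of `V` to the tangent space
`φ(x)^⊥` of the sphere. -/
noncomputable def nablaS (φ V : E → F) (x X : E) : F :=
  fderiv ℝ V x X - ⟪φ x, fderiv ℝ V x X⟫_ℝ • φ x

/-- The tension field `τ(φ) = trace ∇dφ`, where `∇dφ(X, Y) = ∇^φ_X dφ(Y) - dφ(∇_X Y)`. -/
noncomputable def tension (φ : E → F) (x : E) : F :=
  trace φ x fun X Y => nablaS φ (fun y => fderiv ℝ φ y Y) x X -
    fderiv ℝ φ x (leviCivita φ (fun _ => Y) x X)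

/-- The trace of the second covariant derivative,
`trace (∇^φ ∇^φ - ∇^φ_∇) V`, that is minus the rough Laplacian of `V`. -/
noncomputable def traceNablaSq (φ V : E → F) (x : E) : F :=
  trace φ x fun X Y => nablaS φ (fun y => nablaS φ V y Y) x X -
    nablaS φ V x (leviCivita φ (fun _ => Y) x X)

/-- The curvature tensor `R(u, v) w = ⟪v, w⟫ u - ⟪u, w⟫ v` of the unit sphere. -/
noncomputable def curvS (u v w : F) : F := ⟪v, w⟫_ℝ • u - ⟪u, w⟫_ℝ • v

/-- The bitension field `τ₂(φ) = -Δ τ(φ) - trace R(dφ, τ(φ)) dφ` of a map to the unit sphere. -/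
noncomputable def bitension (φ : E → F) (x : E) : F :=
  traceNablaSq φ (tension φ) x -
    trace φ x fun X Y => curvS (fderiv ℝ φ x X) (tension φ x) (fderiv ℝ φ x Y)

/-- The mean curvature vector field `H = τ(φ) / m`, where `m = dim E`. -/
noncomputable def meanCurv (φ : E → F) (x : E) : F := (Module.finrank ℝ E : ℝ)⁻¹ • tension φ x

/-- The derivative `∇^⊥_X V` of a normal vector field `V` at `x` with respect to the normal connection
of the immersion into the sphere: the component of `∇^φ_X V` orthogonal to the tangent space. -/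
noncomputable def nablaPerp (φ V : E → F) (x X : E) : F :=
  nablaS φ V x X - (tangentSpace φ x).starProjection (nablaS φ V x X)

/-- The shape operator `A_H X = -(∇^φ_X H)^T` in the direction of the mean curvature vector field. -/
noncomputable def shapeH (φ : E → F) (x X : E) : E :=
  -tangentialPart φ x (nablaS φ (meanCurv φ) x X)

/-- `(∇_X A_H)(Y) = ∇_X (A_H Y) - A_H (∇_X Y)` at `x` (for the constant extension of the vector
`Y ∈ E`; the value does not depend on the extension). -/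
noncomputable def nablaShapeH (φ : E → F) (x X Y : E) : E :=
  leviCivita φ (fun y => shapeH φ y Y) x X - shapeH φ x (leviCivita φ (fun _ => Y) x X)

/-- `φ` is a proper biharmonic immersion into the unit sphere with parallel mean curvature vector
field (PMC): the bitension field vanishes, the tension field does not vanish (at any point), and
`∇^⊥ H = 0`. -/
structure IsPMCProperBiharmonic (φ : E → F) : Prop where
  isImmersion : IsImmersion φ
  biharmonic : ∀ x, bitension φ x = 0
  proper : ∀ x, tension φ x ≠ 0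
  pmc : ∀ x X, nablaPerp φ (meanCurv φ) x X = 0

/-- `(∇ A_H)_x = 0`. -/
def ParallelShapeHAt (φ : E → F) (x : E) : Prop := ∀ X Y, nablaShapeH φ x X Y = 0

/-! ### Homogeneous immersions -/

/-- Data of a homogeneous immersion `x ↦ ρ x p`: the derivative of `ρ` is expressed through constant
operators `T a` and a coframe `α a` dual to the frame `fr a`. -/
structure HomData (ι : Type) [Fintype ι] [DecidableEq ι] (E F : Type) [NormedAddCommGroup E]
    [NormedSpace ℝ E] [NormedAddCommGroup F] [InnerProductSpace ℝ F] where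
  ρ : E → F →ₗ[ℝ] F
  T : ι → F →ₗ[ℝ] F
  α : ι → E → E →L[ℝ] ℝ
  fr : ι → E → E
  p : F
  inner_ρ : ∀ x v w, ⟪ρ x v, ρ x w⟫_ℝ = ⟪v, w⟫_ℝ
  hasFDerivAt_ρ : ∀ x v, HasFDerivAt (fun y => ρ y v)
    (∑ a, (α a x).smulRight (ρ x (T a v))) x
  differentiable_α : ∀ a Y, Differentiable ℝ (fun y => α a y Y)
  dual : ∀ x a b, α a x (fr b x) = if a = b then 1 else 0
  span : ∀ x Y, ∑ a, α a x Y • fr a x = Y
  inner_p : ⟪p, p⟫_ℝ = 1
  orth_p : ∀ a, ⟪p, T a p⟫_ℝ = 0
  orthonormal : ∀ a b, ⟪T a p, T b p⟫_ℝ = if a = b then 1 else 0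
  smooth : ContDiff ℝ ∞ (fun y => ρ y p)

namespace HomData

variable {ι : Type} [Fintype ι] [DecidableEq ι] (D : HomData ι E F)

/-- the immersion -/
def φ (x : E) : F := D.ρ x D.p

/-- the tangent vectors at the base point -/
def f (a : ι) : F := D.T a D.p

/-- orthogonal projection to the span of the `f a` -/
noncomputable def P (v : F) : F := ∑ a, ⟪D.f a, v⟫_ℝ • D.f a

/-- orthogonal projection to the complement of `p` -/
noncomputable def Q (v : F) : F := v - ⟪D.p, v⟫_ℝ • D.p

theorem inner_f (a b : ι) : ⟪D.f a, D.f b⟫_ℝ = if a = b then 1 else 0 := D.orthonormal a b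

theorem fderiv_ρ (x : E) (v : F) (Y : E) :
    fderiv ℝ (fun y => D.ρ y v) x Y = D.ρ x (∑ a, D.α a x Y • D.T a v) := by
  rw [(D.hasFDerivAt_ρ x v).fderiv, map_sum]
  simp

theorem fderiv_φ (x Y : E) : fderiv ℝ D.φ x Y = D.ρ x (∑ a, D.α a x Y • D.f a) :=
  D.fderiv_ρ x D.p Y

theorem ρ_injective (x : E) {v w : F} (h : D.ρ x v = D.ρ x w) : v = w := by
  have h1 : ⟪v - w, v - w⟫_ℝ = 0 := by
    rw [← D.inner_ρ x, map_sub, h, sub_self, inner_zero_left]
  exact sub_eq_zero.1 (inner_self_eq_zero.1 h1)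

theorem inner_f_sum (c : ι → ℝ) (a : ι) : ⟪D.f a, ∑ b, c b • D.f b⟫_ℝ = c a := by
  rw [inner_sum]
  simp only [inner_smul_right, inner_f]
  simp

theorem fr_injective (x : E) : Function.Injective (fderiv ℝ D.φ x) := by
  intro Y Z h
  rw [D.fderiv_φ, D.fderiv_φ] at h
  have h1 := D.ρ_injective x h
  have h2 : ∀ a, D.α a x Y = D.α a x Z := by
    intro a
    have := congrArg (fun v => ⟪D.f a, v⟫_ℝ) h1
    simpa only [inner_f_sum] using this
  rw [← D.span x Y, ← D.span x Z]
  exact Finset.sum_congr rfl fun a _ => by rw [h2 a]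

theorem isImmersion : IsImmersion D.φ := by
  refine ⟨D.smooth, ?_, D.fr_injective⟩
  intro x
  have h1 : ⟪D.φ x, D.φ x⟫_ℝ = 1 := by
    unfold φ
    rw [D.inner_ρ, D.inner_p]
  rw [real_inner_self_eq_norm_sq] at h1
  nlinarith [norm_nonneg (D.φ x)]

theorem fderiv_φ_fr (x : E) (a : ι) : fderiv ℝ D.φ x (D.fr a x) = D.ρ x (D.f a) := by
  rw [fderiv_φ]
  congr 1
  simp [D.dual]

theorem starProjection_ρ (x : E) (v : F) :
    (tangentSpace D.φ x).starProjection (D.ρ x v) = D.ρ x (D.P v) := by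
  apply Submodule.eq_starProjection_of_mem_of_inner_eq_zero
  · refine ⟨∑ a, ⟪D.f a, v⟫_ℝ • D.fr a x, ?_⟩
    change fderiv ℝ D.φ x _ = _
    rw [map_sum, P, map_sum]
    exact Finset.sum_congr rfl fun a _ => by rw [map_smul, map_smul, D.fderiv_φ_fr]
  · rintro w ⟨Y, rfl⟩
    change ⟪_, fderiv ℝ D.φ x Y⟫_ℝ = 0
    rw [D.fderiv_φ, ← map_sub, D.inner_ρ, inner_sub_left, P]
    rw [real_inner_comm, real_inner_comm _ (∑ a, ⟪D.f a, v⟫_ℝ • D.f a), sum_inner, sum_inner]
    simp only [inner_smul_left, inner_f_sum, RCLike.conj_to_real]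
    simp

theorem tangentialPart_ρ (x : E) (v : F) :
    tangentialPart D.φ x (D.ρ x v) = ∑ a, ⟪D.f a, v⟫_ℝ • D.fr a x := by
  unfold tangentialPart
  rw [D.starProjection_ρ]
  have h : D.ρ x (D.P v) = fderiv ℝ D.φ x (∑ a, ⟪D.f a, v⟫_ℝ • D.fr a x) := by
    rw [map_sum, P, map_sum]
    exact Finset.sum_congr rfl fun a _ => by rw [map_smul, map_smul, D.fderiv_φ_fr]
  rw [h]
  exact Function.leftInverse_invFun (D.fr_injective x) _

theorem α_tangentialPart (x : E) (v : F) (a : ι) :
    D.α a x (tangentialPart D.φ x (D.ρ x v)) = ⟪D.f a, v⟫_ℝ := by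
  rw [D.tangentialPart_ρ, map_sum]
  simp [D.dual]

/-- the derivative of a combination of fields with coefficients `α a y Y` -/
theorem fderiv_comb (x Y X : E) (w : ι → F) :
    fderiv ℝ (fun y => D.ρ y (∑ a, D.α a y Y • w a)) x X =
      D.ρ x (∑ a, fderiv ℝ (fun y => D.α a y Y) x X • w a +
        ∑ a, ∑ b, (D.α a x Y * D.α b x X) • D.T b (w a)) := by
  have e : (fun y => D.ρ y (∑ a, D.α a y Y • w a)) =
      fun y => ∑ a, D.α a y Y • D.ρ y (w a) := by
    funext y
    rw [map_sum]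
    exact Finset.sum_congr rfl fun a _ => map_smul _ _ _
  rw [e]
  have h : HasFDerivAt (fun y => ∑ a, D.α a y Y • D.ρ y (w a))
      (∑ a, (D.α a x Y • (∑ b, (D.α b x).smulRight (D.ρ x (D.T b (w a)))) +
        (fderiv ℝ (fun y => D.α a y Y) x).smulRight (D.ρ x (w a)))) x :=
    HasFDerivAt.fun_sum fun a _ =>
      ((D.differentiable_α a Y x).hasFDerivAt.smul (D.hasFDerivAt_ρ x (w a)))
  rw [h.fderiv, map_add, map_sum, map_sum]
  simp only [sum_apply, add_apply,
    smul_apply, ContinuousLinearMap.smulRight_apply, map_sum, map_smul,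
    Finset.sum_add_distrib, Finset.smul_sum, smul_smul]
  rw [add_comm]

/-- Parseval in the tangent space. -/
theorem parseval (x : E) (a b : ι) :
    ∑ i, D.α a x (tangentialPart D.φ x (stdOrthonormalBasis ℝ (tangentSpace D.φ x) i)) *
      D.α b x (tangentialPart D.φ x (stdOrthonormalBasis ℝ (tangentSpace D.φ x) i)) =
      if a = b then 1 else 0 := by
  set e := stdOrthonormalBasis ℝ (tangentSpace D.φ x) with he
  have hmem : ∀ c : ι, D.ρ x (D.f c) ∈ tangentSpace D.φ x := fun c =>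
    ⟨D.fr c x, D.fderiv_φ_fr x c⟩
  have key : ∀ (c : ι) (i), D.α c x (tangentialPart D.φ x (e i : F)) =
      ⟪D.ρ x (D.f c), (e i : F)⟫_ℝ := by
    intro c i
    obtain ⟨Y, hY⟩ := (e i).2
    have h1 : (e i : F) = D.ρ x (∑ a, D.α a x Y • D.f a) := by
      rw [← D.fderiv_φ]
      exact hY.symm
    rw [h1, D.α_tangentialPart, D.inner_ρ]
  simp only [key]
  have h2 := e.sum_inner_mul_inner (⟨D.ρ x (D.f a), hmem a⟩ : tangentSpace D.φ x)
    (⟨D.ρ x (D.f b), hmem b⟩ : tangentSpace D.φ x)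
  simp only [Submodule.coe_inner] at h2
  rw [D.inner_ρ, D.inner_f] at h2
  rw [← h2]
  refine Finset.sum_congr rfl fun i _ => ?_
  rw [real_inner_comm (D.ρ x (D.f b))]

theorem trace_ρ (x : E) (c : ι → ι → F) :
    trace D.φ x (fun X Y => D.ρ x (∑ a, ∑ b, (D.α a x Y * D.α b x X) • c a b)) =
      D.ρ x (∑ a, c a a) := by
  unfold trace orthoTrace
  rw [← map_sum]
  congr 1
  rw [Finset.sum_comm]
  refine Finset.sum_congr rfl fun a _ => ?_
  rw [Finset.sum_comm]
  simp only [← Finset.sum_smul]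
  simp only [D.parseval]
  simp

theorem nablaS_ρ (V : E → F) (x X : E) (v : F) (h : fderiv ℝ V x X = D.ρ x v) :
    nablaS D.φ V x X = D.ρ x (D.Q v) := by
  unfold nablaS Q
  rw [h, map_sub, map_smul]
  unfold φ
  rw [D.inner_ρ]

theorem Q_add (v w : F) : D.Q (v + w) = D.Q v + D.Q w := by
  simp only [Q, inner_add_right, add_smul]; abel

theorem Q_smul (c : ℝ) (v : F) : D.Q (c • v) = c • D.Q v := by
  simp only [Q, inner_smul_right, smul_sub, smul_smul]

theorem Q_sum {κ : Type} (s : Finset κ) (v : κ → F) : D.Q (∑ i ∈ s, v i) = ∑ i ∈ s, D.Q (v i) := by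
  classical
  induction s using Finset.induction_on with
  | empty => simp [Q]
  | insert a s ha ih => rw [Finset.sum_insert ha, Finset.sum_insert ha, Q_add, ih]

theorem P_add (v w : F) : D.P (v + w) = D.P v + D.P w := by
  simp only [P, inner_add_right, add_smul, Finset.sum_add_distrib]

theorem P_smul (c : ℝ) (v : F) : D.P (c • v) = c • D.P v := by
  simp only [P, inner_smul_right, Finset.smul_sum, smul_smul]

theorem P_sum {κ : Type} (s : Finset κ) (v : κ → F) : D.P (∑ i ∈ s, v i) = ∑ i ∈ s, D.P (v i) := by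
  classical
  induction s using Finset.induction_on with
  | empty => simp [P]
  | insert a s ha ih => rw [Finset.sum_insert ha, Finset.sum_insert ha, P_add, ih]

theorem Q_f (a : ι) : D.Q (D.f a) = D.f a := by
  unfold Q f
  rw [D.orth_p, zero_smul, sub_zero]

theorem P_f (a : ι) : D.P (D.f a) = D.f a := by
  unfold P
  simp only [D.inner_f]
  simp

theorem Q_Q (v : F) : D.Q (D.Q v) = D.Q v := by
  unfold Q
  rw [inner_sub_right, inner_smul_right, D.inner_p]
  simp

/-- derivative of `dφ(Y)` -/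
theorem fderiv_fderiv_φ (x Y X : E) : fderiv ℝ (fun y => fderiv ℝ D.φ y Y) x X =
      D.ρ x (∑ a, fderiv ℝ (fun y => D.α a y Y) x X • D.f a +
        ∑ a, ∑ b, (D.α a x Y * D.α b x X) • D.T b (D.f a)) := by
  have e : (fun y => fderiv ℝ D.φ y Y) = fun y => D.ρ y (∑ a, D.α a y Y • D.f a) :=
    funext fun y => D.fderiv_φ y Y
  rw [e]
  exact D.fderiv_comb x Y X D.f

/-- coefficients of the Levi-Civita connection for a constant vector field -/
theorem leviCivita_const (x Y X : E) : leviCivita D.φ (fun _ => Y) x X =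
    ∑ c, (fderiv ℝ (fun y => D.α c y Y) x X +
      ∑ a, ∑ b, (D.α a x Y * D.α b x X) * ⟪D.f c, D.T b (D.f a)⟫_ℝ) • D.fr c x := by
  unfold leviCivita
  rw [D.fderiv_fderiv_φ, D.tangentialPart_ρ]
  refine Finset.sum_congr rfl fun c _ => ?_
  rw [inner_add_right, D.inner_f_sum, inner_sum]
  simp only [inner_sum, inner_smul_right]

/-- `∇^φ_· V` for a field `V = ρ v`, and its derivatives, in a general form: the second covariant
derivative of `V` when `∇^φ_Y V = ρ (∑ α_a(Y) w_a)`. -/
theorem second (V : E → F) (w : ι → F) (hw : ∀ a, D.Q (w a) = w a)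
    (hV : ∀ x Y, nablaS D.φ V x Y = D.ρ x (∑ a, D.α a x Y • w a)) (x X Y : E) :
    nablaS D.φ (fun y => nablaS D.φ V y Y) x X - nablaS D.φ V x (leviCivita D.φ (fun _ => Y) x X) =
    D.ρ x (∑ a, ∑ b, (D.α a x Y * D.α b x X) •
      (D.Q (D.T b (w a)) - ∑ c, ⟪D.f c, D.T b (D.f a)⟫_ℝ • w c)) := by
  have e : (fun y => nablaS D.φ V y Y) = fun y => D.ρ y (∑ a, D.α a y Y • w a) :=
    funext fun y => hV y Y
  rw [e, D.nablaS_ρ _ x X _ (D.fderiv_comb x Y X w), hV, D.leviCivita_const, ← map_sub]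
  congr 1
  have h1 : ∀ c, D.α c x (∑ c, (fderiv ℝ (fun y => D.α c y Y) x X +
      ∑ a, ∑ b, (D.α a x Y * D.α b x X) * ⟪D.f c, D.T b (D.f a)⟫_ℝ) • D.fr c x) =
      (fderiv ℝ (fun y => D.α c y Y) x X +
      ∑ a, ∑ b, (D.α a x Y * D.α b x X) * ⟪D.f c, D.T b (D.f a)⟫_ℝ) := by
    intro c
    rw [map_sum]
    simp [D.dual]
  simp only [h1]
  rw [D.Q_add, D.Q_sum, D.Q_sum]
  simp only [D.Q_sum, D.Q_smul, hw, add_smul, Finset.sum_add_distrib]
  rw [add_sub_add_left_eq_sub]
  simp only [smul_sub, Finset.sum_sub_distrib, Finset.smul_sum, Finset.sum_smul, smul_smul]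
  congr 1
  rw [Finset.sum_comm]
  refine Finset.sum_congr rfl fun a _ => ?_
  rw [Finset.sum_comm]

/-- The tension field at the base point. -/
noncomputable def t : F := ∑ a, (D.Q (D.T a (D.f a)) - D.P (D.T a (D.f a)))

theorem tension_eq (x : E) : tension D.φ x = D.ρ x D.t := by
  unfold tension t
  rw [← D.trace_ρ x (fun a b => D.Q (D.T b (D.f a)) - D.P (D.T b (D.f a)))]
  congr 1
  funext X Y
  rw [D.nablaS_ρ _ x X _ (D.fderiv_fderiv_φ x Y X), D.leviCivita_const, D.fderiv_φ, ← map_sub]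
  congr 1
  have h1 : ∀ c, D.α c x (∑ c, (fderiv ℝ (fun y => D.α c y Y) x X +
      ∑ a, ∑ b, (D.α a x Y * D.α b x X) * ⟪D.f c, D.T b (D.f a)⟫_ℝ) • D.fr c x) =
      (fderiv ℝ (fun y => D.α c y Y) x X +
      ∑ a, ∑ b, (D.α a x Y * D.α b x X) * ⟪D.f c, D.T b (D.f a)⟫_ℝ) := by
    intro c
    rw [map_sum]
    simp [D.dual]
  simp only [h1]
  rw [D.Q_add, D.Q_sum, D.Q_sum]
  simp only [D.Q_sum, D.Q_smul, D.Q_f, add_smul, Finset.sum_add_distrib]
  rw [add_sub_add_left_eq_sub]
  simp only [P, smul_sub, Finset.sum_sub_distrib, Finset.smul_sum, Finset.sum_smul, smul_smul]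
  congr 1
  rw [Finset.sum_comm]
  refine Finset.sum_congr rfl fun a _ => ?_
  rw [Finset.sum_comm]

theorem tension_fun : tension D.φ = fun x => D.ρ x D.t := funext D.tension_eq

theorem nablaS_const (x X : E) (v : F) :
    nablaS D.φ (fun y => D.ρ y v) x X = D.ρ x (∑ a, D.α a x X • D.Q (D.T a v)) := by
  rw [D.nablaS_ρ _ x X _ (D.fderiv_ρ x v X), D.Q_sum]
  simp only [D.Q_smul]

/-- The bitension field at the base point. -/
noncomputable def bt : F :=
  ∑ a, (D.Q (D.T a (D.Q (D.T a D.t))) - ∑ c, ⟪D.f c, D.T a (D.f a)⟫_ℝ • D.Q (D.T c D.t)) -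
    (∑ a, ⟪D.t, D.f a⟫_ℝ • D.f a - (Fintype.card ι : ℝ) • D.t)

theorem bitension_eq (x : E) : bitension D.φ x = D.ρ x D.bt := by
  unfold bitension bt
  rw [map_sub]
  congr 1
  · unfold traceNablaSq
    rw [← D.trace_ρ x (fun a b => D.Q (D.T b (D.Q (D.T a D.t))) -
      ∑ c, ⟪D.f c, D.T b (D.f a)⟫_ℝ • D.Q (D.T c D.t))]
    congr 1
    funext X Y
    rw [D.tension_fun]
    exact D.second (fun y => D.ρ y D.t) (fun a => D.Q (D.T a D.t)) (fun a => D.Q_Q _)
      (fun x Y => D.nablaS_const x Y D.t) x X Y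
  · have h : ∑ a, ⟪D.t, D.f a⟫_ℝ • D.f a - (Fintype.card ι : ℝ) • D.t =
        ∑ a, (⟪D.t, D.f a⟫_ℝ • D.f a - ⟪D.f a, D.f a⟫_ℝ • D.t) := by
      rw [Finset.sum_sub_distrib]
      congr 1
      have h1 : ∀ a, ⟪D.f a, D.f a⟫_ℝ = 1 := fun a => by rw [D.inner_f]; simp
      simp only [h1, one_smul, Finset.sum_const, Finset.card_univ]
      rw [← Nat.cast_smul_eq_nsmul ℝ]
    rw [h, ← D.trace_ρ x (fun a b => ⟪D.t, D.f a⟫_ℝ • D.f b - ⟪D.f b, D.f a⟫_ℝ • D.t)]
    congr 1
    funext X Y
    unfold curvS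
    rw [D.tension_eq, D.fderiv_φ, D.fderiv_φ, D.inner_ρ, D.inner_ρ, ← map_smul, ← map_smul,
      ← map_sub]
    congr 1
    simp only [inner_sum, sum_inner, inner_smul_right, inner_smul_left, RCLike.conj_to_real,
      Finset.sum_smul, Finset.smul_sum, smul_sub, smul_smul, Finset.sum_sub_distrib]
    congr 1
    · rw [Finset.sum_comm]
      refine Finset.sum_congr rfl fun a _ => ?_
      rw [Finset.sum_mul, Finset.sum_smul]
      refine Finset.sum_congr rfl fun b _ => ?_
      congr 1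
      ring
    · refine Finset.sum_congr rfl fun a _ => ?_
      rw [Finset.mul_sum, Finset.sum_smul]
      refine Finset.sum_congr rfl fun b _ => ?_
      congr 1
      ring

/-- The mean curvature vector at the base point. -/
noncomputable def h : F := (Module.finrank ℝ E : ℝ)⁻¹ • D.t

theorem meanCurv_fun : meanCurv D.φ = fun x => D.ρ x D.h := by
  funext x
  rw [meanCurv, D.tension_eq, h, map_smul]

theorem nablaS_meanCurv {κ : ι → ℝ} (hκ : ∀ a, D.Q (D.T a D.h) = -(κ a) • D.f a) (x X : E) :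
    nablaS D.φ (meanCurv D.φ) x X = D.ρ x (∑ a, D.α a x X • (-(κ a) • D.f a)) := by
  rw [D.meanCurv_fun, D.nablaS_const]
  simp only [hκ]

theorem nablaPerp_eq_zero {κ : ι → ℝ} (hκ : ∀ a, D.Q (D.T a D.h) = -(κ a) • D.f a) (x X : E) :
    nablaPerp D.φ (meanCurv D.φ) x X = 0 := by
  unfold nablaPerp
  rw [D.nablaS_meanCurv hκ, D.starProjection_ρ, ← map_sub, D.P_sum]
  simp only [D.P_smul, D.P_f, sub_self, map_zero]

theorem shapeH_eq {κ : ι → ℝ} (hκ : ∀ a, D.Q (D.T a D.h) = -(κ a) • D.f a) (x X : E) :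
    shapeH D.φ x X = ∑ a, (κ a * D.α a x X) • D.fr a x := by
  unfold shapeH
  rw [D.nablaS_meanCurv hκ, D.tangentialPart_ρ, ← Finset.sum_neg_distrib]
  refine Finset.sum_congr rfl fun a _ => ?_
  have h1 : ∑ b, D.α b x X • (-(κ b) • D.f b) = ∑ b, (-(D.α b x X * κ b)) • D.f b :=
    Finset.sum_congr rfl fun b _ => by rw [smul_smul]; congr 1; ring
  rw [h1, D.inner_f_sum, ← neg_smul]
  congr 1
  ring

theorem nablaShapeH_eq {κ : ι → ℝ} (hκ : ∀ a, D.Q (D.T a D.h) = -(κ a) • D.f a) (x X Y : E) :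
    nablaShapeH D.φ x X Y = ∑ c, (∑ a, ∑ b, (D.α a x Y * D.α b x X) *
      ((κ a - κ c) * ⟪D.f c, D.T b (D.f a)⟫_ℝ)) • D.fr c x := by
  unfold nablaShapeH
  have e : (fun y => fderiv ℝ D.φ y (shapeH D.φ y Y)) =
      fun y => D.ρ y (∑ a, D.α a y Y • (κ a • D.f a)) := by
    funext y
    rw [D.shapeH_eq hκ, map_sum, map_sum]
    refine Finset.sum_congr rfl fun a _ => ?_
    rw [map_smul, D.fderiv_φ_fr, smul_smul, map_smul, mul_comm]
  have h1 : leviCivita D.φ (fun y => shapeH D.φ y Y) x X =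
      ∑ c, (fderiv ℝ (fun y => D.α c y Y) x X * κ c +
        ∑ a, ∑ b, (D.α a x Y * D.α b x X) * (κ a * ⟪D.f c, D.T b (D.f a)⟫_ℝ)) • D.fr c x := by
    unfold leviCivita
    rw [e, D.fderiv_comb x Y X, D.tangentialPart_ρ]
    refine Finset.sum_congr rfl fun c _ => ?_
    have h2 : ∑ a, fderiv ℝ (fun y => D.α a y Y) x X • (κ a • D.f a) =
        ∑ a, (fderiv ℝ (fun y => D.α a y Y) x X * κ a) • D.f a :=
      Finset.sum_congr rfl fun a _ => smul_smul _ _ _
    rw [inner_add_right, h2, D.inner_f_sum, inner_sum]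
    simp only [inner_sum, inner_smul_right, map_smul]
  rw [h1, D.shapeH_eq hκ, D.leviCivita_const, ← Finset.sum_sub_distrib]
  refine Finset.sum_congr rfl fun c _ => ?_
  rw [← sub_smul]
  congr 1
  have h3 : D.α c x (∑ c, (fderiv ℝ (fun y => D.α c y Y) x X +
      ∑ a, ∑ b, (D.α a x Y * D.α b x X) * ⟪D.f c, D.T b (D.f a)⟫_ℝ) • D.fr c x) =
      (fderiv ℝ (fun y => D.α c y Y) x X +
      ∑ a, ∑ b, (D.α a x Y * D.α b x X) * ⟪D.f c, D.T b (D.f a)⟫_ℝ) := by
    rw [map_sum]
    simp [D.dual]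
  rw [h3, mul_add, Finset.mul_sum]
  simp only [Finset.mul_sum]
  rw [mul_comm (κ c), add_sub_add_left_eq_sub, ← Finset.sum_sub_distrib]
  refine Finset.sum_congr rfl fun a _ => ?_
  rw [← Finset.sum_sub_distrib]
  refine Finset.sum_congr rfl fun b _ => ?_
  ring

theorem nablaShapeH_ne_zero {κ : ι → ℝ} (hκ : ∀ a, D.Q (D.T a D.h) = -(κ a) • D.f a)
    {a b c : ι} (h1 : κ a ≠ κ c) (h2 : ⟪D.f c, D.T b (D.f a)⟫_ℝ ≠ 0) (x : E) :
    nablaShapeH D.φ x (D.fr b x) (D.fr a x) ≠ 0 := by
  rw [D.nablaShapeH_eq hκ]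
  intro h
  have h3 := congrArg (D.α c x) h
  rw [map_sum, map_zero] at h3
  simp only [D.dual, map_smul, smul_eq_mul, mul_ite, mul_one, mul_zero, ite_mul, one_mul,
    zero_mul, Finset.sum_ite_eq', Finset.mem_univ, if_true, Finset.sum_ite_eq] at h3
  rcases mul_eq_zero.1 h3 with h4 | h4
  · exact h1 (sub_eq_zero.1 h4)
  · exact h2 h4

end HomData

end Pool.Agent.R744.SphereImm
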