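import Pool.Agent.R506.TDFG
import Pool.Agent.R497.TB.Defs

/-!
Project TB (helper497, MP_f720ae_an), piece BFG by helper744: one factor of lower degree is a good weight (boxes).
-/

set_option autoImplicit false

namespace Pool.Agent.R744.TB

open MeasureTheory Filter Finset
open Pool.Agent.R497.TD (S_APX)
open Pool.Agent.R497.TB
open Pool.Agent.R506.TDFG (exists_version poly_bd)
open Pool.Agent.Y957.MC (IsFlow flowInv smo box bavg)

universe u

/-- separable polynomials of degree `< d` are `O((max m) ^ (d - 1))` -/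
lemma sep_bd {k : ℕ} (p : Fin k → Polynomial ℝ) (d : ℕ) (hd : ∀ i, (p i).natDegree < d) :
    ∃ C : ℝ, 0 ≤ C ∧ ∀ m : Fin k → ℕ, (∀ l, 1 ≤ m l) →
      |sep p m| ≤ C * ((Finset.univ.sup m : ℕ) : ℝ) ^ (d - 1) := by
  choose C hC0 hC using fun i => poly_bd (p i) d (hd i)
  refine ⟨∑ i, C i, sum_nonneg fun i _ => hC0 i, fun m hm => ?_⟩
  unfold sep
  rw [sum_mul]
  refine (abs_sum_le_sum_abs _ _).trans (sum_le_sum fun i _ => (hC i (m i) (hm i)).trans ?_)
  refine mul_le_mul_of_nonneg_left (pow_le_pow_left₀ (Nat.cast_nonneg _) ?_ _) (hC0 i)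
  exact_mod_cast Finset.le_sup (f := m) (mem_univ i)

lemma ravg_mono {k : ℕ} (M : Fin k → ℕ) (h h' : (Fin k → ℕ) → ℝ) (hh : ∀ m, h m ≤ h' m) : ravg M h ≤ ravg M h' := by
  unfold ravg
  exact mul_le_mul_of_nonneg_left (sum_le_sum fun m _ => hh m) (by positivity)

lemma ravg_mul {k : ℕ} (M : Fin k → ℕ) (h : (Fin k → ℕ) → ℝ) (c : ℝ) :
    ravg M (fun m => c * h m) = c * ravg M h := by
  unfold ravg
  rw [← mul_sum]
  ring

theorem t_BFG (hC : S_BCTRL.{u}) (hA : S_APX.{u}) : S_BFG.{u} := by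
  intro X _ μ _ τ f k d d' p hk hτ hf hfb hp hdd
  obtain ⟨g, hgm, ⟨Cg, hCg⟩, hfg⟩ := exists_version hf hfb
  obtain ⟨fk, hfkm, ⟨Ck, hCk⟩, hLip, hap⟩ := hA X μ τ g hτ hgm ⟨Cg, hCg⟩
  obtain ⟨CP, hCP0, hCP⟩ := sep_bd p d (fun i => by rw [hp.2 i]; exact hdd)
  obtain ⟨C, hC'⟩ := hfb
  refine ⟨⟨C, fun m => ae_of_all _ fun a => (hτ.mp _).quasiMeasurePreserving.ae hC'⟩,
    fun j m a x => fk j (τ (a * sep p m) x), fun j => ?_, ?_⟩
  · obtain ⟨L, hL⟩ := hLip j
    refine ⟨fun m => (hfkm j).comp (hτ.meas.comp ((measurable_fst.mul_const _).prodMk measurable_snd)),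
      max Ck (|L| * CP), fun m a x => (hCk j _).trans (le_max_left _ _), fun m hm a a' x => ?_⟩
    calc ‖fk j (τ (a * sep p m) x) - fk j (τ (a' * sep p m) x)‖
        ≤ L * |a * sep p m - a' * sep p m| := hL _ _ _
      _ ≤ |L| * |a * sep p m - a' * sep p m| :=
          mul_le_mul_of_nonneg_right (le_abs_self L) (abs_nonneg _)
      _ = |L| * |sep p m| * |a - a'| := by rw [← sub_mul, abs_mul]; ring
      _ ≤ |L| * (CP * ((Finset.univ.sup m : ℕ) : ℝ) ^ (d - 1)) * |a - a'| :=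
          mul_le_mul_of_nonneg_right (mul_le_mul_of_nonneg_left (hCP m hm) (abs_nonneg _)) (abs_nonneg _)
      _ = (|L| * CP) * ((Finset.univ.sup m : ℕ) : ℝ) ^ (d - 1) * |a - a'| := by ring
      _ ≤ max Ck (|L| * CP) * ((Finset.univ.sup m : ℕ) : ℝ) ^ (d - 1) * |a - a'| :=
          mul_le_mul_of_nonneg_right (mul_le_mul_of_nonneg_right (le_max_right _ _) (by positivity)) (abs_nonneg _)
  · obtain ⟨K, hK0, hK⟩ := hC k d' p hk hp
    set D : ℝ := |Cg| + |Ck| + 1 with hD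
    have hD0 : 0 < D := by positivity
    have hb : ∀ j x, ‖g x - fk j x‖ ≤ D := fun j x => by
      have h1 := norm_sub_le (g x) (fk j x)
      have h2 := (hCg x).trans (le_abs_self _)
      have h3 := (hCk j x).trans (le_abs_self _)
      linarith
    have h3 : ∀ᵐ a : ℝ, ∀ j, ∀ᵐ x ∂μ, ∀ ε : ℝ, 0 < ε → ∀ᶠ M in atTop,
        ravg M (fun m => D⁻¹ * ‖g (τ (a * sep p m) x) - fk j (τ (a * sep p m) x)‖) ≤
          ε + K ε * (μ[fun y => D⁻¹ * ‖g y - fk j y‖ | flowInv τ]) x := by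
      rw [ae_all_iff]
      intro j
      refine hK X μ τ (fun y => D⁻¹ * ‖g y - fk j y‖) hτ ((hgm.sub (hfkm j)).norm.const_mul _) fun x => ⟨by positivity, ?_⟩
      rw [inv_mul_le_iff₀ hD0, mul_one]
      exact hb j x
    have h6 : ∀ᵐ x ∂μ, ∀ j, (μ[fun y => D⁻¹ * ‖g y - fk j y‖ | flowInv τ]) x =
        D⁻¹ * (μ[fun y => ‖g y - fk j y‖ | flowInv τ]) x := by
      rw [ae_all_iff]
      intro j
      have h := condExp_smul (μ := μ) (D⁻¹ : ℝ) (fun y => ‖g y - fk j y‖) (flowInv τ)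
      filter_upwards [h] with x hx
      have e1 : (D⁻¹ • fun y => ‖g y - fk j y‖) = fun y => D⁻¹ * ‖g y - fk j y‖ := rfl
      rw [e1] at hx
      rw [hx, Pi.smul_apply, smul_eq_mul]
    filter_upwards [h3] with a ha
    have h4 := ae_all_iff.2 ha
    have h5 : ∀ᵐ x ∂μ, ∀ m : Fin k → ℕ, f (τ (a * sep p m) x) = g (τ (a * sep p m) x) := by
      rw [ae_all_iff]
      intro m
      exact (hτ.mp _).quasiMeasurePreserving.ae hfg
    filter_upwards [h4, h5, hap, h6] with x hx hx5 hxa hx6 ε hε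
    set δ : ℝ := ε / (2 * D) with hδ
    have hδ0 : 0 < δ := by positivity
    obtain ⟨j, hj⟩ := hxa (δ * D / K δ) (by have := hK0 δ; positivity)
    refine ⟨j, ?_⟩
    filter_upwards [hx j δ hδ0] with M hM
    rw [ravg_mul, hx6 j] at hM
    have h7 : K δ * (D⁻¹ * (μ[fun y => ‖g y - fk j y‖ | flowInv τ]) x) ≤ δ := by
      have h8 := mul_le_mul_of_nonneg_left hj.le (mul_nonneg (hK0 δ).le (inv_nonneg.2 hD0.le))
      calc K δ * (D⁻¹ * (μ[fun y => ‖g y - fk j y‖ | flowInv τ]) x)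
          = K δ * D⁻¹ * (μ[fun y => ‖g y - fk j y‖ | flowInv τ]) x := by ring
        _ ≤ K δ * D⁻¹ * (δ * D / K δ) := h8
        _ = δ := by
          have := (hK0 δ).ne'
          have := hD0.ne'
          field_simp
    have h9 : D⁻¹ * ravg M (fun m => ‖g (τ (a * sep p m) x) - fk j (τ (a * sep p m) x)‖) ≤ 2 * δ := by linarith
    rw [inv_mul_le_iff₀ hD0] at h9
    simp only [hx5]
    refine h9.trans (le_of_eq ?_)
    rw [hδ]
    have := hD0.ne'
    field_simp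

end Pool.Agent.R744.TB
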